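import Pool.Agent.GeoZ5.Defs

/-!
Kernel-friendly checkers for the certificates.
-/

namespace Pool.Agent.GeoZ5

/-- A row of the table: blocks `(b :: payload) :: entries`, entries `c :: payload`. -/
abbrev Row := List (List (List ℕ))
/-- The table of edges and triangles; the row number is the smallest vertex. -/
abbrev Table := List Row

/-! ### Look-ups in continuation style -/

/-- Pass the `n`-th element to the continuation. -/
def nthK {α : Type} (k : α → Bool) : List α → ℕ → Bool
  | [], _ => false
  | a :: l, n => match n with
    | 0 => k a
    | n + 1 => nthK k l n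

/-- Pass the payload of the first entry with given key to the continuation. -/
def findK (key : ℕ) (k : List ℕ → Bool) : List (List ℕ) → Bool
  | [] => false
  | e :: l => match e with
    | [] => false
    | h :: t => match Nat.beq h key with
      | true => k t
      | false => findK key k l

/-- Pass payload and entries of the first block with given key to the continuation. -/
def findBK (key : ℕ) (k : List ℕ → List (List ℕ) → Bool) : Row → Bool
  | [] => false
  | blk :: l => match blk with
    | [] => false
    | hd :: ents => match hd with
      | [] => false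
      | h :: p => match Nat.beq h key with
        | true => k p ents
        | false => findBK key k l

/-- Edge look-up, `a < b`. -/
def edgeK (TT : Table) (a b : ℕ) (k : List ℕ → Bool) : Bool :=
  nthK (findBK b fun p _ => k p) TT a

/-- Triangle look-up, `a < b < c`. -/
def triK (TT : Table) (a b c : ℕ) (k : List ℕ → Bool) : Bool :=
  nthK (findBK b fun _ ents => findK c k ents) TT a

/-- Triangle look-up for `a < b` and arbitrary `z`. -/
def triZK (TT : Table) (a b z : ℕ) (k : List ℕ → Bool) : Bool :=
  match Nat.blt z a with
  | true => triK TT z a b k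
  | false => match Nat.blt z b with
    | true => triK TT a z b k
    | false => triK TT a b z k

/-! ### Words -/

/-- The inverse letter: `2 i` stands for the `i`-th generator, `2 i + 1` for its inverse. -/
def flipl (x : ℕ) : ℕ := Nat.xor x 1

/-- The inverse word. -/
def invw : List ℕ → List ℕ → List ℕ
  | [], acc => acc
  | x :: l, acc => invw l (flipl x :: acc)

/-- Free reduction with a stack. -/
def redw : List ℕ → List ℕ → List ℕ
  | [], acc => acc
  | x :: l, acc => match acc with
    | [] => redw l [x]
    | y :: acc' => match Nat.beq y (flipl x) with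
      | true => redw l acc'
      | false => redw l (x :: y :: acc')

/-- Equality of lists of numbers. -/
def leq : List ℕ → List ℕ → Bool
  | [], [] => true
  | x :: l, y :: m => match Nat.beq x y with
    | true => leq l m
    | false => false
  | _, _ => false

/-- Oriented edge look-up giving key and word. -/
def wordK (TT : Table) (a b : ℕ) (k : ℕ → List ℕ → Bool) : Bool :=
  match Nat.blt a b with
  | true => edgeK TT a b fun p => match p with
    | key :: _ :: w => k key w
    | _ => false
  | false => edgeK TT b a fun p => match p with
    | key :: _ :: w => k key (invw w [])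
    | _ => false

/-! ### Packed values -/

/-- The base used to pack values. -/
def BB : ℕ := 65536

/-- Positive part of the packed exponents of a word. -/
def xP : List ℕ → ℕ
  | [] => 0
  | x :: l => Nat.add (Nat.mul (Nat.sub 1 (Nat.mod x 2)) (Nat.pow BB (Nat.div x 2))) (xP l)

/-- Negative part of the packed exponents of a word. -/
def xN : List ℕ → ℕ
  | [] => 0
  | x :: l => Nat.add (Nat.mul (Nat.mod x 2) (Nat.pow BB (Nat.div x 2))) (xN l)

/-- Positive part of the packed values of a sparse vector `[i, v + 8, j, w + 8, …]`. -/
def vP : List ℕ → ℕ
  | i :: v :: l => Nat.add (Nat.mul (Nat.sub v 8) (Nat.pow BB i)) (vP l)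
  | _ => 0

/-- Negative part. -/
def vN : List ℕ → ℕ
  | i :: v :: l => Nat.add (Nat.mul (Nat.sub 8 v) (Nat.pow BB i)) (vN l)
  | _ => 0

/-- The sparse vector in the payload of a triangle. -/
def dat : List ℕ → List ℕ
  | _ :: _ :: _ :: _ :: l => l
  | _ => []

/-! ### Facets -/

/-- Mask of a list of vertices. -/
def msk : List ℕ → ℕ
  | [] => 0
  | a :: l => Nat.lor (Nat.pow 2 a) (msk l)

/-- Facet format `[mask, sign, a, b, c, d, e]`. -/
def facFmt (f : List ℕ) : Bool :=
  match f with
  | [m, s, a, b, c, d, e] =>
    Nat.blt s 2 && Nat.blt a b && Nat.blt b c && Nat.blt c d && Nat.blt d e && Nat.blt e 52 &&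
      Nat.beq m (msk [a, b, c, d, e])
  | _ => false

/-- Strictly increasing first entries. -/
def incr : ℕ → List (List ℕ) → Bool
  | _, [] => true
  | m, f :: l => match f with
    | [] => false
    | h :: _ => match Nat.blt m h with
      | true => incr h l
      | false => false

/-- The equation of a 2-cocycle on the tetrahedron `w < x < y < z`. -/
def tetEq (wxy wxz wyz xyz : List ℕ) : Bool :=
  Nat.beq
    (Nat.add (Nat.add (vP xyz) (vP wxz)) (Nat.add (vN wyz) (vN wxy)))
    (Nat.add (Nat.add (vN xyz) (vN wxz)) (Nat.add (vP wyz) (vP wxy)))

/-- All ten triangles of a facet are in the table, and the five tetrahedra satisfy the cocycle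
equations. -/
def facTab (TT : Table) (f : List ℕ) : Bool :=
  match f with
  | [_, _, a, b, c, d, e] =>
    nthK (fun ra => nthK (fun rb => nthK (fun rc =>
      findBK b (fun _ ab => findBK c (fun _ ac => findBK d (fun _ ad =>
      findBK c (fun _ bc => findBK d (fun _ bd => findBK d (fun _ cd =>
      findK c (fun abc => findK d (fun abd => findK e (fun abe =>
      findK d (fun acd => findK e (fun ace => findK e (fun ade =>
      findK d (fun bcd => findK e (fun bce => findK e (fun bde =>
      findK e (fun cde =>
        tetEq (dat abc) (dat abd) (dat acd) (dat bcd) &&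
        tetEq (dat abc) (dat abe) (dat ace) (dat bce) &&
        tetEq (dat abd) (dat abe) (dat ade) (dat bde) &&
        tetEq (dat acd) (dat ace) (dat ade) (dat cde) &&
        tetEq (dat bcd) (dat bce) (dat bde) (dat cde))
      cd) bd) bc) bc) ad) ac) ac) ab) ab) ab)
      rc) rb) rb) ra) ra) ra)
      TT c) TT b) TT a
  | _ => false

/-! ### Entries of the table -/

/-- Evidence that the vertices with mask `M` lie in the facet with index `(i, j)`. -/
def evid (FF : List (List (List ℕ))) (i j M : ℕ) : Bool :=
  nthK (fun ch => nthK (fun f => match f with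
    | m :: _ => Nat.beq (Nat.land m M) M
    | [] => false) ch j) FF i

/-- The key of a payload is smaller than `k`. -/
def keyLt (k : ℕ) (p : List ℕ) : Bool :=
  match p with
  | k' :: _ => Nat.blt k' k
  | [] => false

/-- The sparse vector is well-formed. -/
def vecFmt : List ℕ → Bool
  | i :: v :: l => Nat.blt i 22 && Nat.ble 5 v && Nat.ble v 11 && vecFmt l
  | [] => true
  | _ => false

/-- The check of a triangle entry: `w` is the word of the edge `a b`. -/
def triOK (TT : Table) (FF : List (List (List ℕ))) (a b : ℕ) (wab : List ℕ) (e : List ℕ) : Bool :=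
  match e with
  | c :: key :: z :: fi :: fj :: l =>
    Nat.blt b c && evid FF fi fj (msk [a, b, c, z]) && vecFmt l &&
    edgeK TT b c (fun pbc => edgeK TT a c fun pac => match pbc, pac with
      | _ :: _ :: wbc, _ :: _ :: wac =>
        Nat.beq (Nat.add (Nat.add (xP wab) (xP wbc)) (xN wac))
          (Nat.add (Nat.add (xN wab) (xN wbc)) (xP wac))
      | _, _ => false) &&
    (match key with
    | 0 => true
    | _ => match Nat.blt z a with
      | true => triK TT z a b (keyLt key) && triK TT z a c (keyLt key) && triK TT z b c (keyLt key)
      | false => Nat.blt a z && (match Nat.blt z b with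
        | true => triK TT a z b (keyLt key) && triK TT a z c (keyLt key) &&
            triK TT z b c (keyLt key)
        | false => Nat.blt b z && (match Nat.blt z c with
          | true => triK TT a b z (keyLt key) && triK TT a z c (keyLt key) &&
              triK TT b z c (keyLt key)
          | false => Nat.blt c z && triK TT a b z (keyLt key) && triK TT a c z (keyLt key) &&
              triK TT b c z (keyLt key))))
  | _ => false

/-- The letters of a word are below ten. -/
def letFmt : List ℕ → Bool
  | [] => true
  | x :: l => Nat.blt x 10 && letFmt l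

/-- The check of an edge entry. -/
def edgeOK (TT : Table) (PT GEN : List (List ℕ)) (a b : ℕ) (p : List ℕ) : Bool :=
  match p with
  | key :: z :: w =>
    Nat.blt a b && Nat.blt b 52 && letFmt w && triZK TT a b z (fun _ => true) &&
    Nat.ble w.length 7 &&
    (match key with
    | 0 => match w with
      | [] => nthK (fun Pa => nthK (fun Pb =>
          leq Pb (Pa ++ [b]) || leq Pa (Pb ++ [a])) PT b) PT a
      | [x] => nthK (fun g => leq g [a, b]) GEN (Nat.div x 2) && Nat.beq (Nat.mod x 2) 0
      | _ => false
    | _ => wordK TT a z (fun k1 w1 => wordK TT z b (fun k2 w2 =>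
        Nat.blt k1 key && Nat.blt k2 key && leq (redw (w1 ++ w2) []) (redw w []))))
  | _ => false

/-- Strictly increasing keys of blocks. -/
def incrB : ℕ → Row → Bool
  | _, [] => true
  | m, blk :: l => match blk with
    | [] => false
    | hd :: _ => match hd with
      | [] => false
      | h :: _ => match Nat.blt m h with
        | true => incrB h l
        | false => false

/-- The check of a row. -/
def rowOK (TT : Table) (FF : List (List (List ℕ))) (PT GEN : List (List ℕ)) (a : ℕ) (r : Row) :
    Bool :=
  incrB a r && r.all fun blk => match blk with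
    | hd :: ents => match hd with
      | b :: p => edgeOK TT PT GEN a b p && incr b ents && (match p with
        | _ :: _ :: w => ents.all (triOK TT FF a b w)
        | _ => false)
      | [] => false
    | [] => false

/-- Paths: each is an edge path from the base point `p₀` to its index. -/
def pathOK (TT : Table) : ℕ → List ℕ → Bool
  | _, [] => true
  | u, v :: l => (match Nat.blt u v with
    | true => edgeK TT u v fun p => match p with
      | [_, _] => true
      | _ => false
    | false => edgeK TT v u fun p => match p with
      | [_, _] => true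
      | _ => false) && pathOK TT v l

/-- Checks the path to `n`. -/
def pathOK' (TT : Table) (p₀ n : ℕ) (l : List ℕ) : Bool :=
  match l with
  | [] => false
  | u :: l' => Nat.beq u p₀ && pathOK TT u l' && Nat.beq ((u :: l').getLastD 0) n

/-- Check of a commutation certificate. -/
def commOK (TT : Table) (i j : ℕ) (q : List (List ℕ)) : Bool :=
  match q with
  | [[a, b, c], [s, t], p, q] =>
    triK TT a b c (fun _ => true) && Nat.blt a b && Nat.blt b c &&
    wordK TT a b (fun _ w1 => wordK TT b c fun _ w2 => wordK TT a c fun _ w3 =>
      leq (redw (w1 ++ w2) []) (redw (p ++ (s :: t :: q)) []) &&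
      leq (redw w3 []) (redw (p ++ (t :: s :: q)) [])) &&
    ((Nat.beq (Nat.div s 2) i && Nat.beq (Nat.div t 2) j) ||
      (Nat.beq (Nat.div s 2) j && Nat.beq (Nat.div t 2) i))
  | _ => false

/-! ### Links -/

/-- Collects the masks containing the bit `bv`. -/
def starK (bv : ℕ) (k : List ℕ → Bool) : List (List ℕ) → List ℕ → Bool
  | [], acc => k acc
  | f :: l, acc => match f with
    | [] => false
    | m :: _ => match Nat.beq (Nat.land m bv) bv with
      | true => starK bv k l (m :: acc)
      | false => starK bv k l acc

/-- The same over chunks. -/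
def starKK (bv : ℕ) (k : List ℕ → Bool) : List (List (List ℕ)) → List ℕ → Bool
  | [], acc => k acc
  | c :: l, acc => starK bv (fun acc' => starKK bv k l acc') c acc

/-- Splits a list of masks into those containing `a` and the others, rejecting masks that contain
`b` but not `a`. -/
def scan (a b : ℕ) (k : List ℕ → List ℕ → Bool) : List ℕ → List ℕ → List ℕ → Bool
  | [], kept, fnd => k kept fnd
  | f :: l, kept, fnd => match Nat.beq (Nat.land a f) a with
    | true => scan a b k l kept (f :: fnd)
    | false => match Nat.beq (Nat.land b f) b with
      | true => false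
      | false => scan a b k l (f :: kept) fnd

/-- The new masks of a flip. -/
def newF (ab : ℕ) : List ℕ → List ℕ → List ℕ
  | [], acc => acc
  | a :: l, acc => newF ab l (Nat.xor ab (Nat.pow 2 a) :: acc)

/-- Vertices of the list are less than 52 and different from `v`. -/
def vtxFmt (v : ℕ) : List ℕ → Bool
  | [] => true
  | a :: l => Nat.blt a 52 && !(Nat.beq a v) && vtxFmt v l

/-- A flip in the star of `v`. -/
def flipK (v : ℕ) (A B : List ℕ) (k : List ℕ → Bool) (l : List ℕ) : Bool :=
  Nat.beq (Nat.land (msk A) (msk B)) 0 && vtxFmt v A && vtxFmt v B && !A.isEmpty && !B.isEmpty &&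
  scan (msk A) (msk B) (fun kept fnd =>
    fnd.all (fun f => B.any fun b =>
      Nat.beq f (Nat.xor (Nat.lor (Nat.lor (msk A) (msk B)) (Nat.pow 2 v)) (Nat.pow 2 b))) &&
    B.all (fun b => fnd.any fun f =>
      Nat.beq f (Nat.xor (Nat.lor (Nat.lor (msk A) (msk B)) (Nat.pow 2 v)) (Nat.pow 2 b))) &&
    k (newF (Nat.lor (Nat.lor (msk A) (msk B)) (Nat.pow 2 v)) A kept)) l [] []

/-- The final check: the list is the boundary of the simplex with the given five vertices. -/
def finOK (v : ℕ) (V : List ℕ) (l : List ℕ) : Bool :=
  match V with
  | [p, q, r, s, t] => vtxFmt v V && Nat.blt p q && Nat.blt q r && Nat.blt r s && Nat.blt s t &&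
      l.all (fun f => V.any fun b => Nat.beq f (Nat.xor (Nat.lor (msk V) (Nat.pow 2 v))
        (Nat.pow 2 b))) &&
      V.all (fun b => l.any fun f => Nat.beq f (Nat.xor (Nat.lor (msk V) (Nat.pow 2 v))
        (Nat.pow 2 b)))
  | _ => false

/-- Run the flips. -/
def runK (v : ℕ) (V : List ℕ) : List (List (List ℕ)) → List ℕ → Bool
  | [], l => finOK v V l
  | AB :: s, l => match AB with
    | [A, B] => flipK v A B (runK v V s) l
    | _ => false

/-- The check of the link of `v`. -/
def linkOK (FF : List (List (List ℕ))) (v : ℕ) (s : List (List (List ℕ))) (V : List ℕ) : Bool :=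
  starKK (Nat.pow 2 v) (fun l => !l.isEmpty && runK v V s l) FF []

/-! ### The tetrahedra -/

/-- Code of four vertices. -/
def code4 (a b c d : ℕ) : ℕ :=
  Nat.add (Nat.mul (Nat.add (Nat.mul (Nat.add (Nat.mul a 64) b) 64) c) 64) d

/-- Signed tetrahedron. -/
def el (s i c : ℕ) : ℕ := Nat.add (Nat.mul 2 c) (Nat.mod (Nat.add s i) 2)

/-- The signed tetrahedra of a facet. -/
def tets : List ℕ → List ℕ
  | [_, s, a, b, c, d, e] => [el s 4 (code4 a b c d), el s 3 (code4 a b c e),
      el s 2 (code4 a b d e), el s 1 (code4 a c d e), el s 0 (code4 b c d e)]
  | _ => []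

/-- Merging of lists. -/
def merge : ℕ → List ℕ → List ℕ → List ℕ
  | 0, l, m => l ++ m
  | _ + 1, [], l => l
  | _ + 1, l, [] => l
  | n + 1, a :: l, b :: m => match Nat.ble a b with
    | true => a :: merge n l (b :: m)
    | false => b :: merge n (a :: l) m

/-- One pass of merge sort. -/
def mpass (n : ℕ) : List (List ℕ) → List (List ℕ)
  | [] => []
  | [l] => [l]
  | l :: m :: r => merge n l m :: mpass n r

/-- Merge sort. -/
def msort (n : ℕ) : ℕ → List (List ℕ) → List ℕ
  | 0, r => r.flatten
  | _ + 1, [] => []
  | _ + 1, [l] => l
  | k + 1, l :: m :: r => msort n k (mpass n (l :: m :: r))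

/-- The list consists of `k` pairs `2 c, 2 c + 1` with increasing `c`. -/
def pairs : ℕ → ℕ → List ℕ → Bool
  | k, _, [] => Nat.beq k 0
  | 0, _, _ :: _ => false
  | k + 1, c, a :: l => match l with
    | [] => false
    | b :: l => match Nat.beq (Nat.mod a 2) 0 with
      | false => false
      | true => match Nat.beq b (Nat.add a 1) with
        | false => false
        | true => match Nat.blt c a with
          | false => false
          | true => pairs k a l

/-- The check of the fundamental cycle. -/
def tetsOK (FF : List (List (List ℕ))) : Bool :=
  pairs 4505 0 (msort 100000 20 (FF.flatten.map tets))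

/-! ### Look-ups as functions -/

/-- The `n`-th element with default. -/
def nthD {α : Type} (d : α) : List α → ℕ → α
  | [], _ => d
  | a :: l, n => match n with
    | 0 => a
    | n + 1 => nthD d l n

/-- The payload of the first entry with given key. -/
def find (key : ℕ) : List (List ℕ) → Option (List ℕ)
  | [] => none
  | e :: l => match e with
    | [] => none
    | h :: t => match Nat.beq h key with
      | true => some t
      | false => find key l

/-- Payload and entries of the first block with given key. -/
def findB (key : ℕ) : Row → Option (List ℕ × List (List ℕ))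
  | [] => none
  | blk :: l => match blk with
    | [] => none
    | hd :: ents => match hd with
      | [] => none
      | h :: p => match Nat.beq h key with
        | true => some (p, ents)
        | false => findB key l

/-- The payload of an edge. -/
def edgeP (TT : Table) (a b : ℕ) : Option (List ℕ) :=
  match findB b (nthD [] TT a) with
  | none => none
  | some q => some q.1

/-- The payload of a triangle. -/
def triP (TT : Table) (a b c : ℕ) : Option (List ℕ) :=
  match findB b (nthD [] TT a) with
  | none => none
  | some q => find c q.2

/-- The word of an edge `a < b`. -/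
def edgeW (TT : Table) (a b : ℕ) : List ℕ :=
  match edgeP TT a b with
  | some (_ :: _ :: w) => w
  | _ => []

/-- The sparse vector of a triangle. -/
def triV (TT : Table) (a b c : ℕ) : List ℕ :=
  match triP TT a b c with
  | some p => dat p
  | none => []

/-! ### Sums over facets -/

/-- Packed values with base `B`. -/
def vZ (B : ℕ) : List ℕ → ℤ
  | i :: v :: l => ((v : ℤ) - 8) * (B : ℤ) ^ i + vZ B l
  | _ => 0

/-- Packed exponents with base `B`. -/
def xZ (B : ℕ) : List ℕ → ℤ
  | [] => 0
  | x :: l => (if x % 2 = 0 then 1 else -1) * (B : ℤ) ^ (x / 2) + xZ B l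

/-- Sign of a facet. -/
def sgn : ℕ → ℤ
  | 0 => 1
  | _ => -1

/-- Contribution of a facet to the packed intersection form. -/
def gramF (TT : Table) (f : List ℕ) : ℤ :=
  match f with
  | [_, s, a, b, c, d, e] => match triV TT a b c with
    | [] => 0
    | i :: l => match triV TT c d e with
      | [] => 0
      | j :: m => sgn s * (vZ BB (i :: l) * vZ (BB ^ 22) (j :: m))
  | _ => 0

/-- The base for the packed fourfold products. -/
def CC : ℕ := 4294967296

/-- Contribution of a facet to the packed fourfold product. -/
def cupF (TT : Table) (f : List ℕ) : ℤ :=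
  match f with
  | [_, s, a, b, c, d, e] => match edgeW TT a b with
    | [] => 0
    | i :: l => match edgeW TT b c with
      | [] => 0
      | j :: m => match edgeW TT c d with
        | [] => 0
        | k :: n => match edgeW TT d e with
          | [] => 0
          | h :: q => sgn s * (xZ CC (i :: l) * xZ (CC ^ 5) (j :: m) * xZ (CC ^ 25) (k :: n) *
              xZ (CC ^ 125) (h :: q))
  | _ => 0

/-- Sum over the facets. -/
def sumF (g : List ℕ → ℤ) : List (List ℕ) → ℤ
  | [] => 0
  | f :: l => g f + sumF g l

/-- Sum over chunks. -/
def sumFF (g : List ℕ → ℤ) : List (List (List ℕ)) → ℤ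
  | [] => 0
  | c :: l => sumF g c + sumFF g l

/-- The expected packed Gram matrix. -/
def gramS : ℤ :=
  ((List.range 9).map fun i => ((BB : ℤ) ^ (i + 22 * i))).sum -
    ((List.range 13).map fun i => ((BB : ℤ) ^ ((i + 9) + 22 * (i + 9)))).sum

/-- The sign of `(i, j, k, l, 0)` as a permutation of `0, …, 4` (zero if it is none). -/
def eps (i j k l : ℕ) : ℤ :=
  let t := [i, j, k, l, 0]
  if t.Nodup then
    (if ((List.range 5).map fun a => ((List.range a).filter fun b =>
      t.getD a 0 < t.getD b 0).length).sum % 2 = 0 then 1 else -1)
  else 0

/-- The expected packed fourfold product. -/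
def cupS : ℤ :=
  ((List.range 5).map fun i => ((List.range 5).map fun j => ((List.range 5).map fun k =>
    ((List.range 5).map fun l =>
      2 * eps i j k l * (CC : ℤ) ^ (i + 5 * j + 25 * k + 125 * l)).sum).sum).sum).sum

end Pool.Agent.GeoZ5
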