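import Pool.Agent.GeoZ5.Check

/-!
More kernel-friendly checkers: counting, sparse vectors.
-/

namespace Pool.Agent.GeoZ5

/-- Codes of the edges in a row. -/
def rowE (a : ℕ) : Row → List ℕ
  | [] => []
  | blk :: l => match blk with
    | [] => rowE a l
    | hd :: _ => match hd with
      | [] => rowE a l
      | b :: _ => Nat.add (Nat.mul a 64) b :: rowE a l

/-- Codes of the edges. -/
def tabE : ℕ → Table → List ℕ
  | _, [] => []
  | a, r :: t => rowE a r ++ tabE (a + 1) t

/-- Codes of the triangles in a block. -/
def entT (ab : ℕ) : List (List ℕ) → List ℕ
  | [] => []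
  | e :: l => match e with
    | [] => entT ab l
    | c :: _ => Nat.add (Nat.mul ab 64) c :: entT ab l

/-- Codes of the triangles in a row. -/
def rowT (a : ℕ) : Row → List ℕ
  | [] => []
  | blk :: l => match blk with
    | [] => rowT a l
    | hd :: ents => match hd with
      | [] => rowT a l
      | b :: _ => entT (Nat.add (Nat.mul a 64) b) ents ++ rowT a l

/-- Codes of the triangles. -/
def tabT : ℕ → Table → List ℕ
  | _, [] => []
  | a, r :: t => rowT a r ++ tabT (a + 1) t

/-- The list is strictly increasing, above `m`, of length `n`. -/
def incN : ℕ → ℕ → List ℕ → Bool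
  | n, _, [] => Nat.beq n 0
  | 0, _, _ :: _ => false
  | n + 1, m, x :: l => match Nat.blt m x with
    | true => incN n x l
    | false => false

/-- All vertices below `n` occur in facets. -/
def vtxOK (FF : List (List (List ℕ))) (n : ℕ) : Bool :=
  (List.range n).all fun v => FF.any fun ch => ch.any fun f => match f with
    | _ :: _ :: l => l.any fun u => Nat.beq u v
    | _ => false

/-- Sparse vectors have strictly increasing indices, and entries between `5` and `11`. -/
def vInc : ℕ → List ℕ → Bool
  | _, [] => true
  | n, i :: v :: l => Nat.ble n i && Nat.blt i 22 && Nat.ble 5 v && Nat.ble v 11 && vInc (i + 1) l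
  | _, [_] => false

/-- All sparse vectors in the table are well-formed. -/
def vecOK (TT : Table) : Bool :=
  TT.all fun r => r.all fun blk => match blk with
    | [] => true
    | _ :: ents => ents.all fun e => match e with
      | [] => true
      | _ :: p => vInc 0 (dat p)

end Pool.Agent.GeoZ5
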