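import Pool.Agent.GeoZ5.Check2

/-!
Keys of edges and triangles.
-/

namespace Pool.Agent.GeoZ5

/-- The key of the edge with code `c`. -/
def ekey (TT : Table) (c : ℕ) : ℕ :=
  match edgeP TT (Nat.div c 64) (Nat.mod c 64) with
  | some (k :: _) => k
  | _ => 0

/-- The key of the triangle with code `c`. -/
def tkey (TT : Table) (c : ℕ) : ℕ :=
  match triP TT (Nat.div c 4096) (Nat.mod (Nat.div c 64) 64) (Nat.mod c 64) with
  | some (k :: _) => k
  | _ => 0

/-- The edges with nonzero key. -/
def tabE1 (TT : Table) : List ℕ := (tabE 0 TT).filter fun c => !(Nat.beq (ekey TT c) 0)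

/-- The triangles with key zero. -/
def tabT0 (TT : Table) : List ℕ := (tabT 0 TT).filter fun c => Nat.beq (tkey TT c) 0

end Pool.Agent.GeoZ5
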