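import Pool.Agent.GeoZ5.Check
set_option maxRecDepth 1000000
namespace Pool.Agent.GeoZ5
def L0 : List (List (List ℕ)) :=
  [[[28, 32], [9, 26, 46]], [[7, 29], [37, 42, 47]], [[28, 41], [18, 26, 46]], [[28],
  [9, 18, 26, 46]], [[29, 37], [27, 42, 47]], [[26, 32], [9, 45, 46]], [[27, 37], [38, 42, 47]],
  [[32, 46], [9, 31, 45]], [[9, 32], [31, 45, 51]], [[32, 45], [29, 31, 51]], [[32],
  [27, 29, 31, 51]], [[31, 46], [9, 12, 45]], [[9, 51], [13, 31, 45]], [[27, 51], [29, 31, 40]],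
  [[40, 51], [13, 29, 31]], [[51], [13, 29, 31, 45]], [[14, 34], [30, 35, 38]], [[9, 31],
  [12, 13, 45]], [[29, 45], [13, 31, 42]], [[31, 45], [12, 13, 42]], [[12, 31], [13, 38, 42]],
  [[2, 3, 11], [6, 25]], [[3, 11], [6, 25, 48]], [[2, 11], [6, 25, 35]], [[11], [6, 25, 35, 48]],
  [[13, 31, 38], [40, 42]], [[13, 31], [29, 40, 42]], [[29, 31], [27, 40, 42]], [[31],
  [27, 38, 40, 42]], [[27, 29], [40, 42, 47]], [[27], [38, 40, 42, 47]], [[29], [13, 40, 42, 47]],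
  [[40], [13, 38, 42, 47]], [[14, 30, 47], [6, 38]], [[14, 47], [6, 38, 48]], [[14, 30],
  [6, 35, 38]], [[14], [6, 35, 38, 48]], [[5, 9, 26], [18, 45]], [[5, 9], [13, 18, 45]], [[9, 13],
  [12, 18, 45]], [[9, 12], [18, 45, 46]], [[9], [18, 26, 45, 46]], [[2, 3, 25], [6, 20]], [[2, 3],
  [6, 20, 36]], [[3, 36], [6, 20, 50]], [[36, 50], [6, 15, 20]], [[3, 6, 25], [20, 48]], [[3, 6],
  [20, 48, 50]], [[3, 50], [20, 43, 48]], [[3], [20, 25, 43, 48]], [[4, 43, 50], [15, 48]],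
  [[43, 50], [15, 20, 48]], [[4, 50], [6, 15, 48]], [[50], [6, 15, 20, 48]], [[4, 6], [15, 47, 48]],
  [[2, 30, 36], [6, 37]], [[6, 37], [2, 30, 36]], [[2, 30, 36], [6, 37]], [[30, 36], [6, 37, 47]],
  [[30, 47], [6, 37, 38]], [[2, 36], [6, 20, 37]], [[2, 30, 34], [35, 37]], [[2, 30], [6, 35, 37]],
  [[2, 34], [35, 37, 39]], [[30, 34], [35, 37, 38]], [[30], [6, 35, 37, 38]], [[2, 6, 35],
  [25, 37]], [[2, 6], [20, 25, 37]], [[2, 20], [25, 37, 39]], [[2], [25, 35, 37, 39]], [[20, 39],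
  [17, 25, 37]], [[6, 15, 36], [20, 47]], [[6, 15], [20, 47, 48]], [[6, 36], [20, 37, 47]],
  [[36, 37], [7, 20, 47]], [[36], [7, 15, 20, 47]], [[4, 15, 43], [7, 48]], [[4, 15], [7, 47, 48]],
  [[15, 47], [7, 20, 48]], [[15], [7, 20, 43, 48]], [[6, 20, 47], [37, 48]], [[6, 20],
  [25, 37, 48]], [[6, 25], [35, 37, 48]], [[6, 35], [37, 38, 48]], [[6], [37, 38, 47, 48]],
  [[20, 47], [7, 37, 48]], [[7, 17, 20], [37, 43]], [[17, 20], [25, 37, 43]], [[20, 25],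
  [37, 43, 48]], [[20], [7, 37, 43, 48]], [[7, 17], [22, 37, 43]], [[13, 42, 47], [4, 38]],
  [[13, 47], [4, 38, 48]], [[4, 7, 47], [42, 48]], [[7, 47], [37, 42, 48]], [[4, 47], [38, 42, 48]],
  [[47], [37, 38, 42, 48]], [[4, 38], [13, 42, 48]], [[4, 5, 45], [13, 43]], [[13, 43], [4, 5, 45]],
  [[4, 5, 45], [13, 43]], [[13, 43], [4, 5, 45]], [[4, 42, 45], [7, 13]], [[42, 45], [7, 12, 13]],
  [[4, 42], [7, 13, 48]], [[4, 7, 48], [13, 43]], [[4, 7], [13, 43, 45]], [[4, 48], [5, 13, 43]],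
  [[4], [5, 13, 43, 45]], [[7, 12, 42], [13, 37]], [[13, 37], [7, 12, 42]], [[7, 12, 42], [13, 37]],
  [[12, 42], [13, 37, 38]], [[38, 42], [13, 37, 48]], [[42], [7, 13, 37, 48]], [[7, 48],
  [13, 37, 43]], [[38, 48], [13, 35, 37]], [[35, 38], [13, 34, 37]], [[38], [12, 13, 34, 37]],
  [[5, 13, 48], [35, 43]], [[5, 48], [25, 35, 43]], [[25, 48], [35, 37, 43]], [[48],
  [13, 35, 37, 43]], [[5, 25], [35, 41, 43]], [[7, 12, 22], [37, 45]], [[7, 22], [37, 43, 45]],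
  [[7, 43], [13, 37, 45]], [[7], [12, 13, 37, 45]], [[12, 22], [37, 45, 46]], [[12, 13, 45],
  [18, 37]], [[12, 45], [18, 37, 46]], [[12, 46], [18, 34, 37]], [[12], [13, 18, 34, 37]],
  [[13, 34], [18, 35, 37]], [[34, 35], [18, 37, 39]], [[34], [18, 37, 39, 46]], [[13, 37, 43],
  [35, 45]], [[13, 43], [5, 35, 45]], [[5, 13], [18, 35, 45]], [[13], [18, 35, 37, 45]],
  [[5, 18, 26], [41, 45]], [[5, 18], [35, 41, 45]], [[5, 35], [41, 43, 45]], [[5],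
  [26, 41, 43, 45]], [[18, 26], [41, 45, 46]], [[17, 22, 43], [26, 37]], [[26, 37], [17, 22, 43]],
  [[17, 22, 37], [43, 46]], [[17, 22], [26, 43, 46]], [[22, 26], [43, 45, 46]], [[22],
  [37, 43, 45, 46]], [[17, 26], [41, 43, 46]], [[26], [41, 43, 45, 46]], [[17, 25, 39], [37, 41]],
  [[17, 39], [37, 41, 46]], [[25, 39], [35, 37, 41]], [[17, 25], [37, 41, 43]], [[17],
  [37, 41, 43, 46]], [[25], [35, 37, 41, 43]], [[43, 46], [37, 41, 45]], [[43], [35, 37, 41, 45]],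
  [[35, 39], [18, 37, 41]], [[35], [18, 37, 41, 45]], [[39], [18, 37, 41, 46]]]
def E0 : List ℕ := [18, 37, 41, 45, 46]
def L1 : List (List (List ℕ)) :=
  [[[14, 37], [7, 18, 36]], [[6, 38], [18, 28, 29]], [[36, 37], [7, 18, 25]], [[9, 12],
  [13, 31, 45]], [[12, 14], [13, 36, 41]], [[14, 38], [7, 18, 41]], [[38, 41], [7, 18, 28]], [[38],
  [7, 18, 28, 29]], [[13, 14], [7, 36, 41]], [[14], [7, 18, 36, 41]], [[7, 37], [18, 25, 29]],
  [[12, 45], [13, 31, 41]], [[12], [13, 31, 36, 41]], [[13, 36], [7, 31, 41]], [[7, 29],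
  [18, 25, 28]], [[25, 36], [7, 18, 31]], [[36], [7, 18, 31, 41]], [[4, 44], [20, 30, 51]],
  [[18, 41], [7, 28, 31]], [[7, 41], [13, 28, 31]], [[41], [13, 28, 31, 45]], [[4, 37],
  [8, 25, 29]], [[37], [8, 18, 25, 29]], [[9, 13], [31, 45, 51]], [[7, 13], [25, 28, 31]], [[7],
  [18, 25, 28, 31]], [[8, 18], [23, 25, 29]], [[13, 25], [28, 31, 51]], [[13], [28, 31, 45, 51]],
  [[9, 45], [2, 31, 51]], [[45], [2, 28, 31, 51]], [[2, 9, 31], [35, 51]], [[9, 31], [20, 35, 51]],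
  [[9, 20], [35, 44, 51]], [[9], [2, 35, 44, 51]], [[2, 44], [30, 35, 51]], [[44],
  [20, 30, 35, 51]], [[2, 6, 35], [30, 31]], [[2, 35], [30, 31, 51]], [[2, 51], [28, 30, 31]], [[2],
  [6, 28, 30, 31]], [[28, 51], [25, 30, 31]], [[6, 35], [20, 30, 31]], [[35], [20, 30, 31, 51]],
  [[4, 8, 20], [29, 51]], [[4, 8], [25, 29, 51]], [[8, 25], [23, 29, 51]], [[8], [20, 23, 29, 51]],
  [[4, 20], [29, 30, 51]], [[4], [25, 29, 30, 51]], [[6, 18, 23], [29, 31]], [[6, 18],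
  [28, 29, 31]], [[6, 23], [20, 29, 31]], [[18, 28], [25, 29, 31]], [[18], [23, 25, 29, 31]],
  [[6, 20], [29, 30, 31]], [[6], [28, 29, 30, 31]], [[28], [25, 29, 30, 31]], [[20, 30],
  [29, 31, 51]], [[20], [23, 29, 31, 51]], [[23], [25, 29, 31, 51]]]
def E1 : List ℕ := [25, 29, 30, 31, 51]
def L2 : List (List (List ℕ)) :=
  [[[8, 9], [31, 35, 45]], [[28, 33], [21, 30, 51]], [[9, 31], [1, 35, 45]], [[28, 45],
  [1, 31, 51]], [[29, 45], [31, 32, 51]], [[0, 34, 37], [30, 39]], [[34, 37], [30, 33, 39]],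
  [[33, 34], [30, 39, 44]], [[34, 44], [30, 35, 39]], [[34], [0, 30, 35, 39]], [[5, 18, 41],
  [26, 51]], [[5, 18], [21, 26, 51]], [[18, 21], [26, 33, 51]], [[18, 33], [7, 26, 51]], [[18],
  [7, 26, 41, 51]], [[5, 21, 28], [36, 51]], [[36, 51], [5, 21, 28]], [[1, 35, 45], [9, 31]],
  [[9, 31], [1, 35, 45]], [[1, 31, 45], [35, 51]], [[1, 45], [9, 35, 51]], [[1, 9], [35, 44, 51]],
  [[1, 44], [30, 35, 51]], [[1, 6, 31], [28, 35]], [[1, 6], [28, 30, 35]], [[1, 30], [28, 35, 51]],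
  [[1], [28, 31, 35, 51]], [[8, 25, 45], [32, 35]], [[32, 35], [8, 25, 45]], [[8, 35, 45],
  [25, 31]], [[8, 45], [25, 31, 32]], [[8, 35], [11, 25, 31]], [[8, 25, 31], [11, 32]], [[8, 31],
  [11, 32, 43]], [[8, 43], [10, 11, 32]], [[8], [10, 11, 25, 32]], [[31, 43], [11, 32, 50]],
  [[9, 32, 45], [25, 51]], [[9, 45], [25, 35, 51]], [[32, 45], [25, 31, 51]], [[45],
  [25, 31, 35, 51]], [[10, 19, 43], [32, 49]], [[10, 43], [11, 32, 49]], [[11, 43], [32, 49, 50]],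
  [[43], [19, 32, 49, 50]], [[19, 50], [29, 32, 49]], [[11, 32, 50], [31, 49]], [[31, 49],
  [11, 32, 50]], [[11, 31, 50], [17, 32]], [[31, 50], [17, 29, 32]], [[29, 50], [17, 32, 49]],
  [[50], [11, 17, 32, 49]], [[9, 25, 51], [32, 35]], [[32, 35], [9, 25, 51]], [[9, 25, 32],
  [40, 51]], [[9, 32], [40, 44, 51]], [[32, 44], [40, 41, 51]], [[41, 44], [7, 40, 51]],
  [[9, 35, 39], [25, 44]], [[9, 35], [25, 44, 51]], [[9, 51], [25, 40, 44]], [[9],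
  [25, 39, 40, 44]], [[10, 11, 24], [25, 49]], [[10, 11], [25, 32, 49]], [[11, 24], [3, 25, 49]],
  [[10, 19, 24], [40, 49]], [[10, 19], [32, 40, 49]], [[10, 24], [25, 40, 49]], [[10],
  [25, 32, 40, 49]], [[3, 16, 24], [20, 49]], [[3, 24], [20, 25, 49]], [[24, 25], [20, 40, 49]],
  [[16, 24, 49], [19, 20]], [[16, 24], [19, 20, 48]], [[24, 48], [19, 20, 40]], [[24],
  [19, 20, 40, 49]], [[5, 21, 28], [36, 51]], [[5, 21], [26, 36, 51]], [[21, 28], [30, 36, 51]],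
  [[21, 26, 51], [33, 36]], [[21, 51], [30, 33, 36]], [[21, 26], [33, 36, 37]], [[21],
  [30, 33, 36, 37]], [[0, 30, 37], [36, 39]], [[30, 37], [33, 36, 39]], [[0, 37], [20, 36, 39]],
  [[20, 36, 37], [26, 39]], [[36, 37], [26, 33, 39]], [[20, 37], [26, 39, 48]], [[37],
  [26, 33, 39, 48]], [[33, 48], [7, 26, 39]], [[7, 33, 44], [39, 51]], [[7, 33], [26, 39, 51]],
  [[26, 33], [36, 39, 51]], [[33, 44], [30, 39, 51]], [[33], [30, 36, 39, 51]], [[7, 44],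
  [39, 40, 51]], [[30, 44], [35, 39, 51]], [[35, 44], [25, 39, 51]], [[44], [25, 39, 40, 51]],
  [[7, 26, 39], [48, 51]], [[7, 26], [41, 48, 51]], [[7, 39], [40, 48, 51]], [[7],
  [40, 41, 48, 51]], [[6, 30, 36], [0, 28]], [[0, 28], [6, 30, 36]], [[0, 6, 30], [35, 36]],
  [[6, 30], [28, 35, 36]], [[0, 30], [35, 36, 39]], [[30, 39], [35, 36, 51]], [[30],
  [28, 35, 36, 51]], [[5, 17, 28], [31, 36]], [[17, 28], [6, 31, 36]], [[5, 28], [31, 36, 51]],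
  [[28, 51], [31, 35, 36]], [[28], [6, 31, 35, 36]], [[0, 6, 35], [11, 36]], [[6, 35],
  [11, 31, 36]], [[0, 6], [3, 11, 36]], [[3, 6], [11, 17, 36]], [[6], [11, 17, 31, 36]],
  [[0, 3, 20], [25, 36]], [[0, 3], [11, 25, 36]], [[0, 11], [25, 35, 36]], [[0, 35], [25, 36, 39]],
  [[0], [20, 25, 36, 39]], [[35, 39], [25, 36, 51]], [[35, 51], [25, 31, 36]], [[35],
  [11, 25, 31, 36]], [[3, 11, 17], [36, 49]], [[3, 17], [16, 36, 49]], [[3, 16], [20, 36, 49]],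
  [[3, 11], [25, 36, 49]], [[3], [20, 25, 36, 49]], [[11, 17, 32], [31, 49]], [[11, 17],
  [31, 36, 49]], [[11, 36], [25, 31, 49]], [[11], [25, 31, 32, 49]], [[17, 32], [29, 31, 49]],
  [[17, 29, 31], [5, 49]], [[17, 29], [5, 16, 49]], [[16, 17], [5, 36, 49]], [[17],
  [5, 31, 36, 49]], [[26, 39, 48], [20, 51]], [[39, 48], [20, 40, 51]], [[26, 39], [20, 36, 51]],
  [[36, 39], [20, 25, 51]], [[39], [20, 25, 40, 51]], [[5, 16, 26], [36, 41]], [[5, 26],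
  [36, 41, 51]], [[26, 48, 51], [20, 41]], [[26, 48], [16, 20, 41]], [[48, 51], [20, 40, 41]],
  [[26, 51], [20, 36, 41]], [[26], [16, 20, 36, 41]], [[40, 48], [19, 20, 41]], [[48],
  [16, 19, 20, 41]], [[5, 29, 31], [49, 51]], [[29, 31], [32, 49, 51]], [[31, 32], [25, 49, 51]],
  [[25, 32], [40, 49, 51]], [[5, 31], [36, 49, 51]], [[31], [25, 36, 49, 51]], [[25, 36],
  [20, 49, 51]], [[25], [20, 40, 49, 51]], [[5, 16, 29], [41, 49]], [[5, 16], [36, 41, 49]],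
  [[16, 29], [19, 41, 49]], [[16, 19], [20, 41, 49]], [[16], [20, 36, 41, 49]], [[19, 20],
  [40, 41, 49]], [[20, 36], [41, 49, 51]], [[20], [40, 41, 49, 51]], [[36], [5, 41, 49, 51]], [[5],
  [29, 41, 49, 51]], [[19, 29], [32, 41, 49]], [[19], [32, 40, 41, 49]], [[29], [32, 41, 49, 51]]]
def E2 : List ℕ := [32, 40, 41, 49, 51]
def L3 : List (List (List ℕ)) :=
  [[[4, 16, 39], [23, 35]], [[16, 39], [23, 35, 36]], [[4, 39], [23, 35, 41]], [[39],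
  [23, 35, 36, 41]], [[4, 16, 31], [23, 24]], [[4, 31], [21, 23, 24]], [[16, 31], [20, 23, 24]],
  [[31], [20, 21, 23, 24]], [[6, 34, 48], [11, 51]], [[6, 34], [11, 17, 51]], [[34, 48],
  [11, 27, 51]], [[34], [11, 17, 27, 51]], [[27, 48], [11, 32, 51]], [[4, 27, 29], [32, 35]],
  [[27, 29], [32, 35, 51]], [[29, 51], [32, 35, 41]], [[29], [4, 32, 35, 41]], [[4, 27],
  [32, 35, 49]], [[11, 27, 51], [17, 32]], [[17, 32], [11, 27, 51]], [[11, 27, 49], [17, 32]],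
  [[11, 27], [17, 32, 51]], [[27, 51], [17, 32, 35]], [[27], [17, 32, 35, 49]], [[0, 6, 48],
  [11, 50]], [[6, 48], [11, 50, 51]], [[0, 6, 36], [2, 50]], [[0, 6], [2, 11, 50]], [[0, 36],
  [2, 20, 50]], [[6, 17, 51], [11, 36]], [[6, 17], [2, 11, 36]], [[2, 6], [11, 36, 50]], [[6],
  [11, 36, 50, 51]], [[0, 2, 11], [25, 50]], [[0, 11], [25, 48, 50]], [[0, 48], [25, 43, 50]],
  [[0, 2], [20, 25, 50]], [[0], [20, 25, 43, 50]], [[20, 43], [21, 25, 50]], [[2, 17, 36],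
  [11, 16]], [[2, 17], [11, 16, 49]], [[2, 49], [11, 16, 24]], [[2, 11, 24], [16, 25]], [[2, 24],
  [16, 20, 25]], [[2, 11, 25], [16, 50]], [[2, 11], [16, 36, 50]], [[2, 25], [16, 20, 50]], [[2],
  [16, 20, 36, 50]], [[20, 36], [16, 23, 50]], [[20, 21, 23], [24, 50]], [[20, 21], [24, 25, 50]],
  [[20, 25], [16, 24, 50]], [[20], [16, 23, 24, 50]], [[16, 25], [11, 24, 50]], [[4, 32, 49],
  [24, 35]], [[4, 49], [16, 24, 35]], [[4, 16], [23, 24, 35]], [[16, 17, 49], [11, 35]], [[16, 49],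
  [11, 24, 35]], [[24, 49], [11, 32, 35]], [[49], [11, 17, 32, 35]], [[16, 17], [11, 35, 36]],
  [[17, 36], [11, 35, 51]], [[17], [11, 32, 35, 51]], [[11, 16, 50], [24, 36]], [[11, 16],
  [24, 35, 36]], [[16, 35], [23, 24, 36]], [[16], [23, 24, 36, 50]], [[11, 25, 48], [28, 50]],
  [[25, 48], [28, 43, 50]], [[25, 43], [21, 28, 50]], [[43, 48], [28, 44, 50]], [[11, 25],
  [24, 28, 50]], [[25], [21, 24, 28, 50]], [[7, 40, 43], [21, 44]], [[21, 44], [7, 40, 43]],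
  [[7, 21, 43], [40, 50]], [[21, 43], [28, 40, 50]], [[28, 43], [40, 44, 50]], [[43],
  [7, 40, 44, 50]], [[11, 32, 48], [28, 51]], [[11, 48], [28, 50, 51]], [[48, 50], [28, 44, 51]],
  [[48], [28, 32, 44, 51]], [[11, 24, 35], [32, 36]], [[11, 35], [32, 36, 51]], [[35, 51],
  [32, 36, 41]], [[4, 32, 35], [24, 41]], [[24, 41], [4, 32, 35]], [[4, 23, 35], [24, 41]],
  [[4, 35], [24, 32, 41]], [[23, 35], [24, 36, 41]], [[35], [24, 32, 36, 41]], [[4, 23],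
  [21, 24, 41]], [[4, 21, 28], [24, 40]], [[4, 21], [24, 40, 41]], [[21, 28], [24, 40, 50]],
  [[4, 28], [24, 32, 40]], [[4], [24, 32, 40, 41]], [[7, 21, 23], [41, 50]], [[7, 21],
  [40, 41, 50]], [[21, 23], [24, 41, 50]], [[21], [24, 40, 41, 50]], [[7, 40], [41, 44, 50]],
  [[7, 23], [36, 41, 50]], [[23], [24, 36, 41, 50]], [[7, 44], [41, 50, 51]], [[7],
  [36, 41, 50, 51]], [[11, 24, 28], [32, 50]], [[24, 28], [32, 40, 50]], [[28, 40], [32, 44, 50]],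
  [[24, 40], [32, 41, 50]], [[40], [32, 41, 44, 50]], [[11, 24], [32, 36, 50]], [[24],
  [32, 36, 41, 50]], [[41, 44], [32, 50, 51]], [[41], [32, 36, 50, 51]], [[36], [11, 32, 50, 51]],
  [[11], [28, 32, 50, 51]]]
def E3 : List ℕ := [28, 32, 44, 50, 51]
def L4 : List (List (List ℕ)) :=
  [[[9, 37], [8, 25, 27]], [[5, 28], [21, 24, 36]], [[27, 37], [8, 25, 29]], [[37], [1, 8, 25, 29]],
  [[9, 39], [16, 25, 35]], [[1, 44], [20, 30, 51]], [[25, 42], [17, 30, 41]], [[17, 42],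
  [23, 30, 41]], [[16, 23], [3, 31, 39]], [[1, 8, 29], [20, 25]], [[8, 29], [20, 25, 27]], [[1, 8],
  [20, 25, 51]], [[1, 29], [20, 25, 30]], [[1], [20, 25, 30, 51]], [[21, 28, 36], [24, 40]],
  [[21, 28], [3, 24, 40]], [[3, 28], [24, 32, 40]], [[28], [24, 32, 36, 40]], [[17, 23, 31],
  [30, 39]], [[30, 39], [17, 23, 31]], [[17, 23, 31], [30, 39]], [[17, 23], [30, 39, 41]],
  [[17, 31], [30, 39, 50]], [[17, 41], [25, 30, 39]], [[17], [25, 30, 39, 50]], [[3, 21, 40],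
  [24, 41]], [[3, 40], [24, 32, 41]], [[11, 19, 40], [36, 41]], [[19, 40], [32, 36, 41]], [[32, 40],
  [24, 36, 41]], [[11, 40], [21, 36, 41]], [[40], [21, 24, 36, 41]], [[11, 21], [36, 41, 45]],
  [[6, 8, 25], [9, 51]], [[9, 51], [6, 8, 25]], [[6, 8, 9], [25, 34]], [[25, 34], [6, 8, 9]],
  [[6, 8, 9], [25, 34]], [[6, 8], [25, 34, 51]], [[8, 51], [20, 25, 34]], [[8, 9, 22], [27, 34]],
  [[9, 22], [27, 34, 49]], [[8, 22], [20, 27, 34]], [[8, 20], [25, 27, 34]], [[8], [9, 25, 27, 34]],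
  [[18, 22, 49], [32, 34]], [[22, 49], [27, 32, 34]], [[18, 22], [20, 32, 34]], [[22],
  [20, 27, 32, 34]], [[9, 16, 25], [6, 35]], [[9, 16], [6, 35, 49]], [[9, 25, 34], [6, 27]],
  [[9, 34], [6, 27, 49]], [[9, 25], [6, 27, 35]], [[9], [6, 27, 35, 49]], [[6, 25, 51], [34, 50]],
  [[6, 51], [34, 48, 50]], [[20, 25, 51], [30, 34]], [[25, 51], [30, 34, 50]], [[20, 30, 51],
  [34, 44]], [[20, 51], [34, 44, 48]], [[48, 51], [34, 44, 50]], [[51], [30, 34, 44, 50]],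
  [[20, 48], [26, 34, 44]], [[20, 44], [26, 30, 34]], [[20, 26], [12, 30, 34]], [[12, 26],
  [10, 30, 34]], [[10, 12], [30, 34, 46]], [[12, 19, 20], [18, 30]], [[12, 20], [18, 30, 34]],
  [[12, 19], [18, 30, 46]], [[12], [18, 30, 34, 46]], [[7, 10, 15], [46, 47]], [[46, 47],
  [7, 10, 15]], [[7, 10, 42], [30, 47]], [[10, 42], [26, 30, 47]], [[10, 26], [30, 34, 47]],
  [[10, 30, 46], [7, 34]], [[10, 30], [7, 34, 47]], [[10, 47], [7, 15, 34]], [[10],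
  [7, 15, 34, 46]], [[13, 26, 47], [42, 48]], [[13, 47], [0, 42, 48]], [[13, 23, 26], [42, 44]],
  [[23, 26], [30, 42, 44]], [[13, 26], [42, 44, 48]], [[26, 42, 47], [30, 48]], [[26, 42],
  [30, 44, 48]], [[26, 44], [30, 34, 48]], [[26], [30, 34, 47, 48]], [[34, 44], [30, 48, 50]],
  [[6, 34, 47], [15, 48]], [[6, 47], [0, 15, 48]], [[0, 6], [15, 48, 50]], [[0, 50], [15, 43, 48]],
  [[6, 48], [15, 34, 50]], [[7, 15, 47], [0, 34]], [[15, 47], [0, 34, 48]], [[0, 7, 47], [34, 42]],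
  [[7, 47], [30, 34, 42]], [[0, 47], [34, 42, 48]], [[47], [30, 34, 42, 48]], [[6, 15, 34],
  [49, 50]], [[49, 50], [6, 15, 34]], [[6, 27, 35], [25, 49]], [[6, 35], [16, 25, 49]], [[6, 27],
  [25, 34, 49]], [[6, 15, 34], [49, 50]], [[6, 15], [16, 49, 50]], [[6, 16], [25, 49, 50]], [[6],
  [25, 34, 49, 50]], [[3, 16, 35], [39, 49]], [[16, 35], [25, 39, 49]], [[16, 25], [39, 49, 50]],
  [[3, 16, 39], [31, 49]], [[16, 39], [31, 49, 50]], [[16, 50], [15, 31, 49]], [[15, 16],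
  [24, 31, 49]], [[16], [3, 24, 31, 49]], [[3, 27, 35], [29, 49]], [[3, 27], [29, 32, 49]],
  [[27, 35], [25, 29, 49]], [[3, 35, 39], [41, 49]], [[35, 39], [25, 41, 49]], [[3, 35],
  [29, 41, 49]], [[35], [25, 29, 41, 49]], [[3, 29], [32, 41, 49]], [[3, 32], [24, 41, 49]],
  [[27, 32, 34], [20, 49]], [[27, 34], [20, 25, 49]], [[32, 34], [18, 20, 49]], [[25, 27],
  [20, 29, 49]], [[27], [20, 29, 32, 49]], [[3, 21, 41], [23, 24]], [[3, 21], [23, 24, 31]],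
  [[21, 31], [23, 24, 44]], [[3, 23, 24], [31, 41]], [[3, 23], [31, 39, 41]], [[3, 24],
  [31, 41, 49]], [[3], [31, 39, 41, 49]], [[23, 39], [30, 31, 41]], [[25, 39, 41], [30, 49]],
  [[39, 41], [30, 31, 49]], [[25, 39], [30, 49, 50]], [[39], [30, 31, 49, 50]], [[25, 50],
  [30, 34, 49]], [[25, 34], [20, 30, 49]], [[20, 34], [18, 30, 49]], [[20, 25], [29, 30, 49]],
  [[25], [29, 30, 41, 49]], [[18, 20, 49], [30, 32]], [[30, 32], [18, 20, 49]], [[18, 20, 30],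
  [19, 49]], [[20, 30], [19, 29, 49]], [[18, 20], [19, 32, 49]], [[20], [19, 29, 32, 49]],
  [[29, 32], [19, 41, 49]], [[29], [19, 30, 41, 49]], [[18, 19, 32], [38, 49]], [[38, 49],
  [18, 19, 32]], [[24, 32, 36], [38, 41]], [[38, 41], [24, 32, 36]], [[18, 24, 32], [38, 49]],
  [[18, 32], [19, 38, 49]], [[18, 24], [15, 38, 49]], [[19, 32, 36], [38, 41]], [[32, 36],
  [24, 38, 41]], [[24, 32], [38, 41, 49]], [[32], [19, 38, 41, 49]], [[19, 36], [11, 38, 41]],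
  [[11, 19, 41], [30, 38]], [[11, 19], [30, 38, 46]], [[19, 41], [30, 38, 49]], [[19, 49],
  [18, 30, 38]], [[19], [18, 30, 38, 46]], [[15, 18, 46], [34, 38]], [[34, 38], [15, 18, 46]],
  [[15, 18, 46], [34, 38]], [[15, 18], [34, 38, 49]], [[18, 46], [30, 34, 38]], [[18],
  [30, 34, 38, 49]], [[7, 30, 46], [11, 34]], [[11, 34], [7, 30, 46]], [[7, 34, 46], [15, 30]],
  [[34, 46], [15, 30, 38]], [[34, 38], [15, 30, 49]], [[34, 49], [15, 30, 50]], [[49, 50],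
  [15, 30, 31]], [[34, 50], [15, 30, 48]], [[7, 11, 46], [30, 43]], [[7, 11], [30, 43, 45]],
  [[11, 46], [30, 38, 43]], [[38, 46], [15, 30, 43]], [[46], [7, 15, 30, 43]], [[11, 30, 45],
  [41, 43]], [[41, 43], [11, 30, 45]], [[0, 34, 42], [7, 48]], [[7, 48], [0, 34, 42]], [[0, 34, 42],
  [7, 48]], [[0, 34], [7, 15, 48]], [[15, 34], [7, 30, 48]], [[34], [7, 30, 42, 48]], [[0, 15],
  [7, 43, 48]], [[7, 15], [30, 43, 48]], [[15, 48], [30, 43, 50]], [[15, 50], [30, 31, 43]],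
  [[31, 50], [30, 43, 44]], [[50], [30, 43, 44, 48]], [[0, 7, 42], [45, 48]], [[7, 42],
  [30, 45, 48]], [[0, 42], [13, 45, 48]], [[7, 30], [43, 45, 48]], [[7], [0, 43, 45, 48]], [[0, 43],
  [5, 45, 48]], [[0], [5, 13, 45, 48]], [[11, 30, 38], [41, 43]], [[11, 38], [36, 41, 43]],
  [[11, 36], [41, 43, 45]], [[11], [30, 41, 43, 45]], [[36, 38], [24, 41, 43]], [[15, 24, 43],
  [31, 38]], [[15, 24], [31, 38, 49]], [[24, 49], [31, 38, 41]], [[15, 43], [30, 31, 38]], [[15],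
  [30, 31, 38, 49]], [[49], [30, 31, 38, 41]], [[24, 38], [31, 41, 43]], [[38], [30, 31, 41, 43]],
  [[23, 24, 31], [41, 44]], [[23, 24], [21, 41, 44]], [[21, 23], [13, 41, 44]], [[24, 31],
  [41, 43, 44]], [[31, 43], [30, 41, 44]], [[31], [23, 30, 41, 44]], [[23, 30], [41, 42, 44]],
  [[23], [13, 41, 42, 44]], [[5, 21, 36], [24, 45]], [[5, 36], [24, 43, 45]], [[36, 43],
  [24, 41, 45]], [[36], [21, 24, 41, 45]], [[5, 21, 44], [13, 24]], [[21, 44], [13, 24, 41]],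
  [[21, 41], [13, 24, 45]], [[21], [5, 13, 24, 45]], [[5, 13, 24], [44, 45]], [[5, 24],
  [43, 44, 45]], [[5, 13], [44, 45, 48]], [[5], [43, 44, 45, 48]], [[24, 43], [41, 44, 45]], [[24],
  [13, 41, 44, 45]], [[13, 41], [42, 44, 45]], [[13], [42, 44, 45, 48]], [[42, 48], [30, 44, 45]],
  [[42], [30, 41, 44, 45]], [[41], [30, 43, 44, 45]]]
def E4 : List ℕ := [30, 43, 44, 45, 48]
def L5 : List (List (List ℕ)) :=
  [[[4, 28], [21, 24, 36]], [[24, 43], [4, 36, 44]], [[9, 36], [21, 26, 45]], [[4, 24],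
  [21, 36, 44]], [[24, 44], [21, 36, 47]], [[0, 9, 18], [13, 26]], [[9, 18], [13, 21, 26]], [[0, 9],
  [13, 26, 45]], [[9], [13, 21, 26, 45]], [[17, 28, 32], [36, 39]], [[17, 32], [36, 39, 47]],
  [[32, 47], [24, 36, 39]], [[32], [24, 28, 36, 39]], [[24, 47], [21, 36, 39]], [[24],
  [21, 28, 36, 39]], [[0, 25, 35], [41, 48]], [[0, 25], [41, 43, 48]], [[25, 35], [29, 41, 48]],
  [[25], [29, 41, 43, 48]], [[17, 36, 47], [39, 44]], [[36, 47], [21, 39, 44]], [[21, 47],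
  [39, 44, 46]], [[47], [17, 39, 44, 46]], [[21, 46], [13, 39, 44]], [[17, 46], [39, 44, 48]],
  [[46], [13, 39, 44, 48]], [[0, 43, 45], [4, 26]], [[0, 45], [4, 13, 26]], [[13, 45], [4, 21, 26]],
  [[43, 45], [4, 26, 36]], [[45], [4, 21, 26, 36]], [[2, 17, 31], [28, 29]], [[2, 31],
  [28, 29, 51]], [[17, 28, 31], [29, 39]], [[17, 31], [29, 39, 40]], [[31, 40], [29, 39, 51]],
  [[31], [28, 29, 39, 51]], [[17, 40], [29, 39, 48]], [[17, 48], [29, 39, 44]], [[22, 39, 40],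
  [48, 51]], [[22, 40], [35, 48, 51]], [[39, 40], [29, 48, 51]], [[40], [29, 35, 48, 51]],
  [[29, 35], [41, 48, 51]], [[0, 13, 35], [18, 48]], [[13, 35], [18, 22, 48]], [[0, 35],
  [18, 41, 48]], [[35, 41], [18, 48, 51]], [[35], [18, 22, 48, 51]], [[13, 22, 48], [18, 39]],
  [[18, 39], [13, 22, 48]], [[18, 22, 51], [21, 48]], [[21, 48], [18, 22, 51]], [[13, 22, 39],
  [21, 48]], [[21, 48], [13, 22, 39]], [[13, 22, 39], [21, 48]], [[22, 39], [21, 48, 51]],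
  [[13, 39], [21, 44, 48]], [[13, 44], [4, 21, 48]], [[13, 22], [18, 21, 48]], [[22],
  [18, 21, 48, 51]], [[0, 13, 18], [26, 48]], [[26, 48], [0, 13, 18]], [[0, 13, 18], [26, 48]],
  [[0, 13], [4, 26, 48]], [[0, 18], [26, 41, 48]], [[0, 4], [26, 43, 48]], [[0], [26, 41, 43, 48]],
  [[13, 18], [21, 26, 48]], [[13], [4, 21, 26, 48]], [[2, 18, 21], [26, 51]], [[2, 18],
  [26, 41, 51]], [[18, 41], [26, 48, 51]], [[18], [21, 26, 48, 51]], [[4, 21, 26], [36, 48]],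
  [[4, 21], [36, 44, 48]], [[4, 26], [36, 43, 48]], [[4], [36, 43, 44, 48]], [[21, 44],
  [36, 39, 48]], [[2, 21, 26], [36, 51]], [[21, 26], [36, 48, 51]], [[21, 48], [36, 39, 51]],
  [[21, 39], [28, 36, 51]], [[21], [2, 28, 36, 51]], [[2, 28, 29], [17, 51]], [[28, 29],
  [17, 39, 51]], [[28, 39], [17, 36, 51]], [[28], [2, 17, 36, 51]], [[17, 39, 44], [29, 36]],
  [[39, 44], [29, 36, 48]], [[39, 48], [29, 36, 51]], [[39], [17, 29, 36, 51]], [[44, 48],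
  [29, 36, 43]], [[43, 44], [16, 29, 36]], [[44], [16, 17, 29, 36]], [[17, 51], [2, 29, 36]], [[17],
  [2, 16, 29, 36]], [[2, 26, 41], [16, 51]], [[16, 51], [2, 26, 41]], [[2, 16, 26], [36, 41]],
  [[2, 26], [36, 41, 51]], [[2, 51], [29, 36, 41]], [[2], [16, 29, 36, 41]], [[29, 51],
  [36, 41, 48]], [[51], [26, 36, 41, 48]], [[16, 26], [36, 41, 43]], [[16], [29, 36, 41, 43]],
  [[26], [36, 41, 43, 48]]]
def E5 : List ℕ := [29, 36, 41, 43, 48]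
def L6 : List (List (List ℕ)) :=
  [[[26, 29], [9, 18, 38]], [[18, 26], [9, 38, 46]], [[42, 46], [26, 28, 38]], [[1, 38],
  [18, 28, 29]], [[18, 31], [1, 23, 28]], [[8, 46], [9, 26, 32]], [[18, 46], [9, 28, 38]],
  [[32, 46], [9, 26, 28]], [[46], [9, 26, 28, 38]], [[1, 18], [23, 28, 29]], [[18, 23],
  [9, 28, 29]], [[18], [9, 28, 29, 38]], [[26, 42], [28, 38, 40]], [[8, 26], [9, 25, 32]],
  [[25, 26], [9, 32, 40]], [[29, 38], [9, 16, 28]], [[38, 42], [16, 28, 40]], [[26, 32],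
  [9, 28, 40]], [[26], [9, 28, 38, 40]], [[38], [9, 16, 28, 40]], [[28, 42], [16, 27, 40]], [[42],
  [16, 27, 40, 50]], [[12, 22, 24], [30, 33]], [[12, 24], [30, 33, 47]], [[24, 47], [30, 33, 36]],
  [[24], [22, 30, 33, 36]], [[11, 21, 44], [31, 45]], [[31, 45], [11, 21, 44]], [[11, 31, 44],
  [21, 34]], [[11, 44], [21, 34, 45]], [[44, 45], [21, 34, 49]], [[44, 49], [21, 23, 34]], [[44],
  [21, 23, 31, 34]], [[11, 45], [21, 34, 41]], [[11, 41], [21, 34, 48]], [[1, 2, 28], [30, 31]],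
  [[30, 31], [1, 2, 28]], [[1, 2, 28], [30, 31]], [[1, 2], [30, 31, 35]], [[1, 35], [20, 30, 31]],
  [[1, 28, 29], [23, 30]], [[1, 29], [20, 23, 30]], [[1, 28], [23, 30, 31]], [[1],
  [20, 23, 30, 31]], [[4, 8, 34], [9, 51]], [[4, 8], [9, 25, 51]], [[8, 34], [9, 43, 51]],
  [[8, 10, 25], [32, 51]], [[32, 51], [8, 10, 25]], [[8, 9, 43], [32, 51]], [[8, 9], [25, 32, 51]],
  [[8, 25], [10, 32, 51]], [[8], [10, 32, 43, 51]], [[10, 43], [17, 32, 51]], [[10, 17],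
  [32, 36, 51]], [[10, 32, 40], [25, 36]], [[10, 40], [25, 36, 50]], [[10, 50], [25, 36, 51]],
  [[10], [25, 32, 36, 51]], [[9, 23, 43], [32, 34]], [[23, 43], [17, 32, 34]], [[17, 43],
  [32, 34, 51]], [[43], [9, 32, 34, 51]], [[4, 16, 25], [9, 50]], [[16, 25], [9, 40, 50]], [[4, 25],
  [9, 50, 51]], [[9, 25, 32], [40, 51]], [[9, 25], [40, 50, 51]], [[25, 50], [36, 40, 51]], [[25],
  [32, 36, 40, 51]], [[9, 23, 29], [28, 49]], [[9, 29], [16, 28, 49]], [[16, 29, 49], [19, 28]],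
  [[16, 29], [19, 28, 30]], [[16, 30], [19, 27, 28]], [[19, 20, 29], [30, 49]], [[20, 29],
  [23, 30, 49]], [[19, 29], [28, 30, 49]], [[29], [23, 28, 30, 49]], [[9, 40, 50], [16, 51]],
  [[9, 50], [4, 16, 51]], [[9, 16, 40], [28, 51]], [[9, 40], [28, 32, 51]], [[32, 40],
  [28, 36, 51]], [[32, 36], [17, 28, 51]], [[9, 28, 32], [23, 51]], [[9, 32], [23, 34, 51]],
  [[32, 34], [17, 23, 51]], [[32], [17, 23, 28, 51]], [[27, 28, 40], [16, 36]], [[27, 40],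
  [16, 36, 50]], [[28, 40], [16, 36, 51]], [[40], [16, 36, 50, 51]], [[27, 50], [15, 16, 36]],
  [[4, 9, 49], [16, 34]], [[4, 9], [16, 34, 51]], [[4, 49], [15, 16, 34]], [[9, 16, 28], [49, 51]],
  [[9, 28], [23, 49, 51]], [[9, 16], [34, 49, 51]], [[9], [23, 34, 49, 51]], [[15, 22, 27],
  [19, 36]], [[15, 27], [16, 19, 36]], [[22, 27], [19, 30, 36]], [[16, 27], [19, 28, 36]], [[27],
  [19, 28, 30, 36]], [[12, 22, 33], [30, 45]], [[12, 22], [19, 30, 45]], [[15, 19, 22], [36, 45]],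
  [[19, 22], [30, 36, 45]], [[15, 22], [33, 36, 45]], [[22], [30, 33, 36, 45]], [[0, 3, 50],
  [36, 48]], [[36, 48], [0, 3, 50]], [[3, 36, 50], [0, 51]], [[3, 50], [0, 48, 51]], [[48, 50],
  [0, 4, 51]], [[0, 15, 50], [4, 36]], [[15, 50], [4, 16, 36]], [[16, 50], [4, 36, 51]], [[50],
  [0, 4, 36, 51]], [[0, 15], [4, 36, 47]], [[0, 3, 11], [2, 48]], [[2, 48], [0, 3, 11]],
  [[0, 3, 36], [2, 51]], [[2, 51], [0, 3, 36]], [[0, 2, 3], [11, 36]], [[2, 3], [11, 17, 36]],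
  [[0, 3, 11], [36, 48]], [[0, 3], [36, 48, 51]], [[0, 51], [4, 36, 48]], [[0, 4], [36, 47, 48]],
  [[3, 11, 17], [34, 36]], [[3, 17], [34, 36, 51]], [[3, 51], [34, 36, 48]], [[3],
  [11, 34, 36, 48]], [[48, 51], [4, 34, 36]], [[4, 48], [34, 36, 47]], [[4, 47], [15, 34, 36]],
  [[4, 51], [16, 34, 36]], [[4], [15, 16, 34, 36]], [[15, 47], [33, 34, 36]], [[15, 33],
  [34, 36, 45]], [[15, 16, 19], [36, 49]], [[36, 49], [15, 16, 19]], [[15, 16, 34], [36, 49]],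
  [[16, 34], [36, 49, 51]], [[15, 34], [36, 45, 49]], [[15, 45], [19, 36, 49]], [[15],
  [16, 19, 36, 49]], [[16, 51], [28, 36, 49]], [[16], [19, 28, 36, 49]], [[19, 28], [30, 36, 49]],
  [[19, 36], [30, 45, 49]], [[12, 19, 45], [21, 30]], [[12, 19], [20, 21, 30]], [[19, 45],
  [21, 30, 49]], [[19], [20, 21, 30, 49]], [[12, 20], [14, 21, 30]], [[20, 49], [21, 23, 30]],
  [[20, 23], [21, 30, 31]], [[14, 20], [21, 30, 35]], [[20], [21, 30, 31, 35]], [[17, 34, 51],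
  [23, 36]], [[34, 51], [23, 36, 49]], [[17, 51], [23, 28, 36]], [[51], [23, 28, 36, 49]],
  [[28, 49], [23, 30, 36]], [[2, 17, 28], [31, 36]], [[2, 17], [11, 31, 36]], [[11, 17],
  [31, 34, 36]], [[17, 28], [23, 31, 36]], [[17], [23, 31, 34, 36]], [[23, 28], [30, 31, 36]],
  [[28], [2, 30, 31, 36]], [[0, 2, 11], [35, 36]], [[35, 36], [0, 2, 11]], [[0, 2, 11], [35, 36]],
  [[2, 11], [31, 35, 36]], [[0, 11], [35, 36, 48]], [[2, 31], [30, 35, 36]], [[2], [0, 30, 35, 36]],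
  [[0, 14, 47], [30, 48]], [[0, 47], [30, 36, 48]], [[0, 36], [30, 35, 48]], [[0],
  [14, 30, 35, 48]], [[14, 35], [21, 30, 48]], [[11, 34, 48], [21, 36]], [[21, 36], [11, 34, 48]],
  [[11, 21, 35], [31, 48]], [[11, 21], [31, 34, 48]], [[11, 34], [31, 36, 48]], [[11],
  [31, 35, 36, 48]], [[21, 35], [30, 31, 48]], [[35], [30, 31, 36, 48]], [[12, 14, 30], [21, 47]],
  [[21, 47], [12, 14, 30]], [[12, 14, 21], [30, 41]], [[12, 21], [30, 41, 45]], [[12, 45],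
  [30, 33, 41]], [[12, 33], [30, 41, 47]], [[12], [14, 30, 41, 47]], [[14, 21], [30, 41, 48]],
  [[14], [30, 41, 47, 48]], [[21, 23, 30], [31, 49]], [[23, 30], [31, 36, 49]], [[21, 23],
  [31, 34, 49]], [[23], [31, 34, 36, 49]], [[21, 31, 34], [48, 49]], [[21, 31], [30, 48, 49]],
  [[31, 34], [36, 48, 49]], [[31], [30, 36, 48, 49]], [[21, 30, 45], [41, 49]], [[21, 45],
  [34, 41, 49]], [[21, 34], [41, 48, 49]], [[21], [30, 41, 48, 49]], [[30, 33, 47], [36, 41]],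
  [[30, 47], [36, 41, 48]], [[33, 47], [34, 36, 41]], [[47], [34, 36, 41, 48]], [[30, 33],
  [36, 41, 45]], [[33], [34, 36, 41, 45]], [[30, 48], [36, 41, 49]], [[30], [36, 41, 45, 49]],
  [[45], [34, 36, 41, 49]]]
def E6 : List ℕ := [34, 36, 41, 48, 49]
def L7 : List (List (List ℕ)) :=
  [[[13, 25], [1, 28, 31]], [[13, 28], [1, 31, 41]], [[15, 17], [20, 21, 43]], [[11, 39],
  [43, 44, 45]], [[26, 29], [18, 28, 38]], [[26, 28], [18, 38, 41]], [[29, 38], [1, 18, 28]],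
  [[28, 29], [1, 18, 25]], [[0, 29], [37, 42, 47]], [[28, 38], [1, 18, 41]], [[1, 29],
  [18, 25, 37]], [[13, 31], [1, 36, 41]], [[25, 28], [1, 18, 31]], [[28], [1, 18, 31, 41]],
  [[31, 41], [1, 18, 36]], [[31], [1, 18, 25, 36]], [[29, 42], [18, 37, 47]], [[29],
  [18, 25, 37, 47]], [[1, 13], [14, 36, 41]], [[25, 47], [18, 36, 37]], [[25], [1, 18, 36, 37]],
  [[1, 37], [14, 18, 36]], [[1, 38], [14, 18, 41]], [[1], [14, 18, 36, 41]], [[2, 26, 41],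
  [18, 48]], [[18, 48], [2, 26, 41]], [[2, 26, 33], [18, 48]], [[2, 26], [18, 41, 48]], [[26, 41],
  [18, 38, 48]], [[26], [18, 33, 38, 48]], [[38, 41], [14, 18, 48]], [[14, 24, 38], [18, 22]],
  [[14, 38], [18, 22, 48]], [[38, 48], [18, 22, 33]], [[38], [18, 22, 24, 33]], [[14, 24],
  [18, 22, 37]], [[12, 24, 37], [22, 42]], [[12, 24], [22, 33, 42]], [[24, 33], [18, 22, 42]],
  [[24], [18, 22, 37, 42]], [[12, 37], [0, 22, 42]], [[12, 33], [22, 42, 45]], [[12],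
  [0, 22, 42, 45]], [[4, 11, 46], [30, 43]], [[4, 11], [30, 43, 45]], [[11, 45], [30, 43, 44]],
  [[11, 44], [30, 43, 50]], [[11], [30, 43, 46, 50]], [[14, 21, 35], [17, 48]], [[17, 48],
  [14, 21, 35]], [[14, 17, 35], [21, 22]], [[21, 22], [14, 17, 35]], [[21, 35, 40], [43, 48]],
  [[43, 48], [21, 35, 40]], [[17, 21, 35], [14, 43]], [[17, 21], [14, 20, 43]], [[17, 35],
  [14, 22, 43]], [[0, 17, 20], [37, 43]], [[0, 17], [22, 37, 43]], [[17, 22], [14, 37, 43]], [[17],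
  [14, 20, 37, 43]], [[14, 21, 35], [43, 48]], [[21, 35], [40, 43, 48]], [[14, 35], [22, 43, 48]],
  [[35], [22, 40, 43, 48]], [[22, 40], [39, 43, 48]], [[0, 20, 36], [15, 37]], [[0, 36],
  [15, 37, 47]], [[0, 20], [15, 37, 43]], [[13, 14, 20], [21, 36]], [[13, 20], [15, 21, 36]],
  [[13, 14], [21, 36, 41]], [[13, 41], [21, 23, 36]], [[23, 41], [3, 21, 36]], [[3, 23],
  [21, 36, 50]], [[10, 13, 15], [36, 46]], [[13, 15], [21, 36, 46]], [[13, 21], [23, 36, 46]],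
  [[13], [10, 23, 36, 46]], [[21, 23], [36, 46, 50]], [[23], [10, 36, 46, 50]], [[14, 20, 21],
  [36, 43]], [[20, 21], [15, 36, 43]], [[14, 20], [36, 37, 43]], [[20], [15, 36, 37, 43]],
  [[15, 21], [36, 43, 46]], [[21, 46], [36, 43, 50]], [[21, 50], [3, 36, 43]], [[3, 21, 36],
  [41, 43]], [[41, 43], [3, 21, 36]], [[3, 21, 36], [41, 43]], [[3, 21], [40, 41, 43]], [[21, 40],
  [41, 43, 48]], [[21, 48], [14, 41, 43]], [[21], [14, 36, 41, 43]], [[3, 40], [41, 43, 44]],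
  [[2, 40, 41], [44, 48]], [[44, 48], [2, 40, 41]], [[3, 36, 50], [43, 51]], [[3, 36],
  [41, 43, 51]], [[3, 41], [43, 44, 51]], [[3], [43, 44, 50, 51]], [[44, 50], [30, 43, 51]],
  [[10, 30, 50], [46, 51]], [[30, 50], [43, 46, 51]], [[43, 50], [36, 46, 51]], [[50],
  [10, 36, 46, 51]], [[2, 39, 40], [44, 48]], [[39, 40], [43, 44, 48]], [[2, 39], [33, 44, 48]],
  [[2, 40], [41, 44, 48]], [[40], [41, 43, 44, 48]], [[2, 18, 33], [48, 51]], [[2, 33],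
  [44, 48, 51]], [[2, 18], [41, 48, 51]], [[2], [41, 44, 48, 51]], [[41, 44], [43, 48, 51]],
  [[14, 41, 48], [18, 43]], [[41, 48], [18, 43, 51]], [[14, 48], [18, 22, 43]], [[41, 51],
  [18, 36, 43]], [[41], [14, 18, 36, 43]], [[14, 22], [18, 37, 43]], [[14], [18, 36, 37, 43]],
  [[39, 43, 48], [22, 44]], [[39, 48], [22, 33, 44]], [[33, 39], [22, 44, 45]], [[39],
  [22, 43, 44, 45]], [[18, 43, 48], [22, 51]], [[18, 48], [22, 33, 51]], [[18, 33], [22, 42, 51]],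
  [[33, 48], [22, 44, 51]], [[48], [22, 43, 44, 51]], [[22, 43, 44], [45, 51]], [[45, 51],
  [22, 43, 44]], [[22, 33, 44], [45, 51]], [[45, 51], [22, 33, 44]], [[22, 33, 42], [45, 51]],
  [[33, 42], [30, 45, 51]], [[30, 33], [44, 45, 51]], [[33], [22, 44, 45, 51]], [[22, 44],
  [43, 45, 51]], [[44], [30, 43, 45, 51]], [[0, 22, 37], [42, 43]], [[42, 43], [0, 22, 37]],
  [[0, 22, 42], [37, 45]], [[0, 22], [37, 43, 45]], [[22, 37, 42], [18, 45]], [[22, 37],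
  [18, 43, 45]], [[22, 42], [18, 45, 51]], [[22], [18, 43, 45, 51]], [[0, 4, 15], [43, 47]],
  [[43, 47], [0, 4, 15]], [[0, 4, 15], [43, 47]], [[43, 47], [0, 4, 15]], [[0, 4, 47], [15, 42]],
  [[4, 47], [10, 15, 42]], [[0, 47], [15, 37, 42]], [[0, 15, 37], [42, 43]], [[0, 15], [4, 42, 43]],
  [[0, 37], [42, 43, 45]], [[0], [4, 42, 43, 45]], [[37, 45], [18, 42, 43]], [[4, 45],
  [30, 42, 43]], [[18, 45], [42, 43, 51]], [[45], [30, 42, 43, 51]], [[4, 10, 30], [42, 46]],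
  [[4, 30], [42, 43, 46]], [[10, 30], [42, 46, 51]], [[30], [42, 43, 46, 51]], [[4, 10],
  [15, 42, 46]], [[4], [15, 42, 43, 46]], [[10, 15, 36], [46, 47]], [[10, 36], [46, 47, 51]],
  [[10, 15], [42, 46, 47]], [[10], [42, 46, 47, 51]], [[15, 36, 46], [43, 47]], [[15, 36],
  [37, 43, 47]], [[36, 46], [43, 47, 51]], [[46, 51], [42, 43, 47]], [[46], [15, 42, 43, 47]],
  [[15], [37, 42, 43, 47]], [[36, 51], [18, 43, 47]], [[36], [18, 37, 43, 47]], [[37],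
  [18, 42, 43, 47]]]
def E7 : List ℕ := [18, 42, 43, 47, 51]
def L8 : List (List (List ℕ)) :=
  [[[16, 44], [11, 36, 43]], [[18, 42], [29, 37, 47]], [[37, 42], [27, 29, 47]], [[31, 46],
  [9, 32, 45]], [[31, 45], [2, 9, 32]], [[42, 50], [27, 29, 40]], [[42], [27, 29, 40, 47]],
  [[19, 46], [9, 26, 45]], [[19], [9, 26, 37, 45]], [[18, 45], [25, 37, 47]], [[18, 47],
  [25, 29, 37]], [[18, 37], [1, 25, 29]], [[18], [1, 23, 25, 29]], [[26, 37], [9, 25, 45]],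
  [[40, 47], [27, 29, 35]], [[1, 37], [4, 25, 29]], [[45, 46], [9, 26, 32]], [[46], [6, 9, 26, 32]],
  [[26, 45], [9, 25, 32]], [[26], [6, 9, 25, 32]], [[32, 45], [2, 9, 25]], [[31, 32], [2, 9, 43]],
  [[37, 45], [9, 25, 47]], [[2, 45], [9, 25, 35]], [[45], [9, 25, 35, 47]], [[1, 4, 25], [29, 51]],
  [[1, 4], [20, 29, 51]], [[1, 20], [23, 29, 51]], [[1], [23, 25, 29, 51]], [[23, 25],
  [11, 29, 51]], [[2, 9, 32], [25, 43]], [[2, 32], [10, 25, 43]], [[10, 32], [6, 25, 43]], [[32],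
  [6, 9, 25, 43]], [[6, 10], [25, 43, 51]], [[2, 10], [11, 25, 43]], [[10], [11, 25, 43, 51]],
  [[2, 9, 35], [25, 31]], [[2, 35], [11, 25, 31]], [[2, 9], [25, 31, 43]], [[2], [11, 25, 31, 43]],
  [[4, 6, 25], [9, 51]], [[6, 25], [9, 43, 51]], [[4, 6], [9, 34, 51]], [[6], [9, 34, 43, 51]],
  [[4, 27, 37], [9, 29]], [[9, 29], [4, 27, 37]], [[4, 9, 37], [25, 27]], [[4, 37], [25, 27, 29]],
  [[9, 37], [25, 27, 47]], [[37], [25, 27, 29, 47]], [[9, 47], [25, 27, 35]], [[47],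
  [25, 27, 29, 35]], [[11, 21, 44], [31, 36]], [[21, 44], [24, 31, 36]], [[24, 44], [31, 36, 43]],
  [[44], [11, 31, 36, 43]], [[20, 23, 50], [29, 36]], [[23, 50], [29, 36, 40]], [[20, 50],
  [27, 29, 36]], [[50], [27, 29, 36, 40]], [[23, 40], [11, 29, 36]], [[11, 16, 23], [36, 51]],
  [[11, 16], [36, 43, 51]], [[16, 23], [20, 36, 51]], [[16, 20], [34, 36, 51]], [[16],
  [34, 36, 43, 51]], [[11, 23], [29, 36, 51]], [[23], [20, 29, 36, 51]], [[11, 21, 40], [35, 36]],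
  [[11, 40], [29, 35, 36]], [[29, 40], [27, 35, 36]], [[40], [21, 27, 35, 36]], [[21, 27],
  [24, 35, 36]], [[21, 24], [31, 35, 36]], [[21], [11, 31, 35, 36]], [[4, 9, 22], [27, 34]],
  [[9, 22], [24, 27, 34]], [[22, 24], [27, 34, 36]], [[4, 22], [20, 27, 34]], [[22],
  [20, 27, 34, 36]], [[4, 20, 29], [27, 51]], [[4, 20], [27, 34, 51]], [[20, 29], [27, 36, 51]],
  [[20], [27, 34, 36, 51]], [[4, 34], [9, 27, 51]], [[4, 29], [25, 27, 51]], [[4], [9, 25, 27, 51]],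
  [[9, 34, 43], [24, 51]], [[9, 34], [24, 27, 51]], [[27, 34], [24, 36, 51]], [[34],
  [24, 36, 43, 51]], [[25, 27, 29], [35, 51]], [[25, 29], [11, 35, 51]], [[11, 29], [35, 36, 51]],
  [[29], [27, 35, 36, 51]], [[27, 36], [24, 35, 51]], [[25, 27], [9, 35, 51]], [[27],
  [9, 24, 35, 51]], [[9, 24, 31], [35, 43]], [[24, 31], [35, 36, 43]], [[24, 36], [35, 43, 51]],
  [[24], [9, 35, 43, 51]], [[36, 51], [11, 35, 43]], [[36], [11, 31, 35, 43]], [[11, 51],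
  [25, 35, 43]], [[11], [25, 31, 35, 43]], [[31], [9, 25, 35, 43]]]
def E8 : List ℕ := [9, 25, 35, 43, 51]
def L9 : List (List (List ℕ)) :=
  [[[18, 23], [6, 28, 29]], [[1, 12], [13, 31, 45]], [[5, 36], [21, 26, 45]], [[18, 29],
  [6, 26, 28]], [[4, 39], [16, 25, 35]], [[2, 8], [31, 35, 45]], [[1, 13], [31, 45, 51]], [[13, 51],
  [0, 31, 45]], [[13, 31], [0, 12, 45]], [[1, 45], [2, 31, 51]], [[6, 18], [26, 28, 46]], [[21, 47],
  [36, 37, 45]], [[4, 37], [8, 25, 27]], [[27, 37], [8, 25, 47]], [[12, 31], [0, 45, 46]],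
  [[26, 29], [6, 28, 38]], [[27, 47], [8, 25, 35]], [[0, 51], [31, 32, 45]], [[45, 51],
  [2, 31, 32]], [[36, 47], [25, 37, 45]], [[25, 27], [4, 8, 35]], [[0, 31], [32, 45, 46]],
  [[31, 46], [8, 32, 45]], [[18, 28], [0, 26, 46]], [[21, 36], [26, 37, 45]], [[36],
  [25, 26, 37, 45]], [[26, 38], [6, 28, 40]], [[21, 37], [19, 26, 45]], [[35, 47], [8, 25, 45]],
  [[47], [8, 25, 37, 45]], [[29, 38], [6, 16, 28]], [[38], [6, 16, 28, 40]], [[0, 28],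
  [26, 32, 46]], [[0, 32], [26, 45, 46]], [[25, 37], [8, 26, 45]], [[37], [8, 19, 26, 45]],
  [[28, 46], [6, 26, 32]], [[26, 28], [6, 32, 40]], [[6, 46], [8, 26, 32]], [[26, 40], [6, 25, 32]],
  [[6, 26], [8, 25, 32]], [[0, 5, 13], [18, 45]], [[0, 13], [12, 18, 45]], [[0, 12], [18, 45, 46]],
  [[0, 46], [18, 26, 45]], [[0], [5, 18, 26, 45]], [[5, 13], [18, 21, 45]], [[5], [18, 21, 26, 45]],
  [[13], [12, 18, 21, 45]], [[12, 21], [18, 19, 45]], [[12], [18, 19, 45, 46]], [[21],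
  [18, 19, 26, 45]], [[18], [19, 26, 45, 46]], [[19], [8, 26, 45, 46]], [[46], [8, 26, 32, 45]],
  [[26], [8, 25, 32, 45]], [[1, 2, 35], [31, 44]], [[1, 2], [31, 44, 51]], [[2, 51], [31, 32, 44]],
  [[1, 51], [20, 31, 44]], [[1], [20, 31, 35, 44]], [[32, 51], [31, 44, 48]], [[51],
  [20, 31, 44, 48]], [[2, 25, 39], [35, 40]], [[25, 39], [16, 35, 40]], [[16, 39], [35, 40, 44]],
  [[39], [2, 35, 40, 44]], [[2, 35, 45], [25, 31]], [[2, 45], [25, 31, 32]], [[32, 45],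
  [8, 25, 31]], [[45], [8, 25, 31, 35]], [[2, 25, 32], [31, 40]], [[2, 32], [31, 40, 44]], [[2, 44],
  [31, 35, 40]], [[2], [25, 31, 35, 40]], [[15, 23, 43], [24, 32]], [[15, 43], [24, 31, 32]],
  [[15, 31], [24, 32, 48]], [[15], [23, 24, 32, 48]], [[31, 43], [8, 24, 32]], [[6, 8, 43],
  [32, 34]], [[8, 43], [24, 32, 34]], [[6, 43], [23, 32, 34]], [[43], [23, 24, 32, 34]],
  [[17, 20, 24], [35, 48]], [[20, 24], [31, 35, 48]], [[17, 20], [35, 44, 48]], [[20],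
  [31, 35, 44, 48]], [[17, 27, 30], [24, 49]], [[17, 30], [24, 49, 50]], [[17, 27], [24, 35, 49]],
  [[27, 30], [22, 24, 49]], [[30], [22, 24, 49, 50]], [[22, 50], [23, 24, 49]], [[23, 50],
  [24, 29, 49]], [[50], [17, 24, 29, 49]], [[22, 23], [24, 34, 49]], [[4, 8, 22], [27, 34]],
  [[27, 34], [4, 8, 22]], [[4, 27, 35], [8, 49]], [[4, 27], [8, 22, 49]], [[22, 27], [8, 24, 49]],
  [[27], [8, 24, 35, 49]], [[22, 24], [8, 34, 49]], [[22], [4, 8, 34, 49]], [[4, 34], [6, 8, 49]],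
  [[4, 6, 8], [25, 49]], [[4, 6], [16, 25, 49]], [[4, 8], [25, 35, 49]], [[4], [16, 25, 35, 49]],
  [[6, 8, 34], [32, 49]], [[6, 34], [23, 32, 49]], [[6, 8], [25, 32, 49]], [[8, 34], [24, 32, 49]],
  [[34], [23, 24, 32, 49]], [[8, 24, 49], [32, 35]], [[8, 49], [25, 32, 35]], [[8, 25],
  [31, 32, 35]], [[8], [24, 31, 32, 35]], [[25, 31], [32, 35, 40]], [[31, 40], [32, 35, 44]],
  [[31, 44], [32, 35, 48]], [[31], [24, 32, 35, 48]], [[6, 25, 49], [16, 32]], [[16, 32],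
  [6, 25, 49]], [[6, 25, 40], [16, 32]], [[25, 40], [16, 32, 35]], [[25, 35], [16, 32, 49]], [[25],
  [6, 16, 32, 49]], [[6, 40], [16, 28, 32]], [[28, 40], [16, 32, 44]], [[40], [16, 32, 35, 44]],
  [[6, 16, 28], [29, 32]], [[6, 16], [29, 32, 49]], [[6, 49], [23, 29, 32]], [[6],
  [23, 28, 29, 32]], [[23, 28], [29, 32, 48]], [[28, 48], [29, 32, 44]], [[28], [16, 29, 32, 44]],
  [[23, 49], [24, 29, 32]], [[23], [24, 29, 32, 48]], [[16, 17, 44], [29, 35]], [[16, 17],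
  [29, 35, 49]], [[17, 49], [24, 29, 35]], [[24, 49], [29, 32, 35]], [[49], [16, 29, 32, 35]],
  [[16], [29, 32, 35, 44]], [[17, 44], [29, 35, 48]], [[17], [24, 29, 35, 48]], [[24],
  [29, 32, 35, 48]]]
def E9 : List ℕ := [29, 32, 35, 44, 48]
def L10 : List (List (List ℕ)) :=
  [[[17, 33], [32, 43, 47]], [[25, 30], [24, 50, 51]], [[7, 42, 51], [30, 47]], [[7, 42],
  [4, 30, 47]], [[42, 51], [26, 30, 47]], [[42], [4, 26, 30, 47]], [[6, 17, 51], [36, 43]],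
  [[17, 51], [36, 43, 47]], [[17, 47], [32, 36, 43]], [[17], [6, 32, 36, 43]], [[32, 47],
  [33, 36, 43]], [[32, 33], [19, 36, 43]], [[2, 8, 11], [25, 43]], [[2, 8], [25, 32, 43]], [[8, 32],
  [6, 25, 43]], [[8, 11], [25, 43, 51]], [[8], [6, 25, 43, 51]], [[2, 11, 25], [24, 43]], [[2, 11],
  [24, 43, 49]], [[11, 49], [12, 24, 43]], [[11, 12], [24, 43, 51]], [[11], [24, 25, 43, 51]],
  [[2, 49], [19, 24, 43]], [[19, 49], [24, 37, 43]], [[49], [12, 24, 37, 43]], [[2, 19, 40],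
  [24, 32]], [[24, 32], [2, 19, 40]], [[2, 24, 25], [40, 43]], [[2, 25], [32, 40, 43]], [[2, 32],
  [19, 40, 43]], [[2], [19, 24, 40, 43]], [[25, 32], [6, 40, 43]], [[6, 32], [36, 40, 43]], [[32],
  [19, 36, 40, 43]], [[6, 25, 50], [40, 51]], [[25, 50], [24, 40, 51]], [[6, 25], [40, 43, 51]],
  [[25], [24, 40, 43, 51]], [[6, 50], [36, 40, 51]], [[6], [36, 40, 43, 51]], [[4, 26, 30],
  [12, 47]], [[26, 30], [12, 47, 51]], [[26, 51], [12, 43, 47]], [[26, 43], [12, 34, 47]], [[26],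
  [4, 12, 34, 47]], [[4, 7, 15], [46, 47]], [[4, 15], [34, 46, 47]], [[4, 34], [12, 46, 47]],
  [[4, 12], [30, 46, 47]], [[4], [7, 30, 46, 47]], [[15, 34], [33, 46, 47]], [[7, 13, 15],
  [36, 46]], [[7, 15], [36, 46, 47]], [[13, 15], [33, 36, 46]], [[15], [33, 36, 46, 47]], [[7, 13],
  [23, 36, 46]], [[7, 23], [36, 46, 50]], [[7, 46, 47], [30, 36]], [[7, 47], [30, 36, 51]],
  [[7, 51], [30, 36, 50]], [[7], [30, 36, 46, 50]], [[12, 34, 43], [37, 47]], [[12, 34],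
  [37, 46, 47]], [[34, 46], [33, 37, 47]], [[34], [33, 37, 43, 47]], [[13, 19, 23], [36, 37]],
  [[13, 19], [33, 36, 37]], [[19, 33], [36, 37, 43]], [[33, 43], [36, 37, 47]], [[33, 47],
  [36, 37, 46]], [[33], [13, 36, 37, 46]], [[13], [23, 36, 37, 46]], [[19, 23, 36], [37, 40]],
  [[19, 36], [37, 40, 43]], [[19, 23], [24, 37, 40]], [[19], [24, 37, 40, 43]], [[12, 22, 24],
  [30, 37]], [[30, 37], [12, 22, 24]], [[12, 22, 24], [30, 37]], [[30, 37], [12, 22, 24]],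
  [[12, 30, 47], [46, 51]], [[30, 47], [36, 46, 51]], [[30, 36], [46, 50, 51]], [[12, 24, 30],
  [22, 51]], [[24, 30], [22, 50, 51]], [[12, 30], [22, 46, 51]], [[30], [22, 46, 50, 51]],
  [[12, 37, 47], [43, 46]], [[12, 47], [43, 46, 51]], [[37, 47], [36, 43, 46]], [[47],
  [36, 43, 46, 51]], [[12, 22, 24], [37, 51]], [[12, 24], [37, 43, 51]], [[12, 43], [37, 46, 51]],
  [[12], [22, 37, 46, 51]], [[43, 46], [36, 37, 51]], [[36, 43], [37, 40, 51]], [[43],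
  [24, 37, 40, 51]], [[22, 23, 46], [37, 50]], [[22, 23], [24, 37, 50]], [[23, 46], [36, 37, 50]],
  [[23, 36], [37, 40, 50]], [[23], [24, 37, 40, 50]], [[22, 24], [37, 50, 51]], [[22],
  [37, 46, 50, 51]], [[24], [37, 40, 50, 51]], [[40], [36, 37, 50, 51]]]
def E10 : List ℕ := [36, 37, 46, 50, 51]
def L11 : List (List (List ℕ)) :=
  [[[7, 39], [43, 44, 45]], [[39, 45], [36, 43, 44]], [[39, 44], [16, 36, 43]], [[16, 44],
  [8, 36, 43]], [[0, 2, 6], [3, 35]], [[0, 2], [3, 25, 35]], [[0, 25], [3, 35, 48]], [[0],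
  [3, 6, 35, 48]], [[8, 16, 43], [36, 51]], [[36, 51], [8, 16, 43]], [[8, 16, 36], [23, 43]],
  [[8, 16], [23, 43, 51]], [[16, 51], [23, 39, 43]], [[16], [23, 36, 39, 43]], [[8, 25, 29],
  [23, 35]], [[8, 29], [23, 35, 40]], [[25, 29], [23, 35, 48]], [[29], [23, 35, 40, 48]],
  [[4, 7, 45], [30, 43]], [[4, 7], [30, 43, 46]], [[7, 46], [30, 43, 50]], [[46, 50], [30, 43, 49]],
  [[7, 50], [30, 43, 44]], [[7], [30, 43, 44, 45]], [[44, 50], [30, 31, 43]], [[2, 31, 50],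
  [17, 43]], [[31, 50], [17, 30, 43]], [[2, 50], [17, 43, 49]], [[50], [17, 30, 43, 49]],
  [[15, 19, 48], [23, 27]], [[23, 27], [15, 19, 48]], [[15, 22, 32], [27, 42]], [[15, 22],
  [19, 27, 42]], [[22, 32], [27, 42, 49]], [[15, 19, 42], [23, 27]], [[15, 19], [23, 27, 48]],
  [[15, 48], [23, 27, 32]], [[15], [23, 27, 32, 42]], [[22, 42, 49], [27, 46]], [[22, 42],
  [19, 27, 46]], [[19, 22], [27, 30, 46]], [[22], [27, 30, 46, 49]], [[3, 28, 48], [25, 32]],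
  [[25, 32], [3, 28, 48]], [[2, 10, 24], [25, 49]], [[25, 49], [2, 10, 24]], [[2, 10, 25], [8, 24]],
  [[10, 25], [8, 24, 51]], [[2, 8, 10], [24, 43]], [[8, 10], [24, 43, 51]], [[2, 10], [24, 43, 49]],
  [[10, 51], [12, 24, 43]], [[10], [12, 24, 43, 49]], [[12, 51], [24, 39, 43]], [[8, 23, 51],
  [25, 43]], [[8, 51], [24, 25, 43]], [[8, 24], [2, 25, 43]], [[23, 28, 51], [25, 39]], [[25, 39],
  [23, 28, 51]], [[23, 25, 51], [28, 43]], [[23, 51], [28, 39, 43]], [[39, 51], [24, 28, 43]],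
  [[51], [24, 25, 28, 43]], [[12, 38, 49], [42, 43]], [[12, 49], [24, 42, 43]], [[12, 24],
  [39, 42, 43]], [[12, 38], [36, 42, 43]], [[12], [36, 39, 42, 43]], [[36, 39], [23, 42, 43]],
  [[38, 49], [42, 43, 46]], [[19, 38, 46], [4, 42]], [[38, 46], [4, 42, 43]], [[38, 43],
  [4, 36, 42]], [[38], [4, 19, 36, 42]], [[23, 39, 42], [32, 43]], [[23, 39], [28, 32, 43]],
  [[28, 39], [24, 32, 43]], [[39], [24, 32, 42, 43]], [[24, 42], [32, 43, 49]], [[2, 24, 25],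
  [3, 43]], [[24, 25], [3, 28, 43]], [[2, 24], [3, 43, 49]], [[2, 49], [3, 17, 43]], [[24, 28],
  [3, 32, 43]], [[24], [3, 32, 43, 49]], [[3, 25, 28], [43, 48]], [[43, 48], [3, 25, 28]],
  [[3, 25, 28], [43, 48]], [[25, 28], [23, 43, 48]], [[3, 28], [32, 43, 48]], [[28],
  [23, 32, 43, 48]], [[3, 25, 48], [35, 43]], [[25, 48], [23, 35, 43]], [[23, 25], [8, 35, 43]],
  [[3, 25], [2, 35, 43]], [[25], [2, 8, 35, 43]], [[2, 8], [31, 35, 43]], [[2, 3, 6], [17, 35]],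
  [[17, 35], [2, 3, 6]], [[2, 3, 17], [6, 43]], [[2, 17], [6, 31, 43]], [[2, 31], [6, 35, 43]],
  [[2], [3, 6, 35, 43]], [[3, 35], [6, 43, 48]], [[3, 32, 48], [27, 43]], [[3, 32], [27, 43, 49]],
  [[3, 49], [17, 27, 43]], [[32, 48], [23, 27, 43]], [[23, 32], [27, 42, 43]], [[32],
  [27, 42, 43, 49]], [[42, 49], [27, 43, 46]], [[17, 49], [27, 30, 43]], [[49], [27, 30, 43, 46]],
  [[3, 6, 17], [34, 43]], [[6, 17], [31, 34, 43]], [[3, 17], [27, 34, 43]], [[17, 31],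
  [30, 34, 43]], [[17], [27, 30, 34, 43]], [[3, 6], [34, 43, 48]], [[3], [27, 34, 43, 48]],
  [[30, 31], [34, 43, 44]], [[30, 44], [34, 43, 45]], [[31, 34], [6, 43, 44]], [[34, 44],
  [6, 43, 45]], [[27, 34], [30, 43, 48]], [[4, 19, 46], [30, 42]], [[19, 46], [27, 30, 42]],
  [[4, 46], [30, 42, 43]], [[46], [27, 30, 42, 43]], [[6, 31, 35], [21, 43]], [[6, 31],
  [21, 43, 44]], [[6, 35], [21, 43, 48]], [[31, 35], [8, 21, 43]], [[31], [8, 21, 43, 44]],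
  [[6, 44], [21, 43, 45]], [[44, 45], [21, 36, 43]], [[44], [8, 21, 36, 43]], [[36, 45],
  [4, 21, 43]], [[6, 21, 45], [41, 43]], [[6, 45], [34, 41, 43]], [[21, 45], [4, 41, 43]], [[6, 21],
  [41, 43, 48]], [[6], [34, 41, 43, 48]], [[4, 45], [30, 41, 43]], [[45], [30, 34, 41, 43]], [[34],
  [30, 41, 43, 48]], [[8, 23, 35], [40, 43]], [[8, 35], [21, 40, 43]], [[21, 35], [40, 43, 48]],
  [[35], [23, 40, 43, 48]], [[8, 21], [36, 40, 43]], [[8], [23, 36, 40, 43]], [[21, 36],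
  [4, 40, 43]], [[21, 48], [40, 41, 43]], [[21], [4, 40, 41, 43]], [[4, 19, 36], [40, 42]],
  [[4, 36], [40, 42, 43]], [[36, 43], [23, 40, 42]], [[36], [19, 23, 40, 42]], [[4, 19, 40],
  [41, 42]], [[4, 19], [30, 41, 42]], [[4, 40], [41, 42, 43]], [[4], [30, 41, 42, 43]],
  [[19, 27, 30], [42, 48]], [[42, 48], [19, 27, 30]], [[19, 23, 48], [27, 40]], [[19, 23],
  [27, 40, 42]], [[23, 42], [27, 40, 43]], [[23], [27, 40, 43, 48]], [[19, 27, 40], [42, 48]],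
  [[19, 27], [30, 42, 48]], [[19, 30], [41, 42, 48]], [[19], [40, 41, 42, 48]], [[27, 30],
  [42, 43, 48]], [[27], [40, 42, 43, 48]], [[30], [41, 42, 43, 48]]]
def E11 : List ℕ := [40, 41, 42, 43, 48]
def L12 : List (List (List ℕ)) :=
  [[[1, 9], [13, 31, 45]], [[31, 46], [0, 9, 45]], [[9, 31], [0, 13, 45]], [[1, 14], [13, 36, 41]],
  [[1, 45], [13, 31, 41]], [[1], [13, 31, 36, 41]], [[17, 32, 47], [33, 39]], [[32, 47],
  [24, 33, 39]], [[24, 32], [33, 39, 42]], [[32], [17, 33, 39, 42]], [[17, 47], [33, 39, 41]],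
  [[17], [33, 39, 41, 42]], [[0, 7, 22], [37, 45]], [[0, 22], [37, 45, 46]], [[0, 7], [37, 42, 45]],
  [[7, 22, 37], [24, 45]], [[7, 37], [24, 42, 45]], [[7, 22], [24, 33, 45]], [[7],
  [24, 33, 42, 45]], [[22, 33], [6, 24, 45]], [[0, 13, 31], [38, 45]], [[0, 31], [38, 42, 45]],
  [[0, 42], [37, 38, 45]], [[13, 31, 36], [38, 41]], [[38, 41], [13, 31, 36]], [[31, 36, 42],
  [38, 41]], [[31, 42], [38, 41, 45]], [[31, 45], [13, 38, 41]], [[31], [13, 36, 38, 41]],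
  [[0, 9, 13], [18, 45]], [[9, 13], [18, 21, 45]], [[9, 21], [18, 19, 45]], [[9, 19], [18, 45, 46]],
  [[9], [0, 18, 45, 46]], [[0, 18, 34], [13, 46]], [[13, 46], [0, 18, 34]], [[0, 13, 38], [34, 45]],
  [[0, 38], [34, 37, 45]], [[0, 13], [18, 34, 45]], [[0, 18], [34, 45, 46]], [[0],
  [34, 37, 45, 46]], [[6, 14, 47], [30, 41]], [[14, 47], [30, 39, 41]], [[6, 24, 47], [30, 33]],
  [[24, 47], [30, 33, 39]], [[6, 47], [30, 33, 41]], [[47], [30, 33, 39, 41]], [[6, 30, 33],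
  [24, 41]], [[24, 41], [6, 30, 33]], [[6, 33, 45], [24, 41]], [[24, 41], [6, 33, 45]],
  [[10, 11, 49], [24, 43]], [[10, 11], [24, 43, 51]], [[11, 51], [24, 39, 43]], [[10, 49],
  [24, 37, 43]], [[10, 26, 51], [30, 43]], [[10, 51], [24, 30, 43]], [[26, 51], [30, 39, 43]],
  [[51], [24, 30, 39, 43]], [[11, 24, 49], [42, 43]], [[24, 49], [37, 42, 43]], [[11, 24],
  [39, 42, 43]], [[11, 49], [38, 42, 43]], [[49], [37, 38, 42, 43]], [[11, 39], [36, 42, 43]],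
  [[11], [36, 38, 42, 43]], [[24, 33, 39], [30, 42]], [[24, 39], [30, 42, 43]], [[33, 39],
  [30, 41, 42]], [[24, 33, 42], [30, 45]], [[24, 33], [6, 30, 45]], [[33, 42], [30, 41, 45]], [[33],
  [6, 30, 41, 45]], [[6, 24], [22, 30, 45]], [[6, 22], [19, 30, 45]], [[19, 22], [30, 45, 46]],
  [[10, 22, 46], [30, 37]], [[30, 37], [10, 22, 46]], [[22, 24, 30], [10, 45]], [[22, 24],
  [10, 37, 45]], [[22, 37], [10, 45, 46]], [[22], [10, 30, 45, 46]], [[37, 46], [10, 34, 45]],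
  [[10, 24, 37], [43, 45]], [[24, 37], [42, 43, 45]], [[10, 37], [34, 43, 45]], [[10, 24],
  [30, 43, 45]], [[24], [30, 42, 43, 45]], [[37, 42], [38, 43, 45]], [[37], [34, 38, 43, 45]],
  [[4, 10, 26], [30, 34]], [[4, 10], [30, 34, 46]], [[4, 26], [20, 30, 34]], [[10, 46],
  [30, 34, 45]], [[10, 45], [30, 34, 43]], [[10], [26, 30, 34, 43]], [[4, 18, 19], [20, 46]],
  [[4, 18], [20, 34, 46]], [[4, 19], [20, 30, 46]], [[4], [20, 30, 34, 46]], [[18, 20, 46],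
  [19, 34]], [[19, 34], [18, 20, 46]], [[18, 34, 46], [20, 45]], [[18, 34], [13, 20, 45]],
  [[34, 46], [20, 30, 45]], [[18, 46], [19, 20, 45]], [[46], [19, 20, 30, 45]], [[13, 18],
  [20, 21, 45]], [[18], [19, 20, 21, 45]], [[19, 30], [6, 20, 45]], [[19], [6, 20, 21, 45]],
  [[6, 14, 20], [21, 30]], [[21, 30], [6, 14, 20]], [[6, 14, 41], [21, 30]], [[6, 41],
  [21, 30, 45]], [[6, 45], [20, 21, 30]], [[6], [14, 20, 21, 30]], [[13, 14, 21], [20, 41]],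
  [[14, 21], [20, 30, 41]], [[13, 21], [20, 41, 45]], [[21], [20, 30, 41, 45]], [[13, 14],
  [20, 36, 41]], [[13, 20, 36], [34, 41]], [[13, 36], [34, 38, 41]], [[13, 20], [34, 41, 45]],
  [[13], [34, 38, 41, 45]], [[20, 45], [30, 34, 41]], [[14, 20, 26], [30, 36]], [[14, 26],
  [30, 36, 39]], [[14, 39], [30, 36, 41]], [[14], [20, 30, 36, 41]], [[20, 41], [30, 34, 36]],
  [[20], [26, 30, 34, 36]], [[39, 41], [30, 36, 42]], [[26, 39], [30, 36, 43]], [[26],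
  [30, 34, 36, 43]], [[39], [30, 36, 42, 43]], [[30, 34, 41], [36, 45]], [[30, 34], [36, 43, 45]],
  [[34, 41], [36, 38, 45]], [[34], [36, 38, 43, 45]], [[30, 43], [36, 42, 45]], [[30],
  [36, 41, 42, 45]], [[41], [36, 38, 42, 45]]]
def E12 : List ℕ := [36, 38, 42, 43, 45]
def L13 : List (List (List ℕ)) :=
  [[[7, 25], [1, 28, 31]], [[25], [1, 28, 31, 51]], [[28, 51], [1, 31, 45]], [[29, 47],
  [0, 40, 42]], [[7, 28], [1, 31, 41]], [[28], [1, 31, 41, 45]], [[37, 39], [33, 46, 48]], [[1, 51],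
  [9, 31, 45]], [[26, 40], [38, 42, 47]], [[40, 47], [0, 38, 42]], [[40, 51], [0, 29, 31]], [[1, 9],
  [12, 31, 45]], [[1, 45], [12, 31, 41]], [[7, 31], [1, 36, 41]], [[9, 51], [0, 31, 45]], [[51],
  [0, 29, 31, 45]], [[29, 45], [0, 31, 42]], [[29], [0, 31, 40, 42]], [[40], [0, 31, 38, 42]],
  [[1, 31], [12, 36, 41]], [[1, 12], [14, 36, 41]], [[1], [7, 14, 36, 41]], [[9, 31], [0, 12, 45]],
  [[0, 5, 9], [18, 45]], [[5, 9], [18, 21, 45]], [[9, 21], [12, 18, 45]], [[9], [0, 12, 18, 45]],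
  [[0, 38, 47], [42, 48]], [[38, 47], [26, 42, 48]], [[26, 47], [4, 42, 48]], [[47],
  [0, 4, 42, 48]], [[7, 14, 41], [21, 36]], [[7, 14], [20, 21, 36]], [[7, 20], [15, 21, 36]],
  [[14, 41], [12, 21, 36]], [[14], [12, 20, 21, 36]], [[7, 41], [21, 23, 36]], [[15, 20],
  [21, 22, 36]], [[7, 10, 15], [36, 46]], [[7, 15], [21, 36, 46]], [[7, 10], [23, 36, 46]], [[7],
  [21, 23, 36, 46]], [[10, 15], [33, 36, 46]], [[10, 19, 33], [36, 37]], [[10, 19], [23, 36, 37]],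
  [[10, 33], [36, 37, 46]], [[10], [23, 36, 37, 46]], [[12, 18, 20], [21, 34]], [[12, 20],
  [21, 34, 36]], [[20, 36], [21, 22, 34]], [[20], [18, 21, 22, 34]], [[15, 21, 39], [22, 46]],
  [[21, 39], [5, 22, 46]], [[15, 39], [22, 33, 46]], [[15, 33], [22, 36, 46]], [[15],
  [21, 22, 36, 46]], [[5, 39], [22, 46, 48]], [[39], [22, 33, 46, 48]], [[0, 31, 38], [12, 42]],
  [[12, 42], [0, 31, 38]], [[0, 31, 45], [12, 42]], [[0, 31], [12, 38, 42]], [[31, 45],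
  [12, 41, 42]], [[31, 38], [12, 36, 42]], [[31], [12, 36, 41, 42]], [[0, 34, 35], [18, 38]],
  [[34, 35], [18, 22, 38]], [[0, 34], [12, 18, 38]], [[0, 35, 38], [18, 48]], [[0, 35],
  [5, 18, 48]], [[35, 38], [18, 22, 48]], [[35], [5, 18, 22, 48]], [[12, 18, 34], [21, 38]],
  [[18, 34], [21, 22, 38]], [[22, 34], [21, 36, 38]], [[34], [12, 21, 36, 38]], [[4, 41, 42],
  [23, 45]], [[4, 41], [21, 23, 45]], [[21, 23, 41], [36, 45]], [[23, 41], [36, 42, 45]], [[21, 41],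
  [12, 36, 45]], [[41], [12, 36, 42, 45]], [[12, 21, 36], [38, 45]], [[12, 21], [18, 38, 45]],
  [[12, 36], [38, 42, 45]], [[12, 42], [0, 38, 45]], [[12], [0, 18, 38, 45]], [[0, 4, 48], [5, 42]],
  [[0, 4], [5, 42, 45]], [[0, 18, 48], [5, 38]], [[18, 48], [5, 22, 38]], [[0, 18], [5, 38, 45]],
  [[18, 22], [5, 21, 38]], [[18], [5, 21, 38, 45]], [[0, 48], [5, 38, 42]], [[0], [5, 38, 42, 45]],
  [[4, 5, 45], [21, 42]], [[21, 42], [4, 5, 45]], [[4, 21, 45], [5, 23]], [[4, 21], [5, 23, 44]],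
  [[4, 45], [5, 23, 42]], [[21, 44], [5, 23, 46]], [[4, 5, 44], [23, 48]], [[4, 44], [23, 26, 48]],
  [[4, 26], [23, 42, 48]], [[4], [5, 23, 42, 48]], [[5, 44], [23, 46, 48]], [[44, 46],
  [23, 37, 48]], [[44], [23, 26, 37, 48]], [[21, 36, 45], [23, 38]], [[21, 45], [5, 23, 38]],
  [[5, 45], [23, 38, 42]], [[45], [23, 36, 38, 42]], [[5, 42], [23, 38, 48]], [[36, 42],
  [19, 23, 38]], [[42, 48], [23, 26, 38]], [[42], [19, 23, 26, 38]], [[5, 21, 22], [38, 46]],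
  [[5, 21], [23, 38, 46]], [[21, 22], [36, 38, 46]], [[21], [23, 36, 38, 46]], [[22, 36],
  [33, 38, 46]], [[5, 23], [38, 46, 48]], [[5], [22, 38, 46, 48]], [[22], [33, 38, 46, 48]],
  [[19, 23, 26], [37, 38]], [[23, 26], [37, 38, 48]], [[19, 23], [36, 37, 38]], [[23, 36],
  [37, 38, 46]], [[23], [37, 38, 46, 48]], [[46, 48], [33, 37, 38]], [[46], [33, 36, 37, 38]],
  [[36], [19, 33, 37, 38]], [[19], [26, 33, 37, 38]]]
def E13 : List ℕ := [26, 33, 37, 38, 48]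
def L14 : List (List (List ℕ)) :=
  [[[22, 48], [7, 35, 38]], [[0, 34], [30, 35, 38]], [[1, 38], [7, 18, 41]], [[1, 12],
  [13, 36, 41]], [[1, 37], [7, 18, 36]], [[1, 18], [7, 36, 41]], [[1], [7, 13, 36, 41]], [[17, 21],
  [7, 20, 35]], [[0, 6, 35], [30, 48]], [[0, 6], [30, 47, 48]], [[0, 47], [30, 38, 48]], [[0],
  [30, 35, 38, 48]], [[7, 13, 36], [20, 41]], [[13, 36], [12, 20, 41]], [[7, 13], [20, 21, 41]],
  [[13], [12, 20, 21, 41]], [[12, 21], [6, 20, 41]], [[6, 20, 21], [35, 41]], [[20, 21],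
  [7, 35, 41]], [[6, 21], [35, 41, 48]], [[21], [7, 35, 41, 48]], [[7, 48], [35, 38, 41]],
  [[15, 37, 45], [18, 26]], [[37, 45], [18, 26, 36]], [[36, 45], [18, 26, 39]], [[45],
  [15, 18, 26, 39]], [[6, 47, 48], [30, 41]], [[6, 48], [30, 35, 41]], [[35, 48], [30, 38, 41]],
  [[48], [30, 38, 41, 47]], [[6, 35], [20, 30, 41]], [[6, 47], [12, 30, 41]], [[6],
  [12, 20, 30, 41]], [[12, 47], [30, 39, 41]], [[47], [30, 38, 39, 41]], [[12, 20, 26], [30, 36]],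
  [[12, 20], [30, 36, 41]], [[12, 26], [30, 36, 39]], [[12], [30, 36, 39, 41]], [[17, 20, 44],
  [35, 37]], [[17, 20], [7, 35, 37]], [[7, 17], [22, 35, 37]], [[17], [22, 35, 37, 44]],
  [[22, 34, 44], [23, 35]], [[34, 44], [23, 30, 35]], [[30, 34], [23, 35, 38]], [[34],
  [22, 23, 35, 38]], [[22, 44], [23, 35, 37]], [[20, 30, 44], [26, 35]], [[30, 44], [23, 26, 35]],
  [[23, 44], [26, 35, 37]], [[44], [20, 26, 35, 37]], [[22, 23, 24], [37, 38]], [[22, 23],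
  [35, 37, 38]], [[22, 35], [7, 37, 38]], [[22], [7, 24, 37, 38]], [[23, 24], [15, 37, 38]],
  [[15, 24], [18, 37, 38]], [[24], [7, 18, 37, 38]], [[15, 23, 26], [30, 37]], [[23, 26],
  [30, 35, 37]], [[23, 35], [30, 37, 38]], [[23], [15, 30, 37, 38]], [[26, 35], [20, 30, 37]],
  [[20, 26], [30, 36, 37]], [[7, 35, 41], [20, 38]], [[35, 41], [20, 30, 38]], [[30, 35],
  [20, 37, 38]], [[35], [7, 20, 37, 38]], [[7, 18, 36], [37, 41]], [[37, 41], [7, 18, 36]],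
  [[7, 20, 37], [36, 38]], [[7, 37], [18, 36, 38]], [[7, 20], [36, 38, 41]], [[7],
  [18, 36, 38, 41]], [[20, 41], [30, 36, 38]], [[20], [30, 36, 37, 38]], [[30, 41], [36, 38, 39]],
  [[41], [18, 36, 38, 39]], [[15, 18, 37], [26, 38]], [[15, 18], [26, 38, 39]], [[15, 37],
  [26, 30, 38]], [[15], [26, 30, 38, 39]], [[30, 39], [26, 36, 38]], [[30], [26, 36, 37, 38]],
  [[37], [18, 26, 36, 38]]]
def E14 : List ℕ := [18, 26, 36, 38, 39]
def L15 : List (List (List ℕ)) :=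
  [[[7, 17], [20, 21, 43]], [[17, 20], [21, 32, 43]], [[9, 23, 24], [43, 48]], [[9, 23],
  [32, 43, 48]], [[9, 32], [31, 43, 48]], [[9], [24, 31, 43, 48]], [[17, 23, 30], [42, 43]],
  [[17, 23], [32, 42, 43]], [[17, 32], [21, 42, 43]], [[17], [21, 30, 42, 43]], [[21, 39, 51],
  [22, 30]], [[21, 51], [22, 30, 42]], [[39, 51], [22, 26, 30]], [[51], [22, 26, 30, 42]],
  [[11, 23, 48], [19, 32]], [[11, 23], [19, 32, 42]], [[11, 48], [19, 27, 32]], [[11, 27],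
  [19, 22, 32]], [[11], [19, 22, 32, 42]], [[0, 6, 36], [47, 50]], [[0, 6], [4, 47, 50]],
  [[0, 4, 50], [43, 47]], [[43, 47], [0, 4, 50]], [[0, 7, 47], [4, 36]], [[0, 47], [4, 36, 50]],
  [[7, 47], [4, 10, 36]], [[47, 50], [4, 6, 36]], [[0, 4, 7], [36, 43]], [[0, 4], [36, 43, 50]],
  [[0, 50], [20, 36, 43]], [[0], [7, 20, 36, 43]], [[4, 10, 47], [34, 36]], [[4, 47], [6, 34, 36]],
  [[10, 47], [33, 34, 36]], [[47], [6, 33, 34, 36]], [[4, 7, 10], [36, 46]], [[4, 10],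
  [34, 36, 46]], [[10, 34], [33, 36, 46]], [[7, 10], [13, 36, 46]], [[10], [13, 33, 36, 46]],
  [[4, 7], [36, 43, 46]], [[7, 13, 21], [20, 46]], [[20, 46], [7, 13, 21]], [[7, 20, 21], [13, 43]],
  [[7, 21], [13, 43, 46]], [[7, 20], [13, 36, 43]], [[7], [13, 36, 43, 46]], [[4, 31, 43],
  [24, 50]], [[4, 31], [16, 24, 50]], [[16, 27, 31], [48, 50]], [[27, 31], [32, 48, 50]], [[31, 32],
  [43, 48, 50]], [[31, 43], [24, 48, 50]], [[31], [16, 24, 48, 50]], [[6, 16, 49], [4, 19]],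
  [[16, 49], [4, 19, 24]], [[6, 16, 19], [4, 27]], [[6, 16], [4, 27, 50]], [[6, 50], [4, 27, 36]],
  [[4, 16, 19], [24, 27]], [[24, 27], [4, 16, 19]], [[4, 16, 27], [19, 50]], [[19, 50],
  [4, 16, 27]], [[4, 16, 19], [24, 27]], [[16, 19], [24, 27, 48]], [[4, 16], [24, 27, 50]], [[16],
  [24, 27, 48, 50]], [[23, 32, 48], [19, 43]], [[23, 48], [19, 24, 43]], [[23, 32], [19, 42, 43]],
  [[19, 24, 48], [27, 43]], [[19, 48], [27, 32, 43]], [[24, 48], [27, 43, 50]], [[48],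
  [27, 32, 43, 50]], [[32, 50], [20, 27, 43]], [[24, 50], [4, 27, 43]], [[24, 27], [4, 19, 43]],
  [[20, 50], [27, 36, 43]], [[50], [4, 27, 36, 43]], [[13, 20, 21], [22, 43]], [[20, 21],
  [22, 32, 43]], [[21, 32], [22, 42, 43]], [[20, 32], [22, 27, 43]], [[32, 42], [19, 22, 43]],
  [[32], [19, 22, 27, 43]], [[20, 27], [22, 36, 43]], [[20], [13, 22, 36, 43]], [[21, 42],
  [22, 30, 43]], [[4, 19, 27], [6, 43]], [[19, 27], [6, 22, 43]], [[22, 27], [6, 36, 43]], [[27],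
  [4, 6, 36, 43]], [[22, 30, 42], [26, 43]], [[26, 43], [22, 30, 42]], [[19, 26, 42], [22, 23]],
  [[22, 23], [19, 26, 42]], [[19, 26, 42], [22, 23]], [[26, 42], [22, 23, 30]], [[19, 42],
  [22, 23, 43]], [[42], [22, 23, 30, 43]], [[13, 21, 22], [39, 43]], [[13, 21], [39, 43, 46]],
  [[21, 22], [30, 39, 43]], [[21, 46], [38, 39, 43]], [[21], [30, 38, 39, 43]], [[13, 36, 46],
  [33, 43]], [[13, 46], [33, 39, 43]], [[13, 36], [22, 33, 43]], [[13], [22, 33, 39, 43]],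
  [[22, 36], [6, 33, 43]], [[33, 34, 36], [6, 46]], [[6, 46], [33, 34, 36]], [[4, 6, 36], [34, 43]],
  [[6, 36], [33, 34, 43]], [[33, 36], [34, 43, 46]], [[36], [4, 34, 43, 46]], [[33, 46],
  [34, 39, 43]], [[6, 33, 43], [22, 34]], [[6, 33], [22, 34, 45]], [[33, 45], [22, 34, 39]], [[33],
  [22, 34, 39, 43]], [[4, 34, 46], [18, 43]], [[4, 46], [18, 38, 43]], [[34, 46], [18, 39, 43]],
  [[46], [18, 38, 39, 43]], [[4, 38], [18, 24, 43]], [[4, 6, 19], [43, 49]], [[4, 6], [34, 43, 49]],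
  [[4, 19], [24, 43, 49]], [[4, 24], [18, 43, 49]], [[4], [18, 34, 43, 49]], [[6, 19, 49],
  [43, 45]], [[6, 19], [22, 43, 45]], [[6, 49], [34, 43, 45]], [[6], [22, 34, 43, 45]], [[34, 49],
  [18, 43, 45]], [[22, 34], [39, 43, 45]], [[34], [18, 39, 43, 45]], [[18, 43, 49], [24, 45]],
  [[18, 49], [24, 37, 45]], [[37, 49], [19, 24, 45]], [[49], [19, 24, 43, 45]], [[18, 37],
  [14, 24, 45]], [[14, 18, 38], [24, 39]], [[24, 39], [14, 18, 38]], [[14, 23, 37], [24, 26]],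
  [[24, 26], [14, 23, 37]], [[14, 18, 24], [38, 45]], [[18, 24], [38, 43, 45]], [[18, 43],
  [38, 39, 45]], [[18], [14, 38, 39, 45]], [[14, 24, 37], [23, 45]], [[14, 24], [23, 38, 45]],
  [[14, 37], [23, 26, 45]], [[24, 37], [19, 23, 45]], [[37], [19, 23, 26, 45]], [[19, 24],
  [23, 43, 45]], [[24], [23, 38, 43, 45]], [[19, 26], [22, 23, 45]], [[19], [22, 23, 43, 45]],
  [[14, 26, 30], [23, 39]], [[23, 39], [14, 26, 30]], [[14, 23, 38], [30, 45]], [[14, 38],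
  [30, 39, 45]], [[23, 38], [30, 43, 45]], [[38], [30, 39, 43, 45]], [[23, 43], [22, 30, 45]],
  [[43], [22, 30, 39, 45]], [[22, 39], [26, 30, 45]], [[22], [23, 26, 30, 45]], [[23],
  [14, 26, 30, 45]]]
def E15 : List ℕ := [14, 26, 30, 39, 45]
def L16 : List (List (List ℕ)) :=
  [[[4, 23], [3, 31, 39]], [[28, 42], [6, 27, 38]], [[8, 44], [11, 36, 43]], [[29, 38], [6, 9, 28]],
  [[11, 44], [36, 39, 43]], [[31, 38], [27, 40, 42]], [[31, 42], [27, 40, 50]], [[9, 38],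
  [6, 28, 40]], [[28, 38], [6, 27, 40]], [[38], [6, 27, 40, 42]], [[42], [6, 27, 40, 50]],
  [[4, 9, 25], [6, 39]], [[6, 39], [4, 9, 25]], [[4, 9, 25], [6, 39]], [[9, 25], [6, 39, 40]],
  [[4, 25], [6, 39, 50]], [[25], [6, 39, 40, 50]], [[8, 11, 23], [36, 51]], [[11, 23],
  [36, 39, 51]], [[8, 11], [36, 43, 51]], [[11], [36, 39, 43, 51]], [[8, 23], [20, 36, 51]],
  [[8, 43], [34, 36, 51]], [[8], [20, 34, 36, 51]], [[20, 23, 31], [3, 51]], [[3, 51],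
  [20, 23, 31]], [[3, 23, 31], [20, 39]], [[23, 31], [20, 39, 51]], [[3, 23], [20, 36, 39]], [[23],
  [20, 36, 39, 51]], [[4, 6, 50], [15, 39]], [[4, 50], [15, 31, 39]], [[6, 15, 50], [27, 39]],
  [[15, 50], [27, 31, 39]], [[6, 50], [27, 39, 40]], [[50], [27, 31, 39, 40]], [[31, 40],
  [27, 39, 51]], [[40, 51], [27, 39, 43]], [[6, 27, 40], [28, 39]], [[27, 40], [28, 39, 43]],
  [[6, 40], [9, 28, 39]], [[40, 43], [28, 39, 44]], [[40], [9, 28, 39, 44]], [[2, 5, 17], [29, 36]],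
  [[5, 17], [29, 36, 44]], [[5, 44], [29, 36, 43]], [[2, 5, 26], [36, 41]], [[2, 5], [29, 36, 41]],
  [[5, 29], [36, 41, 43]], [[5], [26, 36, 41, 43]], [[26, 43], [34, 36, 41]], [[2, 20, 26],
  [36, 48]], [[20, 26], [34, 36, 48]], [[2, 26], [36, 41, 48]], [[26], [34, 36, 41, 48]], [[20, 34],
  [36, 48, 51]], [[27, 30, 34], [43, 48]], [[27, 34], [43, 48, 51]], [[30, 34], [41, 43, 48]],
  [[34, 51], [36, 43, 48]], [[34], [36, 41, 43, 48]], [[2, 36, 41], [29, 48]], [[36, 41],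
  [29, 43, 48]], [[2, 41], [19, 29, 48]], [[41, 43], [29, 30, 48]], [[41], [19, 29, 30, 48]],
  [[6, 19, 30], [27, 29]], [[19, 30], [27, 29, 48]], [[6, 30], [27, 28, 29]], [[30, 48],
  [27, 29, 43]], [[30], [27, 28, 29, 43]], [[6, 9, 28], [29, 39]], [[6, 28], [27, 29, 39]],
  [[27, 28], [29, 39, 43]], [[28, 43], [29, 39, 44]], [[28], [9, 29, 39, 44]], [[43, 44],
  [29, 36, 39]], [[9, 39, 44], [29, 35]], [[39, 44], [29, 35, 36]], [[36, 44], [17, 29, 35]], [[44],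
  [9, 17, 29, 35]], [[9, 17], [29, 35, 49]], [[2, 17, 29], [36, 49]], [[36, 49], [2, 17, 29]],
  [[3, 17, 35], [36, 49]], [[3, 17], [2, 36, 49]], [[17, 35], [29, 36, 49]], [[17],
  [2, 29, 36, 49]], [[6, 9, 29], [39, 49]], [[6, 9], [4, 39, 49]], [[9, 29], [35, 39, 49]], [[9],
  [4, 35, 39, 49]], [[29, 35], [36, 39, 49]], [[4, 6], [15, 39, 49]], [[35, 36], [3, 39, 49]],
  [[35], [3, 4, 39, 49]], [[3, 4, 31], [24, 39]], [[3, 31], [20, 24, 39]], [[4, 31], [15, 24, 39]],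
  [[4, 15], [24, 39, 49]], [[4], [3, 24, 39, 49]], [[3, 20, 24], [2, 39]], [[2, 39], [3, 20, 24]],
  [[2, 3, 20], [24, 36]], [[3, 20], [24, 36, 39]], [[2, 20], [24, 36, 48]], [[3, 39], [24, 36, 49]],
  [[3], [2, 24, 36, 49]], [[2, 19, 29], [48, 49]], [[48, 49], [2, 19, 29]], [[2, 19, 29], [48, 49]],
  [[2, 19], [24, 48, 49]], [[2, 24], [36, 48, 49]], [[2], [29, 36, 48, 49]], [[19, 24],
  [15, 48, 49]], [[6, 15, 49], [19, 39]], [[6, 15], [19, 27, 39]], [[6, 27], [19, 29, 39]], [[6],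
  [19, 29, 39, 49]], [[15, 19, 27], [39, 48]], [[15, 27], [31, 39, 48]], [[19, 27], [29, 39, 48]],
  [[27, 31], [39, 48, 51]], [[15, 19], [39, 48, 49]], [[19], [29, 39, 48, 49]], [[27, 29],
  [39, 43, 48]], [[27], [39, 43, 48, 51]], [[29, 49], [36, 39, 48]], [[29], [36, 39, 43, 48]],
  [[43], [36, 39, 48, 51]], [[15, 31], [24, 39, 48]], [[15], [24, 39, 48, 49]], [[49],
  [24, 36, 39, 48]], [[31, 51], [20, 39, 48]], [[31], [20, 24, 39, 48]], [[24], [20, 36, 39, 48]]]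
def E16 : List ℕ := [20, 36, 39, 48, 51]
def L17 : List (List (List ℕ)) :=
  [[[23, 41], [4, 39, 42]], [[4, 41], [25, 39, 42]], [[14, 21], [7, 20, 35]], [[10, 33],
  [32, 43, 47]], [[7, 15], [20, 21, 43]], [[15, 20], [21, 32, 43]], [[7, 21], [20, 35, 43]],
  [[20, 32], [21, 33, 43]], [[20, 33], [21, 25, 43]], [[7, 14, 35], [20, 22]], [[7, 35],
  [20, 22, 43]], [[14, 35], [20, 22, 44]], [[7, 43], [0, 20, 22]], [[7, 14], [20, 22, 37]], [[7],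
  [0, 20, 22, 37]], [[14], [20, 22, 37, 44]], [[0, 26, 41], [43, 46]], [[26, 41], [43, 46, 47]],
  [[26, 47], [22, 43, 46]], [[26], [0, 22, 43, 46]], [[6, 10, 32], [36, 43]], [[10, 32],
  [36, 43, 47]], [[6, 10], [36, 43, 51]], [[10], [36, 43, 47, 51]], [[12, 39, 41], [42, 47]],
  [[12, 39], [32, 42, 47]], [[12, 32], [33, 42, 47]], [[12], [33, 41, 42, 47]], [[15, 21, 30],
  [42, 43]], [[15, 30], [23, 42, 43]], [[15, 23], [32, 42, 43]], [[15], [21, 32, 42, 43]],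
  [[21, 32], [33, 42, 43]], [[21, 33], [25, 42, 43]], [[21, 42], [25, 30, 43]], [[32, 33],
  [42, 43, 47]], [[33, 47], [41, 42, 43]], [[33], [25, 41, 42, 43]], [[18, 22, 35], [44, 51]],
  [[18, 35], [36, 44, 51]], [[18, 22], [44, 47, 51]], [[18], [36, 44, 47, 51]], [[0, 37, 46],
  [22, 39]], [[0, 37], [20, 22, 39]], [[22, 37, 46], [39, 44]], [[39, 44], [22, 37, 46]],
  [[20, 37, 48], [39, 44]], [[39, 44], [20, 37, 48]], [[20, 22, 37], [39, 44]], [[22, 37],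
  [39, 44, 46]], [[20, 37], [39, 44, 48]], [[37], [39, 44, 46, 48]], [[46, 48], [5, 39, 44]],
  [[5, 46], [39, 44, 47]], [[44, 46], [22, 39, 47]], [[22, 46, 47], [39, 43]], [[22, 46],
  [0, 39, 43]], [[0, 46], [39, 41, 43]], [[46], [39, 41, 43, 47]], [[0, 41], [25, 39, 43]],
  [[25, 41], [39, 42, 43]], [[41], [39, 42, 43, 47]], [[42, 47], [32, 39, 43]], [[0, 25],
  [20, 39, 43]], [[0], [20, 22, 39, 43]], [[32, 42], [23, 39, 43]], [[4, 25, 42], [30, 39]],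
  [[25, 42], [30, 39, 43]], [[4, 42], [23, 30, 39]], [[42], [23, 30, 39, 43]], [[4, 23],
  [30, 31, 39]], [[4, 25], [30, 39, 50]], [[4], [30, 31, 39, 50]], [[20, 21, 25], [24, 43]],
  [[21, 25], [24, 30, 43]], [[21, 30], [24, 27, 43]], [[21, 27], [24, 35, 43]], [[21],
  [20, 24, 35, 43]], [[20, 22, 35], [43, 44]], [[22, 35], [43, 44, 51]], [[20, 22], [39, 43, 44]],
  [[22, 51], [43, 44, 47]], [[22], [39, 43, 44, 47]], [[47, 51], [36, 43, 44]], [[44, 51],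
  [35, 36, 43]], [[32, 36, 47], [5, 43]], [[32, 47], [5, 39, 43]], [[39, 47], [5, 43, 44]], [[47],
  [5, 36, 43, 44]], [[5, 28, 32], [36, 39]], [[5, 32], [36, 39, 43]], [[5, 43], [36, 39, 44]],
  [[6, 32, 36], [28, 43]], [[28, 43], [6, 32, 36]], [[32, 39, 43], [23, 36]], [[32, 43],
  [6, 23, 36]], [[6, 32], [23, 28, 36]], [[32], [23, 28, 36, 39]], [[2, 5, 28], [31, 36]], [[2, 28],
  [6, 31, 36]], [[5, 28], [31, 36, 39]], [[28, 39], [23, 31, 36]], [[28], [6, 23, 31, 36]],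
  [[3, 27, 51], [34, 35]], [[27, 51], [34, 35, 43]], [[3, 34, 51], [6, 35]], [[3, 51], [6, 35, 36]],
  [[34, 51], [6, 35, 43]], [[51], [6, 35, 36, 43]], [[20, 25, 40], [24, 39]], [[20, 40],
  [24, 39, 48]], [[25, 40], [24, 39, 50]], [[25, 50], [24, 30, 39]], [[20, 25], [24, 39, 43]],
  [[25], [24, 30, 39, 43]], [[6, 23, 31], [34, 36]], [[34, 36], [6, 23, 31]], [[6, 23, 31],
  [34, 36]], [[34, 36], [6, 23, 31]], [[6, 23, 36], [31, 43]], [[23, 36], [31, 39, 43]], [[23, 39],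
  [30, 31, 43]], [[6, 23], [31, 34, 43]], [[23], [30, 31, 34, 43]], [[5, 29, 40], [31, 48]],
  [[5, 40], [31, 39, 48]], [[24, 29, 40], [48, 50]], [[24, 40], [39, 48, 50]], [[39, 40],
  [31, 48, 50]], [[40], [29, 31, 48, 50]], [[24, 29], [9, 48, 50]], [[9, 20, 24], [35, 48]],
  [[35, 48], [9, 20, 24]], [[9, 20, 35], [24, 44]], [[20, 35], [24, 43, 44]], [[9, 20],
  [24, 44, 48]], [[20, 48], [24, 39, 44]], [[20], [24, 39, 43, 44]], [[2, 3, 6], [11, 36]],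
  [[11, 36], [2, 3, 6]], [[2, 5, 16], [29, 36]], [[2, 5], [29, 31, 36]], [[5, 16], [29, 36, 44]],
  [[5, 29, 31], [36, 48]], [[5, 29], [36, 44, 48]], [[5, 31], [36, 39, 48]], [[5],
  [36, 39, 44, 48]], [[2, 3, 6], [11, 36]], [[2, 6], [11, 31, 36]], [[3, 6, 35], [34, 36]], [[3, 6],
  [11, 34, 36]], [[6, 11], [31, 34, 36]], [[6, 31], [34, 36, 43]], [[6], [34, 35, 36, 43]],
  [[2, 3, 16], [36, 49]], [[2, 3], [11, 36, 49]], [[2, 16], [29, 36, 49]], [[3, 16], [35, 36, 49]],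
  [[2, 11, 49], [36, 50]], [[2, 49], [29, 36, 50]], [[2, 11], [31, 36, 50]], [[2],
  [29, 31, 36, 50]], [[29, 31], [36, 48, 50]], [[31, 48], [36, 39, 50]], [[3, 11, 36], [34, 49]],
  [[3, 36], [34, 35, 49]], [[3, 35], [27, 34, 49]], [[3], [11, 27, 34, 49]], [[11, 27],
  [30, 34, 49]], [[11, 30, 49], [34, 50]], [[11, 49], [34, 36, 50]], [[11, 30], [31, 34, 50]],
  [[11], [31, 34, 36, 50]], [[9, 16, 35], [44, 49]], [[16, 35], [36, 44, 49]], [[9, 16],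
  [29, 44, 49]], [[16], [29, 36, 44, 49]], [[29, 36, 44], [48, 49]], [[48, 49], [29, 36, 44]],
  [[9, 29, 48], [44, 50]], [[9, 48], [24, 44, 50]], [[9, 29], [44, 49, 50]], [[29, 49],
  [36, 44, 50]], [[29], [36, 44, 48, 50]], [[36, 48], [39, 44, 50]], [[48], [24, 39, 44, 50]],
  [[30, 31, 34], [43, 50]], [[30, 31], [39, 43, 50]], [[31, 39], [36, 43, 50]], [[31],
  [34, 36, 43, 50]], [[36, 39], [43, 44, 50]], [[30, 39], [24, 43, 50]], [[39], [24, 43, 44, 50]],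
  [[36, 49, 50], [34, 44]], [[36, 49], [34, 35, 44]], [[36, 50], [34, 43, 44]], [[36],
  [34, 35, 43, 44]], [[9, 24, 30], [27, 50]], [[9, 30], [27, 49, 50]], [[24, 30], [27, 43, 50]],
  [[30, 49], [27, 34, 50]], [[30], [27, 34, 43, 50]], [[9, 24, 44], [35, 50]], [[24, 44],
  [35, 43, 50]], [[9, 44], [35, 49, 50]], [[24, 43], [27, 35, 50]], [[24], [9, 27, 35, 50]], [[9],
  [27, 35, 49, 50]], [[27, 43], [34, 35, 50]], [[27], [34, 35, 49, 50]], [[43], [34, 35, 44, 50]]]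
def E17 : List ℕ := [34, 35, 44, 49, 50]
def L18 : List (List (List ℕ)) :=
  [[[8, 45], [25, 37, 47]], [[6, 31], [1, 23, 28]], [[8, 42], [29, 37, 47]], [[8, 23], [1, 25, 29]],
  [[1, 8], [25, 29, 37]], [[8], [25, 29, 37, 47]], [[29, 42], [7, 37, 47]], [[25, 45],
  [36, 37, 47]], [[29, 47], [7, 25, 37]], [[25, 47], [7, 36, 37]], [[9, 23], [6, 28, 29]],
  [[23, 31], [1, 25, 28]], [[29, 37], [1, 7, 25]], [[25, 37], [1, 7, 36]], [[23, 25], [1, 28, 29]],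
  [[23], [1, 6, 28, 29]], [[25, 36], [1, 7, 31]], [[9, 29], [6, 26, 28]], [[25, 29], [1, 7, 28]],
  [[25], [1, 7, 28, 31]], [[6, 9], [26, 28, 46]], [[28, 31], [1, 7, 41]], [[31], [1, 7, 36, 41]],
  [[1, 6], [28, 29, 38]], [[1, 29], [7, 28, 38]], [[6, 29], [26, 28, 38]], [[6], [26, 28, 38, 46]],
  [[29], [7, 26, 28, 38]], [[1, 37], [7, 14, 36]], [[1, 36], [7, 14, 41]], [[1, 14], [7, 38, 41]],
  [[1], [7, 28, 38, 41]], [[9, 28], [0, 26, 46]], [[7, 28], [26, 38, 41]], [[0, 28], [26, 41, 46]],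
  [[28], [26, 38, 41, 46]], [[17, 22, 35], [44, 51]], [[17, 22], [44, 47, 51]], [[17, 35],
  [36, 44, 51]], [[17], [36, 44, 47, 51]], [[2, 5, 21], [26, 51]], [[2, 5], [26, 41, 51]], [[2, 21],
  [26, 33, 51]], [[2, 41], [7, 26, 51]], [[2], [7, 26, 33, 51]], [[0, 9, 12], [13, 46]], [[0, 12],
  [13, 34, 46]], [[0, 5, 9], [13, 26]], [[5, 9], [13, 21, 26]], [[0, 9], [13, 26, 46]],
  [[9, 12, 13], [21, 46]], [[9, 13], [21, 26, 46]], [[9, 26], [19, 21, 46]], [[9],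
  [12, 19, 21, 46]], [[12, 13, 20], [21, 34]], [[12, 13], [21, 34, 46]], [[13, 20], [21, 22, 34]],
  [[12, 19, 20], [4, 21]], [[4, 21], [12, 19, 20]], [[12, 20, 34], [4, 21]], [[4, 21],
  [12, 20, 34]], [[4, 12, 20], [19, 34]], [[12, 20], [19, 21, 34]], [[12, 21], [19, 34, 46]], [[12],
  [4, 19, 34, 46]], [[4, 19, 20], [32, 34]], [[19, 20], [21, 32, 34]], [[4, 20], [22, 32, 34]],
  [[20], [21, 22, 32, 34]], [[4, 22], [32, 34, 49]], [[0, 5, 26], [13, 41]], [[0, 5], [13, 35, 41]],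
  [[0, 26], [13, 41, 46]], [[0, 34, 35], [13, 39]], [[0, 35], [13, 39, 41]], [[0, 41],
  [13, 39, 46]], [[0], [13, 34, 39, 46]], [[5, 13, 26], [21, 41]], [[21, 41], [5, 13, 26]],
  [[5, 13, 26], [21, 41]], [[5, 26], [21, 41, 51]], [[13, 26], [21, 41, 46]], [[5, 13, 22],
  [21, 35]], [[5, 22], [21, 35, 51]], [[5, 13], [21, 35, 41]], [[5], [21, 35, 41, 51]], [[13, 22],
  [21, 34, 35]], [[13, 21, 35], [34, 41]], [[13, 35], [34, 39, 41]], [[13, 39], [34, 41, 46]],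
  [[13], [21, 34, 41, 46]], [[4, 19, 32], [34, 38]], [[4, 19], [34, 38, 46]], [[4, 46],
  [15, 34, 38]], [[15, 46], [34, 38, 39]], [[39, 46], [34, 38, 41]], [[4, 15, 24], [38, 49]],
  [[38, 49], [4, 15, 24]], [[4, 15, 24], [38, 49]], [[4, 15], [34, 38, 49]], [[4, 34],
  [32, 38, 49]], [[4], [24, 32, 38, 49]], [[19, 21, 46], [26, 34]], [[21, 46], [26, 34, 41]],
  [[41, 46], [26, 34, 38]], [[46], [19, 26, 34, 38]], [[19, 21, 32], [33, 34]], [[33, 34],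
  [19, 21, 32]], [[19, 21, 26], [33, 34]], [[19, 26], [33, 34, 38]], [[19, 21], [32, 33, 34]],
  [[19], [32, 33, 34, 38]], [[7, 26, 41], [38, 51]], [[7, 26], [33, 38, 51]], [[21, 26, 51],
  [33, 41]], [[33, 41], [21, 26, 51]], [[21, 26, 41], [34, 51]], [[26, 41], [34, 38, 51]],
  [[21, 26], [33, 34, 51]], [[26], [33, 34, 38, 51]], [[21, 41], [34, 35, 51]], [[21, 35],
  [22, 34, 51]], [[22, 35], [34, 44, 51]], [[21, 22, 42], [32, 51]], [[21, 42], [32, 33, 51]],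
  [[21, 22], [32, 34, 51]], [[21], [32, 33, 34, 51]], [[33, 34], [32, 38, 51]], [[7, 24, 33],
  [38, 42]], [[7, 33], [38, 42, 51]], [[24, 33], [32, 38, 42]], [[33], [32, 38, 42, 51]], [[24, 32],
  [38, 42, 49]], [[22, 32, 51], [34, 42]], [[34, 42], [22, 32, 51]], [[22, 32, 34], [49, 51]],
  [[22, 34], [44, 49, 51]], [[22, 32], [42, 49, 51]], [[22, 42], [47, 49, 51]], [[22],
  [44, 47, 49, 51]], [[32, 42], [38, 49, 51]], [[32], [34, 38, 49, 51]], [[34, 35, 41], [39, 51]],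
  [[39, 51], [34, 35, 41]], [[34, 35, 39], [41, 44]], [[34, 35], [41, 44, 51]], [[35, 39],
  [36, 41, 44]], [[35], [36, 41, 44, 51]], [[7, 14, 24], [37, 38]], [[14, 24], [15, 37, 38]],
  [[7, 24], [37, 38, 42]], [[15, 24], [37, 38, 49]], [[24], [37, 38, 42, 49]], [[7, 37, 42],
  [38, 47]], [[7, 42], [38, 47, 51]], [[37, 42], [38, 47, 49]], [[42], [38, 47, 49, 51]],
  [[7, 14, 37], [36, 38]], [[7, 37], [36, 38, 47]], [[7, 47], [36, 38, 51]], [[7, 14],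
  [36, 38, 41]], [[7], [36, 38, 41, 51]], [[14, 41], [36, 38, 39]], [[14, 15, 37], [38, 45]],
  [[14, 15], [38, 39, 45]], [[14, 39], [36, 38, 45]], [[14], [36, 37, 38, 45]], [[36, 37],
  [38, 45, 47]], [[37, 47], [38, 45, 49]], [[37], [15, 38, 45, 49]], [[15, 49], [34, 38, 45]],
  [[15], [34, 38, 39, 45]], [[34, 38, 41], [39, 51]], [[34, 41], [39, 44, 51]], [[41, 44],
  [36, 39, 51]], [[41], [36, 38, 39, 51]], [[34, 39, 45], [38, 44]], [[34, 39], [38, 44, 51]],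
  [[39, 51], [36, 38, 44]], [[39], [36, 38, 44, 45]], [[36, 45], [38, 44, 47]], [[36],
  [38, 44, 47, 51]], [[34, 45], [38, 44, 49]], [[34], [38, 44, 49, 51]], [[45], [38, 44, 47, 49]]]
def E18 : List ℕ := [38, 44, 47, 49, 51]
def L19 : List (List (List ℕ)) :=
  [[[8, 46], [9, 26, 45]], [[8], [9, 26, 37, 45]], [[20, 33], [21, 32, 43]], [[9, 37],
  [21, 26, 45]], [[2, 29, 50], [32, 49]], [[2, 50], [32, 43, 49]], [[2, 43], [10, 32, 49]],
  [[43, 50], [20, 32, 49]], [[50], [20, 29, 32, 49]], [[20, 43], [21, 32, 49]], [[9, 12, 18],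
  [21, 46]], [[9, 18], [21, 26, 46]], [[9, 26], [21, 45, 46]], [[9], [12, 21, 45, 46]],
  [[10, 32, 43], [33, 49]], [[10, 43], [33, 37, 49]], [[37, 43], [21, 33, 49]], [[43],
  [21, 32, 33, 49]], [[6, 22, 27], [15, 30]], [[22, 27], [11, 15, 30]], [[6, 27], [15, 16, 30]],
  [[11, 27], [15, 30, 48]], [[27], [15, 16, 30, 48]], [[10, 13, 36], [23, 33]], [[10, 13],
  [23, 33, 37]], [[13, 37], [23, 26, 33]], [[13, 23, 36], [33, 42]], [[13, 36], [33, 38, 42]],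
  [[13, 38], [26, 33, 42]], [[13], [23, 26, 33, 42]], [[2, 16, 29], [41, 49]], [[2, 29],
  [32, 41, 49]], [[2, 16, 48], [24, 41]], [[24, 41], [2, 16, 48]], [[2, 10, 40], [24, 32]],
  [[24, 32], [2, 10, 40]], [[2, 16, 24], [48, 49]], [[2, 16], [41, 48, 49]], [[16, 24],
  [15, 48, 49]], [[2, 10, 32], [40, 49]], [[2, 32], [40, 41, 49]], [[2, 41], [40, 48, 49]],
  [[2, 10], [24, 40, 49]], [[2], [24, 40, 48, 49]], [[6, 15, 16], [30, 49]], [[15, 16],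
  [30, 48, 49]], [[16, 48], [30, 41, 49]], [[6, 16], [29, 30, 49]], [[16], [29, 30, 41, 49]],
  [[6, 29], [20, 30, 49]], [[4, 29, 41], [30, 32]], [[29, 41], [30, 32, 49]], [[4, 29],
  [20, 30, 32]], [[29], [20, 30, 32, 49]], [[4, 32, 41], [30, 40]], [[32, 41], [30, 40, 49]],
  [[4, 41], [11, 30, 40]], [[11, 41], [30, 40, 48]], [[41], [30, 40, 48, 49]], [[10, 24, 40],
  [23, 49]], [[23, 49], [10, 24, 40]], [[15, 24, 48], [23, 49]], [[15, 24], [23, 37, 49]],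
  [[24, 37], [10, 23, 49]], [[10, 24], [23, 40, 49]], [[24], [23, 40, 48, 49]], [[10, 37],
  [23, 33, 49]], [[10, 23, 33], [36, 49]], [[36, 49], [10, 23, 33]], [[10, 23, 40], [36, 49]],
  [[10, 40], [32, 36, 49]], [[10, 23], [33, 36, 49]], [[10], [32, 33, 36, 49]], [[11, 23, 48],
  [15, 40]], [[23, 48], [15, 40, 49]], [[11, 48], [15, 30, 40]], [[48], [15, 30, 40, 49]],
  [[21, 33, 37], [26, 49]], [[21, 37], [26, 45, 49]], [[37, 45], [15, 26, 49]], [[33, 37],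
  [23, 26, 49]], [[37], [15, 23, 26, 49]], [[4, 11, 40], [30, 36]], [[30, 36], [4, 11, 40]],
  [[4, 18, 20], [12, 32]], [[4, 20], [12, 30, 32]], [[18, 20], [12, 21, 32]], [[6, 20, 21],
  [12, 49]], [[6, 21], [12, 45, 49]], [[6, 20], [12, 30, 49]], [[20, 30], [12, 32, 49]], [[20],
  [12, 21, 32, 49]], [[6, 12, 22], [30, 45]], [[6, 22], [15, 30, 45]], [[6, 15], [30, 45, 49]],
  [[6], [12, 30, 45, 49]], [[12, 22], [30, 45, 46]], [[11, 22, 42], [15, 46]], [[22, 42],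
  [15, 26, 46]], [[11, 22], [15, 30, 46]], [[22, 26], [15, 45, 46]], [[22], [15, 30, 45, 46]],
  [[12, 21, 45], [46, 49]], [[46, 49], [12, 21, 45]], [[21, 26, 45], [46, 49]], [[21, 45],
  [12, 46, 49]], [[26, 45], [15, 46, 49]], [[15, 45], [30, 46, 49]], [[45], [12, 30, 46, 49]],
  [[12, 18, 32], [4, 21]], [[4, 21], [12, 18, 32]], [[4, 12, 32], [18, 30]], [[18, 30],
  [4, 12, 32]], [[4, 12, 30], [32, 46]], [[12, 30], [32, 46, 49]], [[4, 12], [18, 32, 46]],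
  [[4, 18], [32, 38, 46]], [[12, 18], [21, 32, 46]], [[12], [21, 32, 46, 49]], [[18, 21, 32],
  [33, 46]], [[18, 21], [26, 33, 46]], [[18, 26], [33, 38, 46]], [[18], [32, 33, 38, 46]],
  [[26, 38], [33, 42, 46]], [[21, 26], [33, 46, 49]], [[21], [32, 33, 46, 49]], [[15, 26, 42],
  [23, 46]], [[15, 26], [23, 46, 49]], [[26, 42], [23, 33, 46]], [[26], [23, 33, 46, 49]],
  [[15, 42], [11, 23, 46]], [[11, 15, 23], [40, 46]], [[40, 46], [11, 15, 23]], [[11, 15, 23],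
  [40, 46]], [[40, 46], [11, 15, 23]], [[11, 15, 23], [40, 46]], [[40, 46], [11, 15, 23]],
  [[11, 15, 30], [40, 46]], [[15, 30], [40, 46, 49]], [[11, 15], [23, 40, 46]], [[15],
  [23, 40, 46, 49]], [[11, 30], [4, 40, 46]], [[4, 30], [32, 40, 46]], [[30], [32, 40, 46, 49]],
  [[4, 11, 38], [36, 46]], [[4, 38], [32, 36, 46]], [[32, 38], [33, 36, 46]], [[33, 38],
  [36, 42, 46]], [[38], [11, 36, 42, 46]], [[11, 42], [23, 36, 46]], [[42], [23, 33, 36, 46]],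
  [[4, 32], [36, 40, 46]], [[4], [11, 36, 40, 46]], [[11], [23, 36, 40, 46]], [[23, 33],
  [36, 46, 49]], [[23], [36, 40, 46, 49]], [[33], [32, 36, 46, 49]]]
def E19 : List ℕ := [32, 36, 40, 46, 49]
def L20 : List (List (List ℕ)) :=
  [[[19, 33], [21, 32, 43]], [[25, 33], [17, 21, 43]], [[33], [17, 21, 32, 43]], [[17, 32],
  [15, 21, 43]], [[7, 43], [0, 15, 17]], [[43, 49], [19, 21, 50]], [[19, 43], [21, 32, 50]],
  [[32, 43], [15, 21, 50]], [[17, 24, 40], [25, 48]], [[17, 40], [25, 39, 48]], [[24, 40],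
  [2, 25, 48]], [[40], [2, 25, 39, 48]], [[0, 25, 39], [2, 17]], [[25, 39], [2, 17, 48]], [[0, 39],
  [2, 17, 37]], [[39], [2, 17, 37, 48]], [[25, 48], [2, 17, 24]], [[6, 19, 49], [21, 29]], [[6, 49],
  [21, 23, 29]], [[19, 49], [21, 29, 50]], [[49], [21, 23, 29, 50]], [[19, 50], [21, 29, 32]],
  [[0, 3, 25], [2, 43]], [[2, 43], [0, 3, 25]], [[0, 17, 43], [15, 25]], [[15, 25], [0, 17, 43]],
  [[0, 2, 25], [3, 17]], [[0, 25], [3, 17, 43]], [[25, 43], [3, 17, 21]], [[21, 25], [3, 17, 24]],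
  [[25], [2, 3, 17, 24]], [[0, 15, 43], [17, 50]], [[0, 43], [3, 17, 50]], [[15, 43], [17, 21, 50]],
  [[43], [3, 17, 21, 50]], [[0, 2, 36], [3, 37]], [[3, 37], [0, 2, 36]], [[0, 7, 15], [17, 36]],
  [[0, 15], [17, 36, 50]], [[0, 50], [3, 17, 36]], [[0, 3], [2, 17, 36]], [[0, 2], [17, 36, 37]],
  [[0], [7, 17, 36, 37]], [[7, 37], [14, 17, 36]], [[7, 13, 14], [21, 36]], [[7, 14], [17, 21, 36]],
  [[7, 17], [15, 21, 36]], [[7], [13, 15, 21, 36]], [[13, 14], [12, 21, 36]], [[13, 15],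
  [21, 22, 36]], [[15, 17], [21, 36, 50]], [[17, 50], [3, 21, 36]], [[3, 50], [21, 23, 36]],
  [[13, 18, 22], [21, 34]], [[13, 18], [12, 21, 34]], [[12, 13], [21, 34, 36]], [[13],
  [21, 22, 34, 36]], [[15, 21, 32], [22, 50]], [[15, 32], [22, 27, 50]], [[15, 27], [22, 36, 50]],
  [[15], [21, 22, 36, 50]], [[27, 36], [8, 22, 50]], [[4, 8, 27], [22, 29]], [[4, 27],
  [22, 29, 32]], [[8, 27], [22, 29, 50]], [[27], [22, 29, 32, 50]], [[32, 50], [21, 22, 29]],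
  [[4, 22, 32], [18, 29]], [[22, 32], [18, 21, 29]], [[21, 32], [18, 19, 29]], [[32],
  [4, 18, 19, 29]], [[8, 22, 50], [29, 36]], [[8, 50], [23, 29, 36]], [[22, 50], [21, 29, 36]],
  [[50], [21, 23, 29, 36]], [[4, 12, 19], [18, 30]], [[4, 19], [18, 29, 30]], [[6, 12, 19],
  [21, 30]], [[6, 12], [14, 21, 30]], [[12, 19], [18, 21, 30]], [[6, 14], [21, 30, 35]], [[6, 19],
  [21, 29, 30]], [[19], [18, 21, 29, 30]], [[1, 6, 23], [29, 31]], [[6, 23], [21, 29, 31]],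
  [[1, 6, 35], [30, 31]], [[1, 6], [29, 30, 31]], [[6, 35], [21, 30, 31]], [[6], [21, 29, 30, 31]],
  [[4, 18, 30], [12, 29]], [[18, 30], [12, 21, 29]], [[4, 12, 18], [29, 34]], [[12, 18],
  [21, 29, 34]], [[4, 18], [22, 29, 34]], [[18], [21, 22, 29, 34]], [[21, 22], [29, 34, 36]],
  [[22, 36], [8, 29, 34]], [[22], [4, 8, 29, 34]], [[21, 34], [12, 29, 36]], [[2, 26, 37],
  [36, 48]], [[36, 48], [2, 26, 37]], [[14, 17, 37], [36, 44]], [[36, 44], [14, 17, 37]],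
  [[2, 17, 37], [36, 48]], [[2, 37], [26, 36, 48]], [[2, 26], [16, 36, 48]], [[16, 26],
  [34, 36, 48]], [[2, 3, 16], [24, 36]], [[24, 36], [2, 3, 16]], [[2, 3, 24], [16, 17]], [[2, 24],
  [16, 17, 48]], [[2, 3], [16, 17, 36]], [[2], [16, 17, 36, 48]], [[14, 17, 37], [36, 44]],
  [[36, 44], [14, 17, 37]], [[26, 37, 44], [14, 48]], [[26, 37], [14, 36, 48]], [[36, 37],
  [14, 17, 48]], [[37], [14, 17, 44, 48]], [[3, 16, 24], [17, 31]], [[3, 24], [17, 21, 31]],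
  [[16, 24], [17, 31, 48]], [[21, 24], [17, 31, 35]], [[24, 35], [9, 17, 31]], [[24],
  [9, 17, 31, 48]], [[3, 16, 23], [31, 36]], [[3, 23], [21, 31, 36]], [[3, 16], [17, 31, 36]], [[3],
  [17, 21, 31, 36]], [[21, 23], [29, 31, 36]], [[16, 17], [31, 36, 48]], [[1, 8, 23], [29, 51]],
  [[1, 8], [4, 29, 51]], [[1, 23], [29, 31, 51]], [[4, 8], [29, 34, 51]], [[8, 16, 51], [23, 34]],
  [[8, 51], [23, 29, 34]], [[8, 16], [23, 34, 36]], [[8], [23, 29, 34, 36]], [[16, 23, 34],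
  [36, 51]], [[16, 23], [31, 36, 51]], [[23, 31], [29, 36, 51]], [[23], [29, 34, 36, 51]],
  [[16, 31], [36, 48, 51]], [[16], [34, 36, 48, 51]], [[1, 9, 44], [35, 51]], [[35, 51],
  [1, 9, 44]], [[4, 12, 34], [26, 29]], [[4, 12], [26, 29, 30]], [[12, 34], [26, 29, 36]],
  [[4, 34, 48], [26, 51]], [[4, 34], [26, 29, 51]], [[34, 48], [26, 36, 51]], [[34],
  [26, 29, 36, 51]], [[4, 48], [26, 44, 51]], [[1, 4, 30], [29, 44]], [[29, 44], [1, 4, 30]],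
  [[1, 4, 44], [30, 51]], [[4, 44], [26, 30, 51]], [[1, 4], [29, 30, 51]], [[4], [26, 29, 30, 51]],
  [[1, 29], [30, 31, 51]], [[1, 9, 35], [31, 44]], [[9, 35], [17, 31, 44]], [[1, 9], [31, 44, 51]],
  [[1, 35], [30, 31, 44]], [[1], [30, 31, 44, 51]], [[9, 17], [31, 44, 48]], [[9],
  [31, 44, 48, 51]], [[12, 14, 21], [30, 36]], [[12, 21], [29, 30, 36]], [[12, 29], [26, 30, 36]],
  [[12], [14, 26, 30, 36]], [[21, 29], [30, 31, 36]], [[26, 29], [30, 36, 51]], [[29],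
  [30, 31, 36, 51]], [[14, 26, 44], [30, 48]], [[30, 48], [14, 26, 44]], [[14, 35, 44], [17, 30]],
  [[17, 30], [14, 35, 44]], [[14, 17, 21], [35, 36]], [[14, 21], [30, 35, 36]], [[17, 21],
  [31, 35, 36]], [[21], [30, 31, 35, 36]], [[14, 17, 48], [36, 44]], [[36, 44], [14, 17, 48]],
  [[14, 17, 44], [35, 48]], [[35, 48], [14, 17, 44]], [[14, 17, 36], [35, 48]], [[35, 48],
  [14, 17, 36]], [[14, 17, 35], [36, 44]], [[14, 17], [36, 44, 48]], [[14, 35], [30, 36, 44]],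
  [[30, 35], [31, 36, 44]], [[35], [17, 31, 36, 44]], [[17], [31, 36, 44, 48]], [[31, 48],
  [36, 44, 51]], [[31], [30, 36, 44, 51]], [[14, 48], [26, 36, 44]], [[14], [26, 30, 36, 44]],
  [[30], [26, 36, 44, 51]]]
def E20 : List ℕ := [26, 36, 44, 48, 51]
def L21 : List (List (List ℕ)) :=
  [[[14, 17], [7, 20, 35]], [[19, 32], [18, 20, 33]], [[28, 39], [5, 24, 51]], [[9, 47],
  [36, 37, 45]], [[6, 11, 48], [35, 41]], [[11, 48], [35, 40, 41]], [[40, 48], [7, 35, 41]],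
  [[7, 48], [14, 35, 41]], [[48], [6, 14, 35, 41]], [[6, 14, 41], [12, 35]], [[6, 14],
  [12, 20, 35]], [[7, 13, 14], [20, 41]], [[20, 41], [7, 13, 14]], [[7, 14, 20], [13, 35]],
  [[14, 20], [12, 13, 35]], [[12, 14], [13, 35, 41]], [[14], [7, 13, 35, 41]], [[7, 46, 50],
  [23, 43]], [[7, 50], [3, 23, 43]], [[3, 50], [20, 23, 43]], [[46, 50], [23, 43, 49]], [[50],
  [20, 23, 43, 49]], [[17, 32, 42], [15, 33]], [[17, 32], [15, 20, 33]], [[15, 22, 32], [20, 42]],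
  [[20, 42], [15, 22, 32]], [[18, 32, 42], [22, 33]], [[18, 32], [20, 22, 33]], [[32, 42],
  [15, 22, 33]], [[32], [15, 20, 22, 33]], [[18, 42], [22, 33, 51]], [[22, 42], [15, 33, 51]],
  [[15, 30, 42], [17, 51]], [[15, 42], [17, 33, 51]], [[30, 42], [17, 25, 51]], [[42],
  [17, 25, 33, 51]], [[25, 30], [17, 24, 51]], [[2, 26, 33], [18, 37]], [[18, 37], [2, 26, 33]],
  [[2, 5, 26], [18, 36]], [[5, 26], [9, 18, 36]], [[2, 18, 26], [33, 36]], [[2, 26], [33, 36, 37]],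
  [[2, 37], [30, 33, 36]], [[2, 30], [28, 33, 36]], [[2, 5, 18], [36, 51]], [[2, 18], [33, 36, 51]],
  [[2, 33], [28, 36, 51]], [[2], [5, 28, 36, 51]], [[9, 18, 26], [19, 36]], [[18, 26],
  [19, 33, 36]], [[9, 26], [19, 36, 37]], [[26], [19, 33, 36, 37]], [[9, 37], [19, 36, 45]],
  [[9, 12, 18], [13, 19]], [[13, 19], [9, 12, 18]], [[5, 9, 36], [18, 45]], [[9, 36], [18, 19, 45]],
  [[9, 19], [12, 18, 45]], [[5, 9], [13, 18, 45]], [[9], [12, 13, 18, 45]], [[3, 20, 25], [24, 43]],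
  [[24, 43], [3, 20, 25]], [[5, 22, 39], [13, 51]], [[22, 39], [13, 15, 51]], [[5, 22],
  [13, 18, 51]], [[13, 15, 22], [20, 51]], [[13, 22], [18, 20, 51]], [[15, 22], [20, 33, 51]],
  [[22], [18, 20, 33, 51]], [[15, 33], [17, 20, 51]], [[17, 33], [20, 25, 51]], [[17, 25],
  [20, 24, 51]], [[3, 24, 25], [20, 28]], [[24, 25], [20, 28, 51]], [[25, 51], [20, 28, 33]],
  [[25, 33], [20, 28, 43]], [[25], [3, 20, 28, 43]], [[8, 11, 40], [35, 36]], [[8, 40],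
  [27, 35, 36]], [[8, 27], [24, 35, 36]], [[8, 11, 35], [31, 36]], [[8, 35], [24, 31, 36]],
  [[8, 11], [31, 36, 44]], [[8], [24, 31, 36, 44]], [[12, 19, 45], [6, 18]], [[6, 18],
  [12, 19, 45]], [[12, 18, 19], [20, 45]], [[12, 19], [6, 20, 45]], [[6, 19], [20, 45, 49]],
  [[12, 18], [13, 20, 45]], [[12, 13, 41], [35, 45]], [[12, 13], [20, 35, 45]], [[12, 20],
  [6, 35, 45]], [[12], [6, 35, 41, 45]], [[6, 41], [11, 35, 45]], [[5, 13, 18], [45, 51]],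
  [[13, 18], [20, 45, 51]], [[5, 18], [36, 45, 51]], [[18, 19, 33], [20, 36]], [[18, 19],
  [20, 36, 45]], [[18, 45], [20, 36, 51]], [[18], [20, 33, 36, 51]], [[33, 51], [20, 28, 36]],
  [[19, 20, 45], [36, 49]], [[19, 45], [36, 37, 49]], [[37, 45], [36, 47, 49]], [[45, 47],
  [36, 44, 49]], [[19, 33, 43], [20, 37]], [[20, 37], [19, 33, 43]], [[19, 20, 33], [36, 43]],
  [[20, 33], [28, 36, 43]], [[28, 33], [30, 36, 43]], [[30, 33], [36, 37, 43]], [[33],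
  [19, 36, 37, 43]], [[19, 37], [36, 43, 49]], [[19], [20, 36, 43, 49]], [[28, 30], [27, 36, 43]],
  [[27, 28], [36, 40, 43]], [[27, 40], [35, 36, 43]], [[17, 27, 35], [24, 43]], [[27, 35],
  [24, 36, 43]], [[27, 36], [24, 30, 43]], [[27], [17, 24, 30, 43]], [[36, 37, 49], [43, 47]],
  [[36, 37], [30, 43, 47]], [[30, 37], [38, 43, 47]], [[37], [38, 43, 47, 49]], [[30, 36],
  [24, 43, 47]], [[38, 49], [43, 46, 47]], [[15, 30, 38], [39, 43]], [[15, 38], [39, 43, 46]],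
  [[30, 38], [39, 43, 47]], [[38], [39, 43, 46, 47]], [[30, 47], [24, 39, 43]], [[15, 30, 43],
  [17, 39]], [[30, 43], [17, 24, 39]], [[24, 30], [17, 39, 51]], [[30], [15, 17, 39, 51]],
  [[6, 20, 23], [31, 49]], [[31, 49], [6, 20, 23]], [[5, 46, 47], [39, 44]], [[5, 47],
  [24, 39, 44]], [[5, 46], [13, 39, 44]], [[24, 36, 47], [43, 44]], [[36, 47], [43, 44, 49]],
  [[47, 49], [43, 44, 46]], [[46, 49], [23, 43, 44]], [[24, 47], [39, 43, 44]], [[47],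
  [39, 43, 44, 46]], [[6, 20, 49], [23, 45]], [[23, 45], [6, 20, 49]], [[6, 20, 49], [23, 45]],
  [[23, 45], [6, 20, 49]], [[6, 23, 49], [20, 44]], [[6, 49], [20, 44, 45]], [[6, 23],
  [20, 31, 44]], [[45, 49], [20, 36, 44]], [[36, 49], [20, 43, 44]], [[49], [20, 23, 43, 44]],
  [[6, 11, 45], [35, 44]], [[6, 11], [31, 35, 44]], [[11, 31], [35, 36, 44]], [[11, 44],
  [35, 36, 45]], [[31, 36], [24, 35, 44]], [[6, 45], [20, 35, 44]], [[6], [20, 31, 35, 44]],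
  [[31, 35], [20, 24, 44]], [[44, 45], [20, 35, 36]], [[35, 44], [20, 24, 36]], [[36, 44],
  [20, 24, 43]], [[24, 36], [20, 35, 43]], [[24, 35], [17, 20, 43]], [[17, 35], [7, 20, 43]],
  [[7, 17], [15, 20, 43]], [[4, 11, 36], [40, 45]], [[40, 45], [4, 11, 36]], [[3, 4, 31], [23, 24]],
  [[3, 31], [20, 23, 24]], [[4, 31], [23, 24, 44]], [[31], [20, 23, 24, 44]], [[20, 44],
  [23, 24, 43]], [[20, 23], [3, 24, 43]], [[3, 20], [24, 28, 43]], [[4, 11, 41], [40, 45]],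
  [[4, 11], [36, 40, 45]], [[11, 41], [35, 40, 45]], [[11], [35, 36, 40, 45]], [[15, 17, 39],
  [43, 51]], [[15, 17], [20, 43, 51]], [[17, 39], [24, 43, 51]], [[17], [20, 24, 43, 51]],
  [[20, 24], [28, 43, 51]], [[20, 28], [36, 43, 51]], [[7, 15, 20], [13, 43]], [[15, 20],
  [13, 43, 51]], [[15, 51], [13, 39, 43]], [[15, 39], [13, 43, 46]], [[15], [7, 13, 43, 46]],
  [[39, 46], [13, 43, 44]], [[7, 20], [13, 35, 43]], [[7, 46], [13, 23, 43]], [[46],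
  [13, 23, 43, 44]], [[5, 13, 39], [44, 51]], [[44, 51], [5, 13, 39]], [[5, 39, 44], [13, 24]],
  [[5, 44], [4, 13, 24]], [[4, 44], [13, 23, 24]], [[23, 44], [13, 24, 43]], [[44],
  [13, 24, 39, 43]], [[39, 43], [13, 24, 51]], [[39], [5, 13, 24, 51]], [[13, 20, 51], [43, 45]],
  [[43, 45], [13, 20, 51]], [[13, 20, 43], [35, 51]], [[13, 20], [35, 45, 51]], [[20, 45],
  [35, 36, 51]], [[20], [35, 36, 43, 51]], [[3, 4, 23], [24, 41]], [[4, 23], [13, 24, 41]],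
  [[3, 23, 43], [7, 24]], [[3, 23], [7, 24, 41]], [[23, 43], [7, 13, 24]], [[23], [7, 13, 24, 41]],
  [[3, 28, 40], [4, 43]], [[4, 43], [3, 28, 40]], [[3, 4, 24], [28, 41]], [[3, 4], [28, 40, 41]],
  [[3, 24, 41], [7, 28]], [[3, 41], [7, 28, 40]], [[3, 40], [7, 28, 43]], [[3], [7, 24, 28, 43]],
  [[4, 5, 36], [28, 45]], [[5, 36], [28, 45, 51]], [[4, 36], [28, 40, 45]], [[4, 40], [28, 41, 45]],
  [[4, 5, 13], [24, 45]], [[5, 13], [24, 45, 51]], [[4, 5], [24, 28, 45]], [[5], [24, 28, 45, 51]],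
  [[4, 28], [24, 41, 45]], [[4], [13, 24, 41, 45]], [[28, 36, 43], [40, 51]], [[36, 43],
  [35, 40, 51]], [[35, 36], [40, 45, 51]], [[36], [28, 40, 45, 51]], [[7, 24, 43], [13, 28]],
  [[7, 24], [13, 28, 41]], [[24, 41], [13, 28, 45]], [[24, 45], [13, 28, 51]], [[24],
  [13, 28, 43, 51]], [[7, 13, 28], [41, 43]], [[7, 28], [40, 41, 43]], [[7, 40], [35, 41, 43]],
  [[7], [13, 35, 41, 43]], [[13, 35, 43], [41, 51]], [[41, 51], [13, 35, 43]], [[13, 28, 45],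
  [41, 51]], [[13, 45], [35, 41, 51]], [[13, 35], [41, 43, 51]], [[13], [28, 41, 43, 51]],
  [[28, 43], [40, 41, 51]], [[28], [40, 41, 45, 51]], [[43], [35, 40, 41, 51]]]
def E21 : List ℕ := [35, 40, 41, 45, 51]
def L22 : List (List (List ℕ)) :=
  [[[14, 48], [7, 35, 38]], [[43, 47], [17, 26, 51]], [[23, 38], [14, 24, 34]], [[30, 36],
  [6, 24, 27]], [[4, 8, 27], [9, 20]], [[9, 20], [4, 8, 27]], [[4, 8, 20], [27, 34]], [[8, 20],
  [27, 34, 36]], [[8, 36], [24, 27, 34]], [[4, 8], [9, 27, 34]], [[8], [9, 24, 27, 34]], [[4, 9],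
  [27, 34, 49]], [[4, 18, 32], [20, 49]], [[20, 49], [4, 18, 32]], [[4, 18, 34], [20, 49]],
  [[4, 18], [20, 32, 49]], [[4, 32], [20, 27, 49]], [[4], [20, 27, 34, 49]], [[5, 40, 48],
  [35, 39]], [[40, 48], [7, 35, 39]], [[7, 40], [35, 39, 43]], [[5, 48], [13, 35, 39]], [[40, 43],
  [35, 39, 51]], [[40], [5, 35, 39, 51]], [[5, 13, 21], [18, 39]], [[5, 13], [18, 35, 39]],
  [[5, 21], [18, 39, 51]], [[5], [18, 35, 39, 51]], [[7, 39, 48], [33, 35]], [[39, 48],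
  [13, 33, 35]], [[7, 48], [33, 35, 38]], [[48], [13, 33, 35, 38]], [[9, 27, 30], [24, 49]],
  [[9, 27], [24, 34, 49]], [[9, 30], [24, 49, 50]], [[9, 50], [23, 24, 49]], [[9],
  [23, 24, 34, 49]], [[10, 24, 50], [23, 30]], [[24, 50], [23, 30, 49]], [[49, 50], [23, 30, 46]],
  [[50], [10, 23, 30, 46]], [[10, 12, 37], [24, 46]], [[24, 46], [10, 12, 37]], [[10, 12, 37],
  [24, 46]], [[10, 12], [24, 30, 46]], [[10, 37], [23, 24, 46]], [[10], [23, 24, 30, 46]],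
  [[23, 30], [24, 46, 49]], [[23, 24, 46], [37, 49]], [[23, 46], [37, 44, 49]], [[14, 23, 44],
  [34, 37]], [[34, 37], [14, 23, 44]], [[14, 23, 24], [34, 37]], [[23, 24], [34, 37, 49]],
  [[14, 23], [34, 37, 44]], [[23], [34, 37, 44, 49]], [[0, 7, 12], [37, 45]], [[0, 12],
  [37, 45, 46]], [[0, 7, 37], [17, 45]], [[0, 37], [17, 45, 46]], [[0, 7], [17, 43, 45]], [[0, 43],
  [17, 26, 45]], [[0], [17, 26, 45, 46]], [[7, 43, 45], [17, 39]], [[7, 43], [17, 35, 39]],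
  [[35, 43], [17, 39, 51]], [[43, 45], [17, 26, 39]], [[43], [17, 26, 39, 51]], [[35, 51],
  [17, 18, 39]], [[6, 12, 30], [19, 24]], [[19, 24], [6, 12, 30]], [[6, 12, 30], [19, 24]],
  [[12, 30], [19, 24, 46]], [[6, 30], [19, 24, 27]], [[11, 27, 30], [19, 49]], [[27, 30],
  [19, 24, 49]], [[24, 30], [19, 46, 49]], [[30], [11, 19, 46, 49]], [[11, 46], [19, 42, 49]],
  [[11, 15, 27], [19, 32]], [[11, 27], [19, 32, 49]], [[11, 49], [19, 32, 42]], [[11],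
  [15, 19, 32, 42]], [[6, 12, 33], [24, 45]], [[6, 12], [19, 24, 45]], [[12, 19], [24, 45, 46]],
  [[12, 33], [7, 24, 45]], [[7, 12], [24, 37, 45]], [[12], [24, 37, 45, 46]], [[6, 24, 45],
  [19, 33]], [[6, 45], [15, 19, 33]], [[6, 19, 27], [15, 24]], [[6, 19], [15, 24, 33]], [[6, 27],
  [15, 24, 36]], [[6], [15, 24, 33, 36]], [[19, 33], [15, 24, 45]], [[7, 14, 17], [35, 37]],
  [[35, 37], [7, 14, 17]], [[7, 24, 38], [14, 33]], [[7, 38], [14, 33, 35]], [[14, 24, 38],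
  [33, 34]], [[24, 38], [33, 34, 36]], [[14, 38], [33, 34, 35]], [[36, 38], [13, 33, 34]], [[38],
  [13, 33, 34, 35]], [[13, 20, 36], [15, 34]], [[13, 36], [15, 33, 34]], [[33, 36], [15, 24, 34]],
  [[20, 36], [15, 27, 34]], [[36], [15, 24, 27, 34]], [[15, 20, 27], [32, 34]], [[20, 27],
  [32, 34, 49]], [[20, 49], [18, 32, 34]], [[13, 18, 20], [21, 34]], [[13, 20], [15, 21, 34]],
  [[15, 20], [21, 32, 34]], [[20], [18, 21, 32, 34]], [[15, 24, 27], [19, 34]], [[15, 27],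
  [19, 32, 34]], [[27, 32], [19, 34, 49]], [[27], [19, 24, 34, 49]], [[13, 15, 33], [34, 39]],
  [[34, 39], [13, 15, 33]], [[13, 21, 34], [15, 18]], [[21, 34], [15, 18, 32]], [[21, 32],
  [15, 18, 42]], [[13, 21], [15, 18, 39]], [[21, 42], [15, 18, 51]], [[21], [15, 18, 39, 51]],
  [[13, 15, 33], [34, 39]], [[13, 15], [18, 34, 39]], [[13, 18], [34, 35, 39]], [[13],
  [33, 34, 35, 39]], [[15, 18, 32], [34, 42]], [[15, 32], [19, 34, 42]], [[19, 32], [34, 42, 49]],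
  [[32], [18, 34, 42, 49]], [[15, 18, 51], [39, 42]], [[15, 18], [34, 39, 42]], [[15, 51],
  [26, 39, 42]], [[18, 47, 51], [17, 42]], [[47, 51], [17, 26, 42]], [[18, 51], [17, 39, 42]],
  [[51], [17, 26, 39, 42]], [[26, 47], [17, 42, 46]], [[17, 42, 47], [18, 46]], [[17, 47],
  [18, 44, 46]], [[42, 47], [18, 46, 49]], [[47], [18, 44, 46, 49]], [[17, 26, 45], [39, 46]],
  [[39, 46], [17, 26, 45]], [[15, 26, 39], [42, 45]], [[42, 45], [15, 26, 39]], [[15, 26, 39],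
  [42, 45]], [[15, 26], [19, 42, 45]], [[19, 26], [42, 45, 46]], [[26, 46], [17, 42, 45]], [[26],
  [17, 39, 42, 45]], [[15, 19, 42], [34, 45]], [[34, 45], [15, 19, 42]], [[15, 19, 42], [34, 45]],
  [[15, 19], [24, 34, 45]], [[15, 42], [34, 39, 45]], [[15, 24], [33, 34, 45]], [[15],
  [33, 34, 39, 45]], [[19, 24, 34], [45, 49]], [[19, 24], [45, 46, 49]], [[19, 34], [42, 45, 49]],
  [[19], [42, 45, 46, 49]], [[24, 46], [37, 45, 49]], [[24, 49], [34, 37, 45]], [[7, 24, 45],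
  [33, 37]], [[24, 45], [33, 34, 37]], [[24, 34], [14, 33, 37]], [[24], [7, 14, 33, 37]],
  [[7, 14, 33], [35, 37]], [[14, 33], [34, 35, 37]], [[14, 34], [35, 37, 44]], [[7, 14],
  [17, 35, 37]], [[14], [17, 35, 37, 44]], [[7, 17, 39], [35, 45]], [[7, 17], [35, 37, 45]],
  [[7, 37], [33, 35, 45]], [[7], [33, 35, 39, 45]], [[33, 37], [34, 35, 45]], [[33],
  [34, 35, 39, 45]], [[17, 35, 39], [18, 45]], [[18, 45], [17, 35, 39]], [[18, 34, 39], [35, 42]],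
  [[18, 39], [17, 35, 42]], [[17, 39], [35, 42, 45]], [[39], [34, 35, 42, 45]], [[17, 18, 42],
  [35, 46]], [[17, 42], [35, 45, 46]], [[17, 18], [35, 44, 46]], [[17, 44], [35, 37, 46]], [[17],
  [35, 37, 45, 46]], [[18, 34, 42], [35, 49]], [[35, 49], [18, 34, 42]], [[18, 34, 35], [42, 44]],
  [[18, 34], [42, 44, 49]], [[18, 49], [42, 44, 46]], [[18], [35, 42, 44, 46]], [[34, 35, 45],
  [37, 42]], [[34, 35], [37, 42, 44]], [[35, 44], [37, 42, 46]], [[35], [37, 42, 45, 46]],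
  [[34, 45], [37, 42, 49]], [[34], [37, 42, 44, 49]], [[44], [37, 42, 46, 49]]]
def E22 : List ℕ := [37, 42, 45, 46, 49]
def L23 : List (List (List ℕ)) :=
  [[[25, 48], [11, 28, 29]], [[8, 18], [1, 25, 29]], [[4, 16], [3, 31, 39]], [[22, 38],
  [14, 24, 34]], [[17, 41], [4, 39, 42]], [[9, 18], [6, 28, 29]], [[1, 6, 18], [29, 31]], [[1, 6],
  [20, 29, 31]], [[1, 18], [25, 29, 31]], [[18, 25], [28, 29, 31]], [[18], [6, 28, 29, 31]],
  [[1, 8, 20], [29, 51]], [[1, 8], [25, 29, 51]], [[1, 20], [29, 31, 51]], [[1], [25, 29, 31, 51]],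
  [[25, 31], [28, 29, 51]], [[8, 25], [11, 29, 51]], [[25], [11, 28, 29, 51]], [[14, 15, 38],
  [24, 30]], [[24, 30], [14, 15, 38]], [[14, 30, 38], [15, 34]], [[14, 38], [15, 24, 34]],
  [[30, 38], [15, 34, 43]], [[38], [15, 24, 34, 43]], [[24, 43], [9, 15, 34]], [[30, 43],
  [15, 17, 34]], [[6, 32, 43], [9, 17]], [[32, 43], [9, 15, 17]], [[6, 43], [9, 17, 34]], [[43],
  [9, 15, 17, 34]], [[6, 32], [9, 17, 28]], [[3, 16, 31], [20, 39]], [[20, 39], [3, 16, 31]],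
  [[3, 7, 41], [21, 36]], [[3, 7], [21, 36, 50]], [[3, 50], [20, 21, 36]], [[7, 41], [13, 21, 36]],
  [[7, 10, 36], [13, 50]], [[7, 36], [13, 21, 50]], [[7, 10], [13, 46, 50]], [[7],
  [13, 21, 46, 50]], [[3, 4, 41], [21, 39]], [[3, 41], [21, 36, 39]], [[3, 4], [21, 31, 39]],
  [[3, 16, 36], [20, 39]], [[3, 16], [20, 31, 39]], [[16, 31], [20, 39, 51]], [[3, 31],
  [20, 21, 39]], [[3], [20, 21, 36, 39]], [[4, 21, 41], [13, 39]], [[21, 41], [13, 36, 39]],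
  [[36, 41], [13, 39, 42]], [[41], [4, 13, 39, 42]], [[8, 16, 36], [11, 20]], [[11, 20],
  [8, 16, 36]], [[8, 16, 51], [11, 20]], [[8, 16], [11, 20, 36]], [[16, 36], [11, 20, 39]], [[16],
  [11, 20, 39, 51]], [[8, 51], [11, 20, 29]], [[8, 11, 20], [29, 36]], [[8, 11], [29, 36, 40]],
  [[8, 40], [29, 36, 50]], [[8], [20, 29, 36, 50]], [[11, 28, 51], [29, 39]], [[28, 51],
  [29, 31, 39]], [[11, 51], [20, 29, 39]], [[51], [20, 29, 31, 39]], [[11, 20], [29, 36, 39]],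
  [[6, 20, 31], [21, 29]], [[20, 31], [21, 29, 39]], [[6, 20], [21, 29, 49]], [[20, 39],
  [21, 29, 36]], [[20, 49], [21, 29, 50]], [[20], [21, 29, 36, 50]], [[9, 17, 32], [15, 28]],
  [[9, 32], [15, 28, 48]], [[32, 48], [11, 15, 28]], [[11, 28, 32], [15, 39]], [[11, 32],
  [15, 39, 42]], [[28, 32], [15, 17, 39]], [[32], [15, 17, 39, 42]], [[10, 22, 46], [37, 50]],
  [[10, 22], [24, 37, 50]], [[10, 46], [13, 37, 50]], [[10, 13, 19], [36, 37]], [[10, 13],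
  [36, 37, 50]], [[10, 19, 24], [37, 40]], [[10, 19], [36, 37, 40]], [[10, 24], [37, 40, 50]],
  [[10], [36, 37, 40, 50]], [[13, 44, 46], [21, 37]], [[13, 46], [21, 37, 50]], [[13, 50],
  [21, 36, 37]], [[21, 37, 46], [44, 50]], [[21, 46], [44, 49, 50]], [[46, 49], [22, 44, 50]],
  [[46], [22, 37, 44, 50]], [[6, 44, 49], [21, 34]], [[21, 34], [6, 44, 49]], [[6, 29, 49],
  [9, 21]], [[29, 49], [9, 21, 50]], [[6, 34, 49], [9, 44]], [[34, 49], [9, 22, 44]], [[22, 49],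
  [9, 44, 50]], [[49, 50], [9, 21, 44]], [[49], [6, 9, 21, 44]], [[9, 22, 24], [34, 50]], [[34, 50],
  [9, 22, 24]], [[9, 22, 34], [24, 44]], [[9, 22], [24, 44, 50]], [[22, 50], [24, 37, 44]],
  [[22, 34], [14, 24, 44]], [[22], [14, 24, 37, 44]], [[14, 24, 34], [15, 44]], [[14, 34],
  [15, 30, 44]], [[14, 30], [15, 26, 44]], [[24, 34], [9, 15, 44]], [[14, 24], [15, 37, 44]], [[14],
  [15, 26, 37, 44]], [[6, 31, 34], [17, 44]], [[17, 44], [6, 31, 34]], [[6, 9, 34], [17, 44]],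
  [[9, 34], [15, 17, 44]], [[6, 34], [17, 31, 44]], [[31, 34], [17, 30, 44]], [[34],
  [15, 17, 30, 44]], [[30, 31], [4, 17, 44]], [[4, 30, 42], [17, 26]], [[17, 26], [4, 30, 42]],
  [[4, 17, 30], [42, 44]], [[4, 30], [26, 42, 44]], [[17, 30], [15, 42, 44]], [[30],
  [15, 26, 42, 44]], [[4, 26], [13, 42, 44]], [[13, 19, 26], [37, 42]], [[13, 19], [36, 37, 42]],
  [[13, 26], [37, 42, 44]], [[26, 44], [15, 37, 42]], [[26], [15, 19, 37, 42]], [[4, 13, 39],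
  [21, 42]], [[13, 39], [21, 36, 42]], [[13, 36], [21, 37, 42]], [[4, 13], [21, 42, 44]], [[13],
  [21, 37, 42, 44]], [[4, 17, 39], [31, 42]], [[31, 42], [4, 17, 39]], [[4, 17, 42], [39, 44]],
  [[4, 42], [21, 39, 44]], [[17, 42], [15, 39, 44]], [[4, 17], [31, 39, 44]], [[4],
  [21, 31, 39, 44]], [[6, 9, 28], [17, 29]], [[6, 28], [17, 29, 31]], [[28, 31], [17, 29, 39]],
  [[6, 21, 31], [29, 44]], [[6, 21], [9, 29, 44]], [[21, 31], [29, 39, 44]], [[31, 39],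
  [17, 29, 44]], [[31], [6, 17, 29, 44]], [[6], [9, 17, 29, 44]], [[9, 21], [29, 44, 50]], [[9, 50],
  [24, 29, 44]], [[9, 17, 28], [15, 29]], [[15, 29], [9, 17, 28]], [[9, 15, 17], [28, 44]],
  [[9, 17], [28, 29, 44]], [[15, 17], [28, 39, 44]], [[17], [28, 29, 39, 44]], [[9, 15, 24],
  [44, 48]], [[44, 48], [9, 15, 24]], [[9, 29, 48], [24, 28]], [[24, 28], [9, 29, 48]],
  [[9, 24, 48], [15, 29]], [[9, 24], [15, 29, 44]], [[9, 44], [15, 28, 29]], [[9],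
  [15, 28, 29, 48]], [[28, 44], [15, 29, 39]], [[28, 39], [11, 15, 29]], [[28], [11, 15, 29, 48]],
  [[15, 19, 48], [11, 24]], [[19, 48], [11, 24, 40]], [[15, 48], [11, 24, 29]], [[48],
  [11, 24, 29, 40]], [[11, 15, 39], [29, 42]], [[15, 39], [29, 42, 44]], [[39, 44], [21, 29, 42]],
  [[11, 39], [29, 36, 42]], [[39], [21, 29, 36, 42]], [[21, 29, 36], [42, 50]], [[21, 29],
  [42, 44, 50]], [[21, 36], [37, 42, 50]], [[21], [37, 42, 44, 50]], [[24, 29, 44], [15, 50]],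
  [[24, 44], [15, 37, 50]], [[37, 44], [15, 42, 50]], [[44], [15, 29, 42, 50]], [[11, 15, 19],
  [24, 42]], [[11, 15], [24, 29, 42]], [[15, 19], [24, 37, 42]], [[15, 29], [24, 42, 50]], [[15],
  [24, 37, 42, 50]], [[11, 19, 36], [40, 42]], [[19, 36], [37, 40, 42]], [[36, 37], [40, 42, 50]],
  [[19, 37], [24, 40, 42]], [[19], [11, 24, 40, 42]], [[37], [24, 40, 42, 50]], [[11, 24],
  [29, 40, 42]], [[11], [29, 36, 40, 42]], [[24], [29, 40, 42, 50]]]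
def E23 : List ℕ := [29, 36, 40, 42, 50]
def L24 : List (List (List ℕ)) :=
  [[[5, 43], [4, 36, 44]], [[39, 42], [11, 12, 32]], [[28, 36], [4, 5, 32]], [[44, 47],
  [5, 21, 36]], [[11, 42], [12, 32, 49]], [[5, 44], [4, 21, 36]], [[4, 43, 44], [31, 36]], [[4, 44],
  [21, 31, 36]], [[21, 44], [8, 31, 36]], [[44], [8, 31, 36, 43]], [[6, 12, 22], [30, 33]],
  [[6, 12], [30, 33, 47]], [[6, 47], [30, 33, 36]], [[6], [22, 30, 33, 36]], [[9, 17, 29],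
  [48, 50]], [[9, 29], [23, 48, 50]], [[17, 29], [40, 48, 50]], [[29], [23, 40, 48, 50]],
  [[4, 5, 28], [21, 32]], [[4, 5], [21, 32, 36]], [[4, 28], [3, 21, 32]], [[5, 36], [21, 32, 47]],
  [[5, 47], [21, 32, 39]], [[5], [21, 28, 32, 39]], [[3, 11, 28], [25, 32]], [[25, 32],
  [3, 11, 28]], [[3, 21, 28], [25, 32]], [[3, 28], [11, 25, 32]], [[11, 25, 28], [32, 51]],
  [[32, 51], [11, 25, 28]], [[11, 28, 39], [32, 51]], [[32, 51], [11, 28, 39]], [[11, 28, 32],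
  [25, 39]], [[28, 32], [21, 25, 39]], [[11, 28], [25, 39, 51]], [[28], [21, 25, 39, 51]],
  [[21, 51], [25, 30, 39]], [[10, 12, 51], [11, 30]], [[10, 51], [11, 25, 30]], [[12, 51],
  [11, 30, 39]], [[51], [11, 25, 30, 39]], [[7, 12, 42], [33, 37]], [[7, 12], [22, 33, 37]],
  [[7, 42], [18, 33, 37]], [[7, 18, 38], [14, 33]], [[14, 33], [7, 18, 38]], [[7, 22, 33],
  [37, 38]], [[7, 22], [14, 37, 38]], [[14, 22], [23, 37, 38]], [[14, 23], [15, 37, 38]], [[14, 15],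
  [18, 37, 38]], [[14], [7, 18, 37, 38]], [[7], [18, 33, 37, 38]], [[12, 33, 42], [32, 37]],
  [[12, 42], [32, 37, 49]], [[42, 49], [18, 32, 37]], [[42], [18, 32, 33, 37]], [[18, 33],
  [32, 37, 38]], [[4, 15, 18], [38, 49]], [[4, 18], [32, 38, 49]], [[18, 32], [37, 38, 49]], [[18],
  [15, 37, 38, 49]], [[8, 9, 34], [22, 43]], [[9, 34], [22, 23, 43]], [[23, 34], [22, 38, 43]],
  [[34, 38], [22, 36, 43]], [[34], [8, 22, 36, 43]], [[8, 21, 35], [27, 31]], [[8, 35],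
  [9, 27, 31]], [[8, 21], [27, 31, 36]], [[8, 9, 31], [27, 43]], [[27, 43], [8, 9, 31]],
  [[8, 9, 43], [22, 31]], [[8, 43], [22, 31, 36]], [[8, 36], [22, 27, 31]], [[8], [9, 22, 27, 31]],
  [[9, 27, 35], [17, 31]], [[9, 35], [17, 20, 31]], [[9, 20], [17, 31, 48]], [[27, 35],
  [17, 21, 31]], [[35], [17, 20, 21, 31]], [[9, 27, 30], [17, 22]], [[17, 22], [9, 27, 30]],
  [[9, 22, 27], [30, 31]], [[22, 27], [30, 31, 36]], [[9, 27], [17, 30, 31]], [[27, 36],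
  [21, 30, 31]], [[27], [17, 21, 30, 31]], [[11, 25, 39], [30, 32]], [[11, 39], [12, 30, 32]],
  [[25, 39], [21, 30, 32]], [[21, 39], [30, 32, 47]], [[39], [12, 30, 32, 47]], [[21, 47],
  [30, 32, 36]], [[36, 47], [30, 32, 33]], [[47], [12, 30, 32, 33]], [[12, 22, 33], [30, 37]],
  [[12, 22], [10, 30, 37]], [[12, 33], [30, 32, 37]], [[11, 12, 30], [10, 32]], [[10, 32],
  [11, 12, 30]], [[10, 12, 30], [11, 37]], [[11, 37], [10, 12, 30]], [[11, 12, 30], [10, 32]],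
  [[12, 30], [10, 32, 37]], [[11, 12], [10, 32, 49]], [[12], [10, 32, 37, 49]], [[11, 30],
  [10, 25, 32]], [[2, 3, 11], [25, 49]], [[2, 11], [10, 25, 49]], [[3, 11], [25, 32, 49]], [[11],
  [10, 25, 32, 49]], [[30, 32, 33], [36, 37]], [[30, 33], [22, 36, 37]], [[32, 33], [36, 37, 38]],
  [[33], [22, 36, 37, 38]], [[4, 15, 43], [31, 38]], [[4, 43], [31, 36, 38]], [[36, 43],
  [22, 31, 38]], [[9, 15, 43], [23, 31]], [[9, 15], [23, 31, 48]], [[15, 43], [23, 31, 38]],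
  [[38, 43], [22, 23, 31]], [[43], [9, 22, 23, 31]], [[9, 22, 31], [23, 30]], [[9, 22],
  [23, 30, 50]], [[22, 50], [10, 23, 30]], [[10, 22], [23, 30, 37]], [[9, 17, 48], [31, 50]],
  [[9, 17], [30, 31, 50]], [[9, 30], [23, 31, 50]], [[9], [23, 31, 48, 50]], [[22, 23, 30],
  [31, 37]], [[22, 23], [31, 37, 38]], [[22, 30], [31, 36, 37]], [[22], [31, 36, 37, 38]],
  [[23, 38], [15, 31, 37]], [[4, 15, 38], [31, 49]], [[4, 15], [16, 31, 49]], [[15, 38],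
  [31, 37, 49]], [[4, 16], [3, 31, 49]], [[31, 37, 38], [36, 49]], [[37, 38], [32, 36, 49]],
  [[32, 38], [4, 36, 49]], [[38], [4, 31, 36, 49]], [[3, 4, 21], [31, 32]], [[4, 21], [31, 32, 36]],
  [[4, 36], [31, 32, 49]], [[4], [3, 31, 32, 49]], [[36, 49], [31, 32, 37]], [[36, 37],
  [30, 31, 32]], [[36], [21, 30, 31, 32]], [[3, 20, 21], [25, 31]], [[3, 21], [25, 31, 32]],
  [[20, 21], [17, 25, 31]], [[21, 32], [25, 30, 31]], [[21], [17, 25, 30, 31]], [[3, 32],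
  [25, 31, 49]], [[17, 30], [25, 31, 50]], [[2, 3, 20], [16, 25]], [[16, 25], [2, 3, 20]],
  [[2, 3, 20], [16, 25]], [[3, 20], [16, 25, 31]], [[2, 3], [16, 25, 49]], [[3], [16, 25, 31, 49]],
  [[10, 30, 32], [25, 37]], [[10, 32], [25, 37, 49]], [[32, 49], [25, 31, 37]], [[32],
  [25, 30, 31, 37]], [[10, 23, 30], [37, 50]], [[10, 30], [25, 37, 50]], [[25, 30], [31, 37, 50]],
  [[30], [23, 31, 37, 50]], [[17, 25, 31], [20, 50]], [[20, 50], [17, 25, 31]], [[17, 20, 31],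
  [25, 48]], [[17, 31], [25, 48, 50]], [[17, 50], [25, 40, 48]], [[17], [20, 25, 40, 48]],
  [[20, 40], [2, 25, 48]], [[2, 20], [16, 25, 48]], [[20], [16, 25, 31, 48]], [[2, 10, 19],
  [40, 49]], [[40, 49], [2, 10, 19]], [[2, 16, 19], [48, 49]], [[2, 16], [25, 48, 49]], [[16, 19],
  [15, 48, 49]], [[16, 25], [31, 48, 49]], [[16], [15, 31, 48, 49]], [[2, 10, 19], [40, 49]],
  [[2, 10], [25, 40, 49]], [[2, 19], [40, 48, 49]], [[2], [25, 40, 48, 49]], [[15, 19, 49],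
  [37, 48]], [[15, 49], [31, 37, 48]], [[15, 31], [23, 37, 48]], [[15], [19, 23, 37, 48]],
  [[23, 31], [37, 48, 50]], [[31, 49], [25, 37, 48]], [[31], [25, 37, 48, 50]], [[10, 19, 23],
  [37, 40]], [[37, 40], [10, 19, 23]], [[10, 19, 40], [23, 49]], [[23, 49], [10, 19, 40]],
  [[10, 25, 50], [37, 40]], [[25, 50], [37, 40, 48]], [[25, 48], [37, 40, 49]], [[25],
  [10, 37, 40, 49]], [[48, 49], [19, 37, 40]], [[49], [10, 19, 37, 40]], [[10, 50], [23, 37, 40]],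
  [[10], [19, 23, 37, 40]], [[19], [23, 37, 40, 48]]]
def E24 : List ℕ := [23, 37, 40, 48, 50]
def L25 : List (List (List ℕ)) :=
  [[[26, 40], [6, 9, 32]], [[42, 51], [21, 30, 33]], [[10, 30], [24, 50, 51]], [[6, 26],
  [8, 9, 32]], [[21, 42], [17, 30, 33]], [[4, 42], [17, 30, 41]], [[42], [17, 30, 33, 41]],
  [[33, 51], [21, 28, 30]], [[20, 33], [17, 21, 43]], [[26, 32], [8, 9, 45]], [[7, 13],
  [1, 28, 31]], [[13], [1, 28, 31, 51]], [[31, 36], [1, 7, 18]], [[8, 26], [9, 37, 45]], [[26],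
  [9, 36, 37, 45]], [[21, 51], [24, 28, 30]], [[28, 33], [21, 30, 43]], [[7, 31], [1, 18, 28]],
  [[1, 36], [7, 18, 37]], [[32, 45], [2, 8, 9]], [[31, 51], [1, 23, 28]], [[31], [1, 18, 23, 28]],
  [[21, 33], [17, 30, 43]], [[33], [17, 30, 41, 43]], [[7, 28], [1, 18, 29]], [[23, 48],
  [11, 28, 29]], [[2, 45], [8, 9, 35]], [[9, 36], [37, 45, 47]], [[18, 28], [1, 23, 29]], [[7, 36],
  [18, 37, 47]], [[36], [18, 37, 45, 47]], [[18, 23], [1, 8, 29]], [[18, 45], [8, 37, 47]],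
  [[35, 45], [8, 9, 47]], [[45], [8, 9, 37, 47]], [[7, 47], [18, 29, 37]], [[7], [1, 18, 29, 37]],
  [[18, 47], [8, 29, 37]], [[18], [1, 8, 29, 37]], [[1, 37], [4, 8, 29]], [[0, 5, 41], [35, 43]],
  [[0, 5], [35, 43, 48]], [[5, 41], [29, 35, 43]], [[5], [29, 35, 43, 48]], [[2, 8, 32], [9, 10]],
  [[9, 10], [2, 8, 32]], [[1, 8, 23], [29, 51]], [[8, 23], [11, 29, 51]], [[11, 23], [28, 29, 51]],
  [[23], [1, 28, 29, 51]], [[1, 28], [29, 30, 51]], [[1, 8], [4, 29, 51]], [[1], [4, 29, 30, 51]],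
  [[2, 8, 32], [9, 10]], [[2, 32], [9, 10, 40]], [[32, 40], [6, 9, 10]], [[32], [6, 8, 9, 10]],
  [[4, 8, 37], [9, 29]], [[4, 37], [9, 27, 29]], [[4, 27], [9, 29, 35]], [[27, 35], [9, 29, 47]],
  [[27], [9, 29, 37, 47]], [[37], [8, 9, 29, 47]], [[47], [8, 9, 29, 35]], [[9, 29], [4, 8, 35]],
  [[4, 6, 16], [9, 50]], [[9, 50], [4, 6, 16]], [[4, 6, 16], [9, 50]], [[4, 16], [9, 39, 50]],
  [[16, 39], [9, 40, 50]], [[16], [6, 9, 40, 50]], [[6, 40], [9, 10, 50]], [[6, 8, 9], [4, 10]],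
  [[6, 9], [4, 10, 50]], [[6, 8], [4, 10, 51]], [[6], [4, 10, 50, 51]], [[0, 3, 48], [11, 43]],
  [[3, 48], [11, 28, 43]], [[28, 48], [11, 29, 43]], [[0, 48], [11, 35, 43]], [[48],
  [11, 29, 35, 43]], [[17, 21, 30], [24, 43]], [[21, 30], [24, 28, 43]], [[21, 28], [3, 24, 43]],
  [[3, 28], [11, 24, 43]], [[17, 21], [20, 24, 43]], [[21], [3, 20, 24, 43]], [[2, 3, 11], [0, 24]],
  [[2, 3], [0, 20, 24]], [[3, 11], [0, 24, 43]], [[3], [0, 20, 24, 43]], [[20, 43], [0, 17, 24]],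
  [[0, 20, 24], [2, 17]], [[0, 20], [2, 17, 39]], [[20, 39], [2, 17, 40]], [[20], [2, 17, 24, 40]],
  [[11, 24, 28], [43, 51]], [[11, 28], [29, 43, 51]], [[28, 29], [30, 43, 51]], [[28],
  [24, 30, 43, 51]], [[2, 9, 40], [10, 39]], [[9, 40], [10, 39, 50]], [[9, 50], [4, 10, 39]],
  [[2, 17, 40], [24, 39]], [[24, 39], [2, 17, 40]], [[4, 9, 35], [8, 39]], [[9, 35], [2, 8, 39]],
  [[4, 9], [8, 10, 39]], [[9], [2, 8, 10, 39]], [[10, 39, 40], [2, 50]], [[10, 40], [2, 24, 50]],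
  [[24, 40], [2, 17, 50]], [[40], [2, 17, 39, 50]], [[0, 2, 39], [17, 35]], [[0, 39], [17, 35, 41]],
  [[39, 41], [4, 17, 35]], [[0, 41], [17, 35, 43]], [[0, 2, 11], [24, 35]], [[0, 2], [17, 24, 35]],
  [[0, 17], [24, 35, 43]], [[0], [11, 24, 35, 43]], [[4, 35, 41], [17, 29]], [[35, 41],
  [17, 29, 43]], [[4, 41], [17, 29, 30]], [[41], [17, 29, 30, 43]], [[2, 39, 50], [10, 17]],
  [[2, 50], [10, 17, 24]], [[39, 50], [4, 10, 17]], [[2, 17, 39], [10, 35]], [[17, 39],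
  [4, 10, 35]], [[2, 39], [8, 10, 35]], [[39], [4, 8, 10, 35]], [[2, 17], [10, 24, 35]], [[2, 24],
  [10, 11, 35]], [[2], [8, 10, 11, 35]], [[4, 8, 10], [35, 51]], [[35, 51], [4, 8, 10]],
  [[4, 10, 50], [17, 51]], [[10, 50], [17, 24, 51]], [[4, 50], [17, 30, 51]], [[50],
  [17, 24, 30, 51]], [[24, 30], [17, 43, 51]], [[4, 30], [17, 29, 51]], [[30], [17, 29, 43, 51]],
  [[4, 8, 10], [35, 51]], [[4, 10], [17, 35, 51]], [[8, 10], [11, 35, 51]], [[10, 17],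
  [24, 35, 51]], [[10], [11, 24, 35, 51]], [[8, 11], [29, 35, 51]], [[8], [4, 29, 35, 51]], [[4],
  [17, 29, 35, 51]], [[17, 29], [35, 43, 51]], [[17], [24, 35, 43, 51]], [[24], [11, 35, 43, 51]]]
def E25 : List ℕ := [11, 29, 35, 43, 51]
def L26 : List (List (List ℕ)) :=
  [[[13, 40], [38, 42, 47]], [[25, 40], [6, 9, 32]], [[7, 29], [18, 28, 38]], [[6, 25], [8, 9, 32]],
  [[25, 36], [9, 37, 45]], [[7, 28], [18, 38, 41]], [[6, 8], [9, 32, 46]], [[25, 32], [8, 9, 45]],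
  [[25], [8, 9, 37, 45]], [[40, 47], [28, 38, 42]], [[6, 29], [9, 18, 38]], [[29], [9, 18, 28, 38]],
  [[8, 32], [9, 45, 46]], [[40, 42], [6, 28, 38]], [[6, 18], [9, 38, 46]], [[32, 45], [0, 9, 46]],
  [[8, 37], [9, 19, 45]], [[8], [9, 19, 45, 46]], [[6, 42], [28, 38, 46]], [[38, 40], [6, 9, 28]],
  [[40], [6, 9, 28, 32]], [[6, 38], [9, 28, 46]], [[6], [9, 28, 32, 46]], [[32], [0, 9, 28, 46]],
  [[18, 46], [9, 19, 38]], [[28, 42], [38, 46, 47]], [[28, 47], [38, 41, 46]], [[0, 17, 22],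
  [43, 46]], [[0, 17], [41, 43, 46]], [[17, 41], [43, 46, 47]], [[17], [22, 43, 46, 47]], [[0, 22],
  [43, 45, 46]], [[0, 28, 46], [9, 41]], [[28, 46], [9, 38, 41]], [[28, 38], [9, 18, 41]], [[28],
  [0, 9, 18, 41]], [[0, 18], [5, 9, 41]], [[0, 5, 43], [41, 45]], [[0, 5], [9, 41, 45]], [[0, 9],
  [41, 45, 46]], [[0], [41, 43, 45, 46]], [[2, 7, 18], [33, 41]], [[33, 41], [2, 7, 18]],
  [[2, 7, 18], [33, 41]], [[2, 7], [33, 41, 48]], [[7, 48], [33, 38, 41]], [[7], [18, 33, 38, 41]],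
  [[2, 18, 21], [5, 33]], [[2, 18], [5, 33, 41]], [[5, 9, 18], [21, 41]], [[5, 18], [21, 33, 41]],
  [[5, 33], [2, 21, 41]], [[9, 18, 38], [19, 41]], [[18, 38], [19, 33, 41]], [[9, 18],
  [19, 21, 41]], [[18], [19, 21, 33, 41]], [[9, 38], [19, 41, 46]], [[9, 46], [19, 41, 45]],
  [[5, 9, 21], [36, 41]], [[5, 9], [36, 41, 45]], [[5, 45], [36, 41, 43]], [[5, 21], [2, 36, 41]],
  [[2, 5], [16, 36, 41]], [[5], [16, 36, 41, 43]], [[16, 43], [34, 36, 41]], [[2, 16, 36],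
  [20, 41]], [[16, 36], [20, 34, 41]], [[16, 34], [20, 41, 48]], [[16], [2, 20, 41, 48]],
  [[9, 19, 21], [37, 41]], [[19, 21], [33, 37, 41]], [[9, 19], [37, 41, 45]], [[9, 21],
  [36, 37, 41]], [[9], [36, 37, 41, 45]], [[21, 33], [2, 37, 41]], [[21], [2, 36, 37, 41]],
  [[2, 33], [37, 41, 48]], [[2, 48], [20, 37, 41]], [[2], [20, 36, 37, 41]], [[13, 33, 38],
  [19, 48]], [[33, 38], [19, 41, 48]], [[33, 41], [19, 37, 48]], [[33], [13, 19, 37, 48]],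
  [[13, 38, 48], [19, 47]], [[19, 47], [13, 38, 48]], [[13, 38, 48], [19, 47]], [[38, 48],
  [19, 41, 47]], [[38, 41], [19, 46, 47]], [[38, 46], [19, 42, 47]], [[38], [13, 19, 42, 47]],
  [[42, 46], [19, 22, 47]], [[41, 43, 46], [45, 47]], [[41, 46], [19, 45, 47]], [[43, 46],
  [22, 45, 47]], [[46], [19, 22, 45, 47]], [[4, 10, 34], [12, 47]], [[10, 34], [12, 43, 47]],
  [[10, 43], [12, 47, 51]], [[4, 10, 42], [30, 47]], [[4, 10], [12, 30, 47]], [[10, 42],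
  [30, 47, 51]], [[10], [12, 30, 47, 51]], [[4, 13, 44], [23, 48]], [[23, 48], [4, 13, 44]],
  [[4, 12, 34], [20, 47]], [[20, 47], [4, 12, 34]], [[4, 34, 47], [12, 48]], [[4, 34],
  [12, 20, 48]], [[12, 34, 43], [36, 47]], [[34, 43], [36, 41, 47]], [[41, 43], [36, 45, 47]],
  [[12, 20, 34], [36, 48]], [[12, 34], [36, 47, 48]], [[20, 34], [36, 41, 48]], [[34],
  [36, 41, 47, 48]], [[20, 41], [36, 37, 48]], [[19, 37, 41], [45, 48]], [[37, 41], [36, 45, 48]],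
  [[36, 41], [45, 47, 48]], [[41], [19, 45, 47, 48]], [[12, 36, 43], [39, 47]], [[36, 43],
  [39, 45, 47]], [[12, 43], [39, 47, 51]], [[12, 51], [30, 39, 47]], [[43, 45], [22, 39, 47]],
  [[43], [22, 39, 47, 51]], [[15, 22, 51], [39, 42]], [[15, 51], [30, 39, 42]], [[30, 51],
  [39, 42, 47]], [[51], [22, 39, 42, 47]], [[15, 22, 39], [42, 45]], [[42, 45], [15, 22, 39]],
  [[15, 22, 42], [19, 39]], [[22, 42], [19, 39, 47]], [[15, 22], [19, 39, 45]], [[22],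
  [19, 39, 45, 47]], [[4, 12, 48], [20, 47]], [[12, 48], [20, 36, 47]], [[4, 12], [20, 30, 47]],
  [[12, 14, 36], [20, 39]], [[12, 36], [20, 39, 47]], [[12, 47], [20, 30, 39]], [[12],
  [14, 20, 30, 39]], [[14, 36, 45], [37, 39]], [[14, 45], [15, 37, 39]], [[15, 45], [19, 37, 39]],
  [[14, 36], [20, 37, 39]], [[19, 37, 45], [39, 48]], [[37, 45], [36, 39, 48]], [[19, 45],
  [39, 47, 48]], [[45], [36, 39, 47, 48]], [[36, 37], [20, 39, 48]], [[36], [20, 39, 47, 48]],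
  [[14, 15, 23], [30, 37]], [[14, 23], [30, 37, 44]], [[14, 15], [30, 37, 39]], [[14, 39],
  [20, 30, 37]], [[14], [20, 30, 37, 44]], [[15, 19, 37], [23, 39]], [[15, 37], [23, 30, 39]],
  [[15, 30], [23, 39, 42]], [[15], [19, 23, 39, 42]], [[4, 13, 44], [23, 48]], [[13, 44],
  [23, 37, 48]], [[13, 37], [19, 23, 48]], [[19, 37], [23, 39, 48]], [[4, 13, 23], [42, 48]],
  [[42, 48], [4, 13, 23]], [[4, 13, 23], [42, 48]], [[13, 23], [19, 42, 48]], [[19, 23],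
  [39, 42, 48]], [[19, 39], [42, 47, 48]], [[19], [13, 42, 47, 48]], [[13], [4, 42, 47, 48]],
  [[4, 20, 44], [30, 48]], [[4, 20], [30, 47, 48]], [[4, 44], [23, 30, 48]], [[20, 47],
  [30, 39, 48]], [[20, 44], [30, 37, 48]], [[20], [30, 37, 39, 48]], [[44], [23, 30, 37, 48]],
  [[37], [23, 30, 39, 48]], [[4, 47], [30, 42, 48]], [[4], [23, 30, 42, 48]], [[23],
  [30, 39, 42, 48]]]
def E26 : List ℕ := [30, 39, 42, 47, 48]
def L27 : List (List (List ℕ)) :=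
  [[[37, 38], [0, 42, 47]], [[0, 32], [29, 31, 51]], [[28, 47], [38, 40, 42]], [[38, 47],
  [0, 40, 42]], [[0, 51], [29, 31, 40]], [[0, 38], [31, 40, 42]], [[0, 37], [29, 42, 47]], [[0, 31],
  [29, 40, 42]], [[0], [29, 40, 42, 47]], [[31, 38], [16, 40, 42]], [[38], [16, 28, 40, 42]],
  [[37, 42], [8, 29, 47]], [[28, 42], [6, 16, 40]], [[6, 42], [16, 40, 50]], [[16, 42],
  [31, 40, 50]], [[42, 47], [8, 29, 40]], [[8, 42], [29, 40, 50]], [[42], [29, 31, 40, 50]],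
  [[40, 47], [8, 29, 35]], [[4, 9, 25], [35, 37]], [[4, 25], [29, 35, 37]], [[25, 29],
  [35, 37, 47]], [[25], [9, 35, 37, 47]], [[29, 47], [8, 35, 37]], [[47], [8, 9, 35, 37]], [[9, 37],
  [4, 8, 35]], [[37], [4, 8, 29, 35]], [[15, 16, 19], [6, 48]], [[6, 48], [15, 16, 19]],
  [[6, 16, 19], [15, 30]], [[16, 19], [15, 30, 48]], [[19, 48], [11, 15, 30]], [[6, 19],
  [15, 22, 30]], [[19], [11, 15, 22, 30]], [[6, 22], [15, 30, 36]], [[6, 36, 50], [15, 40]],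
  [[6, 50], [15, 16, 40]], [[16, 50], [15, 31, 40]], [[6, 16, 28], [30, 40]], [[16, 28],
  [30, 40, 43]], [[6, 16], [15, 30, 40]], [[6, 28], [30, 36, 40]], [[6], [15, 30, 36, 40]],
  [[28, 36], [21, 30, 40]], [[28], [21, 30, 40, 43]], [[3, 34, 48], [11, 51]], [[11, 51],
  [3, 34, 48]], [[3, 34, 48], [11, 51]], [[3, 34], [11, 17, 51]], [[3, 48], [11, 32, 51]],
  [[11, 17, 34], [30, 51]], [[11, 34], [30, 48, 51]], [[17, 34], [30, 43, 51]], [[34, 43],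
  [16, 30, 51]], [[34], [16, 30, 48, 51]], [[16, 43], [30, 40, 51]], [[16, 31, 40], [15, 51]],
  [[16, 40], [15, 30, 51]], [[16, 31], [15, 48, 51]], [[16], [15, 30, 48, 51]], [[30, 48],
  [11, 15, 51]], [[11, 48], [15, 32, 51]], [[48], [15, 31, 32, 51]], [[15, 31, 32], [50, 51]],
  [[15, 31], [40, 50, 51]], [[31, 32], [29, 50, 51]], [[31], [29, 40, 50, 51]], [[17, 21, 43],
  [30, 35]], [[21, 43], [30, 35, 40]], [[17, 43], [30, 35, 51]], [[43], [30, 35, 40, 51]],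
  [[17, 21], [24, 30, 35]], [[17, 24], [9, 30, 35]], [[9, 17], [30, 35, 49]], [[3, 17, 35],
  [49, 51]], [[17, 35], [30, 49, 51]], [[3, 17], [11, 49, 51]], [[17], [11, 30, 49, 51]], [[3, 11],
  [32, 49, 51]], [[3, 4, 32], [29, 49]], [[3, 32], [29, 49, 51]], [[3, 51], [29, 35, 49]], [[3],
  [4, 29, 35, 49]], [[8, 21, 35], [24, 40]], [[8, 21], [24, 36, 40]], [[21, 35], [24, 30, 40]],
  [[21], [24, 30, 36, 40]], [[11, 15, 22], [30, 32]], [[30, 32], [11, 15, 22]], [[11, 15, 32],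
  [22, 51]], [[11, 32], [22, 49, 51]], [[11, 15], [22, 30, 51]], [[11], [22, 30, 49, 51]],
  [[4, 8, 9], [22, 35]], [[4, 9], [22, 35, 49]], [[8, 9], [22, 24, 35]], [[9, 24], [22, 30, 35]],
  [[9], [22, 30, 35, 49]], [[30, 49], [22, 35, 51]], [[8, 24, 35], [22, 40]], [[8, 24],
  [22, 36, 40]], [[24, 35], [22, 30, 40]], [[24], [22, 30, 36, 40]], [[30, 35], [22, 40, 51]],
  [[30, 36], [15, 22, 40]], [[30], [15, 22, 40, 51]], [[4, 22, 49], [32, 35]], [[4, 49],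
  [29, 32, 35]], [[22, 49], [32, 35, 51]], [[49], [29, 32, 35, 51]], [[4, 8, 29], [20, 35]],
  [[4, 29], [20, 32, 35]], [[4, 8], [20, 22, 35]], [[4], [20, 22, 32, 35]], [[8, 36, 40], [22, 50]],
  [[36, 40], [15, 22, 50]], [[15, 36], [20, 22, 50]], [[36], [8, 20, 22, 50]], [[15, 40],
  [22, 50, 51]], [[15, 51], [22, 32, 50]], [[15], [20, 22, 32, 50]], [[8, 29, 35], [20, 40]],
  [[8, 35], [20, 22, 40]], [[8, 22], [20, 40, 50]], [[8], [20, 29, 40, 50]], [[20, 22, 32],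
  [35, 50]], [[22, 32], [35, 50, 51]], [[22, 51], [35, 40, 50]], [[22], [20, 35, 40, 50]],
  [[20, 40], [29, 35, 50]], [[20], [29, 32, 35, 50]], [[32], [29, 35, 50, 51]]]
def E27 : List ℕ := [29, 35, 40, 50, 51]
def L28 : List (List (List ℕ)) :=
  [[[0, 32], [9, 26, 46]], [[21, 39], [5, 24, 51]], [[27, 47], [38, 40, 42]], [[33, 43],
  [21, 25, 30]], [[16, 42], [6, 27, 38]], [[0, 9], [18, 26, 46]], [[0], [18, 26, 41, 46]],
  [[41, 45], [1, 13, 31]], [[41, 47], [26, 38, 46]], [[2, 33], [21, 30, 51]], [[33],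
  [21, 25, 30, 51]], [[32, 46], [6, 9, 26]], [[40, 47], [26, 38, 42]], [[47], [26, 38, 42, 46]],
  [[13, 45], [1, 31, 51]], [[45], [1, 2, 31, 51]], [[26, 32], [6, 9, 40]], [[27, 42], [6, 38, 40]],
  [[4, 5], [21, 24, 36]], [[41, 46], [18, 26, 38]], [[27, 38], [6, 16, 40]], [[40, 42],
  [6, 26, 38]], [[42], [6, 26, 38, 46]], [[13, 51], [1, 25, 31]], [[9, 46], [6, 18, 26]], [[46],
  [6, 18, 26, 38]], [[13, 41], [1, 7, 31]], [[13], [1, 7, 25, 31]], [[26, 40], [6, 9, 38]],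
  [[26, 41], [7, 18, 38]], [[38, 40], [6, 9, 16]], [[38, 41], [1, 7, 18]], [[41], [1, 7, 18, 31]],
  [[16, 38], [6, 9, 29]], [[6, 26], [9, 18, 38]], [[9, 26], [18, 29, 38]], [[26], [7, 18, 29, 38]],
  [[7, 31], [1, 18, 25]], [[9, 38], [6, 18, 29]], [[7, 38], [1, 18, 29]], [[7], [1, 18, 25, 29]],
  [[38], [1, 6, 18, 29]], [[9, 18], [6, 23, 29]], [[1, 6, 18], [29, 31]], [[6, 18], [23, 29, 31]],
  [[1, 18], [25, 29, 31]], [[18], [23, 25, 29, 31]], [[3, 4, 32], [24, 40]], [[4, 32],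
  [24, 36, 40]], [[3, 4], [21, 24, 40]], [[4], [21, 24, 36, 40]], [[1, 2, 30], [6, 51]], [[1, 2],
  [6, 31, 51]], [[1, 6, 30], [29, 51]], [[1, 6], [29, 31, 51]], [[1, 31], [25, 29, 51]], [[1],
  [25, 29, 30, 51]], [[25, 31], [23, 29, 51]], [[29, 31], [6, 23, 51]], [[2, 5, 31], [17, 51]],
  [[5, 31], [17, 39, 51]], [[31, 39], [17, 23, 51]], [[23, 31], [6, 17, 51]], [[31],
  [2, 6, 17, 51]], [[2, 5, 17], [36, 51]], [[2, 5], [21, 36, 51]], [[2, 17], [6, 36, 51]], [[2, 6],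
  [30, 36, 51]], [[2], [21, 30, 36, 51]], [[5, 21], [24, 36, 51]], [[5, 17, 36], [32, 51]],
  [[5, 17], [32, 39, 51]], [[5, 36], [24, 32, 51]], [[5], [24, 32, 39, 51]], [[17, 39],
  [23, 32, 51]], [[17, 23], [6, 32, 51]], [[17], [6, 32, 36, 51]], [[23, 39], [11, 32, 51]], [[39],
  [11, 24, 32, 51]], [[3, 11, 48], [25, 32]], [[11, 48], [23, 25, 32]], [[11, 23], [25, 32, 51]],
  [[11, 51], [24, 25, 32]], [[11], [3, 24, 25, 32]], [[3, 24, 32], [25, 40]], [[25, 40],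
  [3, 24, 32]], [[6, 9, 23], [29, 32]], [[9, 23], [29, 32, 48]], [[6, 23], [29, 32, 51]], [[23, 51],
  [25, 29, 32]], [[23], [25, 29, 32, 48]], [[9, 48], [29, 32, 44]], [[3, 32, 48], [25, 44]],
  [[3, 48], [25, 43, 44]], [[32, 48], [25, 29, 44]], [[48], [25, 29, 43, 44]], [[6, 9, 16],
  [29, 40]], [[6, 9], [29, 32, 40]], [[9, 32], [29, 40, 44]], [[9], [16, 29, 40, 44]], [[16, 44],
  [29, 40, 43]], [[3, 43, 44], [25, 40]], [[43, 44], [25, 29, 40]], [[29, 44], [25, 32, 40]], [[44],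
  [3, 25, 32, 40]], [[3, 32], [24, 25, 40]], [[3, 43], [21, 25, 40]], [[3], [21, 24, 25, 40]],
  [[6, 16, 30], [27, 29]], [[16, 30], [27, 29, 43]], [[6, 16], [27, 29, 40]], [[16],
  [27, 29, 40, 43]], [[21, 24, 36], [40, 51]], [[21, 24], [25, 40, 51]], [[24, 36], [32, 40, 51]],
  [[24], [25, 32, 40, 51]], [[25, 32], [29, 40, 51]], [[29, 32], [6, 40, 51]], [[32],
  [6, 36, 40, 51]], [[6, 27, 30], [29, 36]], [[6, 30], [29, 36, 51]], [[6, 51], [29, 36, 40]], [[6],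
  [27, 29, 36, 40]], [[21, 25, 30], [43, 51]], [[21, 25], [40, 43, 51]], [[25, 30], [29, 43, 51]],
  [[25], [29, 40, 43, 51]], [[21, 30, 43], [27, 51]], [[27, 51], [21, 30, 43]], [[21, 27, 36],
  [30, 40]], [[30, 40], [21, 27, 36]], [[21, 36, 51], [30, 40]], [[21, 51], [30, 40, 43]],
  [[21, 36], [27, 30, 40]], [[21], [27, 30, 40, 43]], [[43, 51], [29, 30, 40]], [[43],
  [27, 29, 30, 40]], [[27], [29, 30, 36, 40]]]
def E28 : List ℕ := [29, 30, 36, 40, 51]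
def L29 : List (List (List ℕ)) :=
  [[[6, 26], [9, 18, 38]], [[16, 38], [6, 9, 28]], [[2, 45], [31, 32, 51]], [[7, 26], [18, 28, 38]],
  [[26], [9, 18, 28, 38]], [[32, 45], [0, 31, 51]], [[45, 51], [0, 13, 31]], [[45],
  [0, 13, 31, 42]], [[7, 38], [1, 18, 28]], [[0, 7], [37, 42, 47]], [[7, 42], [18, 37, 47]],
  [[0, 37], [27, 42, 47]], [[0, 32], [27, 31, 51]], [[1, 38], [6, 18, 28]], [[38], [6, 9, 18, 28]],
  [[7, 28], [1, 18, 25]], [[1, 7], [18, 25, 37]], [[7], [18, 25, 37, 47]], [[9, 18], [6, 23, 28]],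
  [[13, 47], [0, 40, 42]], [[13, 42], [0, 31, 40]], [[13], [0, 31, 40, 51]], [[6, 18], [1, 23, 28]],
  [[0, 51], [27, 31, 40]], [[0, 31], [27, 40, 42]], [[0], [27, 40, 42, 47]], [[18, 28],
  [1, 23, 25]], [[18, 42], [8, 37, 47]], [[37, 42], [8, 27, 47]], [[18, 47], [8, 25, 37]],
  [[37, 47], [8, 25, 27]], [[18, 23], [1, 8, 25]], [[18], [1, 8, 25, 37]], [[25, 47], [8, 27, 35]],
  [[35, 47], [8, 27, 40]], [[47], [8, 27, 40, 42]], [[8, 42], [27, 40, 50]], [[42],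
  [27, 31, 40, 50]], [[27, 37], [4, 8, 25]], [[37], [1, 4, 8, 25]], [[25, 27], [4, 8, 35]],
  [[3, 35, 51], [27, 41]], [[3, 35], [4, 27, 41]], [[3, 4], [27, 32, 41]], [[3], [27, 32, 41, 51]],
  [[8, 11, 23], [25, 40]], [[11, 23], [25, 40, 48]], [[8, 11], [25, 35, 40]], [[11],
  [25, 35, 40, 48]], [[35, 48], [5, 25, 40]], [[9, 24, 48], [17, 23]], [[24, 48], [17, 23, 40]],
  [[9, 24], [17, 23, 50]], [[24], [17, 23, 40, 50]], [[9, 50], [17, 23, 49]], [[9, 28, 44],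
  [16, 48]], [[9, 44], [16, 17, 48]], [[28, 44], [16, 43, 48]], [[43, 44], [5, 16, 48]], [[44],
  [5, 16, 17, 48]], [[5, 43, 48], [16, 25]], [[43, 48], [16, 25, 28]], [[5, 43], [16, 25, 41]],
  [[41, 43], [16, 25, 30]], [[43], [16, 25, 28, 30]], [[6, 9, 16], [28, 49]], [[28, 49],
  [6, 9, 16]], [[6, 9, 49], [16, 23]], [[9, 49], [16, 17, 23]], [[9, 17], [16, 23, 48]], [[9, 48],
  [16, 23, 28]], [[9], [6, 16, 23, 28]], [[28, 48], [16, 23, 25]], [[1, 6, 28], [23, 30]], [[6, 28],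
  [16, 23, 30]], [[16, 28], [23, 25, 30]], [[28], [1, 23, 25, 30]], [[1, 6], [20, 23, 30]],
  [[1, 4, 25], [8, 30]], [[8, 30], [1, 4, 25]], [[1, 4, 8], [20, 25]], [[1, 8], [20, 23, 25]],
  [[1, 4], [20, 25, 30]], [[1], [20, 23, 25, 30]], [[5, 16, 48], [17, 25]], [[5, 48], [17, 25, 40]],
  [[40, 48], [17, 23, 25]], [[48], [16, 17, 23, 25]], [[6, 16, 49], [19, 23]], [[6, 49],
  [19, 20, 23]], [[20, 49], [19, 23, 50]], [[6, 16], [19, 23, 30]], [[6], [19, 20, 23, 30]],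
  [[2, 19, 49], [16, 50]], [[2, 49], [16, 17, 50]], [[19, 49], [16, 23, 50]], [[49],
  [16, 17, 23, 50]], [[16, 19, 30], [23, 41]], [[16, 30], [23, 25, 41]], [[4, 20, 30], [19, 25]],
  [[19, 25], [4, 20, 30]], [[4, 19, 30], [20, 41]], [[19, 30], [20, 23, 41]], [[4, 30],
  [20, 25, 41]], [[30], [20, 23, 25, 41]], [[4, 19], [20, 32, 41]], [[4, 32], [20, 27, 41]],
  [[4, 8, 27], [20, 35]], [[4, 27], [20, 35, 41]], [[4, 41], [20, 25, 35]], [[4], [8, 20, 25, 35]],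
  [[2, 19, 32], [41, 50]], [[2, 19], [16, 41, 50]], [[16, 19], [23, 41, 50]], [[19, 23],
  [20, 41, 50]], [[19], [20, 32, 41, 50]], [[20, 32], [27, 41, 50]], [[2, 31, 32], [50, 51]],
  [[31, 32], [27, 50, 51]], [[2, 32], [41, 50, 51]], [[32], [27, 41, 50, 51]], [[27, 31],
  [40, 50, 51]], [[2, 5, 31], [17, 51]], [[17, 51], [2, 5, 31]], [[2, 31, 51], [5, 50]], [[2, 51],
  [5, 41, 50]], [[2, 31], [5, 17, 50]], [[2, 17], [5, 16, 50]], [[2], [5, 16, 41, 50]], [[31, 51],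
  [5, 40, 50]], [[31], [5, 17, 40, 50]], [[5, 16, 17], [25, 50]], [[25, 50], [5, 16, 17]],
  [[5, 17, 25], [16, 40]], [[16, 40], [5, 17, 25]], [[5, 16, 41], [25, 50]], [[16, 41],
  [23, 25, 50]], [[16, 23], [17, 25, 50]], [[16], [5, 17, 25, 50]], [[5, 17], [25, 40, 50]], [[17],
  [23, 25, 40, 50]], [[23, 40], [8, 25, 50]], [[8, 23], [20, 25, 50]], [[23], [20, 25, 41, 50]],
  [[5, 25, 50], [40, 41]], [[40, 41], [5, 25, 50]], [[5, 25, 40], [35, 50]], [[5, 40],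
  [35, 50, 51]], [[5, 51], [35, 41, 50]], [[5], [25, 35, 41, 50]], [[41, 51], [27, 35, 50]], [[51],
  [27, 35, 40, 50]], [[25, 41], [20, 35, 50]], [[41], [20, 27, 35, 50]], [[20, 25], [8, 35, 50]],
  [[20], [8, 27, 35, 50]], [[25], [8, 35, 40, 50]]]
def E29 : List ℕ := [8, 27, 35, 40, 50]
def L30 : List (List (List ℕ)) :=
  [[[10, 25], [24, 50, 51]], [[22, 36], [6, 24, 27]], [[46, 49], [11, 22, 50]], [[9, 17, 49],
  [27, 50]], [[17, 49], [11, 27, 50]], [[9, 49], [22, 27, 50]], [[49], [11, 22, 27, 50]], [[9, 22],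
  [24, 27, 50]], [[9], [17, 24, 27, 50]], [[11, 19, 48], [27, 41]], [[11, 48], [27, 34, 41]],
  [[19, 48], [16, 27, 41]], [[48], [16, 27, 34, 41]], [[16, 34], [27, 41, 43]], [[4, 31, 44],
  [23, 50]], [[4, 31], [17, 23, 50]], [[11, 31, 50], [17, 44]], [[31, 50], [17, 23, 44]], [[11, 31],
  [17, 34, 44]], [[31], [17, 23, 34, 44]], [[23, 50], [4, 17, 44]], [[6, 16, 19], [27, 29]],
  [[6, 16], [27, 28, 29]], [[16, 19], [27, 29, 41]], [[16, 28], [27, 29, 43]], [[16],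
  [27, 29, 41, 43]], [[0, 34, 35], [2, 14]], [[2, 14], [0, 34, 35]], [[0, 2, 35], [6, 34]],
  [[0, 35], [6, 14, 34]], [[1, 2, 35], [6, 44]], [[1, 35], [6, 20, 44]], [[2, 35], [6, 34, 44]],
  [[34, 35], [6, 14, 44]], [[35], [6, 14, 20, 44]], [[0, 2, 6], [34, 36]], [[34, 36], [0, 2, 6]],
  [[0, 2, 6], [34, 36]], [[0, 2], [34, 36, 37]], [[0, 14, 38], [34, 47]], [[34, 47], [0, 14, 38]],
  [[0, 6, 34], [14, 36]], [[0, 6], [14, 36, 47]], [[0, 36, 37], [34, 47]], [[0, 36], [14, 34, 47]],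
  [[0, 37], [34, 38, 47]], [[0], [14, 34, 38, 47]], [[14, 36], [6, 34, 47]], [[2, 36, 37],
  [21, 34]], [[2, 37], [21, 33, 34]], [[33, 37], [21, 34, 43]], [[36, 37], [21, 34, 47]], [[37, 47],
  [21, 34, 38]], [[37], [21, 34, 38, 43]], [[2, 28, 36], [6, 21]], [[28, 36], [6, 21, 27]],
  [[27, 36], [6, 21, 24]], [[2, 36], [6, 21, 34]], [[24, 36], [6, 21, 47]], [[36], [6, 21, 34, 47]],
  [[1, 2, 6], [28, 44]], [[28, 44], [1, 2, 6]], [[2, 21, 28], [6, 33]], [[6, 33], [2, 21, 28]],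
  [[2, 6, 34], [21, 44]], [[2, 34], [21, 33, 44]], [[2, 6, 44], [1, 21]], [[2, 6], [1, 21, 28]],
  [[2, 21, 44], [1, 33]], [[2, 44], [1, 33, 51]], [[2, 21], [1, 28, 33]], [[2], [1, 28, 33, 51]],
  [[28, 51], [1, 25, 33]], [[1, 25, 28], [29, 33]], [[25, 28], [29, 33, 43]], [[25, 43],
  [29, 33, 41]], [[1, 6, 28], [21, 29]], [[1, 28], [21, 29, 33]], [[6, 28], [21, 27, 29]],
  [[28, 33], [21, 29, 43]], [[28], [21, 27, 29, 43]], [[4, 7, 45], [11, 42]], [[4, 45],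
  [11, 41, 42]], [[7, 33, 45], [42, 44]], [[7, 45], [11, 42, 44]], [[7, 33], [42, 44, 51]],
  [[33, 41, 45], [34, 42]], [[33, 45], [34, 42, 44]], [[44, 45], [11, 34, 42]], [[45],
  [11, 34, 41, 42]], [[4, 7, 11], [42, 46]], [[42, 46], [4, 7, 11]], [[4, 7, 10], [42, 46]],
  [[4, 7], [11, 42, 46]], [[7, 10, 51], [42, 50]], [[7, 10], [42, 46, 50]], [[7, 51], [42, 44, 50]],
  [[7, 44], [11, 42, 50]], [[7], [11, 42, 46, 50]], [[4, 11, 46], [19, 42]], [[4, 11],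
  [19, 41, 42]], [[4, 10, 46], [12, 42]], [[4, 10], [12, 26, 42]], [[4, 46], [12, 19, 42]],
  [[10, 26], [12, 42, 51]], [[10, 12, 51], [24, 42]], [[24, 42], [10, 12, 51]], [[10, 24, 50],
  [22, 51]], [[10, 24], [12, 22, 51]], [[10, 12, 46], [22, 42]], [[10, 12], [22, 42, 51]],
  [[10, 51], [22, 42, 50]], [[10], [22, 42, 46, 50]], [[46, 50], [11, 22, 42]], [[11, 46],
  [19, 22, 42]], [[46], [12, 19, 22, 42]], [[12, 39, 47], [14, 24]], [[14, 24], [12, 39, 47]],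
  [[6, 24, 47], [12, 21]], [[12, 21], [6, 24, 47]], [[14, 38, 47], [34, 39]], [[38, 47],
  [21, 34, 39]], [[14, 23, 38], [15, 34]], [[23, 38], [15, 34, 43]], [[38, 43], [15, 21, 34]],
  [[21, 38], [15, 34, 39]], [[38], [14, 15, 34, 39]], [[23, 43], [15, 17, 34]], [[15, 43],
  [17, 21, 34]], [[17, 43], [21, 27, 34]], [[21, 27, 43], [29, 34]], [[21, 43], [29, 33, 34]],
  [[27, 43], [29, 34, 41]], [[43], [29, 33, 34, 41]], [[6, 24, 47], [12, 21]], [[24, 47],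
  [12, 21, 39]], [[24, 39], [12, 21, 51]], [[6, 12, 47], [14, 21]], [[6, 47], [14, 21, 34]],
  [[6, 34], [14, 21, 44]], [[12, 47], [14, 21, 39]], [[47], [14, 21, 34, 39]], [[34, 39],
  [14, 15, 21]], [[14, 21, 39], [12, 15]], [[14, 39], [12, 15, 26]], [[26, 39], [12, 15, 51]],
  [[39], [12, 15, 21, 51]], [[26, 51], [12, 15, 42]], [[15, 51], [12, 21, 42]], [[4, 23, 42],
  [17, 26]], [[4, 23], [17, 26, 44]], [[23, 42], [15, 17, 26]], [[14, 15, 23], [26, 34]], [[15, 23],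
  [17, 26, 34]], [[17, 23], [26, 34, 44]], [[23], [14, 26, 34, 44]], [[12, 14, 15], [21, 26]],
  [[21, 26], [12, 14, 15]], [[14, 15, 26], [12, 34]], [[12, 34], [14, 15, 26]], [[12, 15, 26],
  [14, 42]], [[12, 15], [14, 21, 42]], [[15, 26, 42], [14, 17]], [[14, 17], [15, 26, 42]],
  [[14, 15, 34], [21, 26]], [[14, 15], [21, 26, 42]], [[14, 42], [12, 21, 26]], [[14, 34],
  [21, 26, 44]], [[15, 42], [17, 21, 26]], [[15], [17, 21, 26, 34]], [[26, 34], [17, 21, 44]],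
  [[6, 12, 14], [20, 21]], [[12, 14], [20, 21, 26]], [[14, 26], [20, 21, 44]], [[14],
  [6, 20, 21, 44]], [[6, 44], [1, 20, 21]], [[1, 6], [20, 21, 29]], [[12, 20, 26], [4, 21]],
  [[20, 26], [4, 21, 44]], [[26, 44], [4, 17, 21]], [[12, 26], [4, 21, 42]], [[26],
  [4, 17, 21, 42]], [[17, 42], [4, 21, 25]], [[20, 44], [1, 4, 21]], [[1, 20], [4, 21, 29]],
  [[6, 12, 20], [19, 21]], [[12, 20], [4, 19, 21]], [[4, 12], [19, 21, 42]], [[6, 20],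
  [19, 21, 29]], [[20], [4, 19, 21, 29]], [[6, 29], [19, 21, 27]], [[6, 12, 24], [21, 22]],
  [[6, 12], [19, 21, 22]], [[12, 19], [21, 22, 42]], [[12, 42], [21, 22, 51]], [[12],
  [21, 22, 24, 51]], [[6, 24], [21, 22, 27]], [[6], [19, 21, 22, 27]], [[1, 21, 33], [29, 44]],
  [[21, 33], [29, 34, 44]], [[1, 21], [4, 29, 44]], [[1, 25, 51], [4, 33]], [[1, 51], [4, 33, 44]],
  [[1, 44], [4, 29, 33]], [[1], [4, 25, 29, 33]], [[25, 29], [4, 33, 41]], [[25, 41], [4, 33, 42]],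
  [[25, 33], [4, 42, 51]], [[25, 42], [4, 21, 51]], [[33, 51], [4, 42, 44]], [[44, 51],
  [4, 42, 50]], [[4, 17, 25], [21, 50]], [[21, 50], [4, 17, 25]], [[4, 25, 51], [21, 50]], [[4, 25],
  [17, 21, 50]], [[17, 25], [21, 24, 50]], [[25], [21, 24, 50, 51]], [[4, 17], [21, 44, 50]],
  [[4, 51], [21, 42, 50]], [[17, 24], [21, 27, 50]], [[24, 27], [21, 22, 50]], [[24],
  [21, 22, 50, 51]], [[51], [21, 22, 42, 50]], [[4, 50], [21, 42, 44]], [[4, 29, 33], [41, 44]],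
  [[4, 33], [41, 42, 44]], [[29, 33], [34, 41, 44]], [[33], [34, 41, 42, 44]], [[34, 42],
  [11, 41, 44]], [[4, 19, 29], [21, 41]], [[4, 19], [21, 41, 42]], [[19, 29], [21, 27, 41]],
  [[4, 29], [21, 41, 44]], [[4], [21, 41, 42, 44]], [[27, 29], [21, 34, 41]], [[29],
  [21, 34, 41, 44]], [[11, 17, 50], [27, 44]], [[27, 44], [11, 17, 50]], [[11, 17, 34], [27, 44]],
  [[27, 44], [11, 17, 34]], [[11, 17, 44], [34, 50]], [[17, 44], [21, 34, 50]], [[17, 21],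
  [27, 34, 50]], [[17], [11, 27, 34, 50]], [[11, 19, 22], [27, 42]], [[11, 19], [27, 41, 42]],
  [[19, 41], [21, 27, 42]], [[19], [21, 22, 27, 42]], [[21, 22], [27, 42, 50]], [[22],
  [11, 27, 42, 50]], [[11, 27, 34], [41, 50]], [[11, 27], [41, 42, 50]], [[11, 34], [41, 44, 50]],
  [[11], [41, 42, 44, 50]], [[34, 44], [21, 41, 50]], [[34], [21, 27, 41, 50]], [[27],
  [21, 41, 42, 50]]]
def E30 : List ℕ := [21, 41, 42, 44, 50]
def L31 : List (List (List ℕ)) :=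
  [[[25, 36], [1, 7, 18]], [[18, 36], [1, 7, 41]], [[12, 46], [0, 9, 45]], [[0, 46], [9, 32, 45]],
  [[46], [8, 9, 32, 45]], [[8, 45], [2, 9, 32]], [[7, 36], [1, 13, 41]], [[36, 38], [12, 13, 42]],
  [[12, 38], [0, 13, 42]], [[18, 41], [1, 7, 28]], [[36, 42], [12, 13, 41]], [[36],
  [1, 12, 13, 41]], [[6, 18], [1, 23, 28]], [[13, 38], [0, 40, 42]], [[8, 32], [2, 9, 43]],
  [[41, 42], [12, 13, 45]], [[12, 41], [1, 13, 45]], [[0, 38], [27, 40, 42]], [[38],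
  [16, 27, 40, 42]], [[12, 42], [0, 13, 45]], [[18, 23], [1, 25, 28]], [[18], [1, 7, 25, 28]],
  [[0, 12], [9, 13, 45]], [[12], [1, 9, 13, 45]], [[23, 25], [1, 28, 51]], [[7, 41], [1, 13, 28]],
  [[7], [1, 13, 25, 28]], [[25], [1, 13, 28, 51]], [[41], [1, 13, 28, 45]], [[13, 28], [1, 45, 51]],
  [[28, 45], [1, 2, 51]], [[16, 42], [27, 40, 50]], [[1, 13], [9, 45, 51]], [[42, 45], [0, 13, 29]],
  [[1, 45], [2, 9, 51]], [[9, 13], [0, 45, 51]], [[42, 50], [27, 29, 40]], [[13, 42], [0, 29, 40]],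
  [[42], [0, 27, 29, 40]], [[0, 9], [32, 45, 51]], [[13, 40], [0, 29, 51]], [[13], [0, 29, 45, 51]],
  [[9, 45], [2, 32, 51]], [[0, 45], [29, 32, 51]], [[45], [2, 29, 32, 51]], [[0, 32], [27, 29, 51]],
  [[0], [27, 29, 40, 51]], [[3, 4, 16], [23, 24]], [[3, 16], [20, 23, 24]], [[3, 20], [21, 23, 24]],
  [[3], [4, 21, 23, 24]], [[4, 21], [23, 24, 44]], [[6, 17, 34], [11, 23]], [[17, 34],
  [11, 23, 30]], [[6, 34], [11, 23, 44]], [[34], [11, 23, 30, 44]], [[6, 44], [11, 21, 23]],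
  [[4, 23, 30], [17, 44]], [[23, 30], [11, 17, 44]], [[11, 30], [17, 44, 50]], [[30],
  [4, 17, 44, 50]], [[5, 39, 40], [17, 51]], [[17, 51], [5, 39, 40]], [[2, 5, 28], [17, 51]],
  [[5, 28], [17, 39, 51]], [[28, 39], [17, 23, 51]], [[2, 5], [17, 29, 51]], [[5, 39],
  [17, 40, 51]], [[5], [17, 29, 40, 51]], [[1, 2, 28], [6, 51]], [[1, 28], [6, 23, 51]], [[23, 28],
  [6, 17, 51]], [[28], [2, 6, 17, 51]], [[1, 23], [6, 20, 51]], [[1, 2, 9], [35, 51]], [[1, 9],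
  [20, 35, 51]], [[1, 2], [6, 35, 51]], [[1], [6, 20, 35, 51]], [[2, 17, 29], [50, 51]], [[17, 29],
  [40, 50, 51]], [[2, 29], [32, 50, 51]], [[29, 40], [27, 50, 51]], [[29], [27, 32, 50, 51]],
  [[27, 40], [16, 50, 51]], [[17, 40], [39, 50, 51]], [[40], [16, 39, 50, 51]], [[4, 17, 39],
  [23, 50]], [[4, 17], [23, 44, 50]], [[4, 39], [16, 23, 50]], [[17, 44], [11, 23, 50]], [[17, 39],
  [23, 50, 51]], [[39], [16, 23, 50, 51]], [[2, 6, 17], [11, 51]], [[2, 6], [11, 35, 51]], [[6, 17],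
  [11, 23, 51]], [[17, 23], [11, 50, 51]], [[17], [2, 11, 50, 51]], [[6, 11, 21], [23, 35]],
  [[6, 11], [23, 35, 51]], [[6, 21], [20, 23, 35]], [[6], [20, 23, 35, 51]], [[20, 21],
  [23, 24, 35]], [[8, 21, 44], [11, 24]], [[21, 44], [11, 23, 24]], [[8, 21], [11, 24, 35]], [[21],
  [11, 23, 24, 35]], [[8, 44], [11, 24, 43]], [[2, 8, 9], [35, 43]], [[2, 8], [11, 35, 43]],
  [[8, 9], [24, 35, 43]], [[8], [11, 24, 35, 43]], [[4, 23, 44], [24, 50]], [[4, 23], [16, 24, 50]],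
  [[4, 16], [15, 24, 50]], [[4, 15], [24, 43, 50]], [[4], [24, 43, 44, 50]], [[23, 44],
  [11, 24, 50]], [[44], [11, 24, 43, 50]], [[16, 27, 48], [15, 51]], [[15, 51], [16, 27, 48]],
  [[15, 16, 27], [48, 50]], [[15, 16], [24, 48, 50]], [[16, 27], [48, 50, 51]], [[27, 51],
  [32, 48, 50]], [[27], [15, 32, 48, 50]], [[15, 24, 50], [43, 48]], [[15, 24], [9, 43, 48]],
  [[15, 50], [32, 43, 48]], [[15], [9, 32, 43, 48]], [[2, 32, 50], [43, 51]], [[2, 50],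
  [11, 43, 51]], [[2, 32], [9, 43, 51]], [[2, 9], [35, 43, 51]], [[2], [11, 35, 43, 51]], [[9, 32],
  [43, 48, 51]], [[32], [43, 48, 50, 51]], [[9, 20, 24], [35, 48]], [[9, 24], [35, 43, 48]],
  [[9, 20], [35, 48, 51]], [[9], [35, 43, 48, 51]], [[11, 23, 35], [24, 51]], [[11, 35],
  [24, 43, 51]], [[23, 35], [20, 24, 51]], [[35, 43], [24, 48, 51]], [[35], [20, 24, 48, 51]],
  [[20, 48], [16, 24, 51]], [[20], [16, 23, 24, 51]], [[16, 23], [24, 50, 51]], [[16],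
  [24, 48, 50, 51]], [[23], [11, 24, 50, 51]], [[11], [24, 43, 50, 51]]]
def E31 : List ℕ := [24, 43, 48, 50, 51]
def L32 : List (List (List ℕ)) :=
  [[[10, 47], [17, 33, 36]], [[0, 27], [29, 31, 51]], [[0, 29], [31, 45, 51]], [[0, 28],
  [9, 26, 46]], [[19, 21], [18, 20, 33]], [[0, 51], [9, 31, 45]], [[29, 45], [2, 31, 51]],
  [[45, 51], [2, 9, 31]], [[0, 31], [9, 45, 46]], [[0], [9, 26, 45, 46]], [[31, 46], [8, 9, 45]],
  [[31, 45], [2, 8, 9]], [[28, 46], [6, 9, 26]], [[2, 45], [8, 9, 25]], [[6, 46], [8, 9, 26]],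
  [[46], [8, 9, 26, 45]], [[45], [8, 9, 25, 26]], [[8, 31], [2, 9, 43]], [[8, 26], [6, 9, 25]],
  [[25, 26], [6, 9, 40]], [[26], [6, 9, 28, 40]], [[2, 8, 43], [9, 10]], [[8, 43], [6, 9, 10]],
  [[6, 8], [9, 10, 25]], [[8], [2, 9, 10, 25]], [[2, 25], [9, 10, 40]], [[25], [6, 9, 10, 40]],
  [[4, 18, 38], [19, 24]], [[19, 24], [4, 18, 38]], [[4, 19, 38], [18, 36]], [[19, 38],
  [18, 33, 36]], [[4, 38], [18, 24, 36]], [[38], [18, 24, 33, 36]], [[5, 24, 28], [36, 39]],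
  [[36, 39], [5, 24, 28]], [[5, 17, 47], [36, 39]], [[5, 17], [28, 36, 39]], [[5, 47],
  [24, 36, 39]], [[5], [24, 28, 36, 39]], [[12, 17, 47], [33, 39]], [[17, 47], [33, 36, 39]],
  [[12, 47], [24, 33, 39]], [[47], [24, 33, 36, 39]], [[12, 24], [33, 39, 42]], [[12],
  [17, 33, 39, 42]], [[15, 17, 21], [20, 42]], [[15, 21], [20, 22, 42]], [[17, 21], [20, 33, 42]],
  [[21, 33], [18, 20, 42]], [[21], [18, 20, 22, 42]], [[2, 9, 44], [40, 51]], [[2, 44],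
  [40, 41, 51]], [[41, 44], [3, 40, 51]], [[3, 44, 48], [28, 51]], [[3, 44], [28, 40, 51]],
  [[40, 44], [9, 28, 51]], [[44], [9, 28, 48, 51]], [[2, 19, 41], [29, 40]], [[19, 41],
  [4, 29, 40]], [[2, 41], [29, 40, 51]], [[41, 51], [3, 29, 40]], [[41], [3, 4, 29, 40]],
  [[2, 29, 50], [19, 31]], [[19, 31], [2, 29, 50]], [[2, 43, 50], [19, 31]], [[19, 31],
  [2, 43, 50]], [[2, 31, 50], [29, 43]], [[2, 50], [19, 29, 43]], [[19, 50], [20, 29, 43]],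
  [[15, 20, 50], [27, 43]], [[20, 50], [27, 29, 43]], [[15, 50], [27, 31, 43]], [[50],
  [27, 29, 31, 43]], [[2, 9, 10], [40, 43]], [[2, 10], [19, 40, 43]], [[2, 19], [29, 40, 43]],
  [[9, 10], [6, 40, 43]], [[2, 9, 40], [43, 51]], [[2, 9], [31, 43, 51]], [[2, 40], [29, 43, 51]],
  [[2], [29, 31, 43, 51]], [[29, 31], [27, 43, 51]], [[15, 31, 43], [9, 27]], [[9, 27],
  [15, 31, 43]], [[9, 15, 31], [43, 48]], [[9, 31], [43, 48, 51]], [[9, 15], [23, 43, 48]],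
  [[15, 31], [27, 43, 48]], [[31], [27, 43, 48, 51]], [[6, 9, 23], [28, 43]], [[6, 23],
  [17, 28, 43]], [[6, 9], [28, 40, 43]], [[9, 23], [28, 43, 48]], [[9, 40], [28, 43, 51]], [[9],
  [28, 43, 48, 51]], [[6, 10, 40], [36, 43]], [[6, 10], [17, 36, 43]], [[6, 40], [28, 36, 43]],
  [[6], [17, 28, 36, 43]], [[10, 40], [19, 36, 43]], [[10, 19], [33, 36, 43]], [[10],
  [17, 33, 36, 43]], [[3, 40, 51], [28, 29]], [[3, 40], [4, 28, 29]], [[40, 51], [28, 29, 43]],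
  [[4, 19, 40], [29, 36]], [[19, 40], [29, 36, 43]], [[4, 40], [28, 29, 36]], [[40],
  [28, 29, 36, 43]], [[27, 29, 51], [3, 43]], [[29, 51], [3, 28, 43]], [[28, 51], [3, 43, 48]],
  [[51], [3, 27, 43, 48]], [[3, 11, 48], [27, 28]], [[27, 28], [3, 11, 48]], [[3, 11, 48],
  [27, 28]], [[27, 28], [3, 11, 48]], [[3, 43, 48], [27, 28]], [[3, 43], [27, 28, 29]], [[3, 48],
  [11, 27, 28]], [[3, 29], [4, 27, 28]], [[3, 4, 24], [28, 49]], [[3, 4], [27, 28, 49]], [[3, 27],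
  [11, 28, 49]], [[3], [11, 24, 28, 49]], [[11, 27, 48], [15, 28]], [[11, 48], [15, 23, 28]],
  [[27, 48], [15, 28, 43]], [[48], [15, 23, 28, 43]], [[23, 43], [15, 17, 28]], [[15, 17, 23],
  [28, 42]], [[28, 42], [15, 17, 23]], [[11, 23, 42], [15, 39]], [[11, 23], [15, 28, 39]],
  [[23, 28], [15, 17, 39]], [[23], [15, 17, 39, 42]], [[4, 19, 20], [18, 29]], [[18, 29],
  [4, 19, 20]], [[4, 18, 19], [20, 36]], [[18, 19], [20, 33, 36]], [[19, 33], [20, 36, 43]],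
  [[33, 43], [17, 20, 36]], [[19, 43], [20, 29, 36]], [[19], [4, 20, 29, 36]], [[4, 27, 29],
  [20, 28]], [[20, 28], [4, 27, 29]], [[4, 29, 36], [20, 28]], [[4, 29], [20, 27, 28]], [[29, 36],
  [20, 28, 43]], [[29], [20, 27, 28, 43]], [[27, 43], [15, 20, 28]], [[36, 43], [17, 20, 28]],
  [[43], [15, 17, 20, 28]], [[11, 15, 27], [22, 28]], [[11, 27], [22, 28, 49]], [[27, 49],
  [4, 22, 28]], [[15, 27], [20, 22, 28]], [[27], [4, 20, 22, 28]], [[4, 18, 20], [22, 36]],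
  [[22, 36], [4, 18, 20]], [[4, 22, 49], [18, 28]], [[4, 49], [18, 24, 28]], [[4, 24],
  [18, 28, 36]], [[4, 36], [18, 20, 28]], [[4], [18, 20, 22, 28]], [[18, 22, 49], [28, 42]],
  [[18, 22], [20, 28, 42]], [[22, 49], [11, 28, 42]], [[11, 22], [15, 28, 42]], [[22],
  [15, 20, 28, 42]], [[11, 49], [24, 28, 42]], [[49], [18, 24, 28, 42]], [[15, 20], [17, 28, 42]],
  [[11, 24], [28, 39, 42]], [[11], [15, 28, 39, 42]], [[15], [17, 28, 39, 42]], [[17, 20, 28],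
  [36, 42]], [[17, 20], [33, 36, 42]], [[20, 33], [18, 36, 42]], [[20], [18, 28, 36, 42]],
  [[18, 33], [24, 36, 42]], [[18], [24, 28, 36, 42]], [[17, 33], [36, 39, 42]], [[17],
  [28, 36, 39, 42]], [[28], [24, 36, 39, 42]]]
def E32 : List ℕ := [24, 33, 36, 39, 42]
def L33 : List (List (List ℕ)) :=
  [[[44, 51], [2, 7, 30]], [[20, 25], [17, 21, 43]], [[19, 20], [21, 32, 43]], [[20],
  [17, 21, 32, 43]], [[10, 17], [32, 43, 47]], [[2, 28], [21, 30, 51]], [[28, 51], [21, 25, 30]],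
  [[28], [21, 25, 30, 43]], [[25, 51], [21, 30, 42]], [[2, 7, 51], [18, 30]], [[7, 51],
  [18, 30, 42]], [[42, 51], [18, 21, 30]], [[51], [2, 18, 21, 30]], [[2, 30, 44], [7, 34]],
  [[2, 44], [7, 34, 39]], [[30, 44], [7, 34, 45]], [[44], [7, 34, 39, 45]], [[13, 37, 46],
  [10, 39]], [[13, 46], [10, 15, 39]], [[37, 46], [10, 34, 39]], [[46], [10, 15, 34, 39]],
  [[17, 25, 43], [21, 41]], [[25, 43], [21, 30, 41]], [[25, 30], [21, 41, 42]], [[25],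
  [17, 21, 41, 42]], [[12, 17, 32], [42, 47]], [[12, 17], [41, 42, 47]], [[12, 32], [24, 42, 47]],
  [[17, 21, 41], [42, 43]], [[17, 41], [42, 43, 47]], [[17, 47], [32, 42, 43]], [[17],
  [21, 32, 42, 43]], [[21, 41], [30, 42, 43]], [[2, 26, 48], [7, 37]], [[2, 48], [7, 37, 39]],
  [[2, 39], [7, 34, 37]], [[2, 34], [7, 30, 37]], [[2, 7, 18], [26, 30]], [[2, 18], [21, 26, 30]],
  [[2, 7], [26, 30, 37]], [[2], [21, 26, 30, 37]], [[7, 22, 48], [38, 39]], [[22, 48],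
  [13, 38, 39]], [[7, 26, 48], [37, 38]], [[26, 48], [13, 37, 38]], [[13, 48], [37, 38, 39]], [[48],
  [7, 37, 38, 39]], [[13, 26], [19, 37, 38]], [[18, 19, 26], [21, 38]], [[21, 38], [18, 19, 26]],
  [[7, 26, 38], [18, 37]], [[7, 26], [18, 30, 37]], [[26, 30], [18, 21, 37]], [[26, 38],
  [18, 19, 37]], [[26], [18, 19, 21, 37]], [[18, 19, 21], [32, 37]], [[32, 37], [18, 19, 21]],
  [[18, 21, 32], [19, 42]], [[19, 42], [18, 21, 32]], [[18, 21, 37], [19, 30]], [[19, 30],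
  [18, 21, 37]], [[18, 19, 21], [32, 37]], [[18, 19], [32, 37, 38]], [[19, 21], [32, 37, 43]],
  [[19, 43], [10, 32, 37]], [[10, 13, 19], [36, 37]], [[10, 19], [32, 36, 37]], [[13, 19],
  [36, 37, 38]], [[19], [32, 36, 37, 38]], [[18, 21, 30], [37, 42]], [[18, 30], [7, 37, 42]],
  [[21, 30], [37, 42, 43]], [[21, 43], [32, 37, 42]], [[21], [18, 32, 37, 42]], [[7, 18, 37],
  [38, 42]], [[7, 18], [24, 38, 42]], [[18, 24], [32, 38, 42]], [[18], [32, 37, 38, 42]],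
  [[7, 30, 45], [34, 42]], [[30, 45], [34, 41, 42]], [[7, 30], [34, 37, 42]], [[30, 37],
  [34, 42, 43]], [[30], [34, 41, 42, 43]], [[41, 43], [34, 42, 47]], [[6, 34, 41], [45, 47]],
  [[34, 41], [42, 45, 47]], [[41, 42], [12, 45, 47]], [[41], [6, 12, 45, 47]], [[6, 34],
  [15, 45, 47]], [[10, 34, 43], [37, 47]], [[10, 43], [32, 37, 47]], [[32, 43], [37, 42, 47]],
  [[43], [34, 37, 42, 47]], [[10, 32], [36, 37, 47]], [[32, 36, 37], [38, 47]], [[32, 36],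
  [24, 38, 47]], [[24, 32], [38, 42, 47]], [[32], [37, 38, 42, 47]], [[6, 12, 24], [22, 47]],
  [[6, 24], [22, 36, 47]], [[6, 36], [15, 22, 47]], [[24, 36], [22, 38, 47]], [[6, 12],
  [22, 45, 47]], [[6], [15, 22, 45, 47]], [[7, 12, 22], [24, 45]], [[7, 12], [24, 42, 45]],
  [[12, 42], [24, 45, 47]], [[12], [22, 24, 45, 47]], [[7, 24, 42], [38, 45]], [[38, 45],
  [7, 24, 42]], [[7, 22, 24], [38, 45]], [[7, 24], [38, 42, 45]], [[7, 22], [38, 39, 45]],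
  [[22, 24], [38, 45, 47]], [[24], [38, 42, 45, 47]], [[7, 34, 42], [37, 45]], [[34, 42],
  [37, 45, 47]], [[42, 47], [37, 38, 45]], [[42], [7, 37, 38, 45]], [[7, 34], [37, 39, 45]], [[7],
  [37, 38, 39, 45]], [[34, 39, 45], [15, 37]], [[34, 45], [15, 37, 47]], [[34, 47], [10, 15, 37]],
  [[34], [10, 15, 37, 39]], [[10, 39], [13, 15, 37]], [[10, 47], [15, 36, 37]], [[10],
  [13, 15, 36, 37]], [[13, 15, 36], [22, 37]], [[13, 15], [22, 37, 39]], [[15, 36], [22, 37, 47]],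
  [[36, 47], [22, 37, 38]], [[36], [13, 22, 37, 38]], [[13], [22, 37, 38, 39]], [[38, 39],
  [22, 37, 45]], [[38], [22, 37, 45, 47]], [[39], [15, 22, 37, 45]]]
def E33 : List ℕ := [15, 22, 37, 45, 47]
def L34 : List (List (List ℕ)) :=
  [[[0, 14], [30, 35, 38]], [[3, 6, 11], [17, 48]], [[3, 6], [17, 48, 51]], [[3, 11], [17, 27, 48]],
  [[3], [17, 27, 48, 51]], [[11, 27], [17, 30, 48]], [[11, 17, 31], [6, 30]], [[11, 17],
  [6, 30, 48]], [[11, 48], [6, 30, 41]], [[11, 41], [6, 30, 45]], [[11, 45], [6, 30, 44]], [[11],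
  [6, 30, 31, 44]], [[17, 31], [6, 23, 30]], [[31], [6, 23, 30, 44]], [[41, 45], [6, 30, 33]],
  [[17, 23], [6, 30, 43]], [[30, 45], [6, 33, 44]], [[6, 17, 51], [43, 48]], [[17, 51],
  [27, 43, 48]], [[27, 51], [16, 43, 48]], [[16, 27], [30, 43, 48]], [[27], [17, 30, 43, 48]],
  [[17], [6, 30, 43, 48]], [[16, 30], [41, 43, 48]], [[30, 48], [6, 41, 43]], [[16, 41],
  [26, 43, 48]], [[30, 41], [6, 33, 43]], [[26, 41], [43, 47, 48]], [[33, 41], [6, 43, 47]], [[41],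
  [6, 43, 47, 48]], [[14, 22, 23], [38, 44]], [[14, 23], [30, 38, 44]], [[14, 22], [35, 38, 44]],
  [[14], [30, 35, 38, 44]], [[2, 30, 33], [37, 44]], [[2, 33], [37, 39, 44]], [[0, 2, 39],
  [35, 37]], [[0, 2], [30, 35, 37]], [[2, 39], [35, 37, 44]], [[2], [30, 35, 37, 44]], [[0, 30],
  [35, 37, 38]], [[30, 35], [37, 38, 44]], [[6, 8, 51], [4, 43]], [[6, 51], [4, 43, 48]], [[6, 8],
  [4, 9, 43]], [[6, 48], [4, 43, 47]], [[47, 48], [4, 26, 43]], [[26, 47], [4, 10, 43]], [[10, 26],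
  [4, 12, 43]], [[4, 6, 47], [15, 43]], [[15, 43], [4, 6, 47]], [[4, 8, 51], [20, 43]], [[8, 51],
  [16, 20, 43]], [[8, 16], [20, 36, 43]], [[16, 51], [20, 43, 48]], [[51], [4, 20, 43, 48]],
  [[16, 48], [20, 26, 43]], [[16], [20, 26, 36, 43]], [[48], [4, 20, 26, 43]], [[4, 26],
  [12, 20, 43]], [[26], [12, 20, 36, 43]], [[4, 10, 47], [15, 43]], [[15, 43], [4, 10, 47]],
  [[4, 43, 47], [6, 10]], [[6, 10], [4, 43, 47]], [[6, 33, 47], [15, 43]], [[6, 47], [4, 15, 43]],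
  [[4, 47], [10, 15, 43]], [[47], [10, 15, 33, 43]], [[4, 10, 43], [12, 15]], [[4, 10],
  [12, 15, 46]], [[4, 46], [12, 15, 18]], [[10, 12, 43], [15, 37]], [[10, 43], [15, 33, 37]],
  [[10, 12], [15, 37, 46]], [[10], [15, 33, 37, 46]], [[33, 46], [15, 37, 39]], [[0, 12, 46],
  [18, 37]], [[12, 46], [15, 18, 37]], [[0, 46], [18, 37, 39]], [[46], [15, 18, 37, 39]], [[0, 39],
  [18, 35, 37]], [[35, 39], [18, 37, 44]], [[0, 12, 13], [18, 38]], [[18, 38], [0, 12, 13]],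
  [[0, 13, 35], [18, 38]], [[13, 35], [18, 22, 38]], [[22, 35], [18, 38, 44]], [[0, 13],
  [12, 18, 38]], [[0, 12], [18, 37, 38]], [[0], [18, 35, 37, 38]], [[35], [18, 37, 38, 44]],
  [[12, 13, 20], [18, 36]], [[13, 20], [18, 22, 36]], [[12, 13], [18, 36, 38]], [[13],
  [18, 22, 36, 38]], [[18, 39, 45], [15, 44]], [[39, 45], [15, 33, 44]], [[33, 39], [15, 37, 44]],
  [[39], [15, 18, 37, 44]], [[18, 45], [15, 44, 49]], [[45, 49], [6, 15, 44]], [[45],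
  [6, 15, 33, 44]], [[6, 33, 43], [15, 30]], [[33, 43], [15, 30, 37]], [[33, 37], [15, 30, 44]],
  [[33], [6, 15, 30, 44]], [[4, 8, 9], [22, 43]], [[4, 8], [20, 22, 43]], [[8, 9], [22, 24, 43]],
  [[9, 24], [22, 23, 43]], [[23, 24], [22, 38, 43]], [[24, 38], [22, 36, 43]], [[24],
  [8, 22, 36, 43]], [[8], [20, 22, 36, 43]], [[9, 22, 49], [4, 23]], [[9, 49], [4, 6, 23]], [[6, 9],
  [4, 23, 43]], [[9], [4, 22, 23, 43]], [[4, 18, 20], [12, 22]], [[12, 22], [4, 18, 20]],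
  [[4, 12, 20], [18, 43]], [[4, 20], [18, 22, 43]], [[4, 12], [15, 18, 43]], [[12, 15],
  [18, 37, 43]], [[12, 37], [18, 38, 43]], [[20, 22], [18, 36, 43]], [[20], [12, 18, 36, 43]],
  [[12], [18, 36, 38, 43]], [[36], [18, 22, 38, 43]], [[15, 18, 37], [43, 44]], [[43, 44],
  [15, 18, 37]], [[15, 30, 37], [43, 44]], [[43, 44], [15, 30, 37]], [[30, 37, 38], [43, 44]],
  [[43, 44], [30, 37, 38]], [[15, 18, 37], [43, 44]], [[43, 44], [15, 18, 37]], [[15, 37, 43],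
  [18, 30]], [[15, 37], [18, 30, 44]], [[37, 43], [18, 30, 38]], [[37], [18, 30, 38, 44]],
  [[18, 22, 38], [43, 44]], [[18, 38], [30, 43, 44]], [[30, 38], [23, 43, 44]], [[38],
  [22, 23, 43, 44]], [[23, 30], [6, 43, 44]], [[18, 30], [15, 43, 44]], [[30], [6, 15, 43, 44]],
  [[4, 22, 23], [43, 49]], [[4, 22], [18, 43, 49]], [[4, 18], [15, 43, 49]], [[4, 23], [6, 43, 49]],
  [[4], [6, 15, 43, 49]], [[18, 22], [43, 44, 49]], [[18], [15, 43, 44, 49]], [[15],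
  [6, 43, 44, 49]], [[6], [23, 43, 44, 49]]]
def E34 : List ℕ := [22, 23, 43, 44, 49]
def L35 : List (List (List ℕ)) :=
  [[[45, 47], [8, 9, 25]], [[45], [2, 8, 9, 25]], [[9, 47], [8, 25, 27]], [[40, 47], [8, 27, 29]],
  [[47], [8, 25, 27, 29]], [[0, 14, 38], [34, 48]], [[14, 38], [22, 34, 48]], [[22, 38],
  [13, 34, 48]], [[38], [0, 13, 34, 48]], [[4, 27, 49], [3, 9]], [[4, 49], [3, 9, 16]], [[4, 16],
  [3, 9, 39]], [[27, 49], [3, 9, 17]], [[49], [3, 9, 16, 17]], [[3, 16, 39], [9, 36]], [[3, 16],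
  [9, 17, 36]], [[16, 17], [9, 36, 44]], [[16], [9, 36, 39, 44]], [[0, 13, 18], [5, 34]], [[0, 13],
  [5, 34, 48]], [[13, 18], [5, 22, 34]], [[13], [5, 22, 34, 48]], [[1, 6, 31], [2, 20]], [[1, 31],
  [2, 9, 20]], [[1, 6], [2, 20, 30]], [[1, 9], [2, 20, 44]], [[1], [2, 20, 30, 44]], [[0, 6, 30],
  [2, 14]], [[6, 30], [2, 14, 20]], [[0, 30], [2, 14, 34]], [[20, 30], [2, 14, 44]], [[30],
  [2, 14, 34, 44]], [[3, 4, 9], [27, 39]], [[4, 9], [25, 27, 39]], [[3, 4, 27], [29, 39]], [[4, 27],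
  [25, 29, 39]], [[4, 25], [29, 39, 41]], [[4], [3, 29, 39, 41]], [[7, 14, 17], [21, 22]], [[7, 17],
  [21, 22, 43]], [[7, 14], [21, 22, 48]], [[7, 43], [21, 22, 40]], [[7], [21, 22, 40, 48]],
  [[17, 21, 43], [22, 27]], [[22, 27], [17, 21, 43]], [[21, 27, 43], [17, 40]], [[21, 43],
  [17, 22, 40]], [[27, 43], [17, 40, 51]], [[43], [17, 22, 40, 51]], [[8, 24, 27], [9, 21]],
  [[8, 24], [9, 21, 31]], [[24, 31], [9, 20, 21]], [[20, 24], [9, 17, 21]], [[24], [9, 17, 21, 27]],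
  [[2, 6, 31], [11, 20]], [[11, 20], [2, 6, 31]], [[6, 20, 31], [2, 21]], [[20, 31], [2, 9, 21]],
  [[6, 20], [2, 14, 21]], [[9, 31], [2, 8, 21]], [[6, 31], [2, 11, 21]], [[31], [2, 8, 11, 21]],
  [[2, 9, 20], [21, 44]], [[2, 20], [14, 21, 44]], [[14, 20], [17, 21, 44]], [[20],
  [9, 17, 21, 44]], [[14, 17], [21, 22, 44]], [[2, 6, 11], [0, 21]], [[6, 11], [0, 21, 48]],
  [[6, 48], [0, 14, 21]], [[6], [0, 2, 14, 21]], [[2, 14, 21], [0, 44]], [[2, 14], [0, 34, 44]],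
  [[2, 34], [0, 39, 44]], [[34, 39], [0, 18, 44]], [[0, 14, 34], [44, 48]], [[0, 14], [21, 44, 48]],
  [[14, 34], [22, 44, 48]], [[14], [21, 22, 44, 48]], [[0, 34, 48], [5, 44]], [[0, 34],
  [5, 18, 44]], [[34, 48], [5, 22, 44]], [[34], [5, 18, 22, 44]], [[0, 11, 25], [2, 48]], [[2, 48],
  [0, 11, 25]], [[2, 11, 25], [0, 8]], [[2, 11], [0, 8, 21]], [[0, 11, 21], [8, 48]], [[11, 21],
  [8, 40, 48]], [[0, 11], [8, 25, 48]], [[11, 40], [8, 29, 48]], [[11], [8, 25, 29, 48]],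
  [[2, 9, 21], [8, 44]], [[8, 44], [2, 9, 21]], [[2, 8, 25], [0, 9]], [[2, 8], [0, 9, 21]],
  [[2, 25], [0, 9, 39]], [[2, 39], [0, 9, 44]], [[2], [0, 9, 21, 44]], [[3, 17, 51], [27, 36]],
  [[3, 17], [9, 27, 36]], [[3, 9], [27, 36, 39]], [[3, 29, 51], [27, 41]], [[3, 51], [27, 36, 41]],
  [[3, 36], [27, 39, 41]], [[3], [27, 29, 39, 41]], [[29, 39], [25, 27, 41]], [[0, 8, 48],
  [21, 25]], [[0, 8], [9, 21, 25]], [[8, 9], [21, 25, 27]], [[8, 21, 48], [25, 40]], [[8, 48],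
  [25, 29, 40]], [[8, 29], [25, 27, 40]], [[8], [21, 25, 27, 40]], [[29, 48], [5, 25, 40]],
  [[27, 29, 40], [25, 51]], [[25, 51], [27, 29, 40]], [[5, 25, 29], [40, 41]], [[25, 29],
  [27, 40, 41]], [[27, 29], [40, 41, 51]], [[29], [5, 40, 41, 51]], [[0, 21, 48], [25, 44]],
  [[0, 21], [9, 25, 44]], [[0, 48], [5, 25, 44]], [[0, 9], [25, 39, 44]], [[0, 25, 39], [41, 44]],
  [[0, 39], [18, 41, 44]], [[0, 18], [5, 41, 44]], [[0], [5, 25, 41, 44]], [[18, 39], [36, 41, 44]],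
  [[22, 40, 48], [5, 21]], [[40, 48], [5, 21, 25]], [[22, 48], [5, 21, 44]], [[48],
  [5, 21, 25, 44]], [[25, 39, 44], [9, 41]], [[9, 41], [25, 39, 44]], [[9, 25, 39], [27, 44]],
  [[9, 25], [21, 27, 44]], [[9, 39], [27, 36, 44]], [[9, 36], [17, 27, 44]], [[9],
  [17, 21, 27, 44]], [[36, 39], [27, 41, 44]], [[39], [25, 27, 41, 44]], [[5, 21, 25], [40, 44]],
  [[21, 25], [27, 40, 44]], [[5, 21], [22, 40, 44]], [[21, 27], [17, 40, 44]], [[21],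
  [17, 22, 40, 44]], [[5, 25], [40, 41, 44]], [[25], [27, 40, 41, 44]], [[5, 18, 41], [44, 51]],
  [[18, 41], [36, 44, 51]], [[36, 41], [27, 44, 51]], [[5, 41], [40, 44, 51]], [[41],
  [27, 40, 44, 51]], [[27, 40], [17, 44, 51]], [[27], [17, 36, 44, 51]], [[36], [17, 18, 44, 51]],
  [[17, 18], [22, 44, 51]], [[17], [22, 40, 44, 51]], [[18], [5, 22, 44, 51]]]
def E35 : List ℕ := [5, 22, 40, 44, 51]
def L36 : List (List (List ℕ)) :=
  [[[22, 30], [6, 24, 27]], [[5, 9], [21, 26, 45]], [[31, 38], [12, 13, 42]], [[31, 42],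
  [12, 13, 41]], [[25, 31], [1, 7, 18]], [[24, 28], [4, 5, 32]], [[1, 25], [7, 18, 37]], [[25, 26],
  [9, 37, 45]], [[9, 25], [37, 45, 47]], [[9, 26], [21, 37, 45]], [[9], [21, 37, 45, 47]], [[1, 37],
  [7, 14, 18]], [[7, 25], [18, 37, 47]], [[25], [18, 37, 45, 47]], [[18, 31], [1, 7, 41]], [[7, 31],
  [1, 13, 41]], [[31], [1, 12, 13, 41]], [[1, 18], [7, 14, 41]], [[1, 7], [13, 14, 41]], [[1],
  [12, 13, 14, 41]], [[3, 16, 35], [17, 39]], [[16, 35], [17, 39, 44]], [[35, 44], [17, 18, 39]],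
  [[3, 17, 35], [39, 51]], [[17, 35], [18, 39, 51]], [[18, 35], [39, 41, 51]], [[35],
  [3, 39, 41, 51]], [[11, 12, 42], [38, 39]], [[38, 39], [11, 12, 42]], [[11, 19, 42], [23, 38]],
  [[23, 38], [11, 19, 42]], [[11, 19, 42], [23, 38]], [[19, 42], [13, 23, 38]], [[11, 12, 42],
  [38, 39]], [[38, 39], [11, 12, 42]], [[11, 12, 42], [38, 39]], [[11, 12], [38, 39, 43]],
  [[11, 42], [23, 38, 39]], [[12, 41, 42], [13, 39]], [[12, 42], [13, 38, 39]], [[41, 42],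
  [13, 23, 39]], [[42], [13, 23, 38, 39]], [[12, 41], [13, 14, 39]], [[3, 7, 41], [23, 51]],
  [[23, 51], [3, 7, 41]], [[7, 14, 41], [13, 18]], [[14, 41], [13, 18, 39]], [[3, 41, 51], [7, 39]],
  [[41, 51], [7, 18, 39]], [[18, 41], [7, 13, 39]], [[13, 41], [7, 23, 39]], [[41], [3, 7, 23, 39]],
  [[13, 18], [7, 14, 39]], [[12, 14, 26], [20, 39]], [[12, 14], [13, 20, 39]], [[13, 14],
  [7, 20, 39]], [[7, 14, 18], [37, 39]], [[14, 18], [37, 39, 45]], [[14, 45], [26, 37, 39]],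
  [[7, 14], [20, 37, 39]], [[14], [20, 26, 37, 39]], [[12, 13, 34], [20, 38]], [[13, 34],
  [20, 22, 38]], [[12, 13], [20, 38, 39]], [[12, 20, 26], [34, 39]], [[12, 20], [34, 38, 39]],
  [[12, 38], [34, 39, 43]], [[12], [26, 34, 39, 43]], [[17, 18, 44], [39, 47]], [[39, 47],
  [17, 18, 44]], [[17, 18, 44], [39, 47]], [[39, 47], [17, 18, 44]], [[17, 18, 44], [39, 47]],
  [[17, 18], [39, 47, 51]], [[18, 51], [7, 39, 47]], [[18, 44], [39, 45, 47]], [[7, 18],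
  [37, 39, 47]], [[18], [37, 39, 45, 47]], [[6, 10, 51], [17, 50]], [[6, 51], [3, 17, 50]],
  [[3, 17, 51], [39, 50]], [[3, 51], [7, 39, 50]], [[3, 7], [23, 39, 50]], [[10, 47, 51], [7, 17]],
  [[10, 51], [7, 17, 50]], [[50, 51], [7, 17, 39]], [[51], [7, 17, 39, 47]], [[0, 3, 20], [2, 50]],
  [[0, 3], [2, 6, 50]], [[3, 6], [2, 17, 50]], [[3, 16, 17], [2, 39]], [[2, 39], [3, 16, 17]],
  [[2, 3, 16], [17, 20]], [[2, 3], [17, 20, 50]], [[3, 20, 50], [17, 23]], [[17, 23], [3, 20, 50]],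
  [[3, 16, 39], [17, 23]], [[17, 23], [3, 16, 39]], [[3, 16, 39], [17, 23]], [[3, 39],
  [17, 23, 50]], [[39, 50], [7, 17, 23]], [[7, 50], [10, 17, 23]], [[3, 50], [17, 20, 23]], [[3],
  [16, 17, 20, 23]], [[0, 2, 30], [6, 37]], [[6, 37], [0, 2, 30]], [[0, 2, 50], [6, 20]], [[6, 20],
  [0, 2, 50]], [[0, 6, 30], [2, 47]], [[0, 30], [2, 37, 47]], [[30, 37], [2, 21, 47]], [[2, 30, 47],
  [6, 21]], [[2, 30], [6, 21, 28]], [[30, 47], [6, 21, 24]], [[28, 30], [6, 21, 27]], [[30],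
  [6, 21, 24, 27]], [[27, 28], [6, 21, 40]], [[0, 7, 15], [20, 47]], [[0, 7], [20, 37, 47]],
  [[7, 37], [20, 39, 47]], [[0, 37], [2, 20, 47]], [[0, 2, 6], [47, 50]], [[47, 50], [0, 2, 6]],
  [[0, 2, 6], [47, 50]], [[0, 2], [20, 47, 50]], [[0, 20], [15, 47, 50]], [[0], [6, 15, 47, 50]],
  [[2, 20, 37], [26, 47]], [[2, 37], [21, 26, 47]], [[20, 37], [26, 39, 47]], [[21, 37],
  [26, 45, 47]], [[37], [26, 39, 45, 47]], [[7, 10, 15], [13, 47]], [[7, 15], [13, 20, 47]],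
  [[7, 20], [13, 39, 47]], [[10, 15], [13, 33, 47]], [[7, 10, 13], [23, 47]], [[7, 10],
  [17, 23, 47]], [[7, 13], [23, 39, 47]], [[7], [17, 23, 39, 47]], [[2, 5, 28], [17, 21]], [[2, 28],
  [6, 17, 21]], [[4, 5, 28], [21, 32]], [[4, 28], [21, 32, 40]], [[28, 40], [6, 21, 32]], [[6, 28],
  [17, 21, 32]], [[28], [5, 17, 21, 32]], [[15, 22, 27], [6, 20]], [[6, 20], [15, 22, 27]],
  [[13, 15, 22], [20, 33]], [[13, 15], [20, 33, 47]], [[13, 22], [20, 33, 38]], [[6, 15, 27],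
  [22, 50]], [[22, 50], [6, 15, 27]], [[6, 15, 22], [27, 33]], [[15, 22], [20, 27, 33]], [[6, 22],
  [24, 27, 33]], [[6, 15, 27], [33, 50]], [[15, 27], [20, 33, 50]], [[15, 20], [33, 47, 50]], [[15],
  [6, 33, 47, 50]], [[20, 22, 27], [8, 33]], [[22, 27], [8, 24, 33]], [[20, 27], [8, 33, 50]],
  [[8, 22, 24], [33, 34]], [[22, 24], [33, 34, 38]], [[22, 38], [20, 33, 34]], [[22],
  [8, 20, 33, 34]], [[6, 24, 27], [21, 33]], [[6, 24], [21, 33, 47]], [[24, 27], [8, 21, 33]],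
  [[6, 27, 40], [21, 50]], [[27, 40], [8, 21, 50]], [[6, 27], [21, 33, 50]], [[27],
  [8, 21, 33, 50]], [[6, 33], [21, 47, 50]], [[6, 47], [2, 21, 50]], [[2, 6], [17, 21, 50]],
  [[6, 10, 40], [32, 50]], [[6, 10], [17, 32, 50]], [[6, 17], [21, 32, 50]], [[6],
  [21, 32, 40, 50]], [[2, 16, 17], [5, 20]], [[2, 16], [5, 20, 26]], [[2, 26, 47], [20, 21]],
  [[20, 21], [2, 26, 47]], [[2, 17, 21], [5, 50]], [[17, 21], [5, 32, 50]], [[2, 17], [5, 20, 50]],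
  [[2, 5, 21], [26, 50]], [[2, 21], [26, 47, 50]], [[2, 47], [20, 26, 50]], [[2], [5, 20, 26, 50]],
  [[10, 13, 23], [19, 47]], [[19, 47], [10, 13, 23]], [[10, 13, 19], [23, 33]], [[23, 33],
  [10, 13, 19]], [[10, 13, 19], [23, 33]], [[23, 33], [10, 13, 19]], [[10, 13, 19], [23, 33]],
  [[10, 13], [23, 33, 47]], [[13, 19], [23, 33, 38]], [[13, 20, 39], [38, 47]], [[13, 39],
  [23, 38, 47]], [[13, 23], [33, 38, 47]], [[13], [20, 33, 38, 47]], [[4, 19, 38], [11, 32]],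
  [[4, 19], [11, 32, 40]], [[4, 40], [11, 21, 32]], [[11, 19, 38], [23, 32]], [[11, 19],
  [23, 32, 40]], [[19, 40], [10, 23, 32]], [[10, 40], [23, 32, 50]], [[19, 38], [23, 32, 33]],
  [[19], [10, 23, 32, 33]], [[10, 50], [17, 23, 32]], [[10, 33], [23, 32, 47]], [[10],
  [17, 23, 32, 47]], [[23, 33], [32, 38, 47]], [[32, 33], [24, 38, 47]], [[8, 11, 40], [21, 23]],
  [[11, 40], [21, 23, 32]], [[8, 40], [21, 23, 50]], [[40], [21, 23, 32, 50]], [[4, 11, 45],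
  [21, 43]], [[4, 45], [5, 21, 43]], [[5, 45], [21, 26, 43]], [[4, 5, 21], [32, 43]], [[4, 21],
  [11, 32, 43]], [[4, 11], [32, 38, 43]], [[4, 38], [24, 32, 43]], [[4], [5, 24, 32, 43]],
  [[11, 44, 45], [21, 39]], [[11, 45], [21, 39, 43]], [[43, 45], [21, 26, 39]], [[26, 45],
  [21, 39, 47]], [[45], [21, 39, 44, 47]], [[21, 24, 33], [8, 47]], [[8, 47], [21, 24, 33]],
  [[8, 33, 34], [20, 24]], [[33, 34], [20, 24, 38]], [[33, 38], [20, 24, 47]], [[8, 24, 33],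
  [20, 21]], [[24, 33], [20, 21, 47]], [[33, 47], [20, 21, 50]], [[33], [8, 20, 21, 50]], [[47, 50],
  [20, 21, 26]], [[8, 50], [20, 21, 23]], [[26, 50], [5, 20, 21]], [[26, 47], [20, 21, 39]],
  [[5, 21, 50], [20, 32]], [[20, 32], [5, 21, 50]], [[5, 17, 50], [20, 32]], [[17, 50],
  [20, 23, 32]], [[23, 50], [20, 21, 32]], [[50], [5, 20, 21, 32]], [[21, 26, 39], [20, 43]],
  [[26, 39], [20, 34, 43]], [[34, 39], [20, 38, 43]], [[21, 26], [5, 20, 43]], [[5, 26],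
  [16, 20, 43]], [[26], [16, 20, 34, 43]], [[34, 38], [20, 24, 43]], [[5, 21], [20, 32, 43]],
  [[24, 34], [8, 20, 43]], [[34], [8, 16, 20, 43]], [[5, 16, 17], [20, 44]], [[5, 16],
  [20, 43, 44]], [[16, 43], [8, 20, 44]], [[8, 43], [20, 24, 44]], [[43, 44], [5, 20, 24]],
  [[5, 43], [20, 24, 32]], [[8, 24], [20, 21, 44]], [[21, 24], [20, 44, 47]], [[21, 47],
  [20, 39, 44]], [[24, 44], [5, 20, 47]], [[5, 24], [20, 32, 47]], [[24, 43], [20, 32, 38]], [[24],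
  [20, 32, 38, 47]], [[5, 44], [17, 20, 47]], [[5], [17, 20, 32, 47]], [[17, 32], [20, 23, 47]],
  [[32, 47], [20, 23, 38]], [[44, 47], [17, 20, 39]], [[17, 44], [16, 20, 39]], [[16, 17],
  [20, 23, 39]], [[17], [20, 23, 39, 47]], [[47], [20, 23, 38, 39]], [[8, 16, 23], [11, 20]],
  [[8, 23], [11, 20, 21]], [[8, 16], [11, 20, 44]], [[8], [11, 20, 21, 44]], [[16, 44],
  [11, 20, 39]], [[16], [11, 20, 23, 39]], [[44], [11, 20, 21, 39]], [[21, 23], [11, 20, 32]],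
  [[21, 39], [11, 20, 43]], [[21], [11, 20, 32, 43]], [[23, 32], [11, 20, 38]], [[23],
  [11, 20, 38, 39]], [[32], [11, 20, 38, 43]]]
def E36 : List ℕ := [11, 20, 38, 39, 43]
def L37 : List (List (List ℕ)) :=
  [[[13, 39], [33, 46, 48]], [[27, 38], [0, 42, 47]], [[1, 4], [8, 25, 29]], [[1, 14], [7, 18, 36]],
  [[1, 36], [7, 18, 25]], [[0, 27], [29, 42, 47]], [[4, 29], [8, 25, 27]], [[4], [8, 9, 25, 27]],
  [[0, 29], [7, 42, 47]], [[1, 7], [18, 25, 29]], [[1], [8, 18, 25, 29]], [[27, 42], [8, 29, 47]],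
  [[9, 27], [8, 25, 47]], [[27], [8, 25, 29, 47]], [[8, 42], [18, 29, 47]], [[8, 29], [18, 25, 47]],
  [[8, 19], [9, 26, 45]], [[25, 29], [7, 18, 47]], [[29], [7, 18, 42, 47]], [[8, 26], [9, 25, 45]],
  [[7, 25], [18, 36, 47]], [[8, 9], [25, 45, 47]], [[8], [18, 25, 45, 47]], [[25, 26], [9, 36, 45]],
  [[18, 25], [36, 45, 47]], [[25], [9, 36, 45, 47]], [[9, 47], [21, 36, 45]], [[9, 36],
  [21, 26, 45]], [[9], [19, 21, 26, 45]], [[0, 7, 42], [12, 47]], [[0, 42], [12, 38, 47]],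
  [[38, 42], [12, 47, 49]], [[42, 47, 49], [12, 18]], [[12, 18], [42, 47, 49]], [[7, 42, 47],
  [12, 18]], [[7, 42], [12, 18, 24]], [[24, 42], [12, 18, 49]], [[42], [12, 18, 47, 49]],
  [[0, 20, 39], [2, 17]], [[2, 17], [0, 20, 39]], [[0, 12, 38], [34, 47]], [[0, 38], [30, 34, 47]],
  [[12, 34, 38], [43, 47]], [[34, 38], [30, 43, 47]], [[30, 38], [21, 43, 47]], [[12, 38],
  [43, 47, 49]], [[38], [21, 43, 47, 49]], [[0, 17, 39], [20, 46]], [[17, 39], [20, 46, 48]],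
  [[17, 48], [20, 44, 46]], [[0, 17, 22], [7, 46]], [[0, 22], [7, 12, 46]], [[0, 17], [7, 20, 46]],
  [[7, 17, 22], [14, 46]], [[7, 17], [14, 20, 46]], [[17, 20], [14, 44, 46]], [[17],
  [14, 22, 44, 46]], [[22, 44], [14, 23, 46]], [[0, 20, 39], [2, 46]], [[20, 39], [2, 46, 48]],
  [[0, 39], [2, 34, 46]], [[34, 39], [2, 33, 46]], [[39], [2, 33, 46, 48]], [[2, 20, 48], [26, 46]],
  [[2, 48], [26, 33, 46]], [[33, 48], [13, 26, 46]], [[13, 48], [26, 44, 46]], [[48],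
  [20, 26, 44, 46]], [[20, 44], [14, 26, 46]], [[14, 44], [23, 26, 46]], [[44], [13, 23, 26, 46]],
  [[10, 13, 23], [19, 46]], [[10, 13], [19, 33, 46]], [[13, 33], [19, 26, 46]], [[13],
  [19, 23, 26, 46]], [[2, 20, 26], [36, 46]], [[2, 20], [0, 36, 46]], [[20, 26], [14, 36, 46]],
  [[14, 20], [7, 36, 46]], [[20], [0, 7, 36, 46]], [[7, 22, 46], [12, 14]], [[7, 22], [12, 14, 24]],
  [[7, 24], [12, 14, 18]], [[10, 12, 22], [24, 46]], [[12, 22], [14, 24, 46]], [[14, 22],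
  [23, 24, 46]], [[22], [10, 23, 24, 46]], [[10, 23], [19, 24, 46]], [[14, 15, 23], [24, 26]],
  [[14, 23], [24, 26, 46]], [[23, 46], [19, 24, 26]], [[23], [15, 19, 24, 26]], [[0, 7, 47],
  [12, 36]], [[0, 7], [12, 36, 46]], [[7, 47], [12, 18, 36]], [[7, 18], [12, 14, 36]], [[7],
  [12, 14, 36, 46]], [[0, 2, 30], [34, 36]], [[34, 36], [0, 2, 30]], [[0, 2, 36], [30, 46]],
  [[0, 2], [30, 34, 46]], [[2, 34], [30, 33, 46]], [[0, 30, 34], [46, 47]], [[46, 47], [0, 30, 34]],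
  [[0, 12, 34], [46, 47]], [[0, 34], [30, 46, 47]], [[0, 12], [36, 46, 47]], [[0],
  [30, 36, 46, 47]], [[2, 21, 36], [26, 30]], [[2, 21], [26, 30, 33]], [[2, 36], [26, 30, 46]],
  [[2], [26, 30, 33, 46]], [[10, 34, 43], [12, 33]], [[12, 33], [10, 34, 43]], [[10, 12, 34],
  [43, 46]], [[10, 34], [33, 43, 46]], [[33, 34], [30, 43, 46]], [[12, 34], [43, 46, 47]], [[34],
  [30, 43, 46, 47]], [[10, 33], [19, 43, 46]], [[10, 12, 43], [46, 49]], [[46, 49], [10, 12, 43]],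
  [[10, 12, 43], [46, 49]], [[12, 43], [46, 47, 49]], [[10, 12], [24, 46, 49]], [[10, 24],
  [19, 46, 49]], [[10], [19, 43, 46, 49]], [[19, 33, 43], [21, 46]], [[33, 43], [21, 30, 46]],
  [[19, 33], [21, 26, 46]], [[33], [21, 26, 30, 46]], [[26, 30], [21, 36, 46]], [[30, 36],
  [21, 46, 47]], [[30], [21, 43, 46, 47]], [[19, 43], [21, 46, 49]], [[43], [21, 46, 47, 49]],
  [[12, 14, 18], [24, 36]], [[12, 14], [24, 36, 46]], [[14, 46], [24, 26, 36]], [[12, 18, 24],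
  [36, 49]], [[12, 18], [36, 47, 49]], [[18, 47], [36, 45, 49]], [[12, 24], [36, 46, 49]], [[12],
  [36, 46, 47, 49]], [[46, 47], [21, 36, 49]], [[47], [21, 36, 45, 49]], [[14, 24, 26], [15, 36]],
  [[15, 36], [14, 24, 26]], [[14, 15, 18], [24, 45]], [[24, 45], [14, 15, 18]], [[14, 15, 18],
  [24, 45]], [[15, 18], [24, 45, 49]], [[15, 49], [19, 24, 45]], [[18, 49], [24, 36, 45]], [[18],
  [14, 24, 36, 45]], [[14, 15], [24, 26, 45]], [[14], [24, 26, 36, 45]], [[15], [19, 24, 26, 45]],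
  [[19, 24, 26], [45, 46]], [[45, 46], [19, 24, 26]], [[19, 21, 49], [45, 46]], [[19, 21],
  [26, 45, 46]], [[21, 49], [36, 45, 46]], [[21], [26, 36, 45, 46]], [[26, 36], [24, 45, 46]],
  [[26], [19, 24, 45, 46]], [[19], [24, 45, 46, 49]]]
def E37 : List ℕ := [24, 36, 45, 46, 49]
def L38 : List (List (List ℕ)) :=
  [[[27, 37], [0, 42, 47]], [[16, 29], [6, 9, 28]], [[9, 16], [6, 28, 40]], [[9, 40], [6, 26, 28]],
  [[9], [6, 26, 28, 29]], [[22, 23], [14, 24, 34]], [[1, 14], [7, 18, 41]], [[31, 36],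
  [12, 13, 42]], [[12, 31], [0, 13, 42]], [[6, 16], [28, 40, 42]], [[1, 41], [7, 18, 28]],
  [[16, 31], [27, 40, 42]], [[16], [27, 28, 40, 42]], [[27, 28], [40, 42, 47]], [[1, 6],
  [18, 28, 29]], [[1], [7, 18, 28, 29]], [[27, 47], [0, 40, 42]], [[27], [0, 31, 40, 42]], [[31],
  [0, 13, 40, 42]], [[0, 40], [13, 42, 47]], [[6, 29], [18, 26, 28]], [[29], [7, 18, 26, 28]],
  [[6, 18], [26, 28, 46]], [[7, 28], [18, 26, 41]], [[18, 28], [26, 41, 46]], [[6, 40],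
  [26, 28, 42]], [[6], [26, 28, 42, 46]], [[28, 41], [26, 46, 47]], [[13, 40], [26, 42, 47]], [[40],
  [26, 28, 42, 47]], [[28], [26, 42, 46, 47]], [[0, 13, 35], [34, 48]], [[13, 35], [22, 34, 48]],
  [[0, 35], [14, 34, 48]], [[35], [14, 22, 34, 48]], [[23, 24, 34], [14, 43]], [[23, 34],
  [14, 30, 43]], [[23, 24], [14, 15, 43]], [[23], [14, 15, 30, 43]], [[4, 18, 32], [19, 24]],
  [[18, 32], [19, 24, 33]], [[4, 32], [19, 24, 36]], [[32], [19, 24, 33, 36]], [[4, 11, 36],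
  [19, 43]], [[4, 36], [19, 24, 43]], [[4, 11], [19, 43, 46]], [[4, 15, 24], [18, 43]], [[4, 15],
  [18, 43, 46]], [[15, 24], [14, 18, 43]], [[4, 24], [18, 19, 43]], [[4], [18, 19, 43, 46]],
  [[11, 12, 36], [42, 43]], [[11, 12], [42, 43, 49]], [[12, 49], [37, 42, 43]], [[11, 49],
  [42, 43, 46]], [[11, 36], [19, 42, 43]], [[11], [19, 42, 43, 46]], [[21, 46, 49], [43, 47]],
  [[46, 49], [42, 43, 47]], [[21, 49], [37, 43, 47]], [[49], [37, 42, 43, 47]], [[21, 37],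
  [30, 43, 47]], [[15, 21, 30], [39, 43]], [[15, 30], [14, 39, 43]], [[15, 21], [39, 43, 46]],
  [[21, 46], [39, 43, 47]], [[21], [30, 39, 43, 47]], [[15, 46], [18, 39, 43]], [[15],
  [14, 18, 39, 43]], [[30, 39], [14, 43, 47]], [[0, 14, 30], [34, 47]], [[14, 30], [34, 43, 47]],
  [[0, 30], [34, 37, 47]], [[30], [34, 37, 43, 47]], [[0, 14], [34, 47, 48]], [[0, 48],
  [13, 34, 47]], [[0, 12, 13], [34, 42]], [[34, 42], [0, 12, 13]], [[0, 34, 47], [13, 37]],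
  [[13, 37], [0, 34, 47]], [[0, 12, 42], [13, 37]], [[0, 42], [13, 37, 47]], [[0, 47],
  [13, 34, 37]], [[0], [12, 13, 34, 37]], [[12, 34, 36], [13, 43]], [[12, 34], [13, 37, 43]],
  [[12, 37], [13, 42, 43]], [[12], [13, 36, 42, 43]], [[34, 37], [13, 43, 47]], [[37],
  [13, 42, 43, 47]], [[36, 42], [13, 19, 43]], [[13, 26, 42], [19, 47]], [[26, 42], [19, 46, 47]],
  [[13, 42], [19, 43, 47]], [[42], [19, 43, 46, 47]], [[18, 39, 41], [14, 46]], [[39, 41],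
  [14, 46, 47]], [[39, 47], [14, 43, 46]], [[39], [14, 18, 43, 46]], [[7, 26, 41], [18, 48]],
  [[18, 48], [7, 26, 41]], [[7, 26, 41], [18, 48]], [[7, 26], [18, 33, 48]], [[7, 41],
  [14, 18, 48]], [[7, 18, 24], [14, 33]], [[7, 18], [14, 33, 48]], [[7, 48], [14, 22, 33]], [[7],
  [14, 22, 24, 33]], [[14, 18, 41], [46, 48]], [[18, 41], [26, 46, 48]], [[26, 41], [46, 47, 48]],
  [[41], [14, 46, 47, 48]], [[13, 19, 36], [33, 43]], [[19, 36], [24, 33, 43]], [[19, 24],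
  [18, 33, 43]], [[18, 24], [14, 33, 43]], [[13, 33, 36], [22, 43]], [[33, 36], [22, 24, 43]],
  [[13, 36], [22, 34, 43]], [[36], [22, 24, 34, 43]], [[24, 33], [14, 22, 43]], [[24],
  [14, 22, 34, 43]], [[13, 34, 47], [43, 48]], [[13, 34], [22, 43, 48]], [[34, 47], [14, 43, 48]],
  [[34], [14, 22, 43, 48]], [[14, 22], [33, 43, 48]], [[22], [13, 33, 43, 48]], [[14, 33],
  [18, 43, 48]], [[14, 18], [43, 46, 48]], [[14], [43, 46, 47, 48]], [[13, 26, 33], [19, 48]],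
  [[19, 48], [13, 26, 33]], [[13, 19, 26], [33, 47]], [[13, 19], [33, 43, 47]], [[13, 43],
  [33, 47, 48]], [[13], [26, 33, 47, 48]], [[18, 19, 33], [26, 43]], [[18, 33], [26, 43, 48]],
  [[19, 33], [26, 43, 47]], [[33], [26, 43, 47, 48]], [[18, 19], [26, 43, 46]], [[18],
  [26, 43, 46, 48]], [[19], [26, 43, 46, 47]]]
def E38 : List ℕ := [26, 43, 46, 47, 48]
def L39 : List (List (List ℕ)) :=
  [[[24, 42], [11, 12, 32]], [[21, 28], [5, 24, 51]], [[7, 11], [43, 44, 45]], [[11, 45],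
  [36, 43, 44]], [[13, 37], [33, 46, 48]], [[4, 9], [16, 25, 35]], [[11, 44], [16, 36, 43]],
  [[2, 9, 44], [35, 40]], [[9, 44], [16, 35, 40]], [[9, 16], [25, 35, 40]], [[9], [2, 25, 35, 40]],
  [[3, 4, 16], [23, 35]], [[23, 35], [3, 4, 16]], [[3, 4, 35], [16, 41]], [[3, 35], [16, 36, 41]],
  [[3, 36], [16, 23, 41]], [[3], [4, 16, 23, 41]], [[4, 35], [16, 25, 41]], [[17, 31, 50], [4, 40]],
  [[31, 50], [4, 16, 40]], [[16, 50], [4, 25, 40]], [[50], [4, 17, 25, 40]], [[2, 20, 48],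
  [37, 40]], [[20, 48], [17, 37, 40]], [[2, 20, 37], [0, 40]], [[2, 20], [0, 25, 40]], [[20, 25],
  [0, 17, 40]], [[20], [0, 17, 37, 40]], [[2, 25], [0, 35, 40]], [[0, 17, 25], [40, 41]], [[40, 41],
  [0, 17, 25]], [[4, 16, 25], [40, 41]], [[4, 25], [17, 40, 41]], [[16, 25], [35, 40, 41]],
  [[17, 25], [0, 40, 41]], [[25], [0, 35, 40, 41]], [[4, 16, 40], [31, 41]], [[4, 40],
  [17, 31, 41]], [[4, 16], [23, 31, 41]], [[4], [17, 23, 31, 41]], [[5, 13, 48], [22, 46]],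
  [[22, 46], [5, 13, 48]], [[5, 13, 46], [21, 48]], [[21, 48], [5, 13, 46]], [[5, 13, 21],
  [22, 46]], [[5, 13], [22, 46, 48]], [[13, 21], [15, 22, 46]], [[13, 48], [22, 33, 46]], [[13],
  [15, 22, 33, 46]], [[11, 32, 42], [12, 23]], [[11, 42], [12, 23, 36]], [[36, 42], [12, 23, 41]],
  [[41, 42], [12, 17, 23]], [[42], [12, 17, 23, 32]], [[0, 34, 37], [2, 46]], [[34, 37],
  [2, 33, 46]], [[33, 37], [2, 46, 48]], [[0, 17, 37], [40, 46]], [[0, 37], [2, 40, 46]], [[17, 37],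
  [40, 46, 48]], [[37], [2, 40, 46, 48]], [[17, 48], [5, 40, 46]], [[5, 48], [22, 40, 46]],
  [[0, 17], [40, 41, 46]], [[7, 22, 48], [33, 40]], [[7, 48], [2, 33, 40]], [[22, 48],
  [33, 40, 46]], [[48], [2, 33, 40, 46]], [[2, 7], [33, 40, 44]], [[7, 22, 40], [33, 43]], [[7, 40],
  [33, 43, 44]], [[7, 44], [33, 43, 45]], [[7], [22, 33, 43, 45]], [[0, 2, 35], [34, 40]], [[0, 2],
  [34, 40, 46]], [[2, 35], [34, 40, 44]], [[2, 46], [33, 34, 40]], [[2], [33, 34, 40, 44]],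
  [[0, 18, 41], [35, 46]], [[0, 41], [35, 40, 46]], [[0, 18], [34, 35, 46]], [[0],
  [34, 35, 40, 46]], [[5, 17, 32], [28, 47]], [[5, 32], [24, 28, 47]], [[17, 28, 32], [23, 47]],
  [[23, 47], [17, 28, 32]], [[11, 23, 32], [12, 28]], [[23, 32], [12, 17, 28]], [[17, 32],
  [12, 28, 47]], [[11, 32], [12, 24, 28]], [[32], [12, 24, 28, 47]], [[11, 24], [12, 28, 51]],
  [[11, 28], [12, 23, 51]], [[11, 12, 51], [23, 43]], [[23, 43], [11, 12, 51]], [[11, 12, 23],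
  [36, 51]], [[11, 12], [36, 43, 51]], [[12, 43], [26, 36, 51]], [[11, 23], [16, 36, 51]], [[11],
  [16, 36, 43, 51]], [[5, 21, 24], [47, 51]], [[47, 51], [5, 21, 24]], [[5, 21, 24], [47, 51]],
  [[5, 24], [28, 47, 51]], [[24, 28], [12, 47, 51]], [[21, 24], [30, 47, 51]], [[24],
  [12, 30, 47, 51]], [[12, 17, 28], [23, 47]], [[23, 47], [12, 17, 28]], [[5, 28, 47], [17, 51]],
  [[28, 47], [12, 17, 51]], [[5, 28], [17, 31, 51]], [[5, 31], [17, 40, 51]], [[12, 28],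
  [17, 23, 51]], [[28], [17, 23, 31, 51]], [[16, 31, 51], [23, 40]], [[23, 40], [16, 31, 51]],
  [[16, 31, 40], [41, 51]], [[31, 40], [17, 41, 51]], [[17, 31], [23, 41, 51]], [[31],
  [16, 23, 41, 51]], [[17, 23], [12, 41, 51]], [[16, 23], [36, 41, 51]], [[23], [12, 36, 41, 51]],
  [[12, 17], [41, 47, 51]], [[5, 17, 40], [46, 51]], [[17, 40], [41, 46, 51]], [[17, 41],
  [46, 47, 51]], [[17], [5, 46, 47, 51]], [[5, 40], [22, 46, 51]], [[5, 22], [21, 46, 51]], [[5],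
  [21, 46, 47, 51]], [[21, 22], [15, 46, 51]], [[15, 21, 30], [38, 51]], [[38, 51], [15, 21, 30]],
  [[15, 21, 46], [38, 51]], [[21, 46], [38, 47, 51]], [[46, 47], [38, 41, 51]], [[21, 47],
  [30, 38, 51]], [[21], [15, 30, 38, 51]], [[12, 47, 51], [30, 41]], [[30, 41], [12, 47, 51]],
  [[12, 30, 47], [14, 51]], [[30, 47], [14, 38, 51]], [[12, 47], [14, 41, 51]], [[47],
  [14, 38, 41, 51]], [[30, 38], [14, 15, 51]], [[15, 30], [14, 26, 51]], [[30], [12, 14, 26, 51]],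
  [[12, 41], [14, 36, 51]], [[12], [14, 26, 36, 51]], [[14, 15, 38], [18, 51]], [[14, 38],
  [18, 41, 51]], [[15, 38], [18, 46, 51]], [[38], [18, 41, 46, 51]], [[14, 41], [18, 36, 51]],
  [[14, 15, 18], [45, 51]], [[45, 51], [14, 15, 18]], [[14, 15, 26], [45, 51]], [[14, 15],
  [18, 45, 51]], [[15, 26], [22, 45, 51]], [[14, 18], [36, 45, 51]], [[14], [26, 36, 45, 51]],
  [[26, 36], [43, 45, 51]], [[26], [22, 43, 45, 51]], [[15, 22, 45], [33, 51]], [[22, 45],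
  [33, 43, 51]], [[22, 43], [33, 40, 51]], [[22, 40], [33, 46, 51]], [[22], [15, 33, 46, 51]],
  [[15, 33, 45], [34, 51]], [[34, 51], [15, 33, 45]], [[15, 18, 34], [45, 46]], [[15, 18],
  [45, 46, 51]], [[15, 34], [33, 45, 46]], [[15], [33, 45, 46, 51]], [[16, 35, 36], [41, 44]],
  [[35, 36], [18, 41, 44]], [[16, 35], [40, 41, 44]], [[16, 40, 41], [44, 51]], [[16, 40],
  [43, 44, 51]], [[40, 43], [33, 44, 51]], [[16, 41], [36, 44, 51]], [[16], [36, 43, 44, 51]],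
  [[36, 41], [18, 44, 51]], [[36, 43], [44, 45, 51]], [[36], [18, 44, 45, 51]], [[43],
  [33, 44, 45, 51]], [[18, 34, 45], [44, 46]], [[18, 34], [35, 44, 46]], [[18, 35], [41, 44, 46]],
  [[35, 41], [40, 44, 46]], [[35], [34, 40, 44, 46]], [[40, 41], [44, 46, 51]], [[41],
  [18, 44, 46, 51]], [[18], [44, 45, 46, 51]], [[45, 51], [33, 44, 46]], [[45], [33, 34, 44, 46]],
  [[34], [33, 40, 44, 46]]]
def E39 : List ℕ := [33, 40, 44, 46, 51]
def L40 : List (List (List ℕ)) :=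
  [[[13, 51], [0, 29, 31]], [[35, 47], [8, 27, 29]], [[0, 51], [27, 29, 31]], [[25, 26],
  [6, 9, 32]], [[8, 47], [27, 29, 42]], [[8, 42], [27, 29, 50]], [[13, 26], [38, 42, 47]],
  [[26, 47], [28, 38, 42]], [[28, 47], [27, 38, 42]], [[26, 32], [6, 9, 28]], [[26, 42],
  [6, 28, 38]], [[26], [6, 9, 28, 38]], [[9, 38], [6, 16, 28]], [[6, 38], [16, 28, 42]], [[28, 38],
  [16, 27, 42]], [[28, 42], [6, 16, 27]], [[6, 42], [16, 27, 50]], [[16, 38], [27, 31, 42]],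
  [[16, 42], [27, 31, 50]], [[0, 13, 29], [31, 47]], [[13, 29], [31, 42, 47]], [[0, 29],
  [27, 31, 47]], [[0, 27], [31, 38, 47]], [[0], [13, 31, 38, 47]], [[13], [31, 38, 42, 47]], [[38],
  [27, 31, 42, 47]], [[47], [27, 29, 31, 42]], [[42], [27, 29, 31, 50]], [[2, 20, 39], [25, 48]],
  [[20, 39], [17, 25, 48]], [[2, 20], [24, 25, 48]], [[20], [17, 24, 25, 48]], [[5, 22, 51],
  [35, 39]], [[5, 22], [35, 39, 48]], [[22, 48], [7, 35, 39]], [[22, 51], [35, 39, 43]], [[22],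
  [7, 35, 39, 43]], [[5, 17, 31], [29, 39]], [[17, 31], [29, 39, 50]], [[5, 17], [29, 39, 48]],
  [[5, 31], [29, 39, 51]], [[5, 51], [29, 35, 39]], [[5], [29, 35, 39, 48]], [[17, 24, 29],
  [48, 50]], [[17, 24], [25, 48, 50]], [[24, 29], [23, 48, 50]], [[17, 29], [39, 48, 50]], [[17],
  [25, 39, 48, 50]], [[16, 27, 31], [50, 51]], [[27, 31], [29, 50, 51]], [[29, 31], [39, 50, 51]],
  [[31], [16, 39, 50, 51]], [[2, 10, 24], [19, 25]], [[2, 10], [19, 25, 32]], [[2, 24],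
  [19, 25, 48]], [[10, 19, 24], [23, 25]], [[10, 24], [23, 25, 50]], [[24, 50], [23, 25, 48]],
  [[24], [19, 23, 25, 48]], [[6, 10, 36], [32, 50]], [[32, 50], [6, 10, 36]], [[6, 10, 32],
  [25, 36]], [[6, 10], [25, 36, 50]], [[10, 32], [19, 25, 36]], [[10, 50], [23, 25, 36]], [[10],
  [19, 23, 25, 36]], [[16, 27, 51], [43, 50]], [[43, 50], [16, 27, 51]], [[16, 43, 51], [27, 39]],
  [[43, 51], [27, 35, 39]], [[35, 51], [27, 29, 39]], [[16, 51], [27, 39, 50]], [[51],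
  [27, 29, 39, 50]], [[2, 9, 25], [32, 39]], [[32, 39], [2, 9, 25]], [[2, 9, 25], [32, 39]],
  [[2, 9], [32, 39, 44]], [[6, 9, 16], [25, 28]], [[6, 9], [25, 28, 32]], [[6, 32], [25, 28, 36]],
  [[6, 16, 27], [28, 50]], [[6, 27], [28, 36, 50]], [[6, 16], [25, 28, 50]], [[6],
  [25, 28, 36, 50]], [[9, 16, 44], [28, 39]], [[9, 16], [25, 28, 39]], [[9, 25], [28, 32, 39]],
  [[9], [28, 32, 39, 44]], [[16, 25], [28, 39, 50]], [[16, 44], [28, 39, 43]], [[16, 50],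
  [27, 28, 39]], [[16], [27, 28, 39, 43]], [[2, 7, 48], [39, 41]], [[2, 7], [39, 41, 44]], [[2, 44],
  [32, 39, 41]], [[2, 19, 41], [32, 48]], [[2, 41], [32, 39, 48]], [[2, 39], [25, 32, 48]], [[2],
  [19, 25, 32, 48]], [[3, 7, 44], [41, 43]], [[7, 44], [39, 41, 43]], [[3, 7], [21, 41, 43]],
  [[3, 43, 44], [28, 41]], [[43, 44], [28, 39, 41]], [[39, 44], [28, 32, 41]], [[44],
  [3, 28, 32, 41]], [[3, 43], [21, 28, 41]], [[3, 32], [4, 28, 41]], [[3], [4, 21, 28, 41]],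
  [[7, 21, 41], [43, 48]], [[7, 21], [35, 43, 48]], [[7, 35], [39, 43, 48]], [[7],
  [39, 41, 43, 48]], [[4, 19, 32], [36, 41]], [[4, 32], [28, 36, 41]], [[4, 19], [11, 36, 41]],
  [[4, 28], [21, 36, 41]], [[4], [11, 21, 36, 41]], [[11, 19, 23], [36, 48]], [[36, 48],
  [11, 19, 23]], [[11, 19, 23], [36, 48]], [[11, 19], [36, 41, 48]], [[19, 41], [32, 36, 48]],
  [[19, 23], [25, 36, 48]], [[19], [25, 32, 36, 48]], [[11, 41], [21, 36, 48]], [[23, 25],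
  [36, 48, 50]], [[11, 23, 48], [29, 36]], [[29, 36], [11, 23, 48]], [[11, 23, 48], [29, 36]],
  [[11, 23], [8, 29, 36]], [[8, 23], [29, 36, 50]], [[23], [29, 36, 48, 50]], [[8, 50],
  [27, 29, 36]], [[8, 11, 36], [21, 29]], [[11, 36], [21, 29, 48]], [[8, 11], [21, 29, 35]], [[11],
  [21, 29, 35, 48]], [[8, 35], [21, 27, 29]], [[8], [21, 27, 29, 36]], [[21, 27, 35], [29, 43]],
  [[29, 43], [21, 27, 35]], [[21, 27, 35], [29, 43]], [[21, 35], [29, 43, 48]], [[27, 35],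
  [29, 39, 43]], [[35], [29, 39, 43, 48]], [[25, 28, 50], [36, 39]], [[25, 50], [36, 39, 48]],
  [[25, 48], [32, 36, 39]], [[25], [28, 32, 36, 39]], [[48, 50], [29, 36, 39]], [[28, 32],
  [36, 39, 41]], [[32], [36, 39, 41, 48]], [[28, 50], [27, 36, 39]], [[50], [27, 29, 36, 39]],
  [[21, 27, 28], [36, 43]], [[27, 28], [36, 39, 43]], [[21, 28], [36, 41, 43]], [[28],
  [36, 39, 41, 43]], [[27, 39], [29, 36, 43]], [[27], [21, 29, 36, 43]], [[21, 41], [36, 43, 48]],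
  [[21], [29, 36, 43, 48]], [[29], [36, 39, 43, 48]]]
def E40 : List ℕ := [36, 39, 41, 43, 48]
def L41 : List (List (List ℕ)) :=
  [[[28, 45], [1, 13, 31]], [[17, 23], [4, 39, 42]], [[13, 28], [1, 7, 31]], [[0, 28],
  [18, 26, 46]], [[4, 17], [25, 39, 42]], [[1, 45], [12, 13, 31]], [[31, 45], [12, 13, 42]],
  [[28, 47], [26, 38, 46]], [[28, 46], [18, 26, 38]], [[31, 42], [12, 13, 36]], [[28, 31],
  [1, 7, 18]], [[18, 31], [1, 7, 36]], [[1, 28], [7, 18, 38]], [[28], [7, 18, 26, 38]], [[7, 31],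
  [1, 13, 36]], [[31], [1, 12, 13, 36]], [[1, 12], [13, 14, 36]], [[1, 38], [7, 14, 18]], [[1, 18],
  [7, 14, 36]], [[1], [7, 13, 14, 36]], [[2, 7, 44], [40, 51]], [[40, 51], [2, 7, 44]],
  [[32, 40, 44], [2, 3]], [[32, 44], [2, 3, 51]], [[40, 44], [2, 3, 7]], [[44], [2, 3, 7, 51]],
  [[32, 51], [2, 3, 29]], [[3, 29, 32], [2, 4]], [[29, 32], [2, 4, 19]], [[3, 32], [2, 4, 40]],
  [[32], [2, 4, 19, 40]], [[0, 17, 46], [26, 39]], [[26, 39], [0, 17, 46]], [[17, 26, 46], [0, 47]],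
  [[17, 46], [0, 39, 47]], [[17, 26], [0, 43, 47]], [[0, 46, 47], [26, 39]], [[46, 47],
  [26, 38, 39]], [[38, 46], [18, 26, 39]], [[46], [0, 18, 26, 39]], [[7, 14, 38], [18, 48]],
  [[7, 38], [18, 26, 48]], [[7, 26], [2, 18, 48]], [[14, 18, 38], [39, 48]], [[18, 38],
  [26, 39, 48]], [[14, 38], [39, 47, 48]], [[38], [26, 39, 47, 48]], [[0, 17, 47], [39, 43]],
  [[0, 47], [26, 39, 43]], [[0, 17], [25, 39, 43]], [[0, 5, 25], [35, 43]], [[0, 25], [35, 39, 43]],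
  [[5, 25], [29, 35, 43]], [[0, 5, 18], [26, 35]], [[0, 18], [26, 35, 39]], [[0, 39], [26, 35, 43]],
  [[0], [5, 26, 35, 43]], [[17, 33, 42], [12, 25]], [[17, 42], [12, 25, 39]], [[12, 17, 33],
  [25, 47]], [[17, 33], [25, 43, 47]], [[12, 17], [25, 39, 47]], [[17], [25, 39, 43, 47]],
  [[2, 5, 16], [26, 29]], [[26, 29], [2, 5, 16]], [[2, 4, 40], [3, 19]], [[2, 4], [3, 19, 29]],
  [[2, 5, 51], [18, 29]], [[5, 51], [18, 29, 35]], [[2, 5, 18], [26, 29]], [[2, 5], [16, 26, 29]],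
  [[5, 18], [26, 29, 35]], [[5, 35], [26, 29, 43]], [[5], [16, 26, 29, 43]], [[2, 29, 51], [3, 18]],
  [[2, 51], [3, 7, 18]], [[7, 51], [3, 18, 36]], [[36, 51], [3, 18, 35]], [[51], [3, 18, 29, 35]],
  [[35, 36], [3, 18, 39]], [[2, 7, 40], [3, 48]], [[2, 7], [3, 18, 48]], [[2, 40], [3, 19, 48]],
  [[7, 40], [3, 21, 48]], [[3, 19, 40], [4, 48]], [[19, 40], [4, 11, 48]], [[3, 40], [4, 21, 48]],
  [[40], [4, 11, 21, 48]], [[11, 19], [4, 30, 48]], [[2, 3, 18], [29, 48]], [[2, 18], [26, 29, 48]],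
  [[2, 3], [19, 29, 48]], [[2, 26], [16, 29, 48]], [[2], [16, 19, 29, 48]], [[3, 19], [4, 29, 48]],
  [[16, 19], [29, 30, 48]], [[19], [4, 29, 30, 48]], [[16, 29, 30], [43, 48]], [[16, 29],
  [26, 43, 48]], [[16, 26], [34, 43, 48]], [[16], [30, 34, 43, 48]], [[26, 34], [43, 47, 48]],
  [[26, 47], [39, 43, 48]], [[18, 26, 29], [35, 48]], [[18, 29], [3, 35, 48]], [[26, 29],
  [35, 43, 48]], [[3, 29], [4, 35, 48]], [[26, 43], [35, 39, 48]], [[26], [18, 35, 39, 48]],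
  [[18, 35], [3, 39, 48]], [[3, 35], [4, 39, 48]], [[3, 18, 48], [7, 39]], [[18, 48], [7, 14, 39]],
  [[14, 18], [7, 36, 39]], [[18], [3, 7, 36, 39]], [[3, 36], [7, 23, 39]], [[3, 4, 23], [21, 39]],
  [[3, 23], [7, 21, 39]], [[3, 7], [21, 39, 48]], [[3], [4, 21, 39, 48]], [[7, 48], [14, 21, 39]],
  [[4, 25, 35], [29, 39]], [[25, 35], [29, 39, 43]], [[4, 35], [29, 39, 48]], [[35],
  [29, 39, 43, 48]], [[4, 29, 39], [25, 48]], [[25, 48], [4, 29, 39]], [[7, 13, 23], [21, 36]],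
  [[21, 36], [7, 13, 23]], [[4, 29, 48], [30, 39]], [[29, 48], [30, 39, 43]], [[4, 29],
  [25, 30, 39]], [[29], [25, 30, 39, 43]], [[4, 25], [30, 39, 42]], [[7, 13, 14], [21, 36]],
  [[13, 14], [12, 21, 36]], [[7, 13], [21, 23, 36]], [[7, 23], [21, 36, 39]], [[7],
  [14, 21, 36, 39]], [[14, 36], [12, 21, 39]], [[4, 21, 23], [13, 39]], [[21, 23], [13, 36, 39]],
  [[23, 36], [13, 39, 42]], [[23], [4, 13, 39, 42]], [[36, 42], [12, 13, 39]], [[36],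
  [12, 13, 21, 39]], [[4, 13, 21], [39, 45]], [[4, 13], [39, 42, 45]], [[4, 42], [30, 39, 45]],
  [[13, 21], [12, 39, 45]], [[13], [12, 39, 42, 45]], [[4, 11, 30], [45, 48]], [[45, 48],
  [4, 11, 30]], [[4, 11, 30], [45, 48]], [[4, 30], [39, 45, 48]], [[11, 30], [34, 45, 48]],
  [[11, 34], [6, 45, 48]], [[4, 11], [21, 45, 48]], [[4], [21, 39, 45, 48]], [[11],
  [6, 21, 45, 48]], [[6, 12, 14], [21, 47]], [[21, 47], [6, 12, 14]], [[6, 14, 21], [12, 48]],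
  [[12, 48], [6, 14, 21]], [[12, 14, 47], [6, 39]], [[6, 39], [12, 14, 47]], [[6, 12, 14],
  [21, 47]], [[6, 14], [21, 47, 48]], [[14, 48], [21, 39, 47]], [[14], [12, 21, 39, 47]],
  [[6, 21, 45], [12, 48]], [[21, 45], [12, 39, 48]], [[21, 39], [12, 47, 48]], [[21],
  [6, 12, 47, 48]], [[6, 12, 45], [33, 48]], [[6, 12], [33, 47, 48]], [[6, 47], [33, 34, 48]], [[6],
  [33, 34, 45, 48]], [[34, 45], [30, 33, 48]], [[30, 34], [33, 43, 48]], [[34], [33, 43, 47, 48]],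
  [[12, 33, 42], [25, 45]], [[33, 42], [25, 30, 45]], [[12, 42], [25, 39, 45]], [[42],
  [25, 30, 39, 45]], [[12, 25, 33], [45, 47]], [[12, 25], [39, 45, 47]], [[12, 39], [45, 47, 48]],
  [[12], [33, 45, 47, 48]], [[25, 30, 45], [33, 39]], [[33, 39], [25, 30, 45]], [[25, 33, 47],
  [43, 45]], [[33, 47], [43, 45, 48]], [[25, 47], [39, 43, 45]], [[47], [39, 43, 45, 48]],
  [[25, 33], [30, 43, 45]], [[25], [30, 39, 43, 45]], [[33], [30, 43, 45, 48]]]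
def E41 : List ℕ := [30, 39, 43, 45, 48]
def L42 : List (List (List ℕ)) :=
  [[[24, 39], [11, 12, 32]], [[16, 28], [6, 27, 38]], [[4, 25], [17, 30, 41]], [[8, 50],
  [27, 29, 40]], [[6, 50], [16, 27, 40]], [[8, 18], [29, 37, 47]], [[8, 40], [27, 29, 47]], [[8],
  [27, 29, 37, 47]], [[11, 24], [12, 32, 49]], [[6, 16], [27, 38, 40]], [[25, 41], [17, 30, 33]],
  [[25, 51], [21, 30, 33]], [[25], [17, 21, 30, 33]], [[6, 46], [26, 28, 38]], [[18, 29],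
  [7, 37, 47]], [[29, 45], [0, 13, 31]], [[28, 46], [26, 38, 47]], [[4, 17], [23, 30, 41]],
  [[6, 27], [28, 38, 40]], [[6], [26, 28, 38, 40]], [[29, 50], [27, 31, 40]], [[50],
  [16, 27, 31, 40]], [[16], [27, 31, 38, 40]], [[27, 28], [38, 40, 47]], [[28], [26, 38, 40, 47]],
  [[26, 40], [13, 38, 47]], [[7, 29], [0, 37, 47]], [[29, 37], [0, 27, 47]], [[27, 37],
  [0, 38, 47]], [[0, 13, 29], [31, 47]], [[0, 29], [27, 31, 47]], [[13, 29], [31, 40, 47]], [[29],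
  [27, 31, 40, 47]], [[0, 27], [31, 38, 47]], [[27], [31, 38, 40, 47]], [[40], [13, 31, 38, 47]],
  [[31, 47], [0, 13, 38]], [[4, 10, 26], [30, 47]], [[10, 26], [30, 47, 51]], [[4, 10],
  [7, 30, 47]], [[10], [7, 30, 47, 51]], [[7, 24, 37], [12, 18]], [[12, 18], [7, 24, 37]],
  [[0, 31, 45], [12, 13]], [[0, 31], [12, 13, 38]], [[31, 45], [12, 13, 41]], [[31, 38],
  [12, 13, 36]], [[31], [12, 13, 36, 41]], [[7, 12, 24], [33, 37]], [[7, 24], [18, 33, 37]],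
  [[12, 24, 32], [33, 49]], [[24, 32], [18, 33, 49]], [[18, 24], [33, 37, 49]], [[24],
  [12, 33, 37, 49]], [[11, 22, 46], [19, 49]], [[19, 49], [11, 22, 46]], [[11, 19, 46], [22, 38]],
  [[19, 46], [22, 26, 38]], [[11, 46], [22, 38, 49]], [[46, 49], [22, 38, 47]], [[46],
  [22, 26, 38, 47]], [[11, 32, 39], [12, 23]], [[11, 39], [12, 23, 36]], [[36, 39], [12, 23, 41]],
  [[36, 41], [12, 13, 23]], [[39, 41], [12, 17, 23]], [[39], [12, 17, 23, 32]], [[11, 36, 38],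
  [12, 19]], [[36, 38], [12, 13, 19]], [[13, 36], [12, 19, 23]], [[36], [11, 12, 19, 23]],
  [[0, 4, 7], [45, 47]], [[0, 4], [13, 45, 47]], [[4, 7], [30, 45, 47]], [[0, 7, 45], [12, 47]],
  [[0, 45], [12, 13, 47]], [[0, 13], [12, 38, 47]], [[0, 38], [12, 37, 47]], [[0], [7, 12, 37, 47]],
  [[37, 38], [12, 47, 49]], [[7, 18, 37], [33, 47]], [[7, 18], [33, 47, 51]], [[7, 51],
  [30, 33, 47]], [[18, 37], [33, 47, 49]], [[37, 49], [12, 33, 47]], [[37], [7, 12, 33, 47]],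
  [[7, 12], [33, 45, 47]], [[7], [30, 33, 45, 47]], [[4, 13, 26], [23, 47]], [[4, 26],
  [23, 30, 47]], [[4, 13, 47], [23, 45]], [[4, 13], [23, 41, 45]], [[13, 41], [12, 23, 45]],
  [[4, 41], [23, 30, 45]], [[4], [23, 30, 45, 47]], [[13, 45], [12, 23, 47]], [[12, 23, 41],
  [17, 45]], [[17, 45], [12, 23, 41]], [[12, 13, 23], [19, 47]], [[13, 23], [19, 26, 47]],
  [[12, 13], [19, 38, 47]], [[13], [19, 26, 38, 47]], [[26, 38], [19, 22, 47]], [[11, 19, 38],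
  [12, 22]], [[19, 38], [12, 22, 47]], [[11, 38], [12, 22, 49]], [[38], [12, 22, 47, 49]],
  [[11, 49], [12, 22, 32]], [[11, 15, 19], [22, 23]], [[15, 19], [22, 23, 26]], [[11, 19],
  [12, 22, 23]], [[12, 19], [22, 23, 47]], [[19], [22, 23, 26, 47]], [[11, 15], [22, 23, 32]],
  [[11], [12, 22, 23, 32]], [[12, 32, 49], [22, 33]], [[32, 49], [18, 22, 33]], [[18, 49],
  [22, 33, 47]], [[49], [12, 22, 33, 47]], [[18, 32], [21, 22, 33]], [[18, 47], [22, 33, 51]],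
  [[18], [21, 22, 33, 51]], [[12, 33, 41], [17, 45]], [[33, 41], [17, 30, 45]], [[30, 41],
  [17, 23, 45]], [[41], [12, 17, 23, 45]], [[12, 17, 45], [23, 33]], [[17, 45], [23, 30, 33]],
  [[12, 17], [23, 32, 33]], [[12, 32], [22, 23, 33]], [[12, 45], [23, 33, 47]], [[12],
  [22, 23, 33, 47]], [[45], [23, 30, 33, 47]], [[15, 17, 32], [21, 23]], [[17, 32], [21, 23, 33]],
  [[32, 33], [21, 22, 23]], [[32], [15, 21, 22, 23]], [[17, 33], [21, 23, 30]], [[17],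
  [15, 21, 23, 30]], [[15, 21, 23], [22, 30]], [[15, 21], [22, 30, 51]], [[15, 51], [22, 26, 30]],
  [[15], [22, 23, 26, 30]], [[21, 51], [22, 30, 33]], [[21], [22, 23, 30, 33]], [[33, 51],
  [22, 30, 47]], [[33], [22, 23, 30, 47]], [[23], [22, 26, 30, 47]]]
def E42 : List ℕ := [22, 26, 30, 47, 51]
def L43 : List (List (List ℕ)) :=
  [[[5, 24], [4, 36, 44]], [[22, 47], [17, 26, 51]], [[47, 51], [10, 17, 26]], [[20, 49],
  [19, 21, 50]], [[7, 20], [0, 15, 17]], [[28, 33], [21, 25, 30]], [[10, 17, 47], [26, 33]],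
  [[17, 47], [26, 33, 41]], [[41, 47], [26, 33, 34]], [[47], [10, 26, 33, 34]], [[7, 22, 35],
  [17, 40]], [[7, 35], [17, 21, 40]], [[22, 35], [17, 40, 51]], [[21, 35], [17, 27, 40]], [[35],
  [17, 27, 40, 51]], [[0, 7, 22], [17, 45]], [[17, 45], [0, 7, 22]], [[0, 17, 22], [7, 26]],
  [[0, 22], [7, 26, 45]], [[22, 45], [7, 26, 39]], [[7, 17, 22], [26, 40]], [[7, 22], [26, 39, 40]],
  [[22, 39], [26, 40, 51]], [[22], [17, 26, 40, 51]], [[0, 4, 45], [5, 7]], [[5, 7], [0, 4, 45]],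
  [[2, 8, 10], [11, 32]], [[2, 8], [11, 31, 32]], [[2, 31], [11, 32, 50]], [[2, 10, 32], [11, 19]],
  [[2, 32], [11, 19, 50]], [[2, 10], [11, 19, 49]], [[2], [11, 19, 49, 50]], [[0, 5, 45], [4, 26]],
  [[5, 45], [4, 26, 36]], [[0, 45], [4, 7, 26]], [[4, 7, 45], [11, 26]], [[11, 26], [4, 7, 45]],
  [[4, 7, 45], [11, 26]], [[7, 45], [11, 26, 39]], [[4, 45], [11, 26, 36]], [[45],
  [11, 26, 36, 39]], [[36, 39], [11, 12, 26]], [[12, 39], [11, 26, 51]], [[12, 51], [10, 11, 26]],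
  [[11, 16, 39], [44, 51]], [[16, 39], [40, 44, 51]], [[11, 16], [8, 44, 51]], [[7, 39, 44],
  [11, 40]], [[11, 40], [7, 39, 44]], [[7, 39, 40], [26, 44]], [[26, 44], [7, 39, 40]],
  [[11, 39, 44], [7, 51]], [[7, 51], [11, 39, 44]], [[7, 39, 40], [26, 44]], [[39, 40],
  [26, 44, 51]], [[7, 39], [11, 26, 44]], [[39], [11, 26, 44, 51]], [[4, 15, 46], [7, 38]],
  [[4, 46], [7, 11, 38]], [[15, 46], [7, 21, 38]], [[7, 21, 46], [38, 50]], [[21, 46],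
  [38, 49, 50]], [[7, 46], [11, 38, 50]], [[46], [11, 38, 49, 50]], [[5, 29, 48], [25, 44]],
  [[25, 44], [5, 29, 48]], [[5, 29, 48], [25, 44]], [[29, 48], [25, 28, 44]], [[28, 48],
  [3, 25, 44]], [[0, 3, 48], [25, 50]], [[0, 3], [20, 25, 50]], [[3, 48], [25, 44, 50]], [[3, 20],
  [21, 25, 50]], [[0, 25, 48], [5, 50]], [[25, 48], [5, 44, 50]], [[0, 48], [4, 5, 50]], [[48],
  [4, 5, 44, 50]], [[3, 7, 40], [21, 44]], [[3, 40], [21, 28, 44]], [[3, 28], [21, 25, 44]],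
  [[3, 7], [21, 44, 50]], [[3], [21, 25, 44, 50]], [[5, 29, 44], [16, 25]], [[29, 44],
  [16, 25, 28]], [[5, 29], [16, 25, 41]], [[29, 41], [16, 25, 30]], [[29], [16, 25, 28, 30]],
  [[16, 28, 40], [27, 44]], [[27, 44], [16, 28, 40]], [[16, 28, 30], [25, 27]], [[25, 27],
  [16, 28, 30]], [[16, 25, 28], [30, 44]], [[25, 28], [21, 30, 44]], [[16, 27, 28], [30, 40]],
  [[30, 40], [16, 27, 28]], [[16, 28, 44], [30, 40]], [[30, 40], [16, 28, 44]], [[16, 28, 40],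
  [27, 44]], [[27, 44], [16, 28, 40]], [[21, 28, 30], [27, 44]], [[27, 44], [21, 28, 30]],
  [[16, 28, 30], [27, 44]], [[16, 28], [27, 40, 44]], [[16, 40], [27, 44, 51]], [[28, 30],
  [21, 27, 44]], [[28], [21, 27, 40, 44]], [[27, 40, 51], [17, 44]], [[40, 51], [17, 26, 44]],
  [[27, 40], [17, 21, 44]], [[21, 27], [17, 30, 44]], [[21, 40], [7, 17, 44]], [[40],
  [7, 17, 26, 44]], [[16, 27, 34], [30, 51]], [[16, 27], [30, 44, 51]], [[27, 44], [17, 30, 51]],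
  [[27], [17, 30, 34, 51]], [[6, 10, 32], [8, 17]], [[6, 10], [8, 17, 51]], [[6, 51], [8, 17, 34]],
  [[6, 17, 23], [32, 34]], [[6, 17], [8, 32, 34]], [[6, 8], [9, 32, 34]], [[6], [9, 23, 32, 34]],
  [[9, 15, 24], [23, 31]], [[23, 31], [9, 15, 24]], [[8, 9, 24], [31, 34]], [[8, 9], [31, 32, 34]],
  [[9, 23, 24], [15, 34]], [[23, 24], [15, 34, 38]], [[23, 38], [15, 30, 34]], [[9, 24],
  [15, 31, 34]], [[9, 31], [15, 32, 34]], [[9], [15, 23, 32, 34]], [[23, 32], [15, 17, 34]], [[23],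
  [15, 17, 30, 34]], [[8, 24, 44], [31, 36]], [[8, 24], [31, 34, 36]], [[24, 44], [4, 31, 36]],
  [[4, 24, 36], [31, 38]], [[31, 38], [4, 24, 36]], [[4, 24, 31], [15, 36]], [[4, 24],
  [15, 36, 38]], [[24, 38], [15, 34, 36]], [[24], [15, 31, 34, 36]], [[10, 11, 49], [12, 19]],
  [[12, 19], [10, 11, 49]], [[10, 12, 26], [11, 34]], [[11, 34], [10, 12, 26]], [[10, 37, 49],
  [12, 19]], [[12, 19], [10, 37, 49]], [[12, 34, 36], [26, 38]], [[12, 36], [11, 26, 38]],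
  [[11, 36], [4, 26, 38]], [[4, 11], [7, 26, 38]], [[10, 12, 37], [34, 49]], [[34, 49],
  [10, 12, 37]], [[12, 37, 49], [10, 38]], [[12, 37], [10, 34, 38]], [[12, 49], [10, 11, 38]],
  [[12, 34], [10, 26, 38]], [[12], [10, 11, 26, 38]], [[10, 19, 49], [11, 37]], [[11, 37],
  [10, 19, 49]], [[10, 11, 49], [19, 38]], [[11, 49], [19, 38, 50]], [[10, 49], [19, 37, 38]],
  [[49, 50], [19, 21, 38]], [[49], [19, 21, 37, 38]], [[10, 19, 37], [33, 38]], [[10, 37],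
  [33, 34, 38]], [[10, 34], [26, 33, 38]], [[34, 37], [30, 33, 38]], [[30, 37], [21, 33, 38]],
  [[37], [19, 21, 33, 38]], [[10, 19, 32], [11, 33]], [[10, 19], [11, 33, 38]], [[10, 38],
  [11, 26, 33]], [[8, 10, 17], [32, 51]], [[8, 10], [11, 32, 51]], [[8, 17], [32, 34, 51]],
  [[10, 11, 26], [33, 51]], [[10, 26], [17, 33, 51]], [[10, 17], [32, 33, 51]], [[10],
  [11, 32, 33, 51]], [[19, 20, 32], [33, 50]], [[19, 32], [11, 33, 50]], [[19, 20], [21, 33, 50]],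
  [[20, 21], [25, 33, 50]], [[11, 19], [33, 38, 50]], [[19], [21, 33, 38, 50]], [[15, 20, 32],
  [17, 50]], [[20, 32], [17, 33, 50]], [[15, 20], [0, 17, 50]], [[20, 33], [17, 25, 50]], [[20],
  [0, 17, 25, 50]], [[8, 16, 34], [36, 51]], [[8, 16], [36, 44, 51]], [[8, 11, 32], [31, 51]],
  [[8, 11], [31, 44, 51]], [[8, 44], [31, 36, 51]], [[8, 36], [31, 34, 51]], [[8],
  [31, 32, 34, 51]], [[15, 31, 32], [34, 50]], [[34, 50], [15, 31, 32]], [[11, 31, 32], [50, 51]],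
  [[11, 32], [33, 50, 51]], [[32, 33], [17, 50, 51]], [[11, 31], [44, 50, 51]], [[15, 17, 32],
  [34, 50]], [[15, 32], [31, 34, 50]], [[17, 32], [34, 50, 51]], [[32], [31, 34, 50, 51]],
  [[4, 31, 36], [15, 44]], [[15, 44], [4, 31, 36]], [[4, 15, 31], [36, 50]], [[4, 31],
  [36, 44, 50]], [[31, 44], [36, 50, 51]], [[4, 44], [5, 36, 50]], [[15, 31], [34, 36, 50]], [[31],
  [34, 36, 50, 51]], [[7, 11, 44], [26, 50]], [[11, 44], [26, 50, 51]], [[11, 51], [26, 33, 50]],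
  [[33, 51], [17, 26, 50]], [[26, 51], [17, 44, 50]], [[7, 11], [26, 38, 50]], [[11],
  [26, 33, 38, 50]], [[26, 44], [7, 17, 50]], [[7, 44], [17, 21, 50]], [[16, 30, 51], [34, 44]],
  [[34, 44], [16, 30, 51]], [[16, 30, 51], [34, 44]], [[30, 51], [17, 34, 44]], [[17, 51],
  [34, 44, 50]], [[16, 51], [34, 36, 44]], [[51], [34, 36, 44, 50]], [[0, 7, 15], [4, 17]],
  [[4, 17], [0, 7, 15]], [[4, 7, 15], [0, 38]], [[0, 38], [4, 7, 15]], [[0, 7, 26], [4, 17]],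
  [[0, 7], [4, 15, 17]], [[0, 15], [4, 17, 50]], [[0, 5, 25], [41, 50]], [[0, 25], [17, 41, 50]],
  [[17, 25], [33, 41, 50]], [[17, 33], [26, 41, 50]], [[17, 41], [0, 26, 50]], [[0, 17],
  [4, 26, 50]], [[17, 26], [4, 7, 50]], [[7, 26], [4, 38, 50]], [[4, 17], [7, 15, 50]], [[0, 4],
  [5, 26, 50]], [[0], [5, 26, 41, 50]], [[4, 7], [15, 38, 50]], [[7, 17], [15, 21, 50]], [[7],
  [15, 21, 38, 50]], [[4, 15], [36, 38, 50]], [[15, 36], [34, 38, 50]], [[4, 38], [26, 36, 50]],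
  [[4], [5, 26, 36, 50]], [[36, 38], [26, 34, 50]], [[26, 38], [33, 34, 50]], [[26, 33],
  [34, 41, 50]], [[5, 16, 26], [36, 41]], [[16, 26], [34, 36, 41]], [[5, 26], [36, 41, 50]], [[26],
  [34, 36, 41, 50]], [[5, 16, 36], [41, 44]], [[16, 36], [34, 41, 44]], [[5, 36], [41, 44, 50]],
  [[36], [34, 41, 44, 50]], [[5, 16], [25, 41, 44]], [[5], [25, 41, 44, 50]], [[16, 25],
  [30, 41, 44]], [[16], [30, 34, 41, 44]], [[15, 17, 21], [30, 50]], [[17, 21], [30, 44, 50]],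
  [[15, 17], [30, 34, 50]], [[17], [30, 34, 44, 50]], [[15, 34], [30, 38, 50]], [[15],
  [21, 30, 38, 50]], [[21, 44], [25, 30, 50]], [[25, 44], [30, 41, 50]], [[44], [30, 34, 41, 50]],
  [[21, 25], [30, 33, 50]], [[21], [30, 33, 38, 50]], [[25], [30, 33, 41, 50]], [[38],
  [30, 33, 34, 50]]]
def E43 : List ℕ := [30, 33, 34, 41, 50]
def L44 : List (List (List ℕ)) :=
  [[[33, 51], [2, 7, 30]], [[24, 47], [5, 21, 36]], [[8, 16], [11, 36, 43]], [[11, 16],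
  [36, 39, 43]], [[1, 4], [20, 30, 51]], [[1, 2, 30], [35, 51]], [[1, 2], [9, 35, 51]], [[1, 9],
  [20, 35, 51]], [[1], [20, 30, 35, 51]], [[2, 7, 33], [30, 39]], [[2, 33], [30, 34, 39]], [[2, 34],
  [30, 35, 39]], [[33, 34], [30, 39, 45]], [[33], [7, 30, 39, 45]], [[7, 45], [11, 30, 39]],
  [[30, 45], [11, 34, 39]], [[2, 41, 51], [7, 32]], [[7, 32], [2, 41, 51]], [[2, 40, 41], [7, 32]],
  [[40, 41], [3, 7, 32]], [[2, 41], [7, 32, 51]], [[41], [3, 7, 32, 51]], [[8, 11, 31], [21, 43]],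
  [[8, 31], [21, 24, 43]], [[24, 31], [4, 21, 43]], [[8, 24], [21, 36, 43]], [[8],
  [11, 21, 36, 43]], [[24, 36], [5, 21, 43]], [[24], [4, 5, 21, 43]], [[6, 23, 31], [21, 34]],
  [[21, 34], [6, 23, 31]], [[5, 16, 29], [17, 43]], [[5, 29], [17, 43, 48]], [[5, 16],
  [17, 36, 43]], [[16, 17, 29], [9, 43]], [[16, 29], [9, 28, 43]], [[28, 29], [9, 43, 48]], [[29],
  [9, 17, 43, 48]], [[16, 28], [9, 40, 43]], [[16, 40], [9, 39, 43]], [[3, 28, 43], [40, 48]],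
  [[40, 48], [3, 28, 43]], [[3, 28, 40], [32, 43]], [[28, 40], [9, 32, 43]], [[3, 28],
  [32, 43, 48]], [[28], [9, 32, 43, 48]], [[3, 40], [7, 32, 43]], [[2, 39, 40], [7, 9]], [[2, 40],
  [7, 9, 32]], [[32, 40], [7, 9, 43]], [[40], [7, 9, 39, 43]], [[2, 32], [7, 9, 51]], [[2, 7, 39],
  [9, 30]], [[2, 7], [9, 30, 51]], [[2, 39], [9, 30, 35]], [[2], [9, 30, 35, 51]], [[35, 51],
  [9, 20, 30]], [[3, 7, 50], [43, 51]], [[3, 7], [32, 43, 51]], [[7, 32], [9, 43, 51]], [[3, 32],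
  [43, 48, 51]], [[3], [43, 48, 50, 51]], [[32], [9, 43, 48, 51]], [[48, 50], [4, 43, 51]],
  [[9, 16, 35], [17, 39]], [[9, 16], [17, 39, 43]], [[16, 43], [17, 36, 39]], [[16],
  [17, 35, 36, 39]], [[35, 36], [17, 18, 39]], [[4, 31, 50], [30, 43]], [[4, 50], [30, 43, 51]],
  [[31, 50], [11, 30, 43]], [[11, 50], [7, 30, 43]], [[50], [7, 30, 43, 51]], [[7, 11],
  [30, 39, 43]], [[7, 39], [9, 30, 43]], [[7], [9, 30, 43, 51]], [[4, 20, 51], [30, 48]], [[30, 48],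
  [4, 20, 51]], [[4, 48, 51], [20, 43]], [[4, 51], [20, 30, 43]], [[48, 51], [9, 20, 43]], [[51],
  [9, 20, 30, 43]], [[9, 48], [17, 20, 43]], [[9, 20, 35], [17, 30]], [[9, 20], [17, 30, 43]],
  [[9, 43], [17, 30, 39]], [[9], [17, 30, 35, 39]], [[20, 35], [14, 17, 30]], [[6, 23, 31],
  [21, 34]], [[6, 31], [11, 21, 34]], [[6, 23], [21, 34, 49]], [[6, 11], [21, 34, 45]], [[6],
  [21, 34, 45, 49]], [[4, 23, 31], [21, 30]], [[21, 30], [4, 23, 31]], [[14, 30, 35], [17, 34]],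
  [[30, 35], [17, 34, 39]], [[14, 35], [17, 22, 34]], [[22, 35], [17, 18, 34]], [[35],
  [17, 18, 34, 39]], [[11, 21, 31], [34, 43]], [[11, 31], [30, 34, 43]], [[11, 30], [34, 39, 43]],
  [[30, 39], [17, 34, 43]], [[4, 31, 43], [21, 30]], [[4, 31], [21, 23, 30]], [[31, 43],
  [21, 30, 34]], [[31], [21, 23, 30, 34]], [[11, 21, 34], [43, 45]], [[11, 34], [39, 43, 45]],
  [[11, 39], [36, 43, 45]], [[11], [21, 36, 43, 45]], [[17, 18, 39], [34, 36]], [[17, 39],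
  [34, 36, 43]], [[39, 43], [34, 36, 45]], [[39], [18, 34, 36, 45]], [[43, 45], [21, 34, 36]],
  [[18, 34, 45], [36, 49]], [[36, 49], [18, 34, 45]], [[18, 34, 45], [36, 49]], [[18, 45],
  [36, 47, 49]], [[45, 47], [21, 36, 49]], [[45], [21, 34, 36, 49]], [[18, 36, 49], [34, 47]],
  [[18, 36], [17, 34, 47]], [[36, 49], [21, 34, 47]], [[17, 18], [22, 34, 47]], [[18],
  [22, 34, 47, 49]], [[5, 21, 36], [43, 47]], [[21, 36], [34, 43, 47]], [[34, 36], [17, 43, 47]],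
  [[36], [5, 17, 43, 47]], [[22, 34, 49], [23, 47]], [[34, 49], [21, 23, 47]], [[21, 49],
  [23, 46, 47]], [[49], [22, 23, 46, 47]], [[14, 17, 22], [34, 37]], [[34, 37], [14, 17, 22]],
  [[14, 22, 34], [17, 23]], [[22, 34], [17, 23, 47]], [[14, 34], [17, 23, 30]], [[22, 47],
  [17, 23, 46]], [[22, 46], [17, 23, 37]], [[22], [14, 17, 23, 37]], [[14, 17, 20], [30, 37]],
  [[14, 20], [26, 30, 37]], [[14, 26], [23, 30, 37]], [[14], [17, 23, 30, 37]], [[17, 34, 47],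
  [23, 43]], [[17, 34], [23, 30, 43]], [[34, 47], [21, 23, 43]], [[34], [21, 23, 30, 43]],
  [[21, 30], [4, 23, 43]], [[5, 21, 47], [43, 46]], [[21, 47], [23, 43, 46]], [[5, 47],
  [17, 43, 46]], [[47], [17, 23, 43, 46]], [[5, 17], [43, 46, 48]], [[4, 5, 21], [13, 43]],
  [[13, 43], [4, 5, 21]], [[4, 5, 13], [21, 48]], [[5, 13], [21, 46, 48]], [[4, 5], [21, 43, 48]],
  [[5], [21, 43, 46, 48]], [[4, 21, 23], [13, 43]], [[4, 21], [13, 43, 48]], [[21, 48],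
  [13, 43, 46]], [[21], [13, 23, 43, 46]], [[13, 46, 48], [37, 43]], [[37, 43], [13, 46, 48]],
  [[13, 37, 46], [23, 48]], [[23, 48], [13, 37, 46]], [[13, 46, 48], [37, 43]], [[37, 43],
  [13, 46, 48]], [[13, 46, 48], [37, 43]], [[46, 48], [17, 37, 43]], [[17, 46], [23, 37, 43]],
  [[46], [13, 23, 37, 43]], [[17, 23], [30, 37, 43]], [[17, 30], [20, 37, 43]], [[17],
  [20, 37, 43, 48]], [[4, 13, 23], [26, 43]], [[4, 13], [26, 43, 48]], [[4, 48], [20, 26, 43]],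
  [[20, 48], [26, 37, 43]], [[48], [13, 26, 37, 43]], [[13], [23, 26, 37, 43]], [[4, 23],
  [26, 30, 43]], [[4], [20, 26, 30, 43]], [[20], [26, 30, 37, 43]]]
def E44 : List ℕ := [23, 26, 30, 37, 43]
def L45 : List (List (List ℕ)) :=
  [[[35, 47], [8, 9, 25]], [[35], [2, 8, 9, 25]], [[2, 25], [8, 9, 32]], [[8, 18], [25, 37, 47]],
  [[18, 25], [36, 37, 47]], [[25, 32], [8, 9, 26]], [[29, 42], [0, 13, 31]], [[2, 29],
  [31, 32, 51]], [[13, 29], [0, 31, 51]], [[29], [0, 31, 32, 51]], [[2, 28], [1, 31, 51]], [[2, 8],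
  [9, 31, 32]], [[2, 32], [9, 31, 51]], [[2], [1, 9, 31, 51]], [[8, 31], [9, 32, 46]], [[28, 41],
  [1, 13, 31]], [[28], [1, 13, 31, 51]], [[8, 32], [9, 26, 46]], [[1, 41], [12, 13, 31]], [[8, 46],
  [9, 19, 26]], [[1, 12], [9, 13, 31]], [[1], [9, 13, 31, 51]], [[31, 41], [12, 13, 42]], [[8, 19],
  [9, 26, 37]], [[8, 26], [9, 25, 37]], [[8], [9, 25, 37, 47]], [[26, 32], [0, 9, 46]], [[32, 51],
  [0, 9, 31]], [[32], [0, 9, 31, 46]], [[51], [0, 9, 13, 31]], [[31, 46], [0, 9, 12]], [[25, 47],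
  [9, 36, 37]], [[25], [9, 26, 36, 37]], [[9, 47], [21, 36, 37]], [[31, 42], [0, 12, 13]], [[31],
  [0, 9, 12, 13]], [[0, 22, 46], [12, 26]], [[12, 26], [0, 22, 46]], [[0, 9, 46], [12, 26]],
  [[0, 46], [12, 22, 26]], [[9, 46], [12, 19, 26]], [[46], [12, 19, 22, 26]], [[14, 26, 37],
  [15, 36]], [[14, 37], [15, 18, 36]], [[14, 18], [15, 36, 39]], [[14], [15, 26, 36, 39]],
  [[21, 36, 47], [37, 44]], [[21, 47], [37, 44, 49]], [[36, 47], [18, 37, 44]], [[47],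
  [18, 37, 44, 49]], [[18, 34, 44], [39, 49]], [[18, 34], [15, 39, 49]], [[15, 18, 37], [36, 49]],
  [[15, 18], [36, 39, 49]], [[18, 39], [36, 44, 49]], [[18], [36, 37, 44, 49]], [[37, 44],
  [21, 36, 49]], [[9, 19, 37], [21, 26]], [[9, 37], [21, 26, 36]], [[9, 36], [5, 21, 26]], [[9, 19],
  [12, 21, 26]], [[5, 9, 13], [0, 21]], [[5, 13], [0, 4, 21]], [[5, 9], [0, 21, 26]], [[9, 13],
  [0, 12, 21]], [[9], [0, 12, 21, 26]], [[0, 5, 26], [21, 43]], [[5, 26], [21, 36, 43]], [[5, 36],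
  [4, 21, 43]], [[5], [0, 4, 21, 43]], [[4, 36], [11, 21, 43]], [[4, 13, 42], [0, 41]], [[13, 42],
  [0, 12, 41]], [[12, 13], [0, 21, 41]], [[13], [0, 4, 21, 41]], [[15, 19, 37], [26, 49]],
  [[19, 37], [21, 26, 49]], [[15, 37], [26, 36, 49]], [[37], [21, 26, 36, 49]], [[15, 36],
  [26, 39, 49]], [[0, 4, 42], [7, 41]], [[4, 42], [7, 30, 41]], [[4, 30], [7, 11, 41]], [[0, 42],
  [7, 12, 41]], [[12, 42], [7, 33, 41]], [[42], [7, 30, 33, 41]], [[0, 4, 41], [7, 21]], [[0, 41],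
  [7, 12, 21]], [[0, 4], [7, 21, 43]], [[4, 41], [7, 11, 21]], [[4], [7, 11, 21, 43]], [[0, 7, 12],
  [21, 22]], [[0, 7], [21, 22, 43]], [[0, 43], [21, 22, 26]], [[0], [12, 21, 22, 26]], [[12, 26],
  [19, 21, 22]], [[12, 19], [6, 21, 22]], [[6, 12, 33], [22, 41]], [[6, 12], [21, 22, 41]],
  [[12, 33], [7, 22, 41]], [[12], [7, 21, 22, 41]], [[6, 19, 49], [15, 21]], [[15, 21],
  [6, 19, 49]], [[7, 11, 30], [41, 44]], [[7, 30], [33, 41, 44]], [[30, 33], [34, 41, 44]], [[30],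
  [11, 34, 41, 44]], [[11, 34], [6, 41, 44]], [[6, 11], [21, 41, 44]], [[11, 41], [7, 21, 44]],
  [[34, 41], [6, 33, 44]], [[6, 19, 21], [22, 49]], [[19, 21], [22, 26, 49]], [[19, 26],
  [15, 22, 49]], [[19], [6, 15, 22, 49]], [[15, 26], [22, 39, 49]], [[6, 15, 33], [22, 34]],
  [[15, 33], [22, 34, 39]], [[6, 15], [22, 34, 49]], [[15], [22, 34, 39, 49]], [[6, 22, 34],
  [33, 49]], [[22, 34], [33, 39, 49]], [[6, 34], [33, 44, 49]], [[34], [33, 39, 44, 49]],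
  [[6, 21, 44], [41, 49]], [[6, 44], [33, 41, 49]], [[6, 33], [22, 41, 49]], [[6],
  [21, 22, 41, 49]], [[7, 11, 39], [43, 44]], [[11, 39], [36, 43, 44]], [[11, 36], [21, 43, 44]],
  [[11], [7, 21, 43, 44]], [[7, 22, 41], [21, 33]], [[7, 41], [21, 33, 44]], [[22, 41],
  [21, 33, 49]], [[41], [21, 33, 44, 49]], [[7, 21, 44], [33, 43]], [[33, 43], [7, 21, 44]],
  [[7, 21, 43], [22, 44]], [[22, 44], [7, 21, 43]], [[7, 22, 33], [21, 39]], [[7, 22],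
  [21, 39, 43]], [[22, 33], [21, 39, 49]], [[22, 49], [21, 26, 39]], [[22], [21, 26, 39, 43]],
  [[33, 49], [21, 39, 44]], [[33], [7, 21, 39, 44]], [[7], [21, 39, 43, 44]], [[26, 49],
  [21, 36, 39]], [[26], [21, 36, 39, 43]], [[43], [21, 36, 39, 44]]]
def E45 : List ℕ := [21, 36, 39, 44, 49]
def L46 : List (List (List ℕ)) :=
  [[[6, 42], [26, 28, 38]], [[30, 49], [11, 22, 50]], [[8, 19], [9, 26, 45]], [[12, 31],
  [0, 9, 45]], [[6, 38], [18, 26, 28]], [[6, 8], [9, 26, 32]], [[8, 31], [9, 32, 45]], [[8],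
  [9, 26, 32, 45]], [[31], [0, 9, 32, 45]], [[32, 45], [0, 9, 26]], [[0, 32], [9, 26, 28]], [[32],
  [6, 9, 26, 28]], [[6], [9, 18, 26, 28]], [[28, 42], [26, 38, 47]], [[9, 28], [0, 18, 26]],
  [[0, 28], [18, 26, 41]], [[28, 47], [26, 38, 41]], [[28], [18, 26, 38, 41]], [[0, 9, 18],
  [12, 26]], [[9, 18], [12, 19, 26]], [[0, 9], [12, 26, 45]], [[9], [12, 19, 26, 45]], [[0, 45],
  [12, 22, 26]], [[45], [12, 19, 22, 26]], [[5, 13, 48], [39, 44]], [[13, 48], [37, 39, 44]],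
  [[37, 48], [17, 39, 44]], [[48], [5, 17, 39, 44]], [[5, 17], [39, 44, 47]], [[5, 13],
  [21, 39, 44]], [[5], [21, 39, 44, 47]], [[13, 15, 33], [10, 39]], [[15, 33], [10, 34, 39]],
  [[13, 33], [10, 37, 39]], [[33], [10, 34, 37, 39]], [[0, 39, 41], [17, 18]], [[0, 41],
  [17, 18, 26]], [[17, 26, 41], [18, 47]], [[17, 41], [18, 39, 47]], [[39, 41], [18, 38, 47]],
  [[41], [18, 26, 38, 47]], [[11, 19, 42], [22, 38]], [[19, 42], [22, 26, 38]], [[11, 42],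
  [22, 38, 49]], [[26, 42], [22, 38, 47]], [[42], [22, 38, 47, 49]], [[0, 17, 26], [18, 22]],
  [[17, 26], [18, 22, 47]], [[0, 26], [12, 18, 22]], [[26, 47], [18, 22, 38]], [[26, 38],
  [18, 19, 22]], [[26], [12, 18, 19, 22]], [[0, 18, 39], [17, 34]], [[0, 39], [17, 34, 37]],
  [[0, 12, 37], [22, 34]], [[12, 37], [10, 22, 34]], [[0, 37], [17, 22, 34]], [[0, 17],
  [18, 22, 34]], [[0], [12, 18, 22, 34]], [[10, 12, 34], [4, 22]], [[12, 34], [4, 18, 22]],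
  [[10, 12], [4, 22, 30]], [[12, 30], [4, 19, 22]], [[12], [4, 18, 19, 22]], [[18, 19],
  [4, 22, 38]], [[19, 38], [4, 11, 22]], [[19], [4, 11, 22, 30]], [[7, 30, 50], [10, 11]],
  [[10, 11], [7, 30, 50]], [[4, 11, 30], [7, 22]], [[4, 30], [7, 10, 22]], [[10, 30], [7, 22, 50]],
  [[30], [7, 11, 22, 50]], [[10, 50], [7, 22, 23]], [[4, 11, 22], [7, 38]], [[4, 11], [7, 38, 43]],
  [[4, 43], [7, 15, 38]], [[15, 43], [7, 21, 38]], [[7, 11, 43], [38, 50]], [[11, 43],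
  [38, 49, 50]], [[11, 49], [22, 38, 50]], [[11], [7, 22, 38, 50]], [[7, 43], [21, 38, 50]], [[43],
  [21, 38, 49, 50]], [[7, 22, 50], [23, 38]], [[23, 38], [7, 22, 50]], [[7, 23, 50], [21, 22]],
  [[21, 22], [7, 23, 50]], [[7, 23, 50], [21, 22]], [[23, 50], [21, 22, 49]], [[49, 50],
  [21, 22, 38]], [[50], [7, 21, 22, 38]], [[38, 49], [21, 22, 47]], [[47, 49], [21, 22, 44]], [[49],
  [21, 22, 23, 44]], [[4, 7, 38], [15, 22]], [[7, 38], [15, 21, 22]], [[4, 7], [10, 15, 22]],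
  [[4, 38], [15, 18, 22]], [[4, 18], [15, 22, 34]], [[4], [10, 15, 22, 34]], [[7, 10, 15],
  [13, 22]], [[7, 10], [13, 22, 23]], [[7, 23], [13, 21, 22]], [[7], [13, 15, 21, 22]], [[21, 23],
  [13, 22, 44]], [[10, 23], [13, 22, 37]], [[23], [13, 22, 37, 44]], [[10, 13, 15], [22, 39]],
  [[13, 15], [21, 22, 39]], [[10, 15], [22, 34, 39]], [[15, 21], [22, 38, 39]], [[21, 38],
  [22, 39, 47]], [[38, 47], [18, 22, 39]], [[38], [15, 18, 22, 39]], [[15], [18, 22, 34, 39]],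
  [[10, 13], [22, 37, 39]], [[10], [22, 34, 37, 39]], [[21, 47], [22, 39, 44]], [[21],
  [13, 22, 39, 44]], [[13], [22, 37, 39, 44]], [[18, 47], [17, 22, 39]], [[18], [17, 22, 34, 39]],
  [[34], [17, 22, 37, 39]], [[37], [17, 22, 39, 44]]]
def E46 : List ℕ := [17, 22, 39, 44, 47]
def L47 : List (List (List ℕ)) :=
  [[[22, 43], [17, 26, 51]], [[9, 21], [36, 37, 45]], [[13, 29], [0, 40, 42]], [[35, 45],
  [8, 9, 25]], [[10, 32], [17, 33, 36]], [[9, 36], [25, 37, 45]], [[27, 28], [38, 40, 42]],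
  [[28, 41], [26, 38, 46]], [[28, 40], [26, 38, 42]], [[28], [26, 38, 42, 46]], [[26, 40],
  [13, 38, 42]], [[35, 40], [8, 27, 29]], [[29, 35], [8, 25, 27]], [[35], [8, 9, 25, 27]],
  [[43, 51], [10, 17, 26]], [[24, 44], [5, 21, 36]], [[9, 45], [8, 25, 37]], [[9], [8, 25, 27, 37]],
  [[25, 27], [8, 29, 37]], [[8, 40], [27, 29, 42]], [[8, 27], [29, 37, 42]], [[29, 40],
  [0, 27, 42]], [[27, 29], [0, 37, 42]], [[27, 37], [0, 38, 42]], [[27], [0, 38, 40, 42]], [[40],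
  [0, 13, 38, 42]], [[0, 29], [7, 37, 42]], [[8, 45], [18, 25, 37]], [[8, 25], [18, 29, 37]], [[8],
  [18, 29, 37, 42]], [[29, 42], [7, 18, 37]], [[29], [7, 18, 25, 37]], [[25, 45], [18, 36, 37]],
  [[25], [7, 18, 36, 37]], [[0, 13, 42], [4, 38]], [[13, 42], [4, 26, 38]], [[13, 26], [4, 38, 48]],
  [[13], [0, 4, 38, 48]], [[10, 17, 43], [26, 33]], [[26, 33], [10, 17, 43]], [[10, 17, 43],
  [26, 33]], [[17, 43], [26, 33, 41]], [[10, 43], [26, 33, 34]], [[43], [26, 33, 34, 41]],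
  [[18, 37, 45], [36, 49]], [[18, 45], [36, 44, 49]], [[37, 45], [21, 36, 49]], [[45],
  [21, 36, 44, 49]], [[5, 24, 32], [36, 39]], [[5, 32], [17, 36, 39]], [[5, 24], [21, 36, 39]],
  [[21, 24], [30, 36, 39]], [[5, 21, 44], [36, 46]], [[5, 21], [36, 39, 46]], [[21, 44],
  [36, 46, 49]], [[5, 44], [17, 36, 46]], [[5], [17, 36, 39, 46]], [[12, 17, 32], [33, 39]],
  [[12, 32], [24, 33, 39]], [[12, 17], [33, 39, 41]], [[24, 32], [33, 36, 39]], [[32],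
  [17, 33, 36, 39]], [[17, 18, 44], [22, 36]], [[17, 44], [22, 36, 46]], [[18, 44], [22, 36, 49]],
  [[44], [22, 36, 46, 49]], [[17, 18], [22, 36, 51]], [[6, 12, 24], [30, 33]], [[30, 33],
  [6, 12, 24]], [[6, 24, 30], [12, 36]], [[24, 30], [12, 36, 39]], [[24, 39], [12, 33, 36]], [[24],
  [6, 12, 33, 36]], [[6, 12, 30], [14, 36]], [[6, 30], [0, 14, 36]], [[12, 30], [14, 36, 39]],
  [[6, 12, 33], [36, 41]], [[12, 33], [36, 39, 41]], [[6, 12], [14, 36, 41]], [[12],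
  [14, 36, 39, 41]], [[33, 39], [17, 36, 41]], [[17, 39], [36, 41, 46]], [[0, 14, 30], [36, 38]],
  [[14, 30], [36, 38, 39]], [[30, 39], [21, 36, 38]], [[14, 39], [36, 38, 41]], [[21, 39],
  [36, 38, 46]], [[39], [36, 38, 41, 46]], [[21, 30], [36, 37, 38]], [[30], [0, 36, 37, 38]],
  [[21, 46], [36, 38, 49]], [[21], [36, 37, 38, 49]], [[0, 6, 14], [36, 48]], [[36, 48],
  [0, 6, 14]], [[0, 6, 14], [36, 48]], [[6, 14], [36, 41, 48]], [[0, 14], [36, 38, 48]], [[14],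
  [36, 38, 41, 48]], [[0, 37, 42], [7, 38]], [[0, 37], [7, 36, 38]], [[0, 42], [4, 7, 38]],
  [[7, 18, 37], [36, 42]], [[7, 37], [36, 38, 42]], [[7, 18], [36, 42, 51]], [[7, 51],
  [10, 36, 42]], [[37, 38], [36, 42, 49]], [[37], [18, 36, 42, 49]], [[38, 49], [36, 42, 46]],
  [[18, 49], [22, 36, 42]], [[18], [22, 36, 42, 51]], [[49], [22, 36, 42, 46]], [[17, 22, 46],
  [26, 36]], [[17, 22], [26, 36, 51]], [[17, 46], [26, 36, 41]], [[22, 51], [26, 36, 42]], [[22],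
  [26, 36, 42, 46]], [[42, 51], [10, 26, 36]], [[51], [10, 17, 26, 36]], [[17, 41], [26, 33, 36]],
  [[17], [10, 26, 33, 36]], [[42, 46], [26, 36, 38]], [[46], [26, 36, 38, 41]], [[38, 41],
  [26, 36, 48]], [[4, 10, 42], [7, 26]], [[4, 42], [7, 26, 38]], [[38, 42], [7, 26, 36]], [[42],
  [7, 10, 26, 36]], [[0, 4, 38], [7, 48]], [[0, 38], [7, 36, 48]], [[36, 38], [7, 26, 48]], [[38],
  [4, 7, 26, 48]], [[0, 4, 6], [15, 48]], [[4, 6], [15, 34, 48]], [[0, 6], [15, 36, 48]], [[0, 4],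
  [7, 15, 48]], [[0], [7, 15, 36, 48]], [[4, 26, 34], [10, 48]], [[4, 26], [7, 10, 48]], [[4, 7],
  [10, 15, 48]], [[4], [10, 15, 34, 48]], [[7, 15], [10, 36, 48]], [[7], [10, 26, 36, 48]],
  [[6, 15, 33], [34, 36]], [[34, 36], [6, 15, 33]], [[6, 15, 48], [34, 36]], [[6, 15],
  [33, 34, 36]], [[6, 48], [34, 36, 41]], [[6], [33, 34, 36, 41]], [[41, 48], [26, 34, 36]], [[41],
  [26, 33, 34, 36]], [[26, 33], [10, 34, 36]], [[26], [10, 34, 36, 48]], [[33], [10, 15, 34, 36]]]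
def E47 : List ℕ := [10, 15, 34, 36, 48]
def L48 : List (List (List ℕ)) :=
  [[[23, 25], [11, 28, 29]], [[14, 22], [7, 35, 38]], [[5, 13, 46], [39, 44]], [[5, 46],
  [17, 39, 44]], [[17, 46], [37, 39, 44]], [[46], [13, 37, 39, 44]], [[17, 37], [20, 39, 44]],
  [[16, 30, 34], [27, 41]], [[16, 30], [19, 27, 41]], [[19, 30], [11, 27, 41]], [[30],
  [11, 27, 34, 41]], [[2, 20, 37], [26, 39]], [[2, 37], [26, 33, 39]], [[33, 37], [13, 26, 39]],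
  [[13, 37], [26, 39, 44]], [[37], [20, 26, 39, 44]], [[2, 33], [7, 26, 39]], [[13, 33, 39],
  [22, 26]], [[13, 33], [22, 26, 38]], [[33, 38], [7, 22, 26]], [[33], [7, 22, 26, 39]],
  [[0, 4, 50], [6, 43]], [[6, 43], [0, 4, 50]], [[0, 6, 50], [3, 4]], [[6, 50], [3, 4, 51]],
  [[0, 50], [3, 4, 43]], [[43, 50], [3, 4, 44]], [[50], [3, 4, 44, 51]], [[6, 51], [3, 4, 34]],
  [[6, 11, 21], [35, 41]], [[6, 21], [14, 35, 41]], [[11, 21], [35, 40, 41]], [[21, 40],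
  [7, 35, 41]], [[21], [7, 14, 35, 41]], [[7, 14], [35, 38, 41]], [[0, 6, 14], [35, 47]], [[0, 14],
  [35, 38, 47]], [[0, 38], [13, 35, 47]], [[14, 38], [35, 41, 47]], [[14], [6, 35, 41, 47]],
  [[7, 22, 38], [26, 35]], [[22, 38], [13, 26, 35]], [[7, 38], [26, 35, 41]], [[13, 38],
  [26, 35, 47]], [[38], [26, 35, 41, 47]], [[2, 7, 39], [26, 40]], [[7, 39], [22, 26, 40]], [[2, 7],
  [26, 40, 41]], [[7, 41], [26, 35, 40]], [[7], [22, 26, 35, 40]], [[2, 39], [20, 26, 40]],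
  [[5, 22, 35], [13, 40]], [[13, 40], [5, 22, 35]], [[5, 22, 35], [13, 40]], [[22, 35],
  [13, 26, 40]], [[5, 22], [13, 39, 40]], [[22], [13, 26, 39, 40]], [[2, 19, 24], [16, 40]],
  [[2, 19], [16, 40, 41]], [[2, 24], [16, 20, 40]], [[2, 20], [16, 26, 40]], [[2],
  [16, 26, 40, 41]], [[5, 13, 39], [40, 44]], [[13, 39], [26, 40, 44]], [[5, 39], [17, 40, 44]],
  [[17, 39], [20, 40, 44]], [[39], [20, 26, 40, 44]], [[5, 17], [29, 40, 44]], [[9, 17, 20],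
  [24, 44]], [[24, 44], [9, 17, 20]], [[9, 17, 20], [24, 44]], [[17, 20], [24, 40, 44]], [[9, 17],
  [24, 29, 44]], [[17], [24, 29, 40, 44]], [[0, 5, 13], [4, 35]], [[4, 35], [0, 5, 13]], [[0, 3, 6],
  [4, 11]], [[4, 11], [0, 3, 6]], [[0, 3, 6], [4, 11]], [[4, 11], [0, 3, 6]], [[0, 3, 25],
  [11, 43]], [[11, 43], [0, 3, 25]], [[0, 3, 6], [4, 11]], [[3, 6], [4, 11, 34]], [[0, 6, 47],
  [4, 35]], [[0, 6], [4, 11, 35]], [[0, 47], [4, 13, 35]], [[0, 13], [4, 5, 35]], [[13, 47],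
  [4, 26, 35]], [[4, 6, 11], [34, 35]], [[4, 6], [34, 35, 47]], [[4, 47], [26, 34, 35]], [[26, 47],
  [34, 35, 41]], [[47], [6, 34, 35, 41]], [[6], [11, 34, 35, 41]], [[13, 26, 35], [4, 40]],
  [[13, 26], [4, 40, 44]], [[13, 35], [4, 5, 40]], [[13], [4, 5, 40, 44]], [[26, 44], [4, 20, 40]],
  [[0, 3, 11], [4, 25]], [[4, 25], [0, 3, 11]], [[0, 3, 4], [11, 43]], [[11, 43], [0, 3, 4]],
  [[0, 3, 43], [4, 25]], [[0, 3], [4, 11, 25]], [[0, 11], [4, 25, 35]], [[0, 35], [4, 5, 25]], [[0],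
  [4, 5, 25, 43]], [[3, 4, 43], [25, 44]], [[4, 43], [5, 25, 44]], [[5, 43], [25, 29, 44]],
  [[29, 43], [25, 28, 44]], [[43], [3, 25, 28, 44]], [[4, 5, 35], [25, 40]], [[4, 5], [25, 40, 44]],
  [[5, 35], [25, 29, 40]], [[5], [25, 29, 40, 44]], [[29, 35], [11, 25, 40]], [[25, 35],
  [4, 11, 40]], [[4, 34, 35], [11, 26]], [[11, 26], [4, 34, 35]], [[11, 34, 35], [4, 41]],
  [[11, 35], [4, 40, 41]], [[35, 40], [4, 26, 41]], [[35], [4, 26, 34, 41]], [[4, 26, 40],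
  [20, 41]], [[4, 26], [20, 34, 41]], [[26, 34], [16, 20, 41]], [[26], [16, 20, 40, 41]],
  [[3, 25, 44], [4, 28]], [[3, 25], [4, 11, 28]], [[4, 25, 40], [11, 44]], [[25, 40], [11, 29, 44]],
  [[4, 25], [11, 28, 44]], [[25], [11, 28, 29, 44]], [[4, 28], [3, 11, 44]], [[3, 28],
  [11, 32, 44]], [[11, 28, 32], [23, 44]], [[28, 32], [9, 23, 44]], [[9, 28], [23, 29, 44]], [[28],
  [11, 23, 29, 44]], [[9, 29], [23, 24, 44]], [[24, 29], [23, 40, 44]], [[29], [11, 23, 40, 44]],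
  [[3, 4, 34], [11, 51]], [[3, 34], [11, 27, 51]], [[3, 27], [11, 32, 51]], [[3, 4], [11, 44, 51]],
  [[3], [11, 32, 44, 51]], [[4, 11, 34], [41, 51]], [[11, 34], [27, 41, 51]], [[27, 34],
  [16, 41, 51]], [[4, 34], [20, 41, 51]], [[34], [16, 20, 41, 51]], [[4, 11, 41], [40, 51]],
  [[40, 51], [4, 11, 41]], [[4, 20, 40], [41, 44]], [[4, 20], [41, 44, 51]], [[4, 40],
  [11, 41, 44]], [[4], [11, 41, 44, 51]], [[9, 15, 23], [24, 32]], [[9, 23], [24, 32, 44]],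
  [[9, 15], [24, 31, 32]], [[9, 20, 24], [31, 44]], [[31, 44], [9, 20, 24]], [[9, 31, 51],
  [20, 32]], [[20, 32], [9, 31, 51]], [[9, 20, 31], [24, 51]], [[9, 31], [24, 32, 51]], [[20, 31],
  [16, 24, 51]], [[9, 32], [24, 44, 51]], [[9], [20, 24, 44, 51]], [[15, 16, 31], [24, 27]],
  [[15, 16], [19, 24, 27]], [[15, 31], [24, 27, 32]], [[16, 31], [24, 27, 51]], [[31],
  [24, 27, 32, 51]], [[11, 15, 27], [19, 32]], [[19, 32], [11, 15, 27]], [[11, 15, 19], [23, 27]],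
  [[11, 15], [23, 27, 32]], [[15, 32], [23, 24, 27]], [[15], [19, 23, 24, 27]], [[11, 23, 32],
  [27, 44]], [[27, 44], [11, 23, 32]], [[11, 32, 51], [27, 44]], [[11, 51], [27, 41, 44]],
  [[11, 32], [23, 27, 44]], [[23, 32], [24, 27, 44]], [[32], [24, 27, 44, 51]], [[11, 19, 23],
  [27, 40]], [[11, 23], [27, 40, 44]], [[11, 19], [27, 40, 41]], [[11], [27, 40, 41, 44]],
  [[19, 41], [16, 27, 40]], [[23, 44], [24, 27, 40]], [[23], [19, 24, 27, 40]], [[19],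
  [16, 24, 27, 40]], [[20, 24, 40], [16, 44]], [[20, 24], [16, 44, 51]], [[24, 51], [16, 27, 44]],
  [[24], [16, 27, 40, 44]], [[20, 51], [16, 41, 44]], [[20], [16, 40, 41, 44]], [[40],
  [16, 27, 41, 44]]]
def E48 : List ℕ := [16, 27, 41, 44, 51]
def L49 : List (List (List ℕ)) :=
  [[[30, 46], [11, 22, 50]], [[20, 43], [19, 21, 50]], [[3, 4, 35], [16, 27]], [[4, 35],
  [9, 16, 27]], [[3, 35], [16, 17, 27]], [[35], [9, 16, 17, 27]], [[11, 17, 30], [27, 50]],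
  [[11, 30], [22, 27, 50]], [[17, 30], [9, 27, 50]], [[30], [9, 22, 27, 50]], [[19, 20, 21],
  [6, 50]], [[19, 20], [6, 29, 50]], [[20, 29], [6, 23, 50]], [[20], [6, 21, 23, 50]], [[23, 29],
  [6, 9, 50]], [[6, 19, 29], [16, 50]], [[19, 29], [2, 16, 50]], [[2, 29], [16, 17, 50]], [[6, 29],
  [9, 16, 50]], [[29], [9, 16, 17, 50]], [[9, 17], [16, 27, 50]], [[2, 3, 17], [11, 16]], [[2, 3],
  [11, 16, 24]], [[3, 17], [11, 16, 27]], [[2, 17], [11, 16, 50]], [[17], [11, 16, 27, 50]],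
  [[3, 4, 16], [24, 27]], [[3, 16], [11, 24, 27]], [[3, 11], [24, 27, 32]], [[3], [4, 24, 27, 32]],
  [[2, 10, 24], [11, 19]], [[2, 24], [11, 16, 19]], [[2, 16], [11, 19, 50]], [[2, 10],
  [11, 19, 43]], [[2], [11, 19, 43, 50]], [[10, 11, 12], [24, 43]], [[10, 12], [24, 37, 43]],
  [[10, 37], [19, 24, 43]], [[10], [11, 19, 24, 43]], [[11, 12, 24], [42, 43]], [[42, 43],
  [11, 12, 24]], [[11, 12, 24], [42, 43]], [[11, 12], [38, 42, 43]], [[11, 38], [42, 43, 46]],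
  [[12, 24], [37, 42, 43]], [[12], [37, 38, 42, 43]], [[21, 37, 38], [43, 47]], [[21, 38],
  [43, 46, 47]], [[38, 46], [42, 43, 47]], [[38], [37, 42, 43, 47]], [[4, 24, 32], [18, 27]],
  [[4, 32], [18, 22, 27]], [[11, 27, 32], [22, 24]], [[11, 32], [22, 24, 42]], [[27, 32],
  [18, 22, 24]], [[32], [18, 22, 24, 42]], [[18, 27], [4, 22, 24]], [[9, 22, 27], [4, 50]],
  [[4, 50], [9, 22, 27]], [[4, 9, 27], [16, 22]], [[9, 27], [16, 22, 50]], [[4, 27], [16, 22, 24]],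
  [[24, 27], [11, 16, 22]], [[27], [11, 16, 22, 50]], [[4, 9, 16], [6, 22]], [[9, 16], [6, 22, 50]],
  [[9, 50], [6, 22, 23]], [[4, 9], [6, 22, 34]], [[9], [6, 22, 23, 34]], [[23, 34], [6, 22, 44]],
  [[6, 21, 23], [44, 50]], [[6, 23], [22, 44, 50]], [[22, 23], [44, 46, 50]], [[23],
  [21, 44, 46, 50]], [[4, 6, 15], [16, 34]], [[16, 34], [4, 6, 15]], [[4, 6, 22], [16, 34]],
  [[16, 34], [4, 6, 22]], [[4, 6, 22], [16, 34]], [[16, 34], [4, 6, 22]], [[4, 6, 15], [16, 34]],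
  [[16, 34], [4, 6, 15]], [[4, 6, 16], [15, 22]], [[4, 6], [15, 22, 34]], [[4, 34], [15, 18, 22]],
  [[4, 18], [15, 22, 24]], [[4], [15, 16, 22, 24]], [[6, 22, 34], [15, 44]], [[6, 34],
  [15, 44, 45]], [[22, 34], [15, 18, 44]], [[34], [15, 18, 44, 45]], [[11, 16, 24], [19, 22]],
  [[16, 24], [15, 19, 22]], [[15, 16], [6, 19, 22]], [[11, 16], [19, 22, 50]], [[16],
  [6, 19, 22, 50]], [[6, 15, 44], [22, 45]], [[15, 44], [18, 22, 45]], [[18, 44], [22, 45, 47]],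
  [[6, 15], [19, 22, 45]], [[6, 19, 45], [21, 22]], [[6, 45], [21, 22, 44]], [[44, 45],
  [21, 22, 47]], [[44, 47], [21, 22, 46]], [[44, 46], [21, 22, 50]], [[44], [6, 21, 22, 50]], [[6],
  [19, 21, 22, 50]], [[11, 46, 50], [22, 43]], [[11, 46], [22, 42, 43]], [[46, 50], [21, 22, 43]],
  [[11, 42], [22, 24, 43]], [[42, 46], [22, 43, 47]], [[46], [21, 22, 43, 47]], [[21, 50],
  [19, 22, 43]], [[50], [11, 19, 22, 43]], [[11], [19, 22, 24, 43]], [[15, 18, 37], [24, 45]],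
  [[24, 45], [15, 18, 37]], [[15, 18, 45], [22, 37]], [[22, 37], [15, 18, 45]], [[15, 19, 22],
  [24, 45]], [[15, 22], [18, 24, 45]], [[15, 19], [24, 37, 45]], [[15], [18, 24, 37, 45]],
  [[18, 22, 45], [24, 47]], [[18, 22], [24, 42, 47]], [[22, 42], [24, 43, 47]], [[18, 45],
  [24, 37, 47]], [[18], [24, 37, 42, 47]], [[42], [24, 37, 43, 47]], [[19, 21, 22], [43, 45]],
  [[21, 22], [43, 45, 47]], [[21, 47], [37, 43, 45]], [[21], [19, 37, 43, 45]], [[22, 47],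
  [24, 43, 45]], [[22], [19, 24, 43, 45]], [[19], [24, 37, 43, 45]]]
def E49 : List ℕ := [24, 37, 43, 45, 47]
def L50 : List (List (List ℕ)) :=
  [[[6, 42], [16, 27, 40]], [[16, 42], [27, 31, 40]], [[31, 42], [27, 29, 40]], [[42],
  [8, 27, 29, 40]], [[2, 19, 49], [29, 43]], [[19, 49], [20, 29, 43]], [[19, 20], [29, 32, 43]],
  [[19], [2, 29, 32, 43]], [[2, 32], [29, 31, 43]], [[2, 11, 43], [31, 49]], [[2, 43],
  [29, 31, 49]], [[2, 11], [17, 31, 49]], [[2], [17, 29, 31, 49]], [[11, 17], [30, 31, 49]],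
  [[4, 17, 39], [25, 31]], [[4, 39], [16, 25, 31]], [[17, 39], [25, 31, 40]], [[39],
  [16, 25, 31, 40]], [[4, 17], [25, 30, 31]], [[8, 23, 29], [20, 40]], [[8, 29], [20, 27, 40]],
  [[8, 27], [20, 36, 40]], [[8], [20, 23, 36, 40]], [[15, 27, 32], [20, 31]], [[15, 32],
  [20, 31, 43]], [[27, 32], [20, 29, 31]], [[32], [20, 29, 31, 43]], [[29, 43], [20, 31, 49]],
  [[27, 29], [20, 31, 40]], [[0, 3, 48], [6, 43]], [[0, 48], [4, 6, 43]], [[0, 4], [6, 15, 43]],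
  [[0, 6, 15], [36, 43]], [[0, 6], [3, 36, 43]], [[0, 15], [20, 36, 43]], [[0], [3, 20, 36, 43]],
  [[3, 6, 48], [43, 51]], [[3, 48], [43, 44, 51]], [[3, 44], [7, 43, 51]], [[44, 48], [4, 43, 51]],
  [[48], [4, 6, 43, 51]], [[3, 6], [36, 43, 51]], [[3, 51], [7, 36, 43]], [[3, 21, 23], [7, 20]],
  [[3, 23], [7, 20, 36]], [[3, 21], [7, 20, 43]], [[3], [7, 20, 36, 43]], [[7, 21, 46], [23, 43]],
  [[21, 46], [23, 43, 49]], [[21, 49], [20, 23, 43]], [[21], [7, 20, 23, 43]], [[7, 20],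
  [23, 36, 43]], [[4, 6, 16], [15, 25]], [[4, 16], [15, 25, 31]], [[15, 16, 31], [25, 27]],
  [[25, 27], [15, 16, 31]], [[16, 27, 31], [15, 40]], [[16, 31], [15, 25, 40]], [[27, 31],
  [15, 20, 40]], [[16, 27], [6, 15, 40]], [[16], [6, 15, 25, 40]], [[6, 27], [15, 36, 40]], [[27],
  [15, 20, 36, 40]], [[4, 30, 44], [31, 51]], [[4, 30], [25, 31, 51]], [[4, 44], [31, 43, 51]],
  [[4, 6, 15], [25, 43]], [[4, 6], [25, 43, 51]], [[4, 51], [25, 31, 43]], [[4], [15, 25, 31, 43]],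
  [[7, 11, 44], [30, 43]], [[7, 11], [30, 43, 46]], [[11, 46], [30, 43, 49]], [[11, 49],
  [30, 31, 43]], [[11], [30, 31, 43, 44]], [[31, 44], [30, 43, 51]], [[44], [7, 30, 43, 51]],
  [[31, 51], [25, 30, 43]], [[6, 10, 51], [25, 36]], [[6, 51], [25, 36, 43]], [[6, 10],
  [25, 36, 40]], [[6, 40], [15, 25, 36]], [[6], [15, 25, 36, 43]], [[7, 10, 51], [30, 36]],
  [[7, 51], [30, 36, 43]], [[10, 51], [25, 30, 36]], [[51], [25, 30, 36, 43]], [[7, 10, 36],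
  [23, 30]], [[7, 36], [23, 30, 43]], [[7, 43], [23, 30, 46]], [[7], [10, 23, 30, 46]], [[43, 46],
  [23, 30, 49]], [[10, 46], [22, 23, 30]], [[46], [22, 23, 30, 49]], [[10, 22], [23, 24, 30]],
  [[22, 24], [9, 23, 30]], [[22], [9, 23, 30, 49]], [[9, 17, 24], [29, 30]], [[29, 30],
  [9, 17, 24]], [[9, 23, 24], [29, 30]], [[9, 24], [17, 29, 30]], [[9, 17], [29, 30, 49]], [[9],
  [23, 29, 30, 49]], [[17, 49], [29, 30, 31]], [[10, 23, 24], [30, 40]], [[10, 23], [30, 36, 40]],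
  [[10, 36], [25, 30, 40]], [[10], [24, 25, 30, 40]], [[23, 24], [29, 30, 40]], [[24, 29],
  [17, 30, 40]], [[24], [17, 25, 30, 40]], [[17, 25], [30, 31, 40]], [[17], [29, 30, 31, 40]],
  [[15, 20, 43], [31, 36]], [[15, 43], [25, 31, 36]], [[15, 25], [31, 36, 40]], [[15],
  [20, 31, 36, 40]], [[25, 43], [30, 31, 36]], [[25], [30, 31, 36, 40]], [[20, 23, 40], [29, 36]],
  [[20, 40], [29, 31, 36]], [[31, 40], [29, 30, 36]], [[40], [23, 29, 30, 36]], [[20, 23, 29],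
  [36, 49]], [[20, 23], [36, 43, 49]], [[20, 43], [31, 36, 49]], [[20], [29, 31, 36, 49]],
  [[23, 43], [30, 36, 49]], [[23], [29, 30, 36, 49]], [[29], [30, 31, 36, 49]]]
def E50 : List ℕ := [30, 31, 36, 43, 49]
def L51 : List (List (List ℕ)) :=
  [[[33, 44], [2, 7, 30]], [[25, 42], [21, 30, 33]], [[13, 25], [1, 28, 31]], [[13, 40],
  [0, 29, 31]], [[25, 31], [1, 23, 28]], [[25, 33], [21, 28, 30]], [[13, 29], [0, 31, 45]],
  [[28, 33], [2, 21, 30]], [[13, 28], [1, 31, 45]], [[21, 25], [24, 28, 30]], [[0, 40],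
  [27, 29, 31]], [[21, 24], [28, 30, 39]], [[0, 13], [9, 31, 45]], [[13], [1, 9, 31, 45]],
  [[28, 45], [1, 2, 31]], [[0, 9], [31, 32, 45]], [[0, 27], [29, 31, 32]], [[0], [29, 31, 32, 45]],
  [[1, 45], [2, 9, 31]], [[29, 45], [2, 31, 32]], [[45], [2, 9, 31, 32]], [[2, 30, 33], [7, 21]],
  [[2, 33], [7, 18, 21]], [[18, 33], [7, 21, 42]], [[33], [7, 21, 30, 42]], [[15, 21, 22],
  [39, 42]], [[15, 21], [30, 39, 42]], [[15, 22], [26, 39, 42]], [[15], [26, 30, 39, 42]],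
  [[1, 9, 31], [2, 20]], [[1, 9], [2, 20, 44]], [[9, 20, 31], [2, 48]], [[9, 20], [2, 44, 48]],
  [[9, 44], [2, 32, 48]], [[9], [2, 31, 32, 48]], [[10, 12, 43], [11, 26]], [[11, 26],
  [10, 12, 43]], [[10, 11, 24], [12, 25]], [[10, 24], [12, 25, 30]], [[24, 25, 30], [12, 28]],
  [[24, 25], [11, 12, 28]], [[11, 24], [12, 28, 39]], [[24], [12, 28, 30, 39]], [[2, 29, 32],
  [31, 41]], [[31, 41], [2, 29, 32]], [[2, 32, 41], [29, 44]], [[32, 41], [3, 29, 44]],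
  [[2, 32, 48], [31, 44]], [[31, 44], [2, 32, 48]], [[2, 32, 48], [31, 44]], [[2, 48],
  [20, 31, 44]], [[2, 20], [1, 31, 44]], [[2, 32], [29, 31, 44]], [[3, 29, 32], [27, 44]], [[3, 32],
  [27, 44, 48]], [[32, 48], [27, 31, 44]], [[32], [27, 29, 31, 44]], [[10, 12, 25], [11, 30]],
  [[12, 25], [11, 28, 30]], [[12, 28], [11, 30, 39]], [[11, 12, 39], [30, 43]], [[12, 39],
  [26, 30, 43]], [[12, 26], [10, 30, 43]], [[12], [10, 11, 30, 43]], [[10, 26, 42], [30, 47]],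
  [[10, 26], [30, 43, 47]], [[10, 42], [7, 30, 47]], [[26, 30, 42], [39, 47]], [[26, 42],
  [22, 39, 47]], [[26, 30], [39, 43, 47]], [[26], [22, 39, 43, 47]], [[7, 30, 42], [21, 47]],
  [[7, 42], [18, 21, 47]], [[30, 42], [21, 39, 47]], [[39, 42], [21, 22, 47]], [[42],
  [18, 21, 22, 47]], [[1, 23, 25], [8, 28]], [[23, 25], [8, 11, 28]], [[1, 20, 23], [8, 31]],
  [[1, 23], [8, 28, 31]], [[20, 23], [8, 16, 31]], [[8, 16, 23], [11, 31]], [[11, 31], [8, 16, 23]],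
  [[8, 11, 23], [16, 28]], [[11, 23], [16, 28, 39]], [[8, 23], [16, 28, 31]], [[23],
  [16, 28, 31, 39]], [[1, 20, 44], [4, 31]], [[1, 20], [4, 8, 31]], [[20, 44], [4, 31, 48]],
  [[4, 20, 34], [8, 48]], [[4, 20], [8, 31, 48]], [[20, 34], [8, 16, 48]], [[20], [8, 16, 31, 48]],
  [[4, 34], [6, 8, 48]], [[1, 2, 44], [30, 31]], [[1, 44], [4, 30, 31]], [[1, 2], [28, 30, 31]],
  [[1, 4, 31], [8, 30]], [[1, 4], [8, 25, 30]], [[1, 25], [8, 28, 30]], [[1], [8, 28, 30, 31]],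
  [[25, 28], [8, 11, 30]], [[11, 25], [8, 10, 30]], [[10, 11], [8, 30, 43]], [[4, 8, 25], [6, 30]],
  [[4, 25], [6, 30, 50]], [[8, 25], [6, 10, 30]], [[25], [6, 10, 30, 50]], [[8, 10], [6, 30, 43]],
  [[11, 16, 39], [28, 43]], [[11, 39], [28, 30, 43]], [[11, 16], [8, 28, 43]], [[11],
  [8, 28, 30, 43]], [[4, 6, 8], [30, 48]], [[4, 8], [30, 31, 48]], [[4, 6], [30, 48, 50]], [[4, 50],
  [30, 44, 48]], [[4], [30, 31, 44, 48]], [[3, 17, 34], [6, 27]], [[3, 34], [6, 27, 48]], [[17, 34],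
  [6, 27, 43]], [[6, 27, 34], [43, 48]], [[6, 34], [8, 43, 48]], [[27, 34], [16, 43, 48]], [[34],
  [8, 16, 43, 48]], [[6, 8], [30, 43, 48]], [[8, 16, 28], [31, 43]], [[8, 16], [31, 43, 48]],
  [[16, 48], [27, 31, 43]], [[8, 28], [30, 31, 43]], [[8], [30, 31, 43, 48]], [[16, 27],
  [31, 40, 43]], [[16, 40], [31, 39, 43]], [[16], [28, 31, 39, 43]], [[28, 43], [30, 31, 39]],
  [[2, 5, 28], [21, 31]], [[5, 28], [21, 31, 39]], [[28, 39], [21, 30, 31]], [[28],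
  [2, 21, 30, 31]], [[3, 44, 48], [27, 50]], [[3, 48], [6, 27, 50]], [[27, 31, 48], [43, 44]],
  [[31, 48], [30, 43, 44]], [[6, 30, 48], [43, 50]], [[30, 48], [43, 44, 50]], [[44, 48],
  [27, 43, 50]], [[48], [6, 27, 43, 50]], [[6, 30], [10, 43, 50]], [[3, 6, 17], [27, 36]], [[3, 6],
  [27, 36, 50]], [[3, 17], [27, 35, 36]], [[6, 10, 36], [17, 50]], [[17, 50], [6, 10, 36]],
  [[6, 10, 17], [36, 43]], [[10, 17], [36, 43, 47]], [[6, 10], [36, 43, 50]], [[6, 17],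
  [27, 36, 43]], [[6], [27, 36, 43, 50]], [[17, 27], [35, 36, 43]], [[10, 30, 50], [7, 43]],
  [[10, 50], [7, 36, 43]], [[30, 50], [7, 43, 44]], [[10, 30], [7, 43, 47]], [[10],
  [7, 36, 43, 47]], [[3, 36, 50], [7, 27]], [[36, 50], [7, 27, 43]], [[43, 50], [7, 27, 44]], [[50],
  [3, 7, 27, 44]], [[17, 22, 47], [18, 43]], [[17, 22], [18, 35, 43]], [[17, 47], [18, 36, 43]],
  [[17], [18, 35, 36, 43]], [[36, 47], [7, 18, 43]], [[3, 7, 27], [36, 44]], [[7, 27],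
  [36, 43, 44]], [[3, 7], [36, 41, 44]], [[3, 27, 35], [29, 36]], [[3, 27], [29, 36, 44]], [[3, 44],
  [29, 36, 41]], [[3], [29, 35, 36, 41]], [[7, 43, 47], [18, 30]], [[18, 30], [7, 43, 47]],
  [[18, 22, 47], [21, 43]], [[22, 47], [21, 39, 43]], [[18, 47], [7, 21, 43]], [[7, 47],
  [21, 30, 43]], [[47], [21, 30, 39, 43]], [[30, 39], [21, 31, 43]], [[2, 30, 44], [7, 31]],
  [[30, 44], [7, 31, 43]], [[2, 30], [7, 21, 31]], [[30], [7, 21, 31, 43]], [[5, 21, 39], [22, 31]],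
  [[22, 31], [5, 21, 39]], [[5, 31, 39], [21, 40]], [[21, 40], [5, 31, 39]], [[5, 21, 39],
  [22, 31]], [[21, 39], [22, 31, 43]], [[39, 43], [22, 31, 40]], [[39], [5, 22, 31, 40]],
  [[2, 18, 21], [5, 7]], [[2, 18], [5, 7, 41]], [[2, 21], [5, 7, 31]], [[2, 5, 29], [31, 41]],
  [[31, 41], [2, 5, 29]], [[2, 5, 7], [31, 41]], [[2, 5], [29, 31, 41]], [[2, 29], [31, 41, 44]],
  [[2], [7, 31, 41, 44]], [[5, 21, 31], [7, 22]], [[7, 22], [5, 21, 31]], [[5, 7, 21], [18, 31]],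
  [[18, 31], [5, 7, 21]], [[7, 18, 21], [5, 43]], [[7, 21], [5, 31, 43]], [[21, 31], [5, 22, 43]],
  [[21], [5, 18, 22, 43]], [[22, 31], [5, 40, 43]], [[18, 22], [5, 35, 43]], [[22],
  [5, 35, 40, 43]], [[5, 35, 40], [29, 43]], [[35, 40], [27, 29, 43]], [[27, 40], [29, 31, 43]],
  [[40], [5, 29, 31, 43]], [[27, 35], [29, 36, 43]], [[27, 31], [29, 43, 44]], [[27],
  [29, 36, 43, 44]], [[5, 7, 31], [41, 43]], [[5, 7], [18, 41, 43]], [[5, 18], [35, 41, 43]],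
  [[5, 31], [29, 41, 43]], [[5], [29, 35, 41, 43]], [[7, 31], [41, 43, 44]], [[31],
  [29, 41, 43, 44]], [[7, 18], [36, 41, 43]], [[7], [36, 41, 43, 44]], [[18], [35, 36, 41, 43]],
  [[35], [29, 36, 41, 43]]]
def E51 : List ℕ := [29, 36, 41, 43, 44]
end Pool.Agent.GeoZ5
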