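import Mathlib

/-!
# Combinatorial closed 4-manifolds over the 5-torus

The definitions used in the statement about the Euler characteristic geography of `ℤ⁵`.
Everything is classical combinatorial (PL) topology:

* a finite simplicial complex is given by its finite set of generating simplices (facets);
* a combinatorial `d`-manifold is a pure complex in which the link of each vertex is a PL sphere,
  i.e. can be joined to the boundary of a simplex by stellar subdivisions and their inverses;
* the fundamental group is the edge-path group;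
* the fundamental cycle, cup products and the intersection form are the simplicial ones, for the
  ordering of the vertices as natural numbers.
-/

namespace Pool.Agent.GeoZ5

open Finset

/-- A finite simplicial complex with vertices in `ℕ`, given by a finite set of simplices
generating it (in our use: its facets). -/
abbrev Cplx := Finset (Finset ℕ)

/-- The simplices of the complex: the nonempty subsets of the generating simplices. -/
def faces (Φ : Cplx) : Finset (Finset ℕ) := (Φ.biUnion Finset.powerset).erase ∅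

/-- The link of the vertex `v`. -/
def link (Φ : Cplx) (v : ℕ) : Cplx := (Φ.filter fun σ => v ∈ σ).image fun σ => σ.erase v

/-- The stellar subdivision of `Φ` at the simplex `A`, with new vertex `w`: each generating
simplex `σ ⊇ A` is replaced by the simplices `{w} ∪ (σ \ {a})`, `a ∈ A`. -/
def stellar (Φ : Cplx) (A : Finset ℕ) (w : ℕ) : Cplx :=
  (Φ.filter fun σ => ¬ A ⊆ σ) ∪
    (Φ.filter fun σ => A ⊆ σ).biUnion fun σ => A.image fun a => insert w (σ.erase a)

/-- PL (stellar) equivalence: the equivalence relation generated by stellar subdivisions at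
simplices of the complex, with a vertex that is new to the complex. -/
inductive PLEquiv : Cplx → Cplx → Prop
  | refl (Φ : Cplx) : PLEquiv Φ Φ
  | symm {Φ Ψ : Cplx} : PLEquiv Φ Ψ → PLEquiv Ψ Φ
  | trans {Φ Ψ Θ : Cplx} : PLEquiv Φ Ψ → PLEquiv Ψ Θ → PLEquiv Φ Θ
  | stellar (Φ : Cplx) (A : Finset ℕ) (w : ℕ) :
      A ∈ faces Φ → {w} ∉ faces Φ → PLEquiv Φ (stellar Φ A w)

/-- PL `d`-spheres: complexes PL equivalent to the boundary of a simplex with `d + 2` vertices. -/
def IsPLSphere (d : ℕ) (Φ : Cplx) : Prop :=
  ∃ S : Finset ℕ, S.card = d + 2 ∧ PLEquiv (S.powersetCard (d + 1)) Φ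

/-- Closed combinatorial manifolds of dimension `d + 1`. -/
def IsClosedManifold (d : ℕ) (Φ : Cplx) : Prop :=
  (∀ σ ∈ Φ, σ.card = d + 2) ∧ ∀ v, {v} ∈ faces Φ → IsPLSphere d (link Φ v)

/-- Edge paths: consecutive vertices are equal or span an edge. -/
def IsEdgePath (Φ : Cplx) (l : List ℕ) : Prop :=
  l.IsChain fun u v => ({u, v} : Finset ℕ) ∈ faces Φ

/-- Homotopy of edge paths (rel endpoints), generated by replacing `u, v, w` by `u, w` when
`{u, v, w}` is a (possibly degenerate) simplex, and `u, u` by `u`. -/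
inductive EdgeHomotopic (Φ : Cplx) : List ℕ → List ℕ → Prop
  | refl (l : List ℕ) : EdgeHomotopic Φ l l
  | symm {l m : List ℕ} : EdgeHomotopic Φ l m → EdgeHomotopic Φ m l
  | trans {l m n : List ℕ} : EdgeHomotopic Φ l m → EdgeHomotopic Φ m n → EdgeHomotopic Φ l n
  | triangle (l m : List ℕ) (u v w : ℕ) : ({u, v, w} : Finset ℕ) ∈ faces Φ →
      EdgeHomotopic Φ (l ++ [u, v, w] ++ m) (l ++ [u, w] ++ m)
  | stay (l m : List ℕ) (u : ℕ) : EdgeHomotopic Φ (l ++ [u, u] ++ m) (l ++ [u] ++ m)

/-- Closed edge paths based at `p`. -/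
def EdgeLoop (Φ : Cplx) (p : ℕ) : Type :=
  {l : List ℕ // IsEdgePath Φ l ∧ l.head? = some p ∧ l.getLast? = some p}

namespace EdgeLoop

variable {Φ : Cplx} {p : ℕ}

/-- Concatenation of closed edge paths. -/
def mul (l m : EdgeLoop Φ p) : EdgeLoop Φ p :=
  ⟨l.1 ++ m.1.tail, by
    obtain ⟨l, hl, hl1, hl2⟩ := l
    obtain ⟨m, hm, hm1, hm2⟩ := m
    cases m with
    | nil => simp at hm1
    | cons a m =>
      obtain rfl : a = p := by simpa using hm1
      refine ⟨?_, ?_, ?_⟩
      · refine List.isChain_append.2 ⟨hl, hm.tail, ?_⟩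
        intro x hx y hy
        obtain rfl : x = a := by
          rw [hl2] at hx
          simpa using hx.symm
        cases m with
        | nil => simp at hy
        | cons b m =>
          obtain rfl : b = y := by simpa using hy
          exact (List.isChain_cons_cons.1 hm).1
      · cases l with
        | nil => simp at hl1
        | cons b l => simpa using hl1
      · cases m with
        | nil => simpa using hl2
        | cons b m => simpa [List.getLast?_append, List.getLast?_cons_cons] using hm2⟩

/-- The constant path. -/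
def one : EdgeLoop Φ p := ⟨[p], List.isChain_singleton _, rfl, rfl⟩

/-- The reversed path. -/
def inv (l : EdgeLoop Φ p) : EdgeLoop Φ p :=
  ⟨l.1.reverse, by
    obtain ⟨l, hl, hl1, hl2⟩ := l
    refine ⟨?_, ?_, ?_⟩
    · rw [IsEdgePath, List.isChain_reverse]
      refine List.IsChain.imp ?_ hl
      intro a b hab
      rwa [Finset.pair_comm]
    · simpa using hl2
    · simpa using hl1⟩

end EdgeLoop

theorem EdgeHomotopic.append_left {Φ : Cplx} {l m : List ℕ} (h : EdgeHomotopic Φ l m)
    (k : List ℕ) : EdgeHomotopic Φ (k ++ l) (k ++ m) := by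
  induction h with
  | refl l => exact .refl _
  | symm _ ih => exact .symm ih
  | trans _ _ ih1 ih2 => exact .trans ih1 ih2
  | triangle l m u v w h =>
    have := EdgeHomotopic.triangle (Φ := Φ) (k ++ l) m u v w h
    simpa [List.append_assoc] using this
  | stay l m u =>
    have := EdgeHomotopic.stay (Φ := Φ) (k ++ l) m u
    simpa [List.append_assoc] using this

theorem EdgeHomotopic.append_right {Φ : Cplx} {l m : List ℕ} (h : EdgeHomotopic Φ l m)
    (k : List ℕ) : EdgeHomotopic Φ (l ++ k) (m ++ k) := by
  induction h with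
  | refl l => exact .refl _
  | symm _ ih => exact .symm ih
  | trans _ _ ih1 ih2 => exact .trans ih1 ih2
  | triangle l m u v w h =>
    have := EdgeHomotopic.triangle (Φ := Φ) l (m ++ k) u v w h
    simpa [List.append_assoc] using this
  | stay l m u =>
    have := EdgeHomotopic.stay (Φ := Φ) l (m ++ k) u
    simpa [List.append_assoc] using this

theorem EdgeHomotopic.reverse {Φ : Cplx} {l m : List ℕ} (h : EdgeHomotopic Φ l m) :
    EdgeHomotopic Φ l.reverse m.reverse := by
  induction h with
  | refl l => exact .refl _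
  | symm _ ih => exact .symm ih
  | trans _ _ ih1 ih2 => exact .trans ih1 ih2
  | triangle l m u v w h =>
    have h' : ({w, v, u} : Finset ℕ) ∈ faces Φ := by
      have : ({w, v, u} : Finset ℕ) = {u, v, w} := by
        ext x; simp only [Finset.mem_insert, Finset.mem_singleton]; tauto
      rwa [this]
    have := EdgeHomotopic.triangle (Φ := Φ) m.reverse l.reverse w v u h'
    simpa [List.append_assoc] using this
  | stay l m u =>
    have := EdgeHomotopic.stay (Φ := Φ) m.reverse l.reverse u
    simpa [List.append_assoc] using this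

/-- Backtracking along an edge path is homotopic to a constant path. -/
theorem EdgeHomotopic.backtrack {Φ : Cplx} (a : ℕ) (l : List ℕ) (h : IsEdgePath Φ (a :: l)) :
    EdgeHomotopic Φ ((a :: l).reverse ++ l) [(a :: l).getLast (by simp)] := by
  induction l generalizing a with
  | nil => exact .refl _
  | cons c l ih =>
    have hc := List.isChain_cons_cons.1 h
    have h1 : ({c, a, c} : Finset ℕ) ∈ faces Φ := by
      have : ({c, a, c} : Finset ℕ) = {a, c} := by
        ext x; simp only [Finset.mem_insert, Finset.mem_singleton]; tauto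
      rw [this]; exact hc.1
    have e1 : (a :: c :: l).reverse ++ c :: l = l.reverse ++ [c, a, c] ++ l := by simp
    have e2 : (c :: l).reverse ++ l = l.reverse ++ [c] ++ l := by simp
    rw [e1]
    refine (EdgeHomotopic.triangle l.reverse l c a c h1).trans ?_
    refine (EdgeHomotopic.stay l.reverse l c).trans ?_
    rw [← e2]
    simpa using ih c hc.2

/-- Homotopy of closed edge paths as an equivalence relation. -/
instance edgeSetoid (Φ : Cplx) (p : ℕ) : Setoid (EdgeLoop Φ p) where
  r l m := EdgeHomotopic Φ l.1 m.1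
  iseqv := ⟨fun _ => .refl _, fun h => .symm h, fun h k => .trans h k⟩

/-- The edge-path group: closed edge paths based at `p` up to homotopy. -/
def EdgeGroup (Φ : Cplx) (p : ℕ) : Type := Quotient (edgeSetoid Φ p)

instance (Φ : Cplx) (p : ℕ) : Group (EdgeGroup Φ p) where
  mul := Quotient.map₂ EdgeLoop.mul (by
    rintro ⟨l, hl, hl1, hl2⟩ ⟨l', hl', hl1', hl2'⟩ (h : EdgeHomotopic Φ l l')
      ⟨m, hm, hm1, hm2⟩ ⟨m', hm', hm1', hm2'⟩ (k : EdgeHomotopic Φ m m')
    change EdgeHomotopic Φ (l ++ m.tail) (l' ++ m'.tail)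
    refine (h.append_right m.tail).trans ?_
    obtain ⟨l₀, rfl⟩ : ∃ l₀, l' = l₀ ++ [p] := by
      rcases List.eq_nil_or_concat l' with rfl | ⟨l₀, b, rfl⟩
      · simp at hl1'
      · exact ⟨l₀, by simpa using hl2'⟩
    have e : ∀ n : List ℕ, n.head? = some p → l₀ ++ [p] ++ n.tail = l₀ ++ n := by
      intro n hn
      cases n with
      | nil => simp at hn
      | cons a n => obtain rfl : a = p := by simpa using hn
                    simp
    rw [e m hm1, e m' hm1']
    exact k.append_left l₀)
  one := ⟦EdgeLoop.one⟧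
  inv := Quotient.map EdgeLoop.inv fun _ _ h => EdgeHomotopic.reverse h
  mul_assoc := by
    rintro ⟨a⟩ ⟨b⟩ ⟨c⟩
    refine congrArg _ (Subtype.ext ?_)
    change (a.1 ++ b.1.tail) ++ c.1.tail = a.1 ++ (b.1 ++ c.1.tail).tail
    obtain ⟨b, hb, hb1, hb2⟩ := b
    cases b with
    | nil => simp at hb1
    | cons x b => simp
  one_mul := by
    rintro ⟨a⟩
    refine congrArg _ (Subtype.ext ?_)
    change [p] ++ a.1.tail = a.1
    obtain ⟨a, ha, ha1, ha2⟩ := a
    cases a with
    | nil => simp at ha1
    | cons x a => simpa using (by simpa using ha1.symm : p = x)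
  mul_one := by
    rintro ⟨a⟩
    refine congrArg _ (Subtype.ext ?_)
    change a.1 ++ [p].tail = a.1
    simp
  inv_mul_cancel := by
    rintro ⟨a⟩
    refine Quotient.sound ?_
    change EdgeHomotopic Φ (a.1.reverse ++ a.1.tail) [p]
    obtain ⟨a, ha, ha1, ha2⟩ := a
    cases a with
    | nil => simp at ha1
    | cons x a =>
      have := EdgeHomotopic.backtrack x a ha
      have e : (x :: a).getLast (by simp) = p := by
        have := List.getLast?_eq_some_getLast (l := x :: a) (by simp)
        rw [this] at ha2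
        simpa using ha2
      rw [e] at this
      exact this

/-- The `i`-th vertex of `σ` in increasing order. -/
def vtx (σ : Finset ℕ) (i : ℕ) : ℕ := (σ.sort (· ≤ ·)).getD i 0

/-- `o` gives each facet of a 4-dimensional complex an orientation sign (with respect to the order
of the vertices) such that the sum of the facets with these signs is a cycle: for each
tetrahedron `τ`, the sum over the facets `σ ⊇ τ` of `(-1)^i o(σ)` is zero, where `i` is the
position in `σ` of the vertex of `σ` not in `τ`. -/
def IsFundamentalCycle (Φ : Cplx) (o : Finset ℕ → ℤ) : Prop :=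
  (∀ σ ∈ Φ, o σ = 1 ∨ o σ = -1) ∧
    ∀ τ : Finset ℕ, τ.card = 4 →
      ∑ σ ∈ Φ with τ ⊆ σ, (-1) ^ (∑ w ∈ σ \ τ, (σ.filter fun u => u < w).card) * o σ = 0

/-- Simplicial 1-cocycles with integral values: `x u v + x v w = x u w` for each (possibly
degenerate) simplex `{u, v, w}`. -/
def IsCocycle1 (Φ : Cplx) (x : ℕ → ℕ → ℤ) : Prop :=
  ∀ u v w, ({u, v, w} : Finset ℕ) ∈ faces Φ → x u v + x v w = x u w

/-- The sum of the values of `x` along an edge path. -/
def displacement (x : ℕ → ℕ → ℤ) : List ℕ → ℤ
  | u :: v :: l => x u v + displacement x (v :: l)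
  | _ => 0

/-- The value of the cup product of four 1-cochains on the fundamental cycle. -/
def cup4 (Φ : Cplx) (o : Finset ℕ → ℤ) (x y z t : ℕ → ℕ → ℤ) : ℤ :=
  ∑ σ ∈ Φ, o σ * (x (vtx σ 0) (vtx σ 1) * y (vtx σ 1) (vtx σ 2) * z (vtx σ 2) (vtx σ 3) *
    t (vtx σ 3) (vtx σ 4))

/-- Real simplicial 2-cocycles; `z a b c` is the value on the simplex with vertices
`a < b < c`. -/
def IsCocycle2 (Φ : Cplx) (z : ℕ → ℕ → ℕ → ℝ) : Prop :=
  ∀ a b c d, a < b → b < c → c < d → ({a, b, c, d} : Finset ℕ) ∈ faces Φ →
    z b c d - z a c d + z a b d - z a b c = 0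

/-- The value of the cup product of two 2-cochains on the fundamental cycle; on cocycles this is
the intersection form. -/
def cupForm (Φ : Cplx) (o : Finset ℕ → ℤ) (y z : ℕ → ℕ → ℕ → ℝ) : ℝ :=
  ∑ σ ∈ Φ, (o σ : ℝ) * (y (vtx σ 0) (vtx σ 1) (vtx σ 2) * z (vtx σ 2) (vtx σ 3) (vtx σ 4))

/-- `b⁺`: the maximal dimension of a space of 2-cocycles on which the intersection form is
positive definite. -/
noncomputable def bPlus (Φ : Cplx) (o : Finset ℕ → ℤ) : ℕ :=
  sSup {n | ∃ z : Fin n → ℕ → ℕ → ℕ → ℝ, (∀ i, IsCocycle2 Φ (z i)) ∧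
    ∀ t : Fin n → ℝ, t ≠ 0 → 0 < cupForm Φ o (∑ i, t i • z i) (∑ i, t i • z i)}

/-- `b⁻`: the maximal dimension of a space of 2-cocycles on which the intersection form is
negative definite. -/
noncomputable def bMinus (Φ : Cplx) (o : Finset ℕ → ℤ) : ℕ :=
  sSup {n | ∃ z : Fin n → ℕ → ℕ → ℕ → ℝ, (∀ i, IsCocycle2 Φ (z i)) ∧
    ∀ t : Fin n → ℝ, t ≠ 0 → cupForm Φ o (∑ i, t i • z i) (∑ i, t i • z i) < 0}

/-- The signature of the intersection form. -/
noncomputable def signature (Φ : Cplx) (o : Finset ℕ → ℤ) : ℤ := bPlus Φ o - bMinus Φ o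

/-- The Euler characteristic. -/
def eulerChar (Φ : Cplx) : ℤ := ∑ s ∈ faces Φ, (-1) ^ (s.card + 1)

/-- The value of `x_i x_j x_l x_m` on `x_0 ∩ [T]` for the 5-torus with its standard classes
`x_0, …, x_4` (so `x_0` is the class called `x_1` in the problem): this is the value of
`x_i x_j x_l x_m x_0` on `[T]`, i.e. the determinant of the matrix whose rows are the standard
basis vectors with indices `i, j, l, m, 0`. -/
def torusValue (i j l m : Fin 5) : ℤ :=
  Matrix.det (Matrix.of fun r c : Fin 5 => if c = ![i, j, l, m, 0] r then (1 : ℤ) else 0)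

/-- `Φ` is a closed connected combinatorial 4-manifold with fundamental cycle given by `o`, and the
1-cocycles `x` (the pull-backs of the five standard classes under a map to the 5-torus) induce an
isomorphism of the fundamental group with `ℤ⁵` and send the fundamental class to
`k x_0 ∩ [T]`. -/
structure IsModel (Φ : Cplx) (o : Finset ℕ → ℤ) (p : ℕ) (x : Fin 5 → ℕ → ℕ → ℤ) (k : ℤ) :
    Prop where
  closed : IsClosedManifold 3 Φ
  base : {p} ∈ faces Φ
  connected : ∀ v, {v} ∈ faces Φ →
    ∃ l, IsEdgePath Φ l ∧ l.head? = some p ∧ l.getLast? = some v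
  cycle : IsFundamentalCycle Φ o
  cocycle : ∀ i, IsCocycle1 Φ (x i)
  iso : ∃ e : EdgeGroup Φ p ≃* Multiplicative (Fin 5 → ℤ), ∀ l : EdgeLoop Φ p,
    e ⟦l⟧ = Multiplicative.ofAdd fun i => displacement (x i) l.1
  image : ∀ i j l m, cup4 Φ o (x i) (x j) (x l) (x m) = k * torusValue i j l m

end Pool.Agent.GeoZ5
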