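import Pool.Agent.GeoZ5.DataF
import Pool.Agent.GeoZ5.DataT
import Pool.Agent.GeoZ5.Check2
set_option maxRecDepth 100000
namespace Pool.Agent.GeoZ5
theorem tabE_run : incN 1015 0 (tabE 0 TT) = true := by decide +kernel
theorem tabT_run : incN 3680 0 (tabT 0 TT) = true := by decide +kernel
theorem vtx_run : vtxOK FLL 52 = true := by decide +kernel
theorem vec_run : vecOK TT = true := by decide +kernel
theorem len_run : Nat.beq FLL.flatten.length 1802 = true := by decide +kernel
end Pool.Agent.GeoZ5
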