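import Pool.Agent.GeoZ5.DataF
import Pool.Agent.GeoZ5.DataT
set_option maxRecDepth 100000
namespace Pool.Agent.GeoZ5
theorem facFmt_run : (FLL.all fun c => c.all facFmt) = true := by decide +kernel
theorem incr_run : incr 0 FLL.flatten = true := by decide +kernel
theorem gram_run : sumFF (gramF TT) FLL = gramS := by decide +kernel
theorem cup_run : sumFF (cupF TT) FLL = cupS := by decide +kernel
theorem facTab_run0 : F0.all (facTab TT) = true := by decide +kernel
theorem facTab_run1 : F1.all (facTab TT) = true := by decide +kernel
theorem facTab_run2 : F2.all (facTab TT) = true := by decide +kernel
theorem facTab_run3 : F3.all (facTab TT) = true := by decide +kernel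
theorem facTab_run4 : F4.all (facTab TT) = true := by decide +kernel
theorem facTab_run5 : F5.all (facTab TT) = true := by decide +kernel
theorem facTab_run6 : F6.all (facTab TT) = true := by decide +kernel
theorem facTab_run7 : F7.all (facTab TT) = true := by decide +kernel
theorem facTab_run8 : F8.all (facTab TT) = true := by decide +kernel
theorem facTab_run9 : F9.all (facTab TT) = true := by decide +kernel
theorem facTab_run10 : F10.all (facTab TT) = true := by decide +kernel
theorem facTab_run11 : F11.all (facTab TT) = true := by decide +kernel
theorem facTab_run12 : F12.all (facTab TT) = true := by decide +kernel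
theorem facTab_run13 : F13.all (facTab TT) = true := by decide +kernel
theorem facTab_run14 : F14.all (facTab TT) = true := by decide +kernel
theorem facTab_run15 : F15.all (facTab TT) = true := by decide +kernel
theorem facTab_run16 : F16.all (facTab TT) = true := by decide +kernel
theorem facTab_run17 : F17.all (facTab TT) = true := by decide +kernel
theorem facTab_run18 : F18.all (facTab TT) = true := by decide +kernel
theorem facTab_run19 : F19.all (facTab TT) = true := by decide +kernel
theorem facTab_run20 : F20.all (facTab TT) = true := by decide +kernel
theorem facTab_run21 : F21.all (facTab TT) = true := by decide +kernel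
theorem facTab_run22 : F22.all (facTab TT) = true := by decide +kernel
theorem facTab_run23 : F23.all (facTab TT) = true := by decide +kernel
theorem facTab_run24 : F24.all (facTab TT) = true := by decide +kernel
theorem facTab_run25 : F25.all (facTab TT) = true := by decide +kernel
theorem facTab_run26 : F26.all (facTab TT) = true := by decide +kernel
theorem facTab_run27 : F27.all (facTab TT) = true := by decide +kernel
theorem facTab_run28 : F28.all (facTab TT) = true := by decide +kernel
theorem facTab_run29 : F29.all (facTab TT) = true := by decide +kernel
theorem facTab_run30 : F30.all (facTab TT) = true := by decide +kernel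
theorem facTab_run31 : F31.all (facTab TT) = true := by decide +kernel
theorem facTab_run32 : F32.all (facTab TT) = true := by decide +kernel
theorem facTab_run33 : F33.all (facTab TT) = true := by decide +kernel
theorem facTab_run34 : F34.all (facTab TT) = true := by decide +kernel
theorem facTab_run35 : F35.all (facTab TT) = true := by decide +kernel
theorem facTab_run36 : F36.all (facTab TT) = true := by decide +kernel
theorem facTab_run37 : F37.all (facTab TT) = true := by decide +kernel
theorem facTab_run38 : F38.all (facTab TT) = true := by decide +kernel
theorem facTab_run39 : F39.all (facTab TT) = true := by decide +kernel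
theorem facTab_run40 : F40.all (facTab TT) = true := by decide +kernel
theorem facTab_run41 : F41.all (facTab TT) = true := by decide +kernel
theorem facTab_run : (FLL.all fun c => c.all (facTab TT)) = true := by
  simp only [FLL, List.all_cons, List.all_nil, Bool.and_true, Bool.and_eq_true]
  exact ⟨facTab_run0, facTab_run1, facTab_run2, facTab_run3, facTab_run4, facTab_run5, facTab_run6, facTab_run7, facTab_run8, facTab_run9, facTab_run10, facTab_run11, facTab_run12, facTab_run13, facTab_run14, facTab_run15, facTab_run16, facTab_run17, facTab_run18, facTab_run19, facTab_run20, facTab_run21, facTab_run22, facTab_run23, facTab_run24, facTab_run25, facTab_run26, facTab_run27, facTab_run28, facTab_run29, facTab_run30, facTab_run31, facTab_run32, facTab_run33, facTab_run34, facTab_run35, facTab_run36, facTab_run37, facTab_run38, facTab_run39, facTab_run40, facTab_run41⟩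
end Pool.Agent.GeoZ5
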