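import Pool.Agent.GeoZ5.DataT
import Pool.Agent.GeoZ5.Check3
set_option maxRecDepth 100000
namespace Pool.Agent.GeoZ5
theorem tabE1_run : incN 959 0 (tabE1 TT) = true := by decide +kernel
theorem tabT0_run : incN 981 0 (tabT0 TT) = true := by decide +kernel
end Pool.Agent.GeoZ5
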