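import Pool.Agent.GeoZ5.DataF
import Pool.Agent.GeoZ5.DataL
set_option maxRecDepth 100000
namespace Pool.Agent.GeoZ5
theorem link_run0 : linkOK FLL 0 L0 E0 = true := by decide +kernel
theorem link_run4 : linkOK FLL 4 L4 E4 = true := by decide +kernel
theorem link_run8 : linkOK FLL 8 L8 E8 = true := by decide +kernel
theorem link_run12 : linkOK FLL 12 L12 E12 = true := by decide +kernel
theorem link_run16 : linkOK FLL 16 L16 E16 = true := by decide +kernel
theorem link_run20 : linkOK FLL 20 L20 E20 = true := by decide +kernel
theorem link_run24 : linkOK FLL 24 L24 E24 = true := by decide +kernel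
theorem link_run28 : linkOK FLL 28 L28 E28 = true := by decide +kernel
theorem link_run32 : linkOK FLL 32 L32 E32 = true := by decide +kernel
theorem link_run36 : linkOK FLL 36 L36 E36 = true := by decide +kernel
theorem link_run40 : linkOK FLL 40 L40 E40 = true := by decide +kernel
theorem link_run44 : linkOK FLL 44 L44 E44 = true := by decide +kernel
theorem link_run48 : linkOK FLL 48 L48 E48 = true := by decide +kernel
end Pool.Agent.GeoZ5
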