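import Pool.Agent.GeoZ5.DataF
import Pool.Agent.GeoZ5.DataL
set_option maxRecDepth 100000
namespace Pool.Agent.GeoZ5
theorem link_run1 : linkOK FLL 1 L1 E1 = true := by decide +kernel
theorem link_run5 : linkOK FLL 5 L5 E5 = true := by decide +kernel
theorem link_run9 : linkOK FLL 9 L9 E9 = true := by decide +kernel
theorem link_run13 : linkOK FLL 13 L13 E13 = true := by decide +kernel
theorem link_run17 : linkOK FLL 17 L17 E17 = true := by decide +kernel
theorem link_run21 : linkOK FLL 21 L21 E21 = true := by decide +kernel
theorem link_run25 : linkOK FLL 25 L25 E25 = true := by decide +kernel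
theorem link_run29 : linkOK FLL 29 L29 E29 = true := by decide +kernel
theorem link_run33 : linkOK FLL 33 L33 E33 = true := by decide +kernel
theorem link_run37 : linkOK FLL 37 L37 E37 = true := by decide +kernel
theorem link_run41 : linkOK FLL 41 L41 E41 = true := by decide +kernel
theorem link_run45 : linkOK FLL 45 L45 E45 = true := by decide +kernel
theorem link_run49 : linkOK FLL 49 L49 E49 = true := by decide +kernel
end Pool.Agent.GeoZ5
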