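import Pool.Agent.GeoZ5.DataF
import Pool.Agent.GeoZ5.DataL
set_option maxRecDepth 100000
namespace Pool.Agent.GeoZ5
theorem link_run2 : linkOK FLL 2 L2 E2 = true := by decide +kernel
theorem link_run6 : linkOK FLL 6 L6 E6 = true := by decide +kernel
theorem link_run10 : linkOK FLL 10 L10 E10 = true := by decide +kernel
theorem link_run14 : linkOK FLL 14 L14 E14 = true := by decide +kernel
theorem link_run18 : linkOK FLL 18 L18 E18 = true := by decide +kernel
theorem link_run22 : linkOK FLL 22 L22 E22 = true := by decide +kernel
theorem link_run26 : linkOK FLL 26 L26 E26 = true := by decide +kernel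
theorem link_run30 : linkOK FLL 30 L30 E30 = true := by decide +kernel
theorem link_run34 : linkOK FLL 34 L34 E34 = true := by decide +kernel
theorem link_run38 : linkOK FLL 38 L38 E38 = true := by decide +kernel
theorem link_run42 : linkOK FLL 42 L42 E42 = true := by decide +kernel
theorem link_run46 : linkOK FLL 46 L46 E46 = true := by decide +kernel
theorem link_run50 : linkOK FLL 50 L50 E50 = true := by decide +kernel
end Pool.Agent.GeoZ5
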