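import Pool.Agent.GeoZ5.DataF
import Pool.Agent.GeoZ5.DataL
set_option maxRecDepth 100000
namespace Pool.Agent.GeoZ5
theorem link_run3 : linkOK FLL 3 L3 E3 = true := by decide +kernel
theorem link_run7 : linkOK FLL 7 L7 E7 = true := by decide +kernel
theorem link_run11 : linkOK FLL 11 L11 E11 = true := by decide +kernel
theorem link_run15 : linkOK FLL 15 L15 E15 = true := by decide +kernel
theorem link_run19 : linkOK FLL 19 L19 E19 = true := by decide +kernel
theorem link_run23 : linkOK FLL 23 L23 E23 = true := by decide +kernel
theorem link_run27 : linkOK FLL 27 L27 E27 = true := by decide +kernel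
theorem link_run31 : linkOK FLL 31 L31 E31 = true := by decide +kernel
theorem link_run35 : linkOK FLL 35 L35 E35 = true := by decide +kernel
theorem link_run39 : linkOK FLL 39 L39 E39 = true := by decide +kernel
theorem link_run43 : linkOK FLL 43 L43 E43 = true := by decide +kernel
theorem link_run47 : linkOK FLL 47 L47 E47 = true := by decide +kernel
theorem link_run51 : linkOK FLL 51 L51 E51 = true := by decide +kernel
end Pool.Agent.GeoZ5
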