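import Pool.Agent.GeoZ5.DataT
set_option maxRecDepth 100000
namespace Pool.Agent.GeoZ5
theorem path_run : ((List.range 52).all fun v => pathOK' TT 32 v (nthD [] PT v)) = true := by decide +kernel
theorem base_run : leq (nthD [] PT 32) [32] = true := by decide +kernel
theorem comm_run01 : commOK TT 0 1 (nthD [] COMM 0) = true := by decide +kernel
theorem comm_run02 : commOK TT 0 2 (nthD [] COMM 1) = true := by decide +kernel
theorem comm_run03 : commOK TT 0 3 (nthD [] COMM 2) = true := by decide +kernel
theorem comm_run04 : commOK TT 0 4 (nthD [] COMM 3) = true := by decide +kernel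
theorem comm_run12 : commOK TT 1 2 (nthD [] COMM 4) = true := by decide +kernel
theorem comm_run13 : commOK TT 1 3 (nthD [] COMM 5) = true := by decide +kernel
theorem comm_run14 : commOK TT 1 4 (nthD [] COMM 6) = true := by decide +kernel
theorem comm_run23 : commOK TT 2 3 (nthD [] COMM 7) = true := by decide +kernel
theorem comm_run24 : commOK TT 2 4 (nthD [] COMM 8) = true := by decide +kernel
theorem comm_run34 : commOK TT 3 4 (nthD [] COMM 9) = true := by decide +kernel
theorem gen_run : ((List.range 5).all fun i => match nthD [] GEN i with
    | [a, b] => leq (edgeW TT a b) [2 * i] && Nat.blt a b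
    | _ => false) = true := by decide +kernel
end Pool.Agent.GeoZ5
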