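import Pool.Agent.GeoZ5.DataF
set_option maxRecDepth 100000
namespace Pool.Agent.GeoZ5
theorem tets_run : tetsOK FLL = true := by decide +kernel
end Pool.Agent.GeoZ5
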