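import Pool.Agent.GeoZ5.DataF
import Pool.Agent.GeoZ5.DataT
set_option maxRecDepth 100000
namespace Pool.Agent.GeoZ5
theorem row_run0 : rowOK TT FLL PT GEN 0 R0 = true := by decide +kernel
theorem row_run2 : rowOK TT FLL PT GEN 2 R2 = true := by decide +kernel
theorem row_run4 : rowOK TT FLL PT GEN 4 R4 = true := by decide +kernel
theorem row_run6 : rowOK TT FLL PT GEN 6 R6 = true := by decide +kernel
theorem row_run8 : rowOK TT FLL PT GEN 8 R8 = true := by decide +kernel
theorem row_run10 : rowOK TT FLL PT GEN 10 R10 = true := by decide +kernel
theorem row_run12 : rowOK TT FLL PT GEN 12 R12 = true := by decide +kernel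
theorem row_run14 : rowOK TT FLL PT GEN 14 R14 = true := by decide +kernel
theorem row_run16 : rowOK TT FLL PT GEN 16 R16 = true := by decide +kernel
theorem row_run18 : rowOK TT FLL PT GEN 18 R18 = true := by decide +kernel
theorem row_run20 : rowOK TT FLL PT GEN 20 R20 = true := by decide +kernel
theorem row_run22 : rowOK TT FLL PT GEN 22 R22 = true := by decide +kernel
theorem row_run24 : rowOK TT FLL PT GEN 24 R24 = true := by decide +kernel
theorem row_run26 : rowOK TT FLL PT GEN 26 R26 = true := by decide +kernel
theorem row_run28 : rowOK TT FLL PT GEN 28 R28 = true := by decide +kernel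
theorem row_run30 : rowOK TT FLL PT GEN 30 R30 = true := by decide +kernel
theorem row_run32 : rowOK TT FLL PT GEN 32 R32 = true := by decide +kernel
theorem row_run34 : rowOK TT FLL PT GEN 34 R34 = true := by decide +kernel
theorem row_run36 : rowOK TT FLL PT GEN 36 R36 = true := by decide +kernel
theorem row_run38 : rowOK TT FLL PT GEN 38 R38 = true := by decide +kernel
theorem row_run40 : rowOK TT FLL PT GEN 40 R40 = true := by decide +kernel
theorem row_run42 : rowOK TT FLL PT GEN 42 R42 = true := by decide +kernel
theorem row_run44 : rowOK TT FLL PT GEN 44 R44 = true := by decide +kernel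
theorem row_run46 : rowOK TT FLL PT GEN 46 R46 = true := by decide +kernel
theorem row_run48 : rowOK TT FLL PT GEN 48 R48 = true := by decide +kernel
theorem row_run50 : rowOK TT FLL PT GEN 50 R50 = true := by decide +kernel
end Pool.Agent.GeoZ5
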