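import Pool.Agent.GeoZ5.DataF
import Pool.Agent.GeoZ5.DataT
set_option maxRecDepth 100000
namespace Pool.Agent.GeoZ5
theorem row_run1 : rowOK TT FLL PT GEN 1 R1 = true := by decide +kernel
theorem row_run3 : rowOK TT FLL PT GEN 3 R3 = true := by decide +kernel
theorem row_run5 : rowOK TT FLL PT GEN 5 R5 = true := by decide +kernel
theorem row_run7 : rowOK TT FLL PT GEN 7 R7 = true := by decide +kernel
theorem row_run9 : rowOK TT FLL PT GEN 9 R9 = true := by decide +kernel
theorem row_run11 : rowOK TT FLL PT GEN 11 R11 = true := by decide +kernel
theorem row_run13 : rowOK TT FLL PT GEN 13 R13 = true := by decide +kernel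
theorem row_run15 : rowOK TT FLL PT GEN 15 R15 = true := by decide +kernel
theorem row_run17 : rowOK TT FLL PT GEN 17 R17 = true := by decide +kernel
theorem row_run19 : rowOK TT FLL PT GEN 19 R19 = true := by decide +kernel
theorem row_run21 : rowOK TT FLL PT GEN 21 R21 = true := by decide +kernel
theorem row_run23 : rowOK TT FLL PT GEN 23 R23 = true := by decide +kernel
theorem row_run25 : rowOK TT FLL PT GEN 25 R25 = true := by decide +kernel
theorem row_run27 : rowOK TT FLL PT GEN 27 R27 = true := by decide +kernel
theorem row_run29 : rowOK TT FLL PT GEN 29 R29 = true := by decide +kernel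
theorem row_run31 : rowOK TT FLL PT GEN 31 R31 = true := by decide +kernel
theorem row_run33 : rowOK TT FLL PT GEN 33 R33 = true := by decide +kernel
theorem row_run35 : rowOK TT FLL PT GEN 35 R35 = true := by decide +kernel
theorem row_run37 : rowOK TT FLL PT GEN 37 R37 = true := by decide +kernel
theorem row_run39 : rowOK TT FLL PT GEN 39 R39 = true := by decide +kernel
theorem row_run41 : rowOK TT FLL PT GEN 41 R41 = true := by decide +kernel
theorem row_run43 : rowOK TT FLL PT GEN 43 R43 = true := by decide +kernel
theorem row_run45 : rowOK TT FLL PT GEN 45 R45 = true := by decide +kernel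
theorem row_run47 : rowOK TT FLL PT GEN 47 R47 = true := by decide +kernel
theorem row_run49 : rowOK TT FLL PT GEN 49 R49 = true := by decide +kernel
theorem row_run51 : rowOK TT FLL PT GEN 51 R51 = true := by decide +kernel
end Pool.Agent.GeoZ5
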