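import Pool.Agent.GeoZ5.Final0
import Pool.Agent.GeoZ5.RunF
import Pool.Agent.GeoZ5.RunS
import Pool.Agent.GeoZ5.RunT0
import Pool.Agent.GeoZ5.RunT1
import Pool.Agent.GeoZ5.RunL0
import Pool.Agent.GeoZ5.RunL1
import Pool.Agent.GeoZ5.RunL2
import Pool.Agent.GeoZ5.RunL3
import Pool.Agent.GeoZ5.RunP
import Pool.Agent.GeoZ5.RunC
import Pool.Agent.GeoZ5.RunK

/-!
Assembly, for the given data.
-/

set_option maxRecDepth 10000

namespace Pool.Agent.GeoZ5

open Finset

theorem facHyp : FacHyp FLL := ⟨facFmt_run, incr_run⟩

theorem row_all : ∀ a < 52, rowOK TT FLL PT GEN a (nthD [] TT a) = true := by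
  intro a ha
  interval_cases a
  · exact row_run0
  · exact row_run1
  · exact row_run2
  · exact row_run3
  · exact row_run4
  · exact row_run5
  · exact row_run6
  · exact row_run7
  · exact row_run8
  · exact row_run9
  · exact row_run10
  · exact row_run11
  · exact row_run12
  · exact row_run13
  · exact row_run14
  · exact row_run15
  · exact row_run16
  · exact row_run17
  · exact row_run18
  · exact row_run19
  · exact row_run20
  · exact row_run21
  · exact row_run22
  · exact row_run23
  · exact row_run24
  · exact row_run25
  · exact row_run26
  · exact row_run27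
  · exact row_run28
  · exact row_run29
  · exact row_run30
  · exact row_run31
  · exact row_run32
  · exact row_run33
  · exact row_run34
  · exact row_run35
  · exact row_run36
  · exact row_run37
  · exact row_run38
  · exact row_run39
  · exact row_run40
  · exact row_run41
  · exact row_run42
  · exact row_run43
  · exact row_run44
  · exact row_run45
  · exact row_run46
  · exact row_run47
  · exact row_run48
  · exact row_run49
  · exact row_run50
  · exact row_run51

theorem link_all : ∀ v < 52, IsPLSphere 3 (link (Phi FLL) v) := by
  intro v hv
  interval_cases v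
  · exact facHyp.link_sphere link_run0
  · exact facHyp.link_sphere link_run1
  · exact facHyp.link_sphere link_run2
  · exact facHyp.link_sphere link_run3
  · exact facHyp.link_sphere link_run4
  · exact facHyp.link_sphere link_run5
  · exact facHyp.link_sphere link_run6
  · exact facHyp.link_sphere link_run7
  · exact facHyp.link_sphere link_run8
  · exact facHyp.link_sphere link_run9
  · exact facHyp.link_sphere link_run10
  · exact facHyp.link_sphere link_run11
  · exact facHyp.link_sphere link_run12
  · exact facHyp.link_sphere link_run13
  · exact facHyp.link_sphere link_run14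
  · exact facHyp.link_sphere link_run15
  · exact facHyp.link_sphere link_run16
  · exact facHyp.link_sphere link_run17
  · exact facHyp.link_sphere link_run18
  · exact facHyp.link_sphere link_run19
  · exact facHyp.link_sphere link_run20
  · exact facHyp.link_sphere link_run21
  · exact facHyp.link_sphere link_run22
  · exact facHyp.link_sphere link_run23
  · exact facHyp.link_sphere link_run24
  · exact facHyp.link_sphere link_run25
  · exact facHyp.link_sphere link_run26
  · exact facHyp.link_sphere link_run27
  · exact facHyp.link_sphere link_run28
  · exact facHyp.link_sphere link_run29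
  · exact facHyp.link_sphere link_run30
  · exact facHyp.link_sphere link_run31
  · exact facHyp.link_sphere link_run32
  · exact facHyp.link_sphere link_run33
  · exact facHyp.link_sphere link_run34
  · exact facHyp.link_sphere link_run35
  · exact facHyp.link_sphere link_run36
  · exact facHyp.link_sphere link_run37
  · exact facHyp.link_sphere link_run38
  · exact facHyp.link_sphere link_run39
  · exact facHyp.link_sphere link_run40
  · exact facHyp.link_sphere link_run41
  · exact facHyp.link_sphere link_run42
  · exact facHyp.link_sphere link_run43
  · exact facHyp.link_sphere link_run44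
  · exact facHyp.link_sphere link_run45
  · exact facHyp.link_sphere link_run46
  · exact facHyp.link_sphere link_run47
  · exact facHyp.link_sphere link_run48
  · exact facHyp.link_sphere link_run49
  · exact facHyp.link_sphere link_run50
  · exact facHyp.link_sphere link_run51

theorem tabHyp : TabHyp TT FLL PT GEN where
  toFacHyp := facHyp
  len := rfl
  row := row_all
  tab := facTab_run

theorem sigHyp : SigHyp TT FLL PT GEN where
  toTabHyp := tabHyp
  tets := tets_run
  vec := vec_run
  nfac := len_run
  gram := gram_run
  cup := cup_run
  tabE := tabE_run
  tabT := tabT_run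
  tabE1 := tabE1_run
  tabT0 := tabT0_run
  vtx := vtx_run

theorem pathHyp : PathHyp TT FLL PT GEN 32 :=
  tabHyp.toPath path_run base_run (by norm_num) vtx_run

theorem commCert : CommCert TT COMM where
  c01 := comm_run01
  c02 := comm_run02
  c03 := comm_run03
  c04 := comm_run04
  c12 := comm_run12
  c13 := comm_run13
  c14 := comm_run14
  c23 := comm_run23
  c24 := comm_run24
  c34 := comm_run34

theorem grpHyp : GrpHyp TT FLL PT GEN 32 := pathHyp.toGrp gen_run commCert

/-- The triangulated manifold. -/
theorem exists_model : ∃ (Φ : Cplx) (o : Finset ℕ → ℤ) (p : ℕ) (x : Fin 5 → ℕ → ℕ → ℤ),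
    IsModel Φ o p x 2 ∧ signature Φ o = -4 ∧ eulerChar Φ = 14 :=
  concl grpHyp sigHyp link_all

end Pool.Agent.GeoZ5
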