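import Pool.Agent.GeoZ5.Sound11

/-!
Cocycles are determined by their values on the triangles with key zero; the signature.
-/

namespace Pool.Agent.GeoZ5

open Finset

variable {TT : Table} {FF : List (List (List ℕ))} {PT GEN : List (List ℕ)}

theorem keyLt_spec {k : ℕ} {p : List ℕ} (h : keyLt k p = true) : ∃ k' q, p = k' :: q ∧ k' < k := by
  cases p with
  | nil => simp [keyLt] at h
  | cons k' q => exact ⟨k', q, rfl, by simpa [keyLt] using h⟩

theorem TabHyp.key_zero_mem (H : TabHyp TT FF PT GEN) {a b c : ℕ} {q : List ℕ}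
    (h : triP TT a b c = some (0 :: q)) : (a * 64 + b) * 64 + c ∈ tabT0 TT := by
  obtain ⟨_, _, _, _, _, _, _, _, _, _, _, _, _, _, -, ab, bc, hc, -⟩ := (H.triInfo h).ex
  rw [tabT0, List.mem_filter]
  refine ⟨H.mem_tabT'.2 ⟨a, b, c, ab, bc, hc, H.tri_face h, rfl⟩, ?_⟩
  have e1 : Nat.div ((a * 64 + b) * 64 + c) 4096 = a := by
    change ((a * 64 + b) * 64 + c) / 4096 = a
    omega
  have e2 : Nat.mod (Nat.div ((a * 64 + b) * 64 + c) 64) 64 = b := by
    change ((a * 64 + b) * 64 + c) / 64 % 64 = b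
    omega
  have e3 : Nat.mod ((a * 64 + b) * 64 + c) 64 = c := by
    change ((a * 64 + b) * 64 + c) % 64 = c
    omega
  unfold tkey
  rw [e1, e2, e3, h]
  rfl

/-- The restriction to the triangles with key zero. -/
def Rm (TT : Table) : Cch →ₗ[ℝ] ({x // x ∈ (tabT0 TT).toFinset} → ℝ) where
  toFun y := fun τ => y (τ.1 / 4096) (τ.1 / 64 % 64) (τ.1 % 64)
  map_add' _ _ := rfl
  map_smul' _ _ := rfl

/-- A cocycle vanishing on the triangles with key zero vanishes on all triangles. -/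
theorem TabHyp.vanish (H : TabHyp TT FF PT GEN) {y : Cch} (hy : IsCocycle2 (Phi FF) y)
    (hR : Rm TT y = 0) (n : ℕ) : ∀ {a b c k : ℕ} {q : List ℕ}, k < n →
      triP TT a b c = some (k :: q) → y a b c = 0 := by
  induction n with
  | zero => intro a b c k q hk; omega
  | succ n ih =>
    intro a b c k q hk h
    obtain ⟨key, z, fi, fj, l, _, _, _, _, _, _, _, _, _, hp, ab, bc, hc, ⟨f, hf, ha, hb, hc', hz⟩,
      -, -, -, -, -, hkey⟩ := (H.triInfo h).ex
    simp only [List.cons.injEq] at hp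
    obtain ⟨rfl, -⟩ := hp
    have hface : ∀ {p q r t : ℕ}, p ∈ fset f → q ∈ fset f → r ∈ fset f → t ∈ fset f →
        ({p, q, r, t} : Finset ℕ) ∈ faces (Phi FF) := by
      intro p q r t hp hq hr ht
      obtain ⟨s, a, b, c, d, e, h⟩ := H.fac hf
      exact h.face hf hp hq hr ht
    have step : ∀ {p q r : ℕ}, triK TT p q r (keyLt k) = true → y p q r = 0 := by
      intro p q r h
      obtain ⟨w, hw, hw2⟩ := triK_spec h
      obtain ⟨k', q', rfl, hk'⟩ := keyLt_spec hw2
      exact ih (by omega) hw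
    rcases hkey with rfl | ⟨h1, h2, h3, h4⟩ | ⟨h0, h1, h2, h3, h4⟩ | ⟨h0, h1, h2, h3, h4⟩ |
      ⟨h1, h2, h3, h4⟩
    · have hm := H.key_zero_mem h
      have := congrFun hR ⟨_, List.mem_toFinset.2 hm⟩
      simp only [Rm, LinearMap.coe_mk, AddHom.coe_mk, Pi.zero_apply] at this
      rw [show ((a * 64 + b) * 64 + c) / 4096 = a by omega,
        show ((a * 64 + b) * 64 + c) / 64 % 64 = b by omega,
        show ((a * 64 + b) * 64 + c) % 64 = c by omega] at this
      exact this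
    · have e := hy z a b c h1 ab bc (hface hz ha hb hc')
      have s2 := step h2
      have s3 := step h3
      have s4 := step h4
      linarith
    · have e := hy a z b c h0 h1 bc (hface ha hz hb hc')
      have s2 := step h2
      have s3 := step h3
      have s4 := step h4
      linarith
    · have e := hy a b z c ab h0 h1 (hface ha hb hz hc')
      have s2 := step h2
      have s3 := step h3
      have s4 := step h4
      linarith
    · have e := hy a b c z ab bc h1 (hface ha hb hc' hz)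
      have s2 := step h2
      have s3 := step h3
      have s4 := step h4
      linarith

theorem TabHyp.vanish_face (H : TabHyp TT FF PT GEN) {y : Cch} (hy : IsCocycle2 (Phi FF) y)
    (hR : Rm TT y = 0) {a b c : ℕ} (ab : a < b) (bc : b < c)
    (h : ({a, b, c} : Finset ℕ) ∈ faces (Phi FF)) : y a b c = 0 := by
  obtain ⟨p, hp⟩ := H.tri_of_face ab bc h
  obtain ⟨key, z, fi, fj, l, _, _, _, _, _, _, _, _, _, rfl, -⟩ := (H.triInfo hp).ex
  exact H.vanish hy hR (key + 1) (Nat.lt_succ_self _) hp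

theorem IsFac.face3 {f : List ℕ} (hf : f ∈ FF.flatten) {x y z : ℕ} (hx : x ∈ fset f)
    (hy : y ∈ fset f) (hz : z ∈ fset f) : ({x, y, z} : Finset ℕ) ∈ faces (Phi FF) := by
  rw [mem_faces_Phi]
  refine ⟨by simp, f, hf, ?_⟩
  intro v hv
  simp only [Finset.mem_insert, Finset.mem_singleton] at hv
  rcases hv with rfl | rfl | rfl <;> assumption

theorem TabHyp.cup_vanish (H : TabHyp TT FF PT GEN) {y : Cch}
    (hy : IsCocycle2 (Phi FF) y) (hR : Rm TT y = 0) (w : Cch) :
    cupForm (Phi FF) (ori FF) y w = 0 ∧ cupForm (Phi FF) (ori FF) w y = 0 := by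
  constructor
  · unfold cupForm
    apply Finset.sum_eq_zero
    intro σ hσ
    obtain ⟨f, hf, rfl⟩ := mem_Phi.1 hσ
    obtain ⟨s, a, b, c, d, g, h⟩ := H.fac hf
    obtain ⟨v0, v1, v2, v3, v4⟩ := h.vtx_eq
    obtain ⟨-, hs, ab, bc, cd, dg, hg⟩ := id h
    rw [v0, v1, v2, v3, v4, H.vanish_face hy hR ab bc (IsFac.face3 hf (h.mem.2 (by tauto))
      (h.mem.2 (by tauto)) (h.mem.2 (by tauto)))]
    ring
  · unfold cupForm
    apply Finset.sum_eq_zero
    intro σ hσ
    obtain ⟨f, hf, rfl⟩ := mem_Phi.1 hσ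
    obtain ⟨s, a, b, c, d, g, h⟩ := H.fac hf
    obtain ⟨v0, v1, v2, v3, v4⟩ := h.vtx_eq
    obtain ⟨-, hs, ab, bc, cd, dg, hg⟩ := id h
    rw [v0, v1, v2, v3, v4, H.vanish_face hy hR cd dg (IsFac.face3 hf (h.mem.2 (by tauto))
      (h.mem.2 (by tauto)) (h.mem.2 (by tauto)))]
    ring

/-! ### Edges -/

/-- The 1-cochain with given values on the edges with nonzero key. -/
noncomputable def eu (TT : Table) (u : {x // x ∈ (tabE1 TT).toFinset} → ℝ) (a b : ℕ) : ℝ :=
  if h : a * 64 + b ∈ (tabE1 TT).toFinset then u ⟨_, h⟩ else 0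

/-- Its coboundary as a linear map. -/
noncomputable def Dm (TT : Table) : ({x // x ∈ (tabE1 TT).toFinset} → ℝ) →ₗ[ℝ] Cch where
  toFun u := d1 (eu TT u)
  map_add' u v := by
    have h : ∀ a b, eu TT (u + v) a b = eu TT u a b + eu TT v a b := by
      intro a b
      unfold eu
      split_ifs
      · rfl
      · simp
    funext a b c
    simp only [d1, h, Pi.add_apply]
    ring
  map_smul' t u := by
    have h : ∀ a b, eu TT (t • u) a b = t * eu TT u a b := by
      intro a b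
      unfold eu
      split_ifs
      · rfl
      · simp
    funext a b c
    simp only [d1, h, Pi.smul_apply, smul_eq_mul, RingHom.id_apply]
    ring

theorem Dm_apply (u : {x // x ∈ (tabE1 TT).toFinset} → ℝ) : Dm TT u = d1 (eu TT u) := rfl

theorem TabHyp.eu_base (H : TabHyp TT FF PT GEN) (u : {x // x ∈ (tabE1 TT).toFinset} → ℝ)
    {a b : ℕ} {q : List ℕ} (h : edgeP TT a b = some (0 :: q)) : eu TT u a b = 0 := by
  have hb := edgeOK_lt (H.edge h).2
  unfold eu
  rw [dif_neg]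
  rw [List.mem_toFinset, tabE1, List.mem_filter]
  rintro ⟨-, h2⟩
  have e1 : Nat.div (a * 64 + b) 64 = a := by
    change (a * 64 + b) / 64 = a
    omega
  have e2 : Nat.mod (a * 64 + b) 64 = b := by
    change (a * 64 + b) % 64 = b
    omega
  unfold ekey at h2
  rw [e1, e2, h] at h2
  simp at h2

/-- If the coboundary vanishes, then so does the cochain. -/
theorem TabHyp.eu_vanish (H : TabHyp TT FF PT GEN) (u : {x // x ∈ (tabE1 TT).toFinset} → ℝ)
    (hd : ∀ a b c, a < b → b < c → ({a, b, c} : Finset ℕ) ∈ faces (Phi FF) →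
      eu TT u b c - eu TT u a c + eu TT u a b = 0) (n : ℕ) :
    ∀ {a b k : ℕ} {q : List ℕ}, k < n → edgeP TT a b = some (k :: q) → eu TT u a b = 0 := by
  induction n with
  | zero => intro a b k q hk; omega
  | succ n ih =>
    intro a b k q hk h
    cases k with
    | zero => exact H.eu_base u h
    | succ k =>
      have hface := H.edge_face h
      have hOK := (H.edge h).2
      obtain ⟨ab, hb⟩ := edgeOK_lt hOK
      obtain ⟨key, z, w, hp, _, _, _, _, hz⟩ := (H.edgeInfo h).ex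
      simp only [List.cons.injEq] at hp
      obtain ⟨rfl, rfl⟩ := hp
      simp only [edgeOK, Bool.and_eq_true] at hOK
      obtain ⟨-, hOK⟩ := hOK
      -- values on oriented edges
      have main : ∀ {x y : ℕ} {K : ℕ → List ℕ → Bool}, wordK TT x y K = true →
          ∃ k' w', K k' w' = true ∧ (k' < k + 1 →
            (x < y ∧ eu TT u x y = 0) ∨ (y < x ∧ eu TT u y x = 0)) := by
        intro x y K hK
        rcases wordK_spec hK with ⟨k1, z1, w1, h1, h2⟩ | ⟨k1, z1, w1, h1, h2⟩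
        · exact ⟨k1, w1, h2, fun hlt => Or.inl ⟨(edgeOK_lt (H.edge h1).2).1,
            ih (by omega) h1⟩⟩
        · exact ⟨k1, _, h2, fun hlt => Or.inr ⟨(edgeOK_lt (H.edge h1).2).1,
            ih (by omega) h1⟩⟩
      obtain ⟨k1, w1, h1, h1'⟩ := main hOK
      obtain ⟨k2, w2, h2, h2'⟩ := main h1
      simp only [Bool.and_eq_true, Nat.blt_eq] at h2
      have s1 := h1' h2.1.1
      have s2 := h2' h2.1.2
      rcases s1 with ⟨haz, s1⟩ | ⟨haz, s1⟩
      · rcases s2 with ⟨hzb, s2⟩ | ⟨hzb, s2⟩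
        · have e : ({a, z, b} : Finset ℕ) = {a, b, z} := by
            ext v; simp only [Finset.mem_insert, Finset.mem_singleton]; tauto
          have := hd a z b haz hzb (by rw [e]; exact hz)
          linarith
        · have := hd a b z ab hzb hz
          linarith
      · rcases s2 with ⟨hzb, s2⟩ | ⟨hzb, s2⟩
        · have e : ({z, a, b} : Finset ℕ) = {a, b, z} := by
            ext v; simp only [Finset.mem_insert, Finset.mem_singleton]; tauto
          have := hd z a b haz ab (by rw [e]; exact hz)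
          linarith
        · omega

theorem TabHyp.Dm_inj (H : TabHyp TT FF PT GEN) (u : {x // x ∈ (tabE1 TT).toFinset} → ℝ)
    (h : Rm TT (Dm TT u) = 0) : u = 0 := by
  have hd : ∀ a b c, a < b → b < c → ({a, b, c} : Finset ℕ) ∈ faces (Phi FF) →
      eu TT u b c - eu TT u a c + eu TT u a b = 0 := by
    intro a b c ab bc habc
    exact H.vanish_face (d1_cocycle _ _) h ab bc habc
  funext ⟨x, hx⟩
  have hx' := hx
  rw [List.mem_toFinset, tabE1, List.mem_filter] at hx'
  obtain ⟨a, b, ab, hb, hf, rfl⟩ := H.mem_tabE'.1 hx'.1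
  obtain ⟨p, hp⟩ := H.edge_of_face ab hf
  obtain ⟨key, z, w, rfl, -⟩ := (H.edgeInfo hp).ex
  have := H.eu_vanish u hd (key + 1) (Nat.lt_succ_self _) hp
  unfold eu at this
  rw [dif_pos hx] at this
  exact this

/-! ### The signature -/

/-- All hypotheses for the signature. -/
structure SigHyp (TT : Table) (FF : List (List (List ℕ))) (PT GEN : List (List ℕ)) : Prop
    extends TabHyp TT FF PT GEN where
  tets : tetsOK FF = true
  vec : vecOK TT = true
  nfac : Nat.beq FF.flatten.length 1802 = true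
  gram : sumFF (gramF TT) FF = gramS
  cup : sumFF (cupF TT) FF = cupS
  tabE : incN 1015 0 (tabE 0 TT) = true
  tabT : incN 3680 0 (tabT 0 TT) = true
  tabE1 : incN 959 0 (tabE1 TT) = true
  tabT0 : incN 981 0 (tabT0 TT) = true
  vtx : vtxOK FF 52 = true

theorem card_of_incN {n m : ℕ} {l : List ℕ} (h : incN n m l = true) :
    Fintype.card {x // x ∈ l.toFinset} = n := by
  obtain ⟨h1, -, h2⟩ := incN_spec h
  rw [Fintype.card_coe, List.toFinset_card_of_nodup (h2.imp fun h => h.ne), h1]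

theorem SigHyp.count (H : SigHyp TT FF PT GEN) {n m : ℕ} (ε : ℝ) (hε : ε = 1 ∨ ε = -1)
    (z : Fin n → Cch) (hz : ∀ i, IsCocycle2 (Phi FF) (z i))
    (hzQ : ∀ t : Fin n → ℝ, t ≠ 0 →
      0 < ε * cupForm (Phi FF) (ori FF) (∑ i, t i • z i) (∑ i, t i • z i))
    (c : Fin m → Cch) (hc : ∀ i, IsCocycle2 (Phi FF) (c i))
    (hcQ : ∀ i j, cupForm (Phi FF) (ori FF) (c i) (c j) = if i = j then -ε else 0) :
    n + m + 959 ≤ 981 := by
  have := dim_count (QB (Phi FF) (ori FF)) (Zc (Phi FF)) ε z hz hzQ c hc hε hcQ (Dm TT)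
    (fun u => d1_cocycle _ _)
    (fun u y hy => ⟨(H.toFacHyp.cup_d1 H.tets hy _).2, (H.toFacHyp.cup_d1 H.tets hy _).1⟩)
    (Rm TT) (fun y hy h w => H.toTabHyp.cup_vanish hy h w) (fun u h => H.toTabHyp.Dm_inj u h)
  rw [card_of_incN H.tabE1, card_of_incN H.tabT0] at this
  exact this

theorem SigHyp.cupForm_eq (H : SigHyp TT FF PT GEN) {i j : ℕ} (hi : i < 22) (hj : j < 22) :
    cupForm (Phi FF) (ori FF) (cz TT i) (cz TT j) = GG i j :=
  H.toFacHyp.cupForm_cz H.vec H.nfac H.gram hi hj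

theorem SigHyp.pos (H : SigHyp TT FF PT GEN) (i j : Fin 9) :
    cupForm (Phi FF) (ori FF) (cz TT i) (cz TT j) = if i = j then 1 else 0 := by
  rw [H.cupForm_eq (by omega) (by omega), GG]
  by_cases h : i = j
  · subst h; simp
  · have : ¬ (i : ℕ) = j := fun h' => h (Fin.ext h')
    simp [h, this]

theorem SigHyp.neg (H : SigHyp TT FF PT GEN) (i j : Fin 13) :
    cupForm (Phi FF) (ori FF) (cz TT (i + 9)) (cz TT (j + 9)) = if i = j then -1 else 0 := by
  rw [H.cupForm_eq (by omega) (by omega), GG]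
  by_cases h : i = j
  · subst h; simp
  · have : ¬ (i : ℕ) + 9 = j + 9 := fun h' => h (Fin.ext (by omega))
    rw [if_neg this, if_neg h]
    simp

theorem sum_sq_pos {n : ℕ} {t : Fin n → ℝ} (ht : t ≠ 0) : 0 < ∑ i, t i ^ 2 := by
  obtain ⟨i, hi⟩ := Function.ne_iff.1 ht
  refine Finset.sum_pos' (fun i _ => sq_nonneg _) ⟨i, Finset.mem_univ i, ?_⟩
  have : t i ≠ 0 := hi
  positivity

theorem SigHyp.bPlus_eq (H : SigHyp TT FF PT GEN) : bPlus (Phi FF) (ori FF) = 9 := by
  have h1 : 9 ∈ {n | ∃ z : Fin n → ℕ → ℕ → ℕ → ℝ, (∀ i, IsCocycle2 (Phi FF) (z i)) ∧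
      ∀ t : Fin n → ℝ, t ≠ 0 →
        0 < cupForm (Phi FF) (ori FF) (∑ i, t i • z i) (∑ i, t i • z i)} := by
    refine ⟨fun i => cz TT i, fun i => H.toTabHyp.cocycle2 H.vec i, ?_⟩
    intro t ht
    have := Q_sum (QB (Phi FF) (ori FF)) (fun i : Fin 9 => cz TT i) 1 H.pos t
    rw [QB_apply] at this
    rw [this, one_mul]
    exact sum_sq_pos ht
  have h2 : ∀ n ∈ {n | ∃ z : Fin n → ℕ → ℕ → ℕ → ℝ, (∀ i, IsCocycle2 (Phi FF) (z i)) ∧
      ∀ t : Fin n → ℝ, t ≠ 0 →
        0 < cupForm (Phi FF) (ori FF) (∑ i, t i • z i) (∑ i, t i • z i)}, n ≤ 9 := by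
    rintro n ⟨z, hz, hzQ⟩
    have := H.count (n := n) (m := 13) 1 (Or.inl rfl) z hz
      (fun t ht => by rw [one_mul]; exact hzQ t ht)
      (fun i : Fin 13 => cz TT (i + 9)) (fun i => H.toTabHyp.cocycle2 H.vec _) H.neg
    omega
  exact le_antisymm (csSup_le ⟨9, h1⟩ h2) (le_csSup ⟨9, h2⟩ h1)

theorem SigHyp.bMinus_eq (H : SigHyp TT FF PT GEN) : bMinus (Phi FF) (ori FF) = 13 := by
  have h1 : 13 ∈ {n | ∃ z : Fin n → ℕ → ℕ → ℕ → ℝ, (∀ i, IsCocycle2 (Phi FF) (z i)) ∧
      ∀ t : Fin n → ℝ, t ≠ 0 →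
        cupForm (Phi FF) (ori FF) (∑ i, t i • z i) (∑ i, t i • z i) < 0} := by
    refine ⟨fun i => cz TT (i + 9), fun i => H.toTabHyp.cocycle2 H.vec _, ?_⟩
    intro t ht
    have := Q_sum (QB (Phi FF) (ori FF)) (fun i : Fin 13 => cz TT (i + 9)) (-1) H.neg t
    rw [QB_apply] at this
    rw [this]
    have := sum_sq_pos ht
    linarith
  have h2 : ∀ n ∈ {n | ∃ z : Fin n → ℕ → ℕ → ℕ → ℝ, (∀ i, IsCocycle2 (Phi FF) (z i)) ∧
      ∀ t : Fin n → ℝ, t ≠ 0 →
        cupForm (Phi FF) (ori FF) (∑ i, t i • z i) (∑ i, t i • z i) < 0}, n ≤ 13 := by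
    rintro n ⟨z, hz, hzQ⟩
    have := H.count (n := n) (m := 9) (-1) (Or.inr rfl) z hz
      (fun t ht => by have := hzQ t ht; linarith)
      (fun i : Fin 9 => cz TT i) (fun i => H.toTabHyp.cocycle2 H.vec _)
      (fun i j => by rw [H.pos, neg_neg])
    omega
  exact le_antisymm (csSup_le ⟨13, h1⟩ h2) (le_csSup ⟨13, h2⟩ h1)

theorem SigHyp.signature_eq (H : SigHyp TT FF PT GEN) : signature (Phi FF) (ori FF) = -4 := by
  rw [signature, H.bPlus_eq, H.bMinus_eq]
  norm_num

end Pool.Agent.GeoZ5
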