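import Pool.Agent.GeoZ5.Sound6

/-!
The edge-path group is free abelian of rank five.
-/

namespace Pool.Agent.GeoZ5

open Finset

/-! ### Displacement -/

section Disp

variable {x : ℕ → ℕ → ℤ}

theorem displacement_append (l m : List ℕ) (u : ℕ) :
    displacement x (l ++ u :: m) = displacement x (l ++ [u]) + displacement x (u :: m) := by
  induction l with
  | nil => simp [displacement]
  | cons a l ih =>
    cases l with
    | nil => simp [displacement]
    | cons b l =>
      simp only [List.cons_append, displacement] at ih ⊢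
      rw [ih]; ring

theorem displacement_homotopic {Φ : Cplx} (hx : IsCocycle1 Φ x) (h0 : ∀ u, x u u = 0)
    {l m : List ℕ} (h : EdgeHomotopic Φ l m) : displacement x l = displacement x m := by
  induction h with
  | refl l => rfl
  | symm _ ih => exact ih.symm
  | trans _ _ ih1 ih2 => exact ih1.trans ih2
  | triangle l m u v w h =>
    have e1 : l ++ [u, v, w] ++ m = l ++ u :: (v :: w :: m) := by simp
    have e2 : l ++ [u, w] ++ m = l ++ u :: (w :: m) := by simp
    rw [e1, e2, displacement_append l (v :: w :: m) u, displacement_append l (w :: m) u]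
    simp only [displacement]
    rw [← hx u v w h]; ring
  | stay l m u =>
    have e1 : l ++ [u, u] ++ m = l ++ u :: (u :: m) := by simp
    have e2 : l ++ [u] ++ m = l ++ u :: m := by simp
    rw [e1, e2, displacement_append l (u :: m) u, displacement_append l m u]
    simp only [displacement]
    rw [h0 u]; ring

theorem displacement_reverse (hs : ∀ u v, x v u = - x u v) (l : List ℕ) :
    displacement x l.reverse = - displacement x l := by
  induction l with
  | nil => simp [displacement]
  | cons a l ih =>
    cases l with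
    | nil => simp [displacement]
    | cons b l =>
      have e : (a :: b :: l).reverse = l.reverse ++ b :: [a] := by simp
      have e2 : (b :: l).reverse = l.reverse ++ [b] := by simp
      rw [e, displacement_append, ← e2, ih]
      simp only [displacement]
      rw [hs a b]; ring

end Disp

/-! ### Words in commuting generators -/

theorem letFmt_append {l m : List ℕ} (hl : letFmt l = true) (hm : letFmt m = true) :
    letFmt (l ++ m) = true := by
  induction l with
  | nil => simpa using hm
  | cons x l ih =>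
    simp only [letFmt, Bool.and_eq_true, List.cons_append] at hl ⊢
    exact ⟨hl.1, ih hl.2⟩

theorem letFmt_invw {l acc : List ℕ} (hl : letFmt l = true) (hm : letFmt acc = true) :
    letFmt (invw l acc) = true := by
  induction l generalizing acc with
  | nil => simpa [invw] using hm
  | cons x l ih =>
    simp only [letFmt, Bool.and_eq_true, Nat.blt_eq] at hl
    refine ih hl.2 ?_
    simp only [letFmt, Bool.and_eq_true, Nat.blt_eq]
    have := flipl_div x
    refine ⟨?_, hm⟩
    omega

theorem evalW_comm {C : Type*} [CommGroup C] (Y : ℕ → C) {w : List ℕ} (hw : letFmt w = true) :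
    evalW Y w = ∏ i ∈ range 5, Y i ^ cnt i w := by
  induction w with
  | nil => simp [evalW_nil, cnt]
  | cons x w ih =>
    simp only [letFmt, Bool.and_eq_true, Nat.blt_eq] at hw
    rw [evalW_cons, ih hw.2]
    simp only [cnt, zpow_add, Finset.prod_mul_distrib]
    congr 1
    rw [Finset.prod_eq_single (x / 2)]
    · unfold letter
      by_cases hx : x % 2 = 0
      · simp [hx]
      · simp [hx]
    · intro b _ hb
      simp [hb.symm]
    · intro hx
      exfalso
      exact hx (Finset.mem_range.2 (by omega))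

theorem evalW_map {G C : Type*} [Group G] [Group C] (f : C →* G) (X : ℕ → G) (Y : ℕ → C)
    (h : ∀ i < 5, f (Y i) = X i) {w : List ℕ} (hw : letFmt w = true) :
    f (evalW Y w) = evalW X w := by
  induction w with
  | nil => simp [evalW_nil]
  | cons x w ih =>
    simp only [letFmt, Bool.and_eq_true, Nat.blt_eq] at hw
    rw [evalW_cons, evalW_cons, map_mul, ih hw.2]
    congr 1
    unfold letter
    have : f (Y (x / 2)) = X (x / 2) := h _ (by omega)
    by_cases hx : x % 2 = 0
    · simp [hx, this]
    · simp [hx, this]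

theorem evalW_eq_one {G : Type*} [Group G] (X : ℕ → G)
    (hX : ∀ i < 5, ∀ j < 5, Commute (X i) (X j)) {w : List ℕ} (hw : letFmt w = true)
    (h : ∀ i < 5, cnt i w = 0) : evalW X w = 1 := by
  let S : Set G := {g | ∃ i < 5, X i = g}
  have hS : ∀ a ∈ S, ∀ b ∈ S, a * b = b * a := by
    rintro a ⟨i, hi, rfl⟩ b ⟨j, hj, rfl⟩
    exact hX i hi j hj
  let _ : CommGroup (Subgroup.closure S) := Subgroup.closureCommGroupOfComm hS
  let Y : ℕ → Subgroup.closure S := fun i =>
    if hi : i < 5 then ⟨X i, Subgroup.subset_closure ⟨i, hi, rfl⟩⟩ else 1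
  have h1 := evalW_map (Subgroup.closure S).subtype X Y (by
    intro i hi
    simp [Y, hi]) hw
  rw [← h1, evalW_comm Y hw]
  rw [Finset.prod_eq_one]
  · simp
  · intro i hi
    rw [h i (Finset.mem_range.1 hi), zpow_zero]

/-! ### The isomorphism -/

variable {TT : Table} {FF : List (List (List ℕ))} {PT GEN : List (List ℕ)} {p : ℕ}

/-- All hypotheses for the edge-path group. -/
structure GrpHyp (TT : Table) (FF : List (List (List ℕ))) (PT GEN : List (List ℕ)) (p : ℕ) : Prop
    extends PathHyp TT FF PT GEN p where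
  gen : ∀ i < 5, ∃ a b, nthD [] GEN i = [a, b] ∧ a < b ∧ edgeW TT a b = [2 * i]
  comm : ∀ i < 5, ∀ j < 5, Commute (genX FF PT GEN p i) (genX FF PT GEN p j)

/-- The displacement homomorphism. -/
noncomputable def dispHom (H : TabHyp TT FF PT GEN) (p : ℕ) :
    EdgeGroup (Phi FF) p →* Multiplicative (Fin 5 → ℤ) where
  toFun := Quotient.lift
    (fun l : EdgeLoop (Phi FF) p => Multiplicative.ofAdd fun i : Fin 5 =>
      displacement (xc TT i) l.1) (by
      intro l m h
      refine congrArg _ (funext fun i => ?_)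
      exact displacement_homotopic (H.cocycle i.2) (xc_self TT i) h)
  map_one' := rfl
  map_mul' := by
    rintro ⟨⟨l, hl⟩⟩ ⟨⟨m, hm⟩⟩
    have key : ∀ x : ℕ → ℕ → ℤ,
        displacement x (l ++ m.tail) = displacement x l + displacement x m := by
      intro x
      obtain ⟨A, rfl⟩ := eq_append_of_getLast? hl.2.2
      obtain ⟨B, rfl⟩ := eq_cons_of_head? hm.2.1
      have e : A ++ [p] ++ (p :: B).tail = A ++ p :: B := by simp
      rw [e, displacement_append]
    change Multiplicative.ofAdd (fun i : Fin 5 => displacement (xc TT i) (l ++ m.tail)) =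
      Multiplicative.ofAdd ((fun i : Fin 5 => displacement (xc TT i) l) +
        fun i : Fin 5 => displacement (xc TT i) m)
    refine congrArg _ (funext fun i => ?_)
    exact key _

theorem dispHom_mk (H : TabHyp TT FF PT GEN) (l : EdgeLoop (Phi FF) p) :
    dispHom H p ⟦l⟧ = Multiplicative.ofAdd fun i : Fin 5 => displacement (xc TT i) l.1 := rfl

theorem dispHom_cls (H : TabHyp TT FF PT GEN) {l : List ℕ} (h : IsLoop (Phi FF) p l) :
    dispHom H p (cls (Phi FF) p l) =
      Multiplicative.ofAdd fun i : Fin 5 => displacement (xc TT i) l := by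
  rw [cls_eq h]; rfl

theorem GrpHyp.disp_edgeG (H : GrpHyp TT FF PT GEN p) {u v : ℕ}
    (h : ({u, v} : Finset ℕ) ∈ faces (Phi FF)) :
    dispHom H.toTabHyp p (edgeG (Phi FF) p (fun v => nthD [] PT v) u v) =
      Multiplicative.ofAdd fun i : Fin 5 => xc TT i u v := by
  have hP : ∀ w, {w} ∈ faces (Phi FF) → ∀ i < 5,
      displacement (xc TT i) (nthD [] PT w) = 0 := by
    intro w hw i hi
    obtain ⟨l, h1, h2, h3⟩ := H.toPathHyp.paths (H.toFacHyp.vertex_lt hw)
    rw [h1]
    exact (pathOK_spec H.toTabHyp h2).2 i hi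
  rw [edgeG, dispHom_cls H.toTabHyp (H.toPathHyp.sys.loop h)]
  refine congrArg _ (funext fun i => ?_)
  obtain ⟨hu, hv⟩ := pair_mem h
  obtain ⟨h1, h2, h3⟩ := H.toPathHyp.sys.path u hu
  obtain ⟨h4, h5, h6⟩ := H.toPathHyp.sys.path v hv
  obtain ⟨A, hA⟩ := eq_append_of_getLast? h3
  obtain ⟨B, hB⟩ := eq_append_of_getLast? h6
  have e1 := hP u hu i i.2
  have e2 := hP v hv i i.2
  have e3 := displacement_reverse (xc_symm TT i) (nthD [] PT v)
  change displacement (xc TT i) (nthD [] PT u ++ (nthD [] PT v).reverse) = _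
  rw [e2] at e3
  rw [hA] at e1 ⊢
  rw [hB] at e3 ⊢
  have e4 : (B ++ [v]).reverse = v :: B.reverse := by simp
  rw [e4] at e3 ⊢
  have e5 : A ++ [u] ++ v :: B.reverse = A ++ u :: (v :: B.reverse) := by simp
  rw [e5, displacement_append, e1, displacement, e3]
  ring

theorem GrpHyp.disp_evalW (H : GrpHyp TT FF PT GEN p) {w : List ℕ} (hw : letFmt w = true) :
    dispHom H.toTabHyp p (evalW (genX FF PT GEN p) w) =
      Multiplicative.ofAdd fun i : Fin 5 => cnt i w := by
  have h1 : ∀ i < 5, dispHom H.toTabHyp p (genX FF PT GEN p i) =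
      Multiplicative.ofAdd fun j : Fin 5 => if i = j then 1 else 0 := by
    intro i hi
    obtain ⟨a, b, h2, h3, h4⟩ := H.gen i hi
    have h5 : ({a, b} : Finset ℕ) ∈ faces (Phi FF) := by
      cases hq : edgeP TT a b with
      | none => simp [edgeW, hq] at h4
      | some q => exact H.toTabHyp.edge_face hq
    unfold genX
    rw [h2]
    have e : ([a, b] : List ℕ).getD 0 0 = a ∧ ([a, b] : List ℕ).getD 1 0 = b := ⟨rfl, rfl⟩
    rw [e.1, e.2, H.disp_edgeG h5]
    refine congrArg _ (funext fun j => ?_)
    rw [xc_lt _ h3, h4]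
    simp [cnt]
  induction w with
  | nil => rw [evalW_nil, map_one]; rfl
  | cons x w ih =>
    simp only [letFmt, Bool.and_eq_true, Nat.blt_eq] at hw
    rw [evalW_cons, map_mul, ih hw.2]
    have h2 : dispHom H.toTabHyp p (letter (genX FF PT GEN p) x) =
        Multiplicative.ofAdd fun j : Fin 5 =>
          if x / 2 = j then (if x % 2 = 0 then (1 : ℤ) else -1) else 0 := by
      unfold letter
      by_cases hx : x % 2 = 0
      · rw [if_pos hx, h1 _ (by omega)]
        refine congrArg _ (funext fun j => ?_)
        simp [hx]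
      · rw [if_neg hx, map_inv, h1 _ (by omega)]
        change Multiplicative.ofAdd (-(fun j : Fin 5 => if x / 2 = (j : ℕ) then (1 : ℤ) else 0)) = _
        refine congrArg _ (funext fun j => ?_)
        by_cases hj : x / 2 = (j : ℕ)
        · simp [hx, hj]
        · simp [hj]
    rw [h2]
    rfl

theorem GrpHyp.path_word (H : GrpHyp TT FF PT GEN p) (l : List ℕ) (hl : IsEdgePath (Phi FF) l) :
    ∃ w, letFmt w = true ∧ prodG (Phi FF) p (fun v => nthD [] PT v) l =
      evalW (genX FF PT GEN p) w := by
  induction l with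
  | nil => exact ⟨[], rfl, rfl⟩
  | cons a l ih =>
    cases l with
    | nil => exact ⟨[], rfl, rfl⟩
    | cons b l =>
      have hc := List.isChain_cons_cons.1 hl
      obtain ⟨w, h1, h2⟩ := ih hc.2
      have key : ∃ w', letFmt w' = true ∧ edgeG (Phi FF) p (fun v => nthD [] PT v) a b =
          evalW (genX FF PT GEN p) w' := by
        rcases lt_trichotomy a b with h | h | h
        · obtain ⟨q, hq⟩ := H.toTabHyp.edge_of_face h hc.1
          obtain ⟨key, z, w, rfl, -, -, h3, -⟩ := (H.toTabHyp.edgeInfo hq).ex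
          exact ⟨w, h3, H.toPathHyp.edge_eval (key + 1) (Nat.lt_succ_self _) hq⟩
        · subst h
          exact ⟨[], rfl, H.toPathHyp.sys.edgeG_self (pair_mem hc.1).1⟩
        · have hc' : ({b, a} : Finset ℕ) ∈ faces (Phi FF) := by
            rw [Finset.pair_comm]; exact hc.1
          obtain ⟨q, hq⟩ := H.toTabHyp.edge_of_face h hc'
          obtain ⟨key, z, w, rfl, -, -, h3, -⟩ := (H.toTabHyp.edgeInfo hq).ex
          refine ⟨invw w [], letFmt_invw h3 rfl, ?_⟩
          rw [H.toPathHyp.sys.edgeG_inv hc', H.toPathHyp.edge_eval (key + 1)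
            (Nat.lt_succ_self _) hq, evalW_invw, evalW_nil, mul_one]
      obtain ⟨w', h3, h4⟩ := key
      exact ⟨w' ++ w, letFmt_append h3 h1, by rw [prodG, h4, h2, evalW_append]⟩

theorem GrpHyp.exists_word (H : GrpHyp TT FF PT GEN p) (g : EdgeGroup (Phi FF) p) :
    ∃ w, letFmt w = true ∧ g = evalW (genX FF PT GEN p) w := by
  obtain ⟨l, rfl⟩ := Quotient.exists_rep g
  rw [H.toPathHyp.sys.mk_eq_prodG l]
  exact H.path_word l.1 l.2.1

theorem GrpHyp.disp_bijective (H : GrpHyp TT FF PT GEN p) :
    Function.Bijective (dispHom H.toTabHyp p) := by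
  constructor
  · rw [injective_iff_map_eq_one]
    intro g hg
    obtain ⟨w, h1, rfl⟩ := H.exists_word g
    rw [H.disp_evalW h1] at hg
    refine evalW_eq_one _ H.comm h1 ?_
    intro i hi
    have : (fun i : Fin 5 => cnt i w) = 0 := hg
    exact congrFun this ⟨i, hi⟩
  · intro n
    have h1 : ∀ (i : ℕ) (hi : i < 5), dispHom H.toTabHyp p (genX FF PT GEN p i) =
        Multiplicative.ofAdd (Pi.single (⟨i, hi⟩ : Fin 5) 1) := by
      intro i hi
      have := H.disp_evalW (w := [2 * i]) (by simp [Pool.Agent.GeoZ5.letFmt]; omega)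
      rw [evalW_cons, evalW_nil, mul_one] at this
      have e : letter (genX FF PT GEN p) (2 * i) = genX FF PT GEN p i := by
        simp [letter]
      rw [e] at this
      rw [this]
      refine congrArg _ (funext fun j => ?_)
      by_cases hj : i = (j : ℕ)
      · subst hj; simp [cnt]
      · have : (⟨i, hi⟩ : Fin 5) ≠ j := fun h => hj (by rw [← h])
        simp [cnt, hj, Ne.symm this]
    refine ⟨(List.ofFn fun i : Fin 5 => genX FF PT GEN p i ^ (Multiplicative.toAdd n i)).prod, ?_⟩
    rw [map_list_prod, List.map_ofFn]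
    have e : (⇑(dispHom H.toTabHyp p) ∘ fun i : Fin 5 =>
        genX FF PT GEN p i ^ (Multiplicative.toAdd n i)) = fun i : Fin 5 =>
          Multiplicative.ofAdd (Pi.single i (Multiplicative.toAdd n i)) := by
      funext i
      simp only [Function.comp_apply, map_zpow]
      rw [h1 i i.2, ← ofAdd_zsmul]
      refine congrArg _ ?_
      rw [← Pi.single_smul]
      simp
    rw [e, List.prod_ofFn, ← ofAdd_sum]
    have : ∑ i : Fin 5, Pi.single i (Multiplicative.toAdd n i) = Multiplicative.toAdd n :=
      Finset.univ_sum_single _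
    rw [this]
    rfl

/-- The isomorphism of the edge-path group with `ℤ⁵`. -/
theorem GrpHyp.iso (H : GrpHyp TT FF PT GEN p) :
    ∃ e : EdgeGroup (Phi FF) p ≃* Multiplicative (Fin 5 → ℤ), ∀ l : EdgeLoop (Phi FF) p,
      e ⟦l⟧ = Multiplicative.ofAdd fun i : Fin 5 => displacement (xc TT i) l.1 :=
  ⟨MulEquiv.ofBijective (dispHom H.toTabHyp p) H.disp_bijective, fun _ => rfl⟩

end Pool.Agent.GeoZ5
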