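import Pool.Agent.GeoZ5.Sound4
import Pool.Agent.GeoZ5.Sound7
import Pool.Agent.GeoZ5.Sound12

/-!
Assembly, for general tables.
-/

namespace Pool.Agent.GeoZ5

open Finset

variable {TT : Table} {FF : List (List (List ℕ))} {PT GEN : List (List ℕ)} {p : ℕ}

theorem TabHyp.toPath (H : TabHyp TT FF PT GEN)
    (path : ((List.range 52).all fun v => pathOK' TT p v (nthD [] PT v)) = true)
    (base : leq (nthD [] PT p) [p] = true) (hp : p < 52) (hv : vtxOK FF 52 = true) :
    PathHyp TT FF PT GEN p where
  toTabHyp := H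
  path := fun v hv => List.all_eq_true.1 path v (List.mem_range.2 hv)
  base := base
  hp := hp
  hp' := vtxOK_spec hv hp

theorem gen_spec (gen : ((List.range 5).all fun i => match nthD [] GEN i with
    | [a, b] => leq (edgeW TT a b) [2 * i] && Nat.blt a b
    | _ => false) = true) (i : ℕ) (hi : i < 5) :
    ∃ a b, nthD [] GEN i = [a, b] ∧ a < b ∧ edgeW TT a b = [2 * i] := by
  have h := List.all_eq_true.1 gen i (List.mem_range.2 hi)
  match hg : nthD [] GEN i, h with
  | [a, b], h =>
    simp only [Bool.and_eq_true, Nat.blt_eq] at h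
    exact ⟨a, b, rfl, h.2, leq_spec h.1⟩

/-- Certificates for the commutation of the ten pairs of generators. -/
structure CommCert (TT : Table) (COMM : List (List (List ℕ))) : Prop where
  c01 : commOK TT 0 1 (nthD [] COMM 0) = true
  c02 : commOK TT 0 2 (nthD [] COMM 1) = true
  c03 : commOK TT 0 3 (nthD [] COMM 2) = true
  c04 : commOK TT 0 4 (nthD [] COMM 3) = true
  c12 : commOK TT 1 2 (nthD [] COMM 4) = true
  c13 : commOK TT 1 3 (nthD [] COMM 5) = true
  c14 : commOK TT 1 4 (nthD [] COMM 6) = true
  c23 : commOK TT 2 3 (nthD [] COMM 7) = true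
  c24 : commOK TT 2 4 (nthD [] COMM 8) = true
  c34 : commOK TT 3 4 (nthD [] COMM 9) = true

theorem PathHyp.toGrp (H : PathHyp TT FF PT GEN p) {COMM : List (List (List ℕ))}
    (gen : ((List.range 5).all fun i => match nthD [] GEN i with
    | [a, b] => leq (edgeW TT a b) [2 * i] && Nat.blt a b
    | _ => false) = true) (C : CommCert TT COMM) : GrpHyp TT FF PT GEN p where
  toPathHyp := H
  gen := gen_spec gen
  comm := by
    intro i hi j hj
    have c01 := H.commute C.c01
    have c02 := H.commute C.c02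
    have c03 := H.commute C.c03
    have c04 := H.commute C.c04
    have c12 := H.commute C.c12
    have c13 := H.commute C.c13
    have c14 := H.commute C.c14
    have c23 := H.commute C.c23
    have c24 := H.commute C.c24
    have c34 := H.commute C.c34
    interval_cases i <;> interval_cases j <;>
    first
    | exact Commute.refl _
    | assumption
    | (apply Commute.symm; assumption)

/-! ### The class -/

theorem eps_perm : ∀ σ : Equiv.Perm (Fin 5), σ 4 = 0 →
    eps (σ 0) (σ 1) (σ 2) (σ 3) = (Equiv.Perm.sign σ : ℤ) := by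
  decide +kernel

theorem eps_zero : ∀ i j l m : Fin 5, ¬ Function.Injective ![i, j, l, m, 0] →
    eps i j l m = 0 := by
  decide +kernel

theorem eps_eq (i j l m : Fin 5) : eps i j l m = torusValue i j l m := by
  by_cases h : Function.Injective ![i, j, l, m, 0]
  · let σ : Equiv.Perm (Fin 5) := Equiv.ofBijective _ (Finite.injective_iff_bijective.1 h)
    have h1 : torusValue i j l m = (Equiv.Perm.sign σ : ℤ) := by
      have h2 := Matrix.det_permutation (R := ℤ) σ
      rw [Int.cast_id] at h2
      rw [← h2, torusValue]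
      congr 1
      ext r c
      simp [σ, eq_comm]
    rw [h1, ← eps_perm σ rfl]
    rfl
  · rw [eps_zero i j l m h]
    unfold Function.Injective at h
    push Not at h
    obtain ⟨r, s, hrs, hne⟩ := h
    rw [torusValue, Matrix.det_zero_of_row_eq hne]
    ext c
    simp only [Matrix.of_apply, hrs]

/-- The triangulated manifold. -/
theorem model_of (G : GrpHyp TT FF PT GEN p) (S : SigHyp TT FF PT GEN)
    (L : ∀ v < 52, IsPLSphere 3 (link (Phi FF) v)) :
    IsModel (Phi FF) (ori FF) p (fun i => xc TT i) 2 where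
  closed := by
    refine ⟨?_, ?_⟩
    · intro σ hσ
      obtain ⟨f, hf, rfl⟩ := mem_Phi.1 hσ
      obtain ⟨s, a, b, c, d, e, h⟩ := S.toFacHyp.fac hf
      exact h.card_eq
    · intro v hv
      exact L v (S.toFacHyp.vertex_lt hv)
  base := G.toPathHyp.hp'
  connected := by
    intro v hv
    obtain ⟨h1, h2, h3⟩ := G.toPathHyp.sys.path v hv
    exact ⟨_, h1, h2, h3⟩
  cycle := S.toFacHyp.fundamental S.tets
  cocycle := fun i => S.toTabHyp.cocycle i.2
  iso := G.iso
  image := by
    intro i j l m
    rw [S.toTabHyp.cup4_eq S.nfac S.cup i.2 j.2 l.2 m.2, eps_eq]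

/-- The general form of the conclusion. -/
theorem concl (G : GrpHyp TT FF PT GEN p) (S : SigHyp TT FF PT GEN)
    (L : ∀ v < 52, IsPLSphere 3 (link (Phi FF) v)) :
    ∃ (Φ : Cplx) (o : Finset ℕ → ℤ) (p : ℕ) (x : Fin 5 → ℕ → ℕ → ℤ),
      IsModel Φ o p x 2 ∧ signature Φ o = -4 ∧ eulerChar Φ = 14 :=
  ⟨Phi FF, ori FF, p, _, model_of G S L, S.signature_eq,
    S.toTabHyp.euler S.vtx S.tabE S.tabT S.tets S.nfac⟩

end Pool.Agent.GeoZ5
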