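import Pool.Agent.GeoZ5.Check

/-!
Soundness of the look-ups and of masks.
-/

namespace Pool.Agent.GeoZ5

theorem nthK_spec {α : Type} {k : α → Bool} (d : α) {l : List α} {n : ℕ}
    (h : nthK k l n = true) : k (nthD d l n) = true ∧ n < l.length := by
  induction l generalizing n with
  | nil => simp [nthK] at h
  | cons a l ih =>
    cases n with
    | zero => exact ⟨by simpa [nthK, nthD] using h, by simp⟩
    | succ n =>
      obtain ⟨h1, h2⟩ := ih (n := n) (by simpa [nthK] using h)
      exact ⟨by simpa [nthD] using h1, by simpa using h2⟩

theorem nthD_mem {α : Type} (d : α) {l : List α} {n : ℕ} (h : n < l.length) :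
    nthD d l n ∈ l := by
  induction l generalizing n with
  | nil => simp at h
  | cons a l ih =>
    cases n with
    | zero => simp [nthD]
    | succ n => exact List.mem_cons_of_mem _ (ih (by simpa using h))

theorem nthD_eq {α : Type} (d : α) {l : List α} {n : ℕ} : nthD d l n = l.getD n d := by
  induction l generalizing n with
  | nil => simp [nthD]
  | cons a l ih =>
    cases n with
    | zero => simp [nthD]
    | succ n => simpa [nthD] using ih (n := n)

theorem nthD_of_le {α : Type} (d : α) {l : List α} {n : ℕ} (h : l.length ≤ n) :
    nthD d l n = d := by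
  rw [nthD_eq, List.getD_eq_default _ _ h]

theorem findK_spec {key : ℕ} {k : List ℕ → Bool} {l : List (List ℕ)}
    (h : findK key k l = true) : ∃ t, find key l = some t ∧ k t = true := by
  induction l with
  | nil => simp [findK] at h
  | cons e l ih =>
    cases e with
    | nil => simp [findK] at h
    | cons x t =>
      cases hx : Nat.beq x key with
      | true => exact ⟨t, by simp [find, hx], by simpa [findK, hx] using h⟩
      | false =>
        obtain ⟨t', h1, h2⟩ := ih (by simpa [findK, hx] using h)
        exact ⟨t', by simpa [find, hx] using h1, h2⟩

theorem find_mem {key : ℕ} {l : List (List ℕ)} {t : List ℕ} (h : find key l = some t) :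
    (key :: t) ∈ l := by
  induction l with
  | nil => simp [find] at h
  | cons e l ih =>
    cases e with
    | nil => simp [find] at h
    | cons x t' =>
      cases hx : Nat.beq x key with
      | true =>
        have : x = key := Nat.eq_of_beq_eq_true hx
        subst this
        have : t' = t := by simpa [find, hx] using h
        subst this
        exact List.mem_cons_self
      | false => exact List.mem_cons_of_mem _ (ih (by simpa [find, hx] using h))

theorem findBK_spec {key : ℕ} {k : List ℕ → List (List ℕ) → Bool} {l : Row}
    (h : findBK key k l = true) : ∃ q, findB key l = some q ∧ k q.1 q.2 = true := by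
  induction l with
  | nil => simp [findBK] at h
  | cons blk l ih =>
    cases blk with
    | nil => simp [findBK] at h
    | cons hd ents =>
      cases hd with
      | nil => simp [findBK] at h
      | cons x p =>
        cases hx : Nat.beq x key with
        | true => exact ⟨(p, ents), by simp [findB, hx], by simpa [findBK, hx] using h⟩
        | false =>
          obtain ⟨q, h1, h2⟩ := ih (by simpa [findBK, hx] using h)
          exact ⟨q, by simpa [findB, hx] using h1, h2⟩

theorem findB_mem {key : ℕ} {l : Row} {q : List ℕ × List (List ℕ)} (h : findB key l = some q) :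
    ((key :: q.1) :: q.2) ∈ l := by
  induction l with
  | nil => simp [findB] at h
  | cons blk l ih =>
    cases blk with
    | nil => simp [findB] at h
    | cons hd ents =>
      cases hd with
      | nil => simp [findB] at h
      | cons x p =>
        cases hx : Nat.beq x key with
        | true =>
          have : x = key := Nat.eq_of_beq_eq_true hx
          subst this
          have : (p, ents) = q := by simpa [findB, hx] using h
          subst this
          exact List.mem_cons_self
        | false => exact List.mem_cons_of_mem _ (ih (by simpa [findB, hx] using h))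

theorem edgeK_spec {TT : Table} {a b : ℕ} {k : List ℕ → Bool} (h : edgeK TT a b k = true) :
    ∃ p, edgeP TT a b = some p ∧ k p = true := by
  obtain ⟨h1, -⟩ := nthK_spec [] h
  obtain ⟨q, h2, h3⟩ := findBK_spec h1
  exact ⟨q.1, by simp [edgeP, h2], h3⟩

theorem triK_spec {TT : Table} {a b c : ℕ} {k : List ℕ → Bool} (h : triK TT a b c k = true) :
    ∃ p, triP TT a b c = some p ∧ k p = true := by
  obtain ⟨h1, -⟩ := nthK_spec [] h
  obtain ⟨q, h2, h3⟩ := findBK_spec h1
  obtain ⟨p, h4, h5⟩ := findK_spec h3
  exact ⟨p, by simp [triP, h2, h4], h5⟩

/-! ### Masks -/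

theorem msk_testBit (l : List ℕ) (i : ℕ) : (msk l).testBit i = decide (i ∈ l) := by
  induction l with
  | nil => simp [msk]
  | cons a l ih =>
    have h : msk (a :: l) = (2 ^ a) ||| (msk l) := rfl
    rw [h, Nat.testBit_or, ih, Nat.testBit_two_pow]
    by_cases h1 : i = a
    · subst h1; simp
    · have : ¬ a = i := fun h => h1 h.symm
      simp [h1, this]

theorem msk_congr {l m : List ℕ} (h : ∀ i, i ∈ l ↔ i ∈ m) : msk l = msk m := by
  apply Nat.eq_of_testBit_eq
  intro i
  rw [msk_testBit, msk_testBit]
  simp [h i]

/-- The set of bits below 52 of a number. -/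
def bits (m : ℕ) : Finset ℕ := (Finset.range 52).filter fun i => m.testBit i = true

theorem mem_bits {m i : ℕ} : i ∈ bits m ↔ i < 52 ∧ m.testBit i = true := by
  simp [bits]

theorem land_eq_iff {a m : ℕ} : Nat.land a m = a ↔ ∀ i, a.testBit i = true → m.testBit i = true := by
  constructor
  · intro h i hi
    have : (Nat.land a m).testBit i = true := by rw [h]; exact hi
    have e : Nat.land a m = a &&& m := rfl
    rw [e, Nat.testBit_and] at this
    simp at this
    exact this.2
  · intro h
    apply Nat.eq_of_testBit_eq
    intro i
    have e : Nat.land a m = a &&& m := rfl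
    rw [e, Nat.testBit_and]
    cases ha : a.testBit i with
    | false => simp
    | true => simp [h i ha]

theorem land_msk_eq {l : List ℕ} {m : ℕ} :
    Nat.land (msk l) m = msk l ↔ ∀ i ∈ l, m.testBit i = true := by
  rw [land_eq_iff]
  constructor
  · intro h i hi
    exact h i (by rw [msk_testBit]; simpa using hi)
  · intro h i hi
    exact h i (by rw [msk_testBit] at hi; simpa using hi)

end Pool.Agent.GeoZ5
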