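import Pool.Agent.GeoZ5.Defs

/-!
The edge-path group: generators from a system of paths.
-/

namespace Pool.Agent.GeoZ5

open Finset

variable {Φ : Cplx} {p : ℕ}

/-- Closed edge paths as a predicate. -/
def IsLoop (Φ : Cplx) (p : ℕ) (l : List ℕ) : Prop :=
  IsEdgePath Φ l ∧ l.head? = some p ∧ l.getLast? = some p

open Classical in
/-- The class of a list (trivial if it is not a closed edge path). -/
noncomputable def cls (Φ : Cplx) (p : ℕ) (l : List ℕ) : EdgeGroup Φ p :=
  if h : IsLoop Φ p l then (⟦(⟨l, h⟩ : EdgeLoop Φ p)⟧ : EdgeGroup Φ p) else 1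

theorem cls_eq {l : List ℕ} (h : IsLoop Φ p l) :
    cls Φ p l = (⟦(⟨l, h⟩ : EdgeLoop Φ p)⟧ : EdgeGroup Φ p) := by
  simp [cls, h]

theorem cls_congr {l m : List ℕ} (hl : IsLoop Φ p l) (hm : IsLoop Φ p m)
    (h : EdgeHomotopic Φ l m) : cls Φ p l = cls Φ p m := by
  rw [cls_eq hl, cls_eq hm]
  exact Quotient.sound h

theorem IsLoop.mul {l m : List ℕ} (hl : IsLoop Φ p l) (hm : IsLoop Φ p m) :
    IsLoop Φ p (l ++ m.tail) :=
  (EdgeLoop.mul (⟨l, hl⟩ : EdgeLoop Φ p) ⟨m, hm⟩).2

theorem cls_mul {l m : List ℕ} (hl : IsLoop Φ p l) (hm : IsLoop Φ p m) :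
    cls Φ p l * cls Φ p m = cls Φ p (l ++ m.tail) := by
  rw [cls_eq hl, cls_eq hm, cls_eq (hl.mul hm)]
  rfl

theorem cls_singleton : cls Φ p [p] = 1 := by
  have h : IsLoop Φ p [p] := ⟨List.isChain_singleton _, rfl, rfl⟩
  rw [cls_eq h]
  rfl

theorem eq_append_of_getLast? {l : List ℕ} {u : ℕ} (h : l.getLast? = some u) :
    ∃ A, l = A ++ [u] := by
  rcases List.eq_nil_or_concat l with rfl | ⟨A, b, rfl⟩
  · simp at h
  · exact ⟨A, by simpa using h⟩

theorem eq_cons_of_head? {l : List ℕ} {u : ℕ} (h : l.head? = some u) : ∃ A, l = u :: A := by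
  cases l with
  | nil => simp at h
  | cons a A => exact ⟨A, by simpa using h⟩

theorem IsEdgePath.reverse {l : List ℕ} (h : IsEdgePath Φ l) : IsEdgePath Φ l.reverse := by
  rw [IsEdgePath, List.isChain_reverse]
  refine List.IsChain.imp ?_ h
  intro a b hab
  rwa [Finset.pair_comm]

theorem EdgeHomotopic.backtrack' {l : List ℕ} {v : ℕ} (h : IsEdgePath Φ l)
    (hv : l.getLast? = some v) : EdgeHomotopic Φ (l.reverse ++ l.tail) [v] := by
  cases l with
  | nil => simp at hv
  | cons a l =>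
    have := EdgeHomotopic.backtrack a l h
    have e : (a :: l).getLast (by simp) = v := by
      have h2 := List.getLast?_eq_some_getLast (l := a :: l) (by simp)
      rw [h2] at hv
      simpa using hv
    rw [e] at this
    exact this

/-- A system of edge paths from `p` to all vertices. -/
structure PathSys (Φ : Cplx) (p : ℕ) (P : ℕ → List ℕ) : Prop where
  path : ∀ v, {v} ∈ faces Φ → IsEdgePath Φ (P v) ∧ (P v).head? = some p ∧
    (P v).getLast? = some v
  base : P p = [p]
  mem : {p} ∈ faces Φ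

theorem pair_mem {u v : ℕ} (h : ({u, v} : Finset ℕ) ∈ faces Φ) :
    {u} ∈ faces Φ ∧ {v} ∈ faces Φ := by
  simp only [faces, Finset.mem_erase, Finset.mem_biUnion, Finset.mem_powerset] at h ⊢
  obtain ⟨-, σ, hσ, hs⟩ := h
  refine ⟨⟨by simp, σ, hσ, ?_⟩, ⟨by simp, σ, hσ, ?_⟩⟩
  · intro x hx; apply hs; simp at hx; simp [hx]
  · intro x hx; apply hs; simp at hx; simp [hx]

theorem tri_mem {u v w : ℕ} (h : ({u, v, w} : Finset ℕ) ∈ faces Φ) :
    ({u, v} : Finset ℕ) ∈ faces Φ ∧ ({v, w} : Finset ℕ) ∈ faces Φ ∧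
      ({u, w} : Finset ℕ) ∈ faces Φ := by
  simp only [faces, Finset.mem_erase, Finset.mem_biUnion, Finset.mem_powerset] at h ⊢
  obtain ⟨-, σ, hσ, hs⟩ := h
  refine ⟨⟨by simp, σ, hσ, ?_⟩, ⟨by simp, σ, hσ, ?_⟩, ⟨by simp, σ, hσ, ?_⟩⟩
  all_goals
    intro x hx
    apply hs
    simp only [Finset.mem_insert, Finset.mem_singleton] at hx ⊢
    tauto

variable {P : ℕ → List ℕ}

theorem PathSys.loop (S : PathSys Φ p P) {u v : ℕ} (h : ({u, v} : Finset ℕ) ∈ faces Φ) :
    IsLoop Φ p (P u ++ (P v).reverse) := by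
  obtain ⟨h1, h2, h3⟩ := S.path u (pair_mem h).1
  obtain ⟨h4, h5, h6⟩ := S.path v (pair_mem h).2
  refine ⟨?_, ?_, ?_⟩
  · refine List.isChain_append.2 ⟨h1, h4.reverse, ?_⟩
    intro x hx y hy
    rw [h3] at hx
    rw [List.head?_reverse, h6] at hy
    obtain rfl : u = x := by simpa using hx
    obtain rfl : v = y := by simpa using hy
    exact h
  · rw [List.head?_append, h2]; rfl
  · rw [List.getLast?_append, List.getLast?_reverse, h5]; rfl

/-- The element of the edge-path group given by an edge. -/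
noncomputable def edgeG (Φ : Cplx) (p : ℕ) (P : ℕ → List ℕ) (u v : ℕ) : EdgeGroup Φ p :=
  cls Φ p (P u ++ (P v).reverse)

theorem PathSys.edgeG_mul (S : PathSys Φ p P) {u v w : ℕ}
    (h : ({u, v, w} : Finset ℕ) ∈ faces Φ) :
    edgeG Φ p P u v * edgeG Φ p P v w = edgeG Φ p P u w := by
  obtain ⟨huv, hvw, huw⟩ := tri_mem h
  unfold edgeG
  rw [cls_mul (S.loop huv) (S.loop hvw)]
  refine cls_congr ((S.loop huv).mul (S.loop hvw)) (S.loop huw) ?_
  obtain ⟨h1, h2, h3⟩ := S.path u (pair_mem huv).1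
  obtain ⟨h4, h5, h6⟩ := S.path v (pair_mem huv).2
  obtain ⟨h7, h8, h9⟩ := S.path w (pair_mem hvw).2
  obtain ⟨A, hA⟩ := eq_append_of_getLast? h3
  obtain ⟨B, hB⟩ := eq_append_of_getLast? h9
  have e1 : (P v ++ (P w).reverse).tail = (P v).tail ++ (P w).reverse := by
    obtain ⟨C, hC⟩ := eq_cons_of_head? h5
    rw [hC]; simp
  rw [e1]
  have e2 : P u ++ (P v).reverse ++ ((P v).tail ++ (P w).reverse) =
      P u ++ ((P v).reverse ++ (P v).tail) ++ (P w).reverse := by simp
  rw [e2]
  have h10 := ((EdgeHomotopic.backtrack' h4 h6).append_left (P u)).append_right (P w).reverse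
  refine h10.trans ?_
  rw [hA, hB]
  have := EdgeHomotopic.triangle (Φ := Φ) A B.reverse u v w h
  simpa using this

theorem PathSys.edgeG_tree (S : PathSys Φ p P) {u v : ℕ}
    (h : ({u, v} : Finset ℕ) ∈ faces Φ) (hP : P v = P u ++ [v]) :
    edgeG Φ p P u v = 1 := by
  unfold edgeG
  rw [← cls_singleton]
  refine cls_congr (S.loop h) ⟨List.isChain_singleton _, rfl, rfl⟩ ?_
  obtain ⟨h1, h2, h3⟩ := S.path u (pair_mem h).1
  obtain ⟨A, hA⟩ := eq_append_of_getLast? h3
  have h4 : ({u, v, u} : Finset ℕ) ∈ faces Φ := by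
    have : ({u, v, u} : Finset ℕ) = {u, v} := by
      ext x; simp only [Finset.mem_insert, Finset.mem_singleton]; tauto
    rwa [this]
  have s1 := EdgeHomotopic.triangle (Φ := Φ) A A.reverse u v u h4
  have s2 := EdgeHomotopic.stay (Φ := Φ) A A.reverse u
  have e1 : P u ++ (P v).reverse = A ++ [u, v, u] ++ A.reverse := by
    rw [hP, hA]; simp
  rw [e1]
  refine s1.trans (s2.trans ?_)
  have h5 := EdgeHomotopic.backtrack' (v := p) h1.reverse (by rw [List.getLast?_reverse, h2])
  have e2 : (P u).reverse.reverse ++ (P u).reverse.tail = A ++ [u] ++ A.reverse := by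
    rw [hA]; simp
  rw [e2] at h5
  exact h5

theorem PathSys.edgeG_self (S : PathSys Φ p P) {u : ℕ} (h : {u} ∈ faces Φ) :
    edgeG Φ p P u u = 1 := by
  have h1 : ({u, u, u} : Finset ℕ) ∈ faces Φ := by simpa using h
  have := S.edgeG_mul h1
  exact mul_eq_left.1 this

theorem PathSys.edgeG_inv (S : PathSys Φ p P) {u v : ℕ}
    (h : ({u, v} : Finset ℕ) ∈ faces Φ) :
    edgeG Φ p P v u = (edgeG Φ p P u v)⁻¹ := by
  have h4 : ({u, v, u} : Finset ℕ) ∈ faces Φ := by
    have : ({u, v, u} : Finset ℕ) = {u, v} := by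
      ext x; simp only [Finset.mem_insert, Finset.mem_singleton]; tauto
    rwa [this]
  have := S.edgeG_mul h4
  rw [S.edgeG_self (pair_mem h).1] at this
  exact eq_inv_of_mul_eq_one_right this

/-- Product of the edge elements along a path. -/
noncomputable def prodG (Φ : Cplx) (p : ℕ) (P : ℕ → List ℕ) : List ℕ → EdgeGroup Φ p
  | u :: v :: l => edgeG Φ p P u v * prodG Φ p P (v :: l)
  | _ => 1

theorem PathSys.aux_loop (S : PathSys Φ p P) {a b : ℕ} {l : List ℕ}
    (hl : IsEdgePath Φ (a :: l)) (ha : {a} ∈ faces Φ) (hb : {b} ∈ faces Φ)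
    (hlast : (a :: l).getLast? = some b) :
    IsLoop Φ p (P a ++ l ++ (P b).reverse.tail) := by
  obtain ⟨h1, h2, h3⟩ := S.path a ha
  obtain ⟨h4, h5, h6⟩ := S.path b hb
  obtain ⟨A, hA⟩ := eq_append_of_getLast? h3
  obtain ⟨B, hB⟩ := eq_append_of_getLast? h6
  have h7 : IsEdgePath Φ (P a ++ l) := by
    refine List.isChain_append.2 ⟨h1, hl.tail, ?_⟩
    intro x hx y hy
    rw [h3] at hx
    obtain rfl : a = x := by simpa using hx
    obtain ⟨l', rfl⟩ := eq_cons_of_head? hy
    exact (List.isChain_cons_cons.1 hl).1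
  have h8 : (P a ++ l).getLast? = some b := by
    rw [hA, List.append_assoc, List.singleton_append, List.getLast?_append, hlast]
    rfl
  have h9 : (P b).reverse = b :: B.reverse := by rw [hB]; simp
  have h10 : (P b).reverse.tail = B.reverse := by rw [h9]; rfl
  refine ⟨?_, ?_, ?_⟩
  · refine List.isChain_append.2 ⟨h7, h4.reverse.tail, ?_⟩
    intro x hx y hy
    rw [h8] at hx
    obtain rfl : b = x := by simpa using hx
    rw [h10] at hy
    obtain ⟨l', hl'⟩ := eq_cons_of_head? hy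
    have := h4.reverse
    rw [h9, hl'] at this
    exact (List.isChain_cons_cons.1 this).1
  · rw [List.append_assoc, List.head?_append, h2]; rfl
  · rw [h10, List.getLast?_append, h8, List.getLast?_reverse]
    rw [hB] at h5
    cases B with
    | nil =>
      have : b = p := by simpa using h5
      simp [this]
    | cons x B =>
      have : x = p := by simpa using h5
      simp [this]

theorem PathSys.cls_eq_prodG (S : PathSys Φ p P) {a b : ℕ} {l : List ℕ}
    (hl : IsEdgePath Φ (a :: l)) (ha : {a} ∈ faces Φ) (hb : {b} ∈ faces Φ)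
    (hlast : (a :: l).getLast? = some b) :
    cls Φ p (P a ++ l ++ (P b).reverse.tail) = prodG Φ p P (a :: l) := by
  induction l generalizing a with
  | nil =>
    obtain rfl : a = b := by simpa using hlast
    obtain ⟨h1, h2, h3⟩ := S.path a ha
    have h5 := EdgeHomotopic.backtrack' (v := p) h1.reverse (by rw [List.getLast?_reverse, h2])
    rw [List.reverse_reverse] at h5
    have e : P a ++ [] ++ (P a).reverse.tail = P a ++ (P a).reverse.tail := by simp
    rw [e]
    have h6 := S.aux_loop hl ha hb hlast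
    rw [e] at h6
    rw [cls_congr h6 ⟨List.isChain_singleton _, rfl, rfl⟩ h5, cls_singleton]
    rfl
  | cons c l ih =>
    have hc := List.isChain_cons_cons.1 hl
    have hcm := (pair_mem hc.1).2
    have hlast' : (c :: l).getLast? = some b := by
      simpa [List.getLast?_cons_cons] using hlast
    have h1 := ih hc.2 hcm hlast'
    have h2 := S.aux_loop hc.2 hcm hb hlast'
    have h3 := S.aux_loop hl ha hb hlast
    rw [prodG, ← h1, edgeG, cls_mul (S.loop hc.1) h2]
    refine cls_congr h3 ((S.loop hc.1).mul h2) (EdgeHomotopic.symm ?_)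
    obtain ⟨h4, h5, h6⟩ := S.path c hcm
    have e1 : P a ++ (P c).reverse ++ (P c ++ l ++ (P b).reverse.tail).tail =
        P a ++ ((P c).reverse ++ (P c).tail) ++ (l ++ (P b).reverse.tail) := by
      obtain ⟨C, hC⟩ := eq_cons_of_head? h5
      rw [hC]; simp
    have e2 : P a ++ c :: l ++ (P b).reverse.tail = P a ++ [c] ++ (l ++ (P b).reverse.tail) := by
      simp
    rw [e1, e2]
    exact ((EdgeHomotopic.backtrack' h4 h6).append_left (P a)).append_right _

/-- Each element of the edge-path group is the product of edge elements along a closed path. -/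
theorem PathSys.mk_eq_prodG (S : PathSys Φ p P) (l : EdgeLoop Φ p) :
    (⟦l⟧ : EdgeGroup Φ p) = prodG Φ p P l.1 := by
  obtain ⟨l, hl⟩ := l
  obtain ⟨h1, h2, h3⟩ := id hl
  obtain ⟨A, rfl⟩ := eq_cons_of_head? h2
  have := S.cls_eq_prodG h1 S.mem S.mem h3
  rw [S.base] at this
  have e : [p] ++ A ++ [p].reverse.tail = p :: A := by simp
  rw [e, cls_eq hl] at this
  exact this

end Pool.Agent.GeoZ5
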