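import Pool.Agent.GeoZ5.Sound3
import Pool.Agent.GeoZ5.Sound5

/-!
Words for the edges, commutation of the generators.
-/

namespace Pool.Agent.GeoZ5

open Finset

/-! ### Evaluation of words -/

section Eval

variable {G : Type*} [Group G] (X : ℕ → G)

/-- The group element of a letter. -/
def letter (x : ℕ) : G := if x % 2 = 0 then X (x / 2) else (X (x / 2))⁻¹

/-- The group element of a word. -/
def evalW (l : List ℕ) : G := (l.map (letter X)).prod

theorem flipl_div (x : ℕ) : flipl x / 2 = x / 2 := by
  change (x ^^^ 1) / 2 = x / 2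
  rw [Nat.xor_div_two]
  simp

theorem flipl_mod (x : ℕ) : flipl x % 2 = 1 - x % 2 := by
  change (x ^^^ 1) % 2 = 1 - x % 2
  have h : (x ^^^ 1) % 2 = 1 ↔ ¬ ((x % 2 = 1) ↔ (1 % 2 = 1)) := Nat.xor_mod_two_eq_one
  have h2 : (x ^^^ 1) % 2 < 2 := Nat.mod_lt _ (by norm_num)
  have h3 : x % 2 < 2 := Nat.mod_lt _ (by norm_num)
  by_cases hx : x % 2 = 1
  · have : ¬ (x ^^^ 1) % 2 = 1 := by rw [h]; simp [hx]
    omega
  · have : (x ^^^ 1) % 2 = 1 := by rw [h]; simp [hx]
    omega

theorem letter_flipl (x : ℕ) : letter X (flipl x) = (letter X x)⁻¹ := by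
  unfold letter
  rw [flipl_div, flipl_mod]
  have h3 : x % 2 < 2 := Nat.mod_lt _ (by norm_num)
  by_cases hx : x % 2 = 0
  · simp [hx]
  · have : x % 2 = 1 := by omega
    simp [this]

theorem evalW_nil : evalW X [] = 1 := rfl

theorem evalW_cons (x : ℕ) (l : List ℕ) : evalW X (x :: l) = letter X x * evalW X l := by
  simp [evalW]

theorem evalW_append (l m : List ℕ) : evalW X (l ++ m) = evalW X l * evalW X m := by
  simp [evalW]

theorem evalW_invw (l acc : List ℕ) : evalW X (invw l acc) = (evalW X l)⁻¹ * evalW X acc := by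
  induction l generalizing acc with
  | nil => simp [invw, evalW_nil]
  | cons x l ih => rw [invw, ih, evalW_cons, evalW_cons, letter_flipl]; group

theorem evalW_redw (l acc : List ℕ) :
    evalW X (redw l acc).reverse = evalW X acc.reverse * evalW X l := by
  induction l generalizing acc with
  | nil => simp [redw, evalW_nil]
  | cons x l ih =>
    cases acc with
    | nil => rw [redw, ih]; simp [evalW_cons, evalW_nil]
    | cons y acc =>
      unfold redw
      dsimp only
      cases hy : Nat.beq y (flipl x) with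
      | true =>
        have hy' := Nat.eq_of_beq_eq_true hy
        change evalW X (redw l acc).reverse = _
        rw [ih, hy', List.reverse_cons, evalW_append, evalW_cons, evalW_cons, letter_flipl,
          evalW_nil]
        group
      | false =>
        change evalW X (redw l (x :: y :: acc)).reverse = _
        rw [ih]
        simp [evalW_append, evalW_cons, evalW_nil, mul_assoc]

theorem leq_spec {l m : List ℕ} (h : leq l m = true) : l = m := by
  induction l generalizing m with
  | nil =>
    cases m with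
    | nil => rfl
    | cons y m => simp [leq] at h
  | cons x l ih =>
    cases m with
    | nil => simp [leq] at h
    | cons y m =>
      unfold leq at h
      cases hx : Nat.beq x y with
      | true =>
        rw [hx] at h
        rw [Nat.eq_of_beq_eq_true hx, ih h]
      | false => rw [hx] at h; simp at h

theorem evalW_eq_of_redw {l m : List ℕ} (h : leq (redw l []) (redw m []) = true) :
    evalW X l = evalW X m := by
  have h1 := evalW_redw X l []
  have h2 := evalW_redw X m []
  rw [leq_spec h] at h1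
  rw [h1] at h2
  simpa [evalW_nil] using h2

end Eval

/-! ### Exponents -/

/-- Exponent sum of the `i`-th generator. -/
def cnt (i : ℕ) : List ℕ → ℤ
  | [] => 0
  | x :: l => (if x / 2 = i then (if x % 2 = 0 then 1 else -1) else 0) + cnt i l

theorem cnt_append (i : ℕ) (l m : List ℕ) : cnt i (l ++ m) = cnt i l + cnt i m := by
  induction l with
  | nil => simp [cnt]
  | cons x l ih => simp [cnt, ih, add_assoc]

theorem cnt_invw (i : ℕ) (l acc : List ℕ) : cnt i (invw l acc) = - cnt i l + cnt i acc := by
  induction l generalizing acc with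
  | nil => simp [invw, cnt]
  | cons x l ih =>
    rw [invw, ih, cnt, cnt, flipl_div, flipl_mod]
    have h3 : x % 2 < 2 := Nat.mod_lt _ (by norm_num)
    by_cases hx : x % 2 = 0
    · by_cases hi : x / 2 = i
      · simp [hx, hi]; ring
      · simp [hi]
    · have : x % 2 = 1 := by omega
      by_cases hi : x / 2 = i
      · simp [this, hi]; ring
      · simp [hi]

theorem cnt_abs_le (i : ℕ) (l : List ℕ) : |cnt i l| ≤ l.length := by
  induction l with
  | nil => simp [cnt]
  | cons x l ih =>
    rw [cnt, List.length_cons]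
    have h1 : |(if x / 2 = i then (if x % 2 = 0 then (1 : ℤ) else -1) else 0)| ≤ 1 := by
      split_ifs <;> simp
    have h2 := abs_add_le (if x / 2 = i then (if x % 2 = 0 then (1 : ℤ) else -1) else 0) (cnt i l)
    push_cast
    linarith

/-- The packed exponents. -/
theorem xP_sub_xN (l : List ℕ) (h : letFmt l = true) :
    (xP l : ℤ) - xN l = ∑ i ∈ range 5, cnt i l * (BB : ℤ) ^ i := by
  induction l with
  | nil => simp [xP, xN, cnt]
  | cons x l ih =>
    simp only [letFmt, Bool.and_eq_true, Nat.blt_eq] at h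
    have ih := ih h.2
    have e1 : xP (x :: l) = (1 - x % 2) * BB ^ (x / 2) + xP l := rfl
    have e2 : xN (x :: l) = (x % 2) * BB ^ (x / 2) + xN l := rfl
    have e3 : ∑ i ∈ range 5, cnt i (x :: l) * (BB : ℤ) ^ i =
        (if x % 2 = 0 then 1 else -1) * (BB : ℤ) ^ (x / 2) +
          ∑ i ∈ range 5, cnt i l * (BB : ℤ) ^ i := by
      simp only [cnt, add_mul, Finset.sum_add_distrib]
      congr 1
      rw [Finset.sum_eq_single (x / 2)]
      · simp
      · intro b _ hb
        simp [hb.symm]
      · intro hx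
        exfalso
        exact hx (Finset.mem_range.2 (by omega))
    rw [e1, e2, e3, ← ih]
    have h3 : x % 2 < 2 := Nat.mod_lt _ (by norm_num)
    by_cases hx : x % 2 = 0
    · simp only [hx]; push_cast; simp; ring
    · have : x % 2 = 1 := by omega
      simp only [this]; push_cast; simp; ring

/-- Uniqueness of digits. -/
theorem digits_unique {B : ℤ} (hB : 0 < B) (n : ℕ) (d : ℕ → ℤ) (hd : ∀ i < n, |d i| < B)
    (h : ∑ i ∈ range n, d i * B ^ i = 0) : ∀ i < n, d i = 0 := by
  induction n generalizing d with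
  | zero => intro i hi; omega
  | succ n ih =>
    have h0 : d 0 = 0 := by
      rw [Finset.sum_range_succ'] at h
      have hdvd : B ∣ d 0 := by
        have : d 0 = -(∑ i ∈ range n, d (i + 1) * B ^ i) * B := by
          rw [neg_mul, Finset.sum_mul]
          have e : ∑ i ∈ range n, d (i + 1) * B ^ i * B = ∑ i ∈ range n, d (i + 1) * B ^ (i + 1) := by
            apply Finset.sum_congr rfl
            intro i _
            ring
          rw [e]
          simp only [pow_zero, mul_one] at h
          linarith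
        exact Dvd.intro_left _ this.symm
      exact Int.eq_zero_of_abs_lt_dvd hdvd (hd 0 (by omega))
    intro i hi
    cases i with
    | zero => exact h0
    | succ i =>
      refine ih (fun i => d (i + 1)) (fun i hi => hd (i + 1) (by omega)) ?_ i (by omega)
      rw [Finset.sum_range_succ', h0] at h
      have h2 : (∑ i ∈ range n, d (i + 1) * B ^ i) * B = 0 := by
        rw [Finset.sum_mul]
        rw [← h]
        simp only [pow_zero, mul_one, add_zero]
        apply Finset.sum_congr rfl
        intro i _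
        ring
      rcases mul_eq_zero.1 h2 with h3 | h3
      · exact h3
      · exact absurd h3 hB.ne'

variable {TT : Table} {FF : List (List (List ℕ))} {PT GEN : List (List ℕ)}

theorem edgeW_eq {a b key z : ℕ} {w : List ℕ} (h : edgeP TT a b = some (key :: z :: w)) :
    edgeW TT a b = w := by
  simp [edgeW, h]

theorem TabHyp.letFmt (H : TabHyp TT FF PT GEN) {a b key z : ℕ} {w : List ℕ}
    (h : edgeP TT a b = some (key :: z :: w)) : letFmt w = true ∧ w.length ≤ 7 := by
  obtain ⟨_, _, _, h1, _, _, h2, h3, _⟩ := (H.edgeInfo h).ex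
  simp only [List.cons.injEq] at h1
  obtain ⟨rfl, rfl, rfl⟩ := h1
  exact ⟨h2, h3⟩

/-- The cocycle equation for the exponents. -/
theorem TabHyp.cnt_eq (H : TabHyp TT FF PT GEN) {a b c : ℕ} {q : List ℕ}
    (h : triP TT a b c = some q) {i : ℕ} (hi : i < 5) :
    cnt i (edgeW TT a b) + cnt i (edgeW TT b c) = cnt i (edgeW TT a c) := by
  obtain ⟨_, _, _, _, _, _, _, w1, _, _, w2, _, _, w3, -, -, -, -, -, -, h1, h2, h3, h4, -⟩ :=
    (H.triInfo h).ex
  rw [edgeW_eq h1, edgeW_eq h2, edgeW_eq h3]
  obtain ⟨f1, g1⟩ := H.letFmt h1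
  obtain ⟨f2, g2⟩ := H.letFmt h2
  obtain ⟨f3, g3⟩ := H.letFmt h3
  have e1 := xP_sub_xN w1 f1
  have e2 := xP_sub_xN w2 f2
  have e3 := xP_sub_xN w3 f3
  have h5 : xP w1 + xP w2 + xN w3 = xN w1 + xN w2 + xP w3 := h4
  have h6 : ((xP w1 : ℤ) - xN w1) + (xP w2 - xN w2) - (xP w3 - xN w3) = 0 := by
    have : ((xP w1 + xP w2 + xN w3 : ℕ) : ℤ) = ((xN w1 + xN w2 + xP w3 : ℕ) : ℤ) := by rw [h5]
    push_cast at this
    linarith
  rw [e1, e2, e3, ← Finset.sum_add_distrib, ← Finset.sum_sub_distrib] at h6
  have h7 : ∑ i ∈ range 5, (cnt i w1 + cnt i w2 - cnt i w3) * (BB : ℤ) ^ i = 0 := by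
    rw [← h6]
    apply Finset.sum_congr rfl
    intro i _
    ring
  have := digits_unique (by norm_num [BB]) 5 _ ?_ h7 i hi
  · linarith
  · intro j _
    have a1 := abs_le.1 (cnt_abs_le j w1)
    have a2 := abs_le.1 (cnt_abs_le j w2)
    have a3 := abs_le.1 (cnt_abs_le j w3)
    have : (BB : ℤ) = 65536 := rfl
    rw [this, abs_lt]
    constructor
    · have : ((w1.length : ℤ)) ≤ 7 := by exact_mod_cast g1
      have : ((w2.length : ℤ)) ≤ 7 := by exact_mod_cast g2
      have : ((w3.length : ℤ)) ≤ 7 := by exact_mod_cast g3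
      linarith [a1.1, a2.1, a3.2]
    · have : ((w1.length : ℤ)) ≤ 7 := by exact_mod_cast g1
      have : ((w2.length : ℤ)) ≤ 7 := by exact_mod_cast g2
      have : ((w3.length : ℤ)) ≤ 7 := by exact_mod_cast g3
      linarith [a1.2, a2.2, a3.1]

/-- The integral cochains. -/
def xc (TT : Table) (i u v : ℕ) : ℤ :=
  if u < v then cnt i (edgeW TT u v) else if v < u then - cnt i (edgeW TT v u) else 0

theorem xc_self (TT : Table) (i u : ℕ) : xc TT i u u = 0 := by simp [xc]

theorem xc_symm (TT : Table) (i u v : ℕ) : xc TT i v u = - xc TT i u v := by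
  unfold xc
  rcases lt_trichotomy u v with h | h | h
  · simp [h, h.le, h.not_gt]
  · subst h; simp
  · simp [h, h.not_gt]

theorem xc_lt (TT : Table) {i u v : ℕ} (h : u < v) : xc TT i u v = cnt i (edgeW TT u v) := by
  simp [xc, h]

theorem TabHyp.xc_tri (H : TabHyp TT FF PT GEN) {a b c : ℕ} (hab : a < b) (hbc : b < c)
    (h : ({a, b, c} : Finset ℕ) ∈ faces (Phi FF)) {i : ℕ} (hi : i < 5) :
    xc TT i a b + xc TT i b c = xc TT i a c := by
  obtain ⟨q, hq⟩ := H.tri_of_face hab hbc h
  rw [xc_lt _ hab, xc_lt _ hbc, xc_lt _ (hab.trans hbc)]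
  exact H.cnt_eq hq hi

theorem TabHyp.cocycle (H : TabHyp TT FF PT GEN) {i : ℕ} (hi : i < 5) :
    IsCocycle1 (Phi FF) (xc TT i) := by
  intro u v w h
  have perm : ∀ {a b c : ℕ}, ({a, b, c} : Finset ℕ) = {u, v, w} →
      ({a, b, c} : Finset ℕ) ∈ faces (Phi FF) := fun e => by rw [e]; exact h
  rcases lt_trichotomy u v with h1 | h1 | h1
  · rcases lt_trichotomy v w with h2 | h2 | h2
    · exact H.xc_tri h1 h2 h hi
    · subst h2; simp [xc_self]
    · rcases lt_trichotomy u w with h3 | h3 | h3
      · have := H.xc_tri (a := u) (b := w) (c := v) h3 h2 (perm (by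
          ext x; simp only [Finset.mem_insert, Finset.mem_singleton]; tauto)) hi
        rw [xc_symm TT i w v]; linarith
      · subst h3; rw [xc_symm TT i u v, xc_self]; ring
      · have := H.xc_tri (a := w) (b := u) (c := v) h3 h1 (perm (by
          ext x; simp only [Finset.mem_insert, Finset.mem_singleton]; tauto)) hi
        rw [xc_symm TT i w v, xc_symm TT i w u]; linarith
  · subst h1; simp [xc_self]
  · rcases lt_trichotomy v w with h2 | h2 | h2
    · rcases lt_trichotomy u w with h3 | h3 | h3
      · have := H.xc_tri (a := v) (b := u) (c := w) h1 h3 (perm (by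
          ext x; simp only [Finset.mem_insert, Finset.mem_singleton]; tauto)) hi
        rw [xc_symm TT i v u]; linarith
      · subst h3; rw [xc_symm TT i u v, xc_self]; ring
      · have := H.xc_tri (a := v) (b := w) (c := u) h2 h3 (perm (by
          ext x; simp only [Finset.mem_insert, Finset.mem_singleton]; tauto)) hi
        rw [xc_symm TT i v u, xc_symm TT i w u]; linarith
    · subst h2; simp [xc_self]
    · have := H.xc_tri (a := w) (b := v) (c := u) h2 h1 (perm (by
          ext x; simp only [Finset.mem_insert, Finset.mem_singleton]; tauto)) hi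
      rw [xc_symm TT i v u, xc_symm TT i w v, xc_symm TT i w u]; linarith

/-! ### Paths -/

theorem pathOK_spec (H : TabHyp TT FF PT GEN) {u : ℕ} {l : List ℕ} (h : pathOK TT u l = true) :
    IsEdgePath (Phi FF) (u :: l) ∧ ∀ i < 5, displacement (xc TT i) (u :: l) = 0 := by
  induction l generalizing u with
  | nil => exact ⟨List.isChain_singleton _, fun i _ => rfl⟩
  | cons v l ih =>
    simp only [pathOK, Bool.and_eq_true] at h
    obtain ⟨h1, h2⟩ := ih h.2
    have h3 : ({u, v} : Finset ℕ) ∈ faces (Phi FF) ∧ ∀ i < 5, xc TT i u v = 0 := by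
      cases huv : Nat.blt u v with
      | true =>
        have h4 := h.1
        rw [huv] at h4
        have huv' : u < v := by simpa using huv
        obtain ⟨q, hq, hq2⟩ := edgeK_spec h4
        match q, hq, hq2 with
        | [key, z], hq, _ =>
          refine ⟨H.edge_face hq, fun i _ => ?_⟩
          rw [xc_lt _ huv', edgeW_eq hq]; rfl
      | false =>
        have h4 := h.1
        rw [huv] at h4
        obtain ⟨q, hq, hq2⟩ := edgeK_spec h4
        match q, hq, hq2 with
        | [key, z], hq, _ =>
          have hlt := (edgeOK_lt (H.edge hq).2).1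
          refine ⟨by rw [Finset.pair_comm]; exact H.edge_face hq, fun i _ => ?_⟩
          rw [xc_symm, xc_lt _ hlt, edgeW_eq hq]; rfl
    refine ⟨List.isChain_cons_cons.2 ⟨h3.1, h1⟩, fun i hi => ?_⟩
    rw [displacement, h3.2 i hi, h2 i hi, add_zero]

/-- Hypotheses on the paths. -/
structure PathHyp (TT : Table) (FF : List (List (List ℕ))) (PT GEN : List (List ℕ)) (p : ℕ) : Prop
    extends TabHyp TT FF PT GEN where
  path : ∀ v < 52, pathOK' TT p v (nthD [] PT v) = true
  base : leq (nthD [] PT p) [p] = true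
  hp : p < 52
  hp' : {p} ∈ faces (Phi FF)

variable {p : ℕ}

theorem getLastD_eq {u : ℕ} {l : List ℕ} : (u :: l).getLast? = some ((u :: l).getLastD 0) := by
  rw [List.getLast?_eq_some_getLast (by simp)]
  congr 1

theorem PathHyp.paths (H : PathHyp TT FF PT GEN p) {v : ℕ} (hv : v < 52) :
    ∃ l, nthD [] PT v = p :: l ∧ pathOK TT p l = true ∧ (p :: l).getLast? = some v := by
  have h := H.path v hv
  revert h
  generalize nthD [] PT v = q
  intro h
  cases q with
  | nil => simp [pathOK'] at h
  | cons u l =>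
    simp only [pathOK', Bool.and_eq_true] at h
    obtain ⟨⟨h1, h2⟩, h3⟩ := h
    obtain rfl := Nat.eq_of_beq_eq_true h1
    refine ⟨l, rfl, h2, ?_⟩
    rw [getLastD_eq, Nat.eq_of_beq_eq_true h3]

theorem FacHyp.vertex_lt (H : FacHyp FF) {v : ℕ} (h : {v} ∈ faces (Phi FF)) : v < 52 := by
  rw [mem_faces_Phi] at h
  obtain ⟨-, f, hf, hs⟩ := h
  exact H.lt_of_mem hf (hs (by simp))

theorem PathHyp.sys (H : PathHyp TT FF PT GEN p) :
    PathSys (Phi FF) p (fun v => nthD [] PT v) where
  path := by
    intro v hv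
    obtain ⟨l, h1, h2, h3⟩ := H.paths (H.toFacHyp.vertex_lt hv)
    simp only [h1]
    exact ⟨(pathOK_spec H.toTabHyp h2).1, rfl, h3⟩
  base := leq_spec H.base
  mem := H.hp'

/-- The `i`-th generator. -/
noncomputable def genX (FF : List (List (List ℕ))) (PT GEN : List (List ℕ)) (p i : ℕ) :
    EdgeGroup (Phi FF) p :=
  edgeG (Phi FF) p (fun v => nthD [] PT v) ((nthD [] GEN i).getD 0 0) ((nthD [] GEN i).getD 1 0)

/-- Words of oriented edges. -/
theorem wordK_spec {a b : ℕ} {k : ℕ → List ℕ → Bool} (h : wordK TT a b k = true) :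
    (∃ key z w, edgeP TT a b = some (key :: z :: w) ∧ k key w = true) ∨
      (∃ key z w, edgeP TT b a = some (key :: z :: w) ∧ k key (invw w []) = true) := by
  unfold wordK at h
  cases hab : Nat.blt a b with
  | true =>
    rw [hab] at h
    obtain ⟨q, hq, hq2⟩ := edgeK_spec h
    match q, hq, hq2 with
    | key :: z :: w, hq, hq2 => exact Or.inl ⟨key, z, w, hq, hq2⟩
  | false =>
    rw [hab] at h
    obtain ⟨q, hq, hq2⟩ := edgeK_spec h
    match q, hq, hq2 with
    | key :: z :: w, hq, hq2 => exact Or.inr ⟨key, z, w, hq, hq2⟩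

/-- The word of an edge gives its element of the edge-path group. -/
theorem PathHyp.edge_eval (H : PathHyp TT FF PT GEN p) (n : ℕ) : ∀ {a b key z : ℕ} {w : List ℕ},
    key < n → edgeP TT a b = some (key :: z :: w) →
    edgeG (Phi FF) p (fun v => nthD [] PT v) a b = evalW (genX FF PT GEN p) w := by
  induction n with
  | zero => intro a b key z w h; omega
  | succ n ih =>
    intro a b key z w hkey hab
    have hface := H.toTabHyp.edge_face hab
    have hOK := (H.toTabHyp.edge hab).2
    obtain ⟨_, _, _, e1, _, _, _, _, hz⟩ := (H.toTabHyp.edgeInfo hab).ex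
    simp only [List.cons.injEq] at e1
    obtain ⟨rfl, rfl, rfl⟩ := e1
    simp only [edgeOK, Bool.and_eq_true] at hOK
    obtain ⟨-, hOK⟩ := hOK
    cases key with
    | zero =>
      simp only at hOK
      match w, hOK with
      | [], hOK =>
        obtain ⟨h1, -⟩ := nthK_spec [] hOK
        obtain ⟨h2, -⟩ := nthK_spec [] h1
        rw [Bool.or_eq_true] at h2
        rw [evalW_nil]
        rcases h2 with h2 | h2
        · exact H.sys.edgeG_tree hface (leq_spec h2)
        · have hface' : ({b, a} : Finset ℕ) ∈ faces (Phi FF) := by rwa [Finset.pair_comm]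
          have := H.sys.edgeG_tree hface' (leq_spec h2)
          rw [H.sys.edgeG_inv hface', this, inv_one]
      | [x], hOK =>
        simp only [Bool.and_eq_true] at hOK
        obtain ⟨h1, -⟩ := nthK_spec [] hOK.1
        have h2 := leq_spec h1
        have h3 : x % 2 = 0 := Nat.eq_of_beq_eq_true hOK.2
        rw [evalW_cons, evalW_nil, mul_one, letter, if_pos h3, genX]
        have e : nthD [] GEN (x / 2) = [a, b] := h2
        rw [e]
        rfl
    | succ key =>
      simp only at hOK
      have main : ∀ {u v : ℕ}, ∀ {key' : ℕ} {w' : List ℕ}, key' < key + 1 →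
          ((∃ z, edgeP TT u v = some (key' :: z :: w')) ∨
            (∃ z w'', edgeP TT v u = some (key' :: z :: w'') ∧ w' = invw w'' [])) →
          edgeG (Phi FF) p (fun v => nthD [] PT v) u v = evalW (genX FF PT GEN p) w' := by
        intro u v key' w' hk h
        rcases h with ⟨z, h⟩ | ⟨z, w'', h, rfl⟩
        · exact ih (by omega) h
        · have hf := H.toTabHyp.edge_face h
          rw [H.sys.edgeG_inv hf, ih (by omega) h, evalW_invw, evalW_nil, mul_one]
      have hfz : ({a, z, b} : Finset ℕ) ∈ faces (Phi FF) := by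
        have : ({a, z, b} : Finset ℕ) = {a, b, z} := by
          ext x; simp only [Finset.mem_insert, Finset.mem_singleton]; tauto
        rwa [this]
      rw [← H.sys.edgeG_mul hfz]
      rcases wordK_spec hOK with ⟨k1, z1, w1, h1, h1'⟩ | ⟨k1, z1, w1, h1, h1'⟩
      · rcases wordK_spec h1' with ⟨k2, z2, w2, h2, h2'⟩ | ⟨k2, z2, w2, h2, h2'⟩
        · simp only [Bool.and_eq_true, Nat.blt_eq] at h2'
          rw [main h2'.1.1 (Or.inl ⟨z1, h1⟩), main h2'.1.2 (Or.inl ⟨z2, h2⟩), ← evalW_append]
          exact evalW_eq_of_redw _ h2'.2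
        · simp only [Bool.and_eq_true, Nat.blt_eq] at h2'
          rw [main h2'.1.1 (Or.inl ⟨z1, h1⟩), main h2'.1.2 (Or.inr ⟨z2, w2, h2, rfl⟩),
            ← evalW_append]
          exact evalW_eq_of_redw _ h2'.2
      · rcases wordK_spec h1' with ⟨k2, z2, w2, h2, h2'⟩ | ⟨k2, z2, w2, h2, h2'⟩
        · simp only [Bool.and_eq_true, Nat.blt_eq] at h2'
          rw [main h2'.1.1 (Or.inr ⟨z1, w1, h1, rfl⟩), main h2'.1.2 (Or.inl ⟨z2, h2⟩),
            ← evalW_append]
          exact evalW_eq_of_redw _ h2'.2
        · simp only [Bool.and_eq_true, Nat.blt_eq] at h2'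
          rw [main h2'.1.1 (Or.inr ⟨z1, w1, h1, rfl⟩),
            main h2'.1.2 (Or.inr ⟨z2, w2, h2, rfl⟩), ← evalW_append]
          exact evalW_eq_of_redw _ h2'.2

theorem PathHyp.edgeG_word (H : PathHyp TT FF PT GEN p) {a b : ℕ} (hab : a < b)
    (h : ({a, b} : Finset ℕ) ∈ faces (Phi FF)) :
    edgeG (Phi FF) p (fun v => nthD [] PT v) a b =
      evalW (genX FF PT GEN p) (edgeW TT a b) := by
  obtain ⟨q, hq⟩ := H.toTabHyp.edge_of_face hab h
  obtain ⟨key, z, w, rfl, -⟩ := (H.toTabHyp.edgeInfo hq).ex
  rw [edgeW_eq hq]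
  exact H.edge_eval (key + 1) (Nat.lt_succ_self _) hq

/-- Commutation of generators. -/
theorem PathHyp.commute (H : PathHyp TT FF PT GEN p) {i j : ℕ} {q : List (List ℕ)}
    (h : commOK TT i j q = true) :
    Commute (genX FF PT GEN p i) (genX FF PT GEN p j) := by
  match q, h with
  | [[a, b, c], [s, t], P, Q], h =>
    simp only [commOK, Bool.and_eq_true, Nat.blt_eq] at h
    obtain ⟨⟨⟨⟨h1, hab⟩, hbc⟩, h2⟩, h3⟩ := h
    obtain ⟨r, hr, -⟩ := triK_spec h1
    have hface := H.toTabHyp.tri_face hr
    obtain ⟨fab, fbc, fac⟩ := tri_mem hface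
    have hac : a < c := hab.trans hbc
    have key : ∀ {u v : ℕ}, u < v → ({u, v} : Finset ℕ) ∈ faces (Phi FF) →
        ∀ {k : ℕ → List ℕ → Bool}, wordK TT u v k = true → ∃ n w, k n w = true ∧
          edgeG (Phi FF) p (fun v => nthD [] PT v) u v = evalW (genX FF PT GEN p) w := by
      intro u v huv huvf k hk
      rcases wordK_spec hk with ⟨n, z, w, h4, h5⟩ | ⟨n, z, w, h4, h5⟩
      · exact ⟨n, w, h5, H.edge_eval (n + 1) (Nat.lt_succ_self _) h4⟩
      · have := (edgeOK_lt (H.toTabHyp.edge h4).2).1
        omega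
    obtain ⟨_, w1, h2, e1⟩ := key hab fab h2
    obtain ⟨_, w2, h2, e2⟩ := key hbc fbc h2
    obtain ⟨_, w3, h2, e3⟩ := key hac fac h2
    simp only [Bool.and_eq_true] at h2
    have e4 := evalW_eq_of_redw (genX FF PT GEN p) h2.1
    have e5 := evalW_eq_of_redw (genX FF PT GEN p) h2.2
    have e6 := H.sys.edgeG_mul hface
    rw [e1, e2, e3, ← evalW_append, e4, e5] at e6
    simp only [evalW_append, evalW_cons] at e6
    have e7 : letter (genX FF PT GEN p) s * letter (genX FF PT GEN p) t =
        letter (genX FF PT GEN p) t * letter (genX FF PT GEN p) s := by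
      have := mul_left_cancel e6
      rw [← mul_assoc, ← mul_assoc] at this
      exact mul_right_cancel this
    have e8 : Commute (genX FF PT GEN p (s / 2)) (genX FF PT GEN p (t / 2)) := by
      have h9 : Commute (letter (genX FF PT GEN p) s) (letter (genX FF PT GEN p) t) := e7
      unfold letter at h9
      split_ifs at h9 with a1 a2 a2
      · exact h9
      · exact (Commute.inv_right_iff.1 h9)
      · exact (Commute.inv_left_iff.1 h9)
      · exact (Commute.inv_inv_iff.1 h9)
    rw [Bool.or_eq_true, Bool.and_eq_true, Bool.and_eq_true] at h3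
    rcases h3 with ⟨a1, a2⟩ | ⟨a1, a2⟩
    · rw [← Nat.eq_of_beq_eq_true a1, ← Nat.eq_of_beq_eq_true a2]; exact e8
    · rw [← Nat.eq_of_beq_eq_true a1, ← Nat.eq_of_beq_eq_true a2]; exact e8.symm

end Pool.Agent.GeoZ5
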