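import Pool.Agent.GeoZ5.Sound9
import Pool.Agent.GeoZ5.Sound6

/-!
The Gram matrix and the fourfold cup products.
-/

namespace Pool.Agent.GeoZ5

open Finset

/-! ### Sums -/

theorem sum_range_list (n : ℕ) (f : ℕ → ℤ) :
    ((List.range n).map f).sum = ∑ i ∈ range n, f i := by
  induction n with
  | zero => rfl
  | succ n ih => rw [List.range_succ, List.map_append, List.sum_append, ih,
      Finset.sum_range_succ]; simp

theorem sumF_eq (g : List ℕ → ℤ) (l : List (List ℕ)) : sumF g l = (l.map g).sum := by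
  induction l with
  | nil => rfl
  | cons f l ih => simp [sumF, ih]

theorem sumFF_eq (g : List ℕ → ℤ) (l : List (List (List ℕ))) :
    sumFF g l = (l.flatten.map g).sum := by
  induction l with
  | nil => rfl
  | cons f l ih => simp [sumFF, ih, sumF_eq]

theorem sum_range_mul (a n : ℕ) (h : ℕ → ℤ) :
    ∑ m ∈ range (a * n), h m = ∑ j ∈ range n, ∑ i ∈ range a, h (i + a * j) := by
  induction n with
  | zero => simp
  | succ n ih =>
    rw [Nat.mul_succ, Finset.sum_range_add, ih, Finset.sum_range_succ]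
    congr 1
    apply Finset.sum_congr rfl
    intro i _
    rw [add_comm]

theorem list_sum_sum {α : Type*} (l : List α) (s : Finset ℕ) (g : ℕ → α → ℤ) :
    (l.map fun f => ∑ i ∈ s, g i f).sum = ∑ i ∈ s, (l.map fun f => g i f).sum := by
  induction l with
  | nil => simp
  | cons f l ih => simp only [List.map_cons, List.sum_cons, ih, Finset.sum_add_distrib]

theorem list_sum_mul {α : Type*} (l : List α) (g : α → ℤ) (c : ℤ) :
    (l.map fun f => g f * c).sum = (l.map g).sum * c := by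
  induction l with
  | nil => simp
  | cons f l ih => simp only [List.map_cons, List.sum_cons, ih, add_mul]

theorem list_abs_sum_le {α : Type*} (l : List α) (g : α → ℤ) (C : ℤ)
    (h : ∀ f ∈ l, |g f| ≤ C) : |(l.map g).sum| ≤ l.length * C := by
  induction l with
  | nil => simp
  | cons f l ih =>
    rw [List.map_cons, List.sum_cons, List.length_cons]
    have h1 := abs_add_le (g f) (l.map g).sum
    have h2 := h f (by simp)
    have h3 := ih fun f hf => h f (List.mem_cons_of_mem _ hf)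
    push_cast
    linarith

/-! ### Sparse vectors -/

/-- The `i`-th entry of a sparse vector. -/
def vv (i : ℕ) : List ℕ → ℤ
  | j :: v :: l => (if j = i then (v : ℤ) - 8 else 0) + vv i l
  | _ => 0

theorem vInc_spec {n : ℕ} {l : List ℕ} (h : vInc n l = true) :
    (∀ i, |vv i l| ≤ 3) ∧ (∀ i < n, vv i l = 0) ∧ (∀ i, 22 ≤ i → vv i l = 0) := by
  fun_induction vInc n l with
  | case1 n => simp [vv]
  | case2 n i v l ih =>
    simp only [Bool.and_eq_true, Nat.ble_eq, Nat.blt_eq] at h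
    obtain ⟨⟨⟨⟨h1, h2⟩, h3⟩, h4⟩, h5⟩ := h
    obtain ⟨h6, h7, h8⟩ := ih h5
    refine ⟨?_, ?_, ?_⟩
    · intro j
      rw [vv]
      by_cases hj : i = j
      · subst hj
        rw [if_pos rfl, h7 i (by omega), add_zero, abs_le]
        constructor <;> omega
      · rw [if_neg hj, zero_add]
        exact h6 j
    · intro j hj
      rw [vv, if_neg (by omega), h7 j (by omega), zero_add]
    · intro j hj
      rw [vv, if_neg (by omega), h8 j hj, zero_add]
  | case3 n i => simp at h

theorem vZ_eq {n : ℕ} {l : List ℕ} (h : vInc n l = true) (B : ℕ) :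
    vZ B l = ∑ i ∈ range 22, vv i l * (B : ℤ) ^ i := by
  fun_induction vInc n l with
  | case1 n => simp [vv, vZ]
  | case2 n i v l ih =>
    simp only [Bool.and_eq_true, Nat.ble_eq, Nat.blt_eq] at h
    obtain ⟨⟨⟨⟨h1, h2⟩, h3⟩, h4⟩, h5⟩ := h
    rw [vZ, ih h5]
    simp only [vv, add_mul, Finset.sum_add_distrib]
    congr 1
    rw [Finset.sum_eq_single i]
    · simp
    · intro b _ hb
      simp [hb.symm]
    · intro hi
      exact absurd (Finset.mem_range.2 h2) hi
  | case3 n i => simp at h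

theorem vP_sub_vN {n : ℕ} {l : List ℕ} (h : vInc n l = true) :
    (vP l : ℤ) - vN l = ∑ i ∈ range 22, vv i l * (BB : ℤ) ^ i := by
  rw [← vZ_eq h BB]
  fun_induction vInc n l with
  | case1 n => simp [vP, vN, vZ]
  | case2 n i v l ih =>
    simp only [Bool.and_eq_true, Nat.ble_eq, Nat.blt_eq] at h
    obtain ⟨⟨⟨⟨h1, h2⟩, h3⟩, h4⟩, h5⟩ := h
    have e1 : vP (i :: v :: l) = (v - 8) * BB ^ i + vP l := rfl
    have e2 : vN (i :: v :: l) = (8 - v) * BB ^ i + vN l := rfl
    rw [e1, e2, vZ, ← ih h5]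
    rcases le_total v 8 with h | h
    · have : v - 8 = 0 := by omega
      rw [this]
      push_cast [Nat.cast_sub h]
      ring
    · have : 8 - v = 0 := by omega
      rw [this]
      push_cast [Nat.cast_sub h]
      ring
  | case3 n i => simp at h

variable {TT : Table} {FF : List (List (List ℕ))} {PT GEN : List (List ℕ)}

theorem vecOK_spec (hv : vecOK TT = true) {a b c : ℕ} : vInc 0 (triV TT a b c) = true := by
  unfold triV
  cases hp : triP TT a b c with
  | none => rfl
  | some p =>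
    simp only
    unfold triP at hp
    cases hq : findB b (nthD [] TT a) with
    | none => simp [hq] at hp
    | some q =>
      have h' : find c q.2 = some p := by simpa [hq] using hp
      have h1 := findB_mem hq
      have h2 : nthD [] TT a ∈ TT := by
        by_cases ha : a < TT.length
        · exact nthD_mem _ ha
        · rw [nthD_of_le [] (by omega)] at h1
          simp at h1
      unfold vecOK at hv
      have h3 := List.all_eq_true.1 (List.all_eq_true.1 hv _ h2) _ h1
      exact List.all_eq_true.1 h3 _ (find_mem h')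

theorem triV_eq {a b c : ℕ} {p : List ℕ} (h : triP TT a b c = some p) :
    triV TT a b c = dat p := by
  simp [triV, h]

/-- The `i`-th 2-cochain. -/
noncomputable def cz (TT : Table) (i a b c : ℕ) : ℝ := (vv i (triV TT a b c) : ℝ)

theorem TabHyp.cocycle2 (H : TabHyp TT FF PT GEN) (hv : vecOK TT = true) (i : ℕ) :
    IsCocycle2 (Phi FF) (cz TT i) := by
  intro w x y z hwx hxy hyz h
  obtain ⟨p1, p2, p3, p4, h1, h2, h3, h4, h5⟩ := H.tet_of_face hwx hxy hyz h
  have g1 := vecOK_spec hv (a := w) (b := x) (c := y)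
  have g2 := vecOK_spec hv (a := w) (b := x) (c := z)
  have g3 := vecOK_spec hv (a := w) (b := y) (c := z)
  have g4 := vecOK_spec hv (a := x) (b := y) (c := z)
  rw [triV_eq h1] at g1
  rw [triV_eq h2] at g2
  rw [triV_eq h3] at g3
  rw [triV_eq h4] at g4
  unfold cz
  rw [triV_eq h1, triV_eq h2, triV_eq h3, triV_eq h4]
  have h6 : (vP (dat p4) + vP (dat p2)) + (vN (dat p3) + vN (dat p1)) =
      (vN (dat p4) + vN (dat p2)) + (vP (dat p3) + vP (dat p1)) := Nat.eq_of_beq_eq_true h5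
  have h7 : ((vP (dat p4) : ℤ) - vN (dat p4)) - (vP (dat p3) - vN (dat p3)) +
      (vP (dat p2) - vN (dat p2)) - (vP (dat p1) - vN (dat p1)) = 0 := by
    have : (((vP (dat p4) + vP (dat p2)) + (vN (dat p3) + vN (dat p1)) : ℕ) : ℤ) =
      (((vN (dat p4) + vN (dat p2)) + (vP (dat p3) + vP (dat p1)) : ℕ) : ℤ) := by rw [h6]
    push_cast at this
    linarith
  rw [vP_sub_vN g1, vP_sub_vN g2, vP_sub_vN g3, vP_sub_vN g4, ← Finset.sum_sub_distrib,
    ← Finset.sum_add_distrib, ← Finset.sum_sub_distrib] at h7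
  have h8 : ∑ j ∈ range 22, (vv j (dat p4) - vv j (dat p3) + vv j (dat p2) - vv j (dat p1)) *
      (BB : ℤ) ^ j = 0 := by
    rw [← h7]
    apply Finset.sum_congr rfl
    intro j _
    ring
  have key : vv i (dat p4) - vv i (dat p3) + vv i (dat p2) - vv i (dat p1) = 0 := by
    by_cases hi : i < 22
    · refine digits_unique (by norm_num [BB]) 22 _ ?_ h8 i hi
      intro j _
      have a1 := abs_le.1 ((vInc_spec g1).1 j)
      have a2 := abs_le.1 ((vInc_spec g2).1 j)
      have a3 := abs_le.1 ((vInc_spec g3).1 j)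
      have a4 := abs_le.1 ((vInc_spec g4).1 j)
      have : (BB : ℤ) = 65536 := rfl
      rw [this, abs_lt]
      constructor
      · linarith [a1.2, a2.1, a3.2, a4.1]
      · linarith [a1.1, a2.2, a3.1, a4.2]
    · rw [(vInc_spec g1).2.2 i (by omega), (vInc_spec g2).2.2 i (by omega),
        (vInc_spec g3).2.2 i (by omega), (vInc_spec g4).2.2 i (by omega)]
      ring
  exact_mod_cast key

/-! ### The Gram matrix -/

/-- The expected Gram matrix. -/
def GG (i j : ℕ) : ℤ := if i = j then (if i < 9 then 1 else -1) else 0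

theorem gramS_eq : gramS = ∑ i ∈ range 22, ∑ j ∈ range 22, GG i j * (BB : ℤ) ^ (i + 22 * j) := by
  unfold gramS
  rw [sum_range_list, sum_range_list]
  have h1 : ∀ i ∈ range 22, ∑ j ∈ range 22, GG i j * (BB : ℤ) ^ (i + 22 * j) =
      GG i i * (BB : ℤ) ^ (i + 22 * i) := by
    intro i hi
    rw [Finset.sum_eq_single i]
    · intro j _ hj
      simp [GG, hj.symm]
    · intro h; exact absurd hi h
  rw [Finset.sum_congr rfl h1]
  have e := Finset.sum_range_add (fun i => GG i i * (BB : ℤ) ^ (i + 22 * i)) 9 13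
  simp only [Nat.reduceAdd] at e
  rw [e, sub_eq_add_neg, ← Finset.sum_neg_distrib]
  refine congrArg₂ (· + ·) ?_ ?_
  · apply Finset.sum_congr rfl
    intro i hi
    simp [GG, Finset.mem_range.1 hi]
  · apply Finset.sum_congr rfl
    intro i hi
    have : ¬ (9 + i < 9) := by omega
    rw [add_comm i 9]
    simp [GG]

/-- The contribution of a facet to the Gram matrix. -/
def gF (TT : Table) (i j : ℕ) (f : List ℕ) : ℤ :=
  match f with
  | [_, s, a, b, c, d, e] => sgn s * (vv i (triV TT a b c) * vv j (triV TT c d e))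
  | _ => 0

theorem IsFac.gramF_eq {f : List ℕ} {s a b c d e : ℕ} (h : IsFac f s a b c d e)
    (hv : vecOK TT = true) : gramF TT f =
      ∑ i ∈ range 22, ∑ j ∈ range 22, gF TT i j f * (BB : ℤ) ^ (i + 22 * j) := by
  have e1 : gramF TT f = sgn s * (vZ BB (triV TT a b c) * vZ (BB ^ 22) (triV TT c d e)) := by
    rw [h.eq]
    unfold gramF
    simp only
    cases h1 : triV TT a b c with
    | nil => simp [vZ]
    | cons i l =>
      cases h2 : triV TT c d e with
      | nil => simp [vZ]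
      | cons j m => rfl
  have e2 : ∀ i j, gF TT i j f = sgn s * (vv i (triV TT a b c) * vv j (triV TT c d e)) := by
    intro i j
    rw [h.eq]
    rfl
  rw [e1, vZ_eq (vecOK_spec hv), vZ_eq (vecOK_spec hv), Finset.sum_mul_sum, Finset.mul_sum]
  apply Finset.sum_congr rfl
  intro i _
  rw [Finset.mul_sum]
  apply Finset.sum_congr rfl
  intro j _
  rw [e2]
  push_cast
  rw [pow_add, pow_mul]
  ring

theorem sgn_abs (s : ℕ) : |sgn s| = 1 := by
  cases s <;> simp [sgn]

theorem IsFac.gF_abs {f : List ℕ} {s a b c d e : ℕ} (h : IsFac f s a b c d e)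
    (hv : vecOK TT = true) (i j : ℕ) : |gF TT i j f| ≤ 9 := by
  have e2 : gF TT i j f = sgn s * (vv i (triV TT a b c) * vv j (triV TT c d e)) := by
    rw [h.eq]; rfl
  rw [e2, abs_mul, abs_mul, sgn_abs, one_mul]
  have h1 := (vInc_spec (vecOK_spec hv (a := a) (b := b) (c := c))).1 i
  have h2 := (vInc_spec (vecOK_spec hv (a := c) (b := d) (c := e))).1 j
  calc _ ≤ (3 : ℤ) * 3 := mul_le_mul h1 h2 (abs_nonneg _) (by norm_num)
    _ = 9 := by norm_num

theorem FacHyp.gram (H : FacHyp FF) (hv : vecOK TT = true)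
    (hlen : Nat.beq FF.flatten.length 1802 = true)
    (hg : sumFF (gramF TT) FF = gramS) {i j : ℕ} (hi : i < 22) (hj : j < 22) :
    (FF.flatten.map (gF TT i j)).sum = GG i j := by
  rw [sumFF_eq, gramS_eq] at hg
  have h1 : (FF.flatten.map (gramF TT)) = FF.flatten.map fun f =>
      ∑ i ∈ range 22, ∑ j ∈ range 22, gF TT i j f * (BB : ℤ) ^ (i + 22 * j) := by
    apply List.map_congr_left
    intro f hf
    obtain ⟨s, a, b, c, d, e, h⟩ := H.fac hf
    exact h.gramF_eq hv
  rw [h1, list_sum_sum] at hg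
  simp only [list_sum_sum, list_sum_mul] at hg
  let dd : ℕ → ℕ → ℤ := fun i j => (FF.flatten.map (gF TT i j)).sum - GG i j
  have h2 : ∑ i ∈ range 22, ∑ j ∈ range 22, dd i j * (BB : ℤ) ^ (i + 22 * j) = 0 := by
    simp only [dd, sub_mul, Finset.sum_sub_distrib]
    rw [sub_eq_zero]
    exact hg
  rw [Finset.sum_comm] at h2
  have h3 : ∑ m ∈ range (22 * 22), dd (m % 22) (m / 22) * (BB : ℤ) ^ m = 0 := by
    rw [sum_range_mul, ← h2]
    apply Finset.sum_congr rfl
    intro j _
    apply Finset.sum_congr rfl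
    intro i hi
    have hi := Finset.mem_range.1 hi
    rw [show (i + 22 * j) % 22 = i by omega, show (i + 22 * j) / 22 = j by omega]
  have h4 := digits_unique (by norm_num [BB]) (22 * 22) _ ?_ h3 (i + 22 * j) (by omega)
  · rw [show (i + 22 * j) % 22 = i by omega, show (i + 22 * j) / 22 = j by omega] at h4
    exact sub_eq_zero.1 h4
  · intro m _
    have h5 := list_abs_sum_le FF.flatten (gF TT (m % 22) (m / 22)) 9 (by
      intro f hf
      obtain ⟨s, a, b, c, d, e, h⟩ := H.fac hf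
      exact h.gF_abs hv _ _)
    rw [Nat.eq_of_beq_eq_true hlen] at h5
    have h6 : |GG (m % 22) (m / 22)| ≤ 1 := by
      unfold GG
      split_ifs <;> simp
    have h7 := abs_sub (FF.flatten.map (gF TT (m % 22) (m / 22))).sum (GG (m % 22) (m / 22))
    have : (BB : ℤ) = 65536 := rfl
    simp only [dd]
    rw [this]
    push_cast at h5
    linarith

theorem FacHyp.cupForm_cz (H : FacHyp FF) (hv : vecOK TT = true)
    (hlen : Nat.beq FF.flatten.length 1802 = true)
    (hg : sumFF (gramF TT) FF = gramS) {i j : ℕ} (hi : i < 22) (hj : j < 22) :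
    cupForm (Phi FF) (ori FF) (cz TT i) (cz TT j) = GG i j := by
  rw [← H.gram hv hlen hg hi hj, cupForm, H.sum_eq]
  rw [Int.cast_list_sum, List.map_map]
  congr 1
  apply List.map_congr_left
  intro f hf
  obtain ⟨s, a, b, c, d, e, h⟩ := H.fac hf
  obtain ⟨v0, v1, v2, v3, v4⟩ := h.vtx_eq
  have e2 : gF TT i j f = sgn s * (vv i (triV TT a b c) * vv j (triV TT c d e)) := by
    rw [h.eq]; rfl
  rw [Function.comp_apply, e2, H.ori_eq hf, h.sign, v0, v1, v2, v3, v4]
  simp only [cz]
  push_cast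
  ring

/-! ### Fourfold products -/

theorem xZ_eq (B : ℕ) (l : List ℕ) (h : letFmt l = true) :
    xZ B l = ∑ i ∈ range 5, cnt i l * (B : ℤ) ^ i := by
  induction l with
  | nil => simp [xZ, cnt]
  | cons x l ih =>
    simp only [letFmt, Bool.and_eq_true, Nat.blt_eq] at h
    have ih := ih h.2
    have e3 : ∑ i ∈ range 5, cnt i (x :: l) * (B : ℤ) ^ i =
        (if x % 2 = 0 then 1 else -1) * (B : ℤ) ^ (x / 2) +
          ∑ i ∈ range 5, cnt i l * (B : ℤ) ^ i := by
      simp only [cnt, add_mul, Finset.sum_add_distrib]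
      congr 1
      rw [Finset.sum_eq_single (x / 2)]
      · simp
      · intro b _ hb
        simp [hb.symm]
      · intro hx
        exfalso
        exact hx (Finset.mem_range.2 (by omega))
    rw [e3, ← ih]
    rfl

theorem TabHyp.edgeW_fmt (H : TabHyp TT FF PT GEN) (a b : ℕ) :
    Pool.Agent.GeoZ5.letFmt (edgeW TT a b) = true ∧ (edgeW TT a b).length ≤ 7 := by
  unfold edgeW
  cases hp : edgeP TT a b with
  | none => exact ⟨rfl, by simp⟩
  | some p =>
    obtain ⟨key, z, w, rfl, -⟩ := (H.edgeInfo hp).ex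
    exact H.letFmt hp

theorem prod4 (s x : ℤ) (A B C D : ℕ → ℤ) :
    s * ((∑ i ∈ range 5, A i * x ^ i) * (∑ j ∈ range 5, B j * (x ^ 5) ^ j) *
      (∑ k ∈ range 5, C k * (x ^ 25) ^ k) * (∑ l ∈ range 5, D l * (x ^ 125) ^ l)) =
    ∑ i ∈ range 5, ∑ j ∈ range 5, ∑ k ∈ range 5, ∑ l ∈ range 5,
      s * (A i * B j * C k * D l) * x ^ (i + 5 * j + 25 * k + 125 * l) := by
  have hD : ∀ i j k, ∑ l ∈ range 5, s * (A i * B j * C k * D l) *
      x ^ (i + 5 * j + 25 * k + 125 * l) =
      (s * (A i * x ^ i) * (B j * (x ^ 5) ^ j) * (C k * (x ^ 25) ^ k)) *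
        ∑ l ∈ range 5, D l * (x ^ 125) ^ l := by
    intro i j k
    rw [Finset.mul_sum]
    apply Finset.sum_congr rfl
    intro l _
    rw [pow_add, pow_add, pow_add, pow_mul, pow_mul, pow_mul]
    ring
  simp only [hD]
  simp only [← Finset.sum_mul, ← Finset.mul_sum]
  ring

/-- The contribution of a facet to the fourfold product. -/
def qF (TT : Table) (i j k l : ℕ) (f : List ℕ) : ℤ :=
  match f with
  | [_, s, a, b, c, d, e] => sgn s * (cnt i (edgeW TT a b) * cnt j (edgeW TT b c) *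
      cnt k (edgeW TT c d) * cnt l (edgeW TT d e))
  | _ => 0

theorem IsFac.cupF_eq {f : List ℕ} {s a b c d e : ℕ} (h : IsFac f s a b c d e)
    (H : TabHyp TT FF PT GEN) : cupF TT f =
      ∑ i ∈ range 5, ∑ j ∈ range 5, ∑ k ∈ range 5, ∑ l ∈ range 5,
        qF TT i j k l f * (CC : ℤ) ^ (i + 5 * j + 25 * k + 125 * l) := by
  have e1 : cupF TT f = sgn s * (xZ CC (edgeW TT a b) * xZ (CC ^ 5) (edgeW TT b c) *
      xZ (CC ^ 25) (edgeW TT c d) * xZ (CC ^ 125) (edgeW TT d e)) := by
    rw [h.eq]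
    unfold cupF
    simp only
    cases h1 : edgeW TT a b with
    | nil => simp [xZ]
    | cons i l =>
      cases h2 : edgeW TT b c with
      | nil => simp [xZ]
      | cons j m =>
        cases h3 : edgeW TT c d with
        | nil => simp [xZ]
        | cons k n =>
          cases h4 : edgeW TT d e with
          | nil => simp [xZ]
          | cons o q => rfl
  have e2 : ∀ i j k l, qF TT i j k l f = sgn s * (cnt i (edgeW TT a b) * cnt j (edgeW TT b c) *
      cnt k (edgeW TT c d) * cnt l (edgeW TT d e)) := by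
    intro i j k l
    rw [h.eq]
    rfl
  rw [e1, xZ_eq _ _ (H.edgeW_fmt a b).1, xZ_eq _ _ (H.edgeW_fmt b c).1,
    xZ_eq _ _ (H.edgeW_fmt c d).1, xZ_eq _ _ (H.edgeW_fmt d e).1]
  simp only [e2]
  rw [← prod4]
  push_cast
  rfl

theorem cnt_abs7 (H : TabHyp TT FF PT GEN) (i a b : ℕ) : |cnt i (edgeW TT a b)| ≤ 7 := by
  have h1 := cnt_abs_le i (edgeW TT a b)
  have h2 : ((edgeW TT a b).length : ℤ) ≤ 7 := by exact_mod_cast (H.edgeW_fmt a b).2
  linarith

theorem IsFac.qF_abs {f : List ℕ} {s a b c d e : ℕ} (h : IsFac f s a b c d e)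
    (H : TabHyp TT FF PT GEN) (i j k l : ℕ) : |qF TT i j k l f| ≤ 2401 := by
  have e2 : qF TT i j k l f = sgn s * (cnt i (edgeW TT a b) * cnt j (edgeW TT b c) *
      cnt k (edgeW TT c d) * cnt l (edgeW TT d e)) := by
    rw [h.eq]; rfl
  rw [e2, abs_mul, abs_mul, abs_mul, abs_mul, sgn_abs, one_mul]
  have h1 := cnt_abs7 H i a b
  have h2 := cnt_abs7 H j b c
  have h3 := cnt_abs7 H k c d
  have h4 := cnt_abs7 H l d e
  calc _ ≤ (7 : ℤ) * 7 * 7 * 7 := by
        gcongr
    _ = 2401 := by norm_num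

theorem rev3 (s : Finset ℕ) (F : ℕ → ℕ → ℕ → ℤ) :
    ∑ i ∈ s, ∑ j ∈ s, ∑ k ∈ s, F i j k = ∑ k ∈ s, ∑ j ∈ s, ∑ i ∈ s, F i j k := by
  rw [Finset.sum_congr rfl fun i _ => Finset.sum_comm, Finset.sum_comm,
    Finset.sum_congr rfl fun i _ => Finset.sum_comm]

theorem rev4 (s : Finset ℕ) (F : ℕ → ℕ → ℕ → ℕ → ℤ) :
    ∑ i ∈ s, ∑ j ∈ s, ∑ k ∈ s, ∑ l ∈ s, F i j k l =
      ∑ l ∈ s, ∑ k ∈ s, ∑ j ∈ s, ∑ i ∈ s, F i j k l := by
  rw [Finset.sum_congr rfl fun i _ => rev3 s (F i), Finset.sum_comm]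
  apply Finset.sum_congr rfl
  intro l _
  rw [rev3, Finset.sum_comm]

/-- Digits of a fourfold sum. -/
theorem digits4 {B : ℤ} (hB : 0 < B) (g : ℕ → ℕ → ℕ → ℕ → ℤ) (hg : ∀ i j k l, |g i j k l| < B)
    (h : ∑ i ∈ range 5, ∑ j ∈ range 5, ∑ k ∈ range 5, ∑ l ∈ range 5,
      g i j k l * B ^ (i + 5 * j + 25 * k + 125 * l) = 0) {i j k l : ℕ} (hi : i < 5) (hj : j < 5)
    (hk : k < 5) (hl : l < 5) : g i j k l = 0 := by
  have h3 : ∑ m ∈ range (5 * (5 * (5 * 5))),
      g (m % 5) (m / 5 % 5) (m / 25 % 5) (m / 125) * B ^ m = 0 := by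
    rw [sum_range_mul, sum_range_mul, sum_range_mul, ← h, rev4]
    apply Finset.sum_congr rfl
    intro i hi
    apply Finset.sum_congr rfl
    intro j hj
    apply Finset.sum_congr rfl
    intro k hk
    apply Finset.sum_congr rfl
    intro l hl
    have hi := Finset.mem_range.1 hi
    have hj := Finset.mem_range.1 hj
    have hk := Finset.mem_range.1 hk
    have hl := Finset.mem_range.1 hl
    rw [show i + 5 * (j + 5 * (k + 5 * l)) = i + 5 * j + 25 * k + 125 * l by ring,
      show (i + 5 * j + 25 * k + 125 * l) % 5 = i by omega,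
      show (i + 5 * j + 25 * k + 125 * l) / 5 % 5 = j by omega,
      show (i + 5 * j + 25 * k + 125 * l) / 25 % 5 = k by omega,
      show (i + 5 * j + 25 * k + 125 * l) / 125 = l by omega]
  have h4 := digits_unique hB (5 * (5 * (5 * 5))) _ (fun m _ => hg _ _ _ _) h3
    (i + 5 * j + 25 * k + 125 * l) (by omega)
  rw [show (i + 5 * j + 25 * k + 125 * l) % 5 = i by omega,
    show (i + 5 * j + 25 * k + 125 * l) / 5 % 5 = j by omega,
    show (i + 5 * j + 25 * k + 125 * l) / 25 % 5 = k by omega,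
    show (i + 5 * j + 25 * k + 125 * l) / 125 = l by omega] at h4
  exact h4

theorem cupS_eq : cupS = ∑ i ∈ range 5, ∑ j ∈ range 5, ∑ k ∈ range 5, ∑ l ∈ range 5,
    2 * eps i j k l * (CC : ℤ) ^ (i + 5 * j + 25 * k + 125 * l) := by
  unfold cupS
  simp only [sum_range_list]

theorem eps_abs (i j k l : ℕ) : |eps i j k l| ≤ 1 := by
  unfold eps
  simp only
  split_ifs <;> simp

theorem TabHyp.cup (H : TabHyp TT FF PT GEN)
    (hlen : Nat.beq FF.flatten.length 1802 = true)
    (hc : sumFF (cupF TT) FF = cupS) {i j k l : ℕ} (hi : i < 5) (hj : j < 5) (hk : k < 5)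
    (hl : l < 5) : (FF.flatten.map (qF TT i j k l)).sum = 2 * eps i j k l := by
  rw [sumFF_eq, cupS_eq] at hc
  have h1 : (FF.flatten.map (cupF TT)) = FF.flatten.map fun f =>
      ∑ i ∈ range 5, ∑ j ∈ range 5, ∑ k ∈ range 5, ∑ l ∈ range 5,
        qF TT i j k l f * (CC : ℤ) ^ (i + 5 * j + 25 * k + 125 * l) := by
    apply List.map_congr_left
    intro f hf
    obtain ⟨s, a, b, c, d, e, h⟩ := H.fac hf
    exact h.cupF_eq H
  rw [h1, list_sum_sum] at hc
  simp only [list_sum_sum, list_sum_mul] at hc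
  let dd : ℕ → ℕ → ℕ → ℕ → ℤ := fun i j k l =>
    (FF.flatten.map (qF TT i j k l)).sum - 2 * eps i j k l
  have h2 : ∑ i ∈ range 5, ∑ j ∈ range 5, ∑ k ∈ range 5, ∑ l ∈ range 5,
      dd i j k l * (CC : ℤ) ^ (i + 5 * j + 25 * k + 125 * l) = 0 := by
    simp only [dd, sub_mul, Finset.sum_sub_distrib]
    rw [sub_eq_zero]
    exact hc
  have h4 := digits4 (B := (CC : ℤ)) (by norm_num [CC]) dd ?_ h2 hi hj hk hl
  · exact sub_eq_zero.1 h4
  · intro i j k l
    have h5 := list_abs_sum_le FF.flatten (qF TT i j k l) 2401 (by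
      intro f hf
      obtain ⟨s, a, b, c, d, e, h⟩ := H.fac hf
      exact h.qF_abs H _ _ _ _)
    rw [Nat.eq_of_beq_eq_true hlen] at h5
    have h6 := eps_abs i j k l
    have h7 := abs_sub (FF.flatten.map (qF TT i j k l)).sum (2 * eps i j k l)
    rw [abs_mul] at h7
    have h8 : |(2 : ℤ)| = 2 := rfl
    rw [h8] at h7
    have : (CC : ℤ) = 4294967296 := rfl
    simp only [dd]
    rw [this]
    push_cast at h5
    linarith

theorem TabHyp.cup4_eq (H : TabHyp TT FF PT GEN)
    (hlen : Nat.beq FF.flatten.length 1802 = true)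
    (hc : sumFF (cupF TT) FF = cupS) {i j k l : ℕ} (hi : i < 5) (hj : j < 5) (hk : k < 5)
    (hl : l < 5) :
    cup4 (Phi FF) (ori FF) (xc TT i) (xc TT j) (xc TT k) (xc TT l) = 2 * eps i j k l := by
  rw [← H.cup hlen hc hi hj hk hl, cup4, H.toFacHyp.sum_eq]
  congr 1
  apply List.map_congr_left
  intro f hf
  obtain ⟨s, a, b, c, d, e, h⟩ := H.fac hf
  obtain ⟨v0, v1, v2, v3, v4⟩ := h.vtx_eq
  obtain ⟨-, -, ab, bc, cd, de, -⟩ := id h
  have e2 : qF TT i j k l f = sgn s * (cnt i (edgeW TT a b) * cnt j (edgeW TT b c) *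
      cnt k (edgeW TT c d) * cnt l (edgeW TT d e)) := by
    rw [h.eq]; rfl
  rw [e2, H.toFacHyp.ori_eq hf, h.sign, v0, v1, v2, v3, v4, xc_lt _ ab, xc_lt _ bc, xc_lt _ cd,
    xc_lt _ de]

end Pool.Agent.GeoZ5
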