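import Pool.Agent.GeoZ5.Sound10
import Pool.Agent.GeoZ5.Check3

/-!
Stokes, the intersection form, and its signature.
-/

namespace Pool.Agent.GeoZ5

open Finset

/-- 2-cochains. -/
abbrev Cch := ℕ → ℕ → ℕ → ℝ

/-! ### The intersection form as a bilinear map -/

/-- The intersection form as a bilinear map. -/
noncomputable def QB (Φ : Cplx) (o : Finset ℕ → ℤ) : Cch →ₗ[ℝ] Cch →ₗ[ℝ] ℝ :=
  LinearMap.mk₂ ℝ (cupForm Φ o)
    (by
      intro y y' z
      unfold cupForm
      rw [← Finset.sum_add_distrib]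
      apply Finset.sum_congr rfl
      intro σ _
      simp only [Pi.add_apply]
      ring)
    (by
      intro c y z
      unfold cupForm
      rw [smul_eq_mul, Finset.mul_sum]
      apply Finset.sum_congr rfl
      intro σ _
      simp only [Pi.smul_apply, smul_eq_mul]
      ring)
    (by
      intro y z z'
      unfold cupForm
      rw [← Finset.sum_add_distrib]
      apply Finset.sum_congr rfl
      intro σ _
      simp only [Pi.add_apply]
      ring)
    (by
      intro c y z
      unfold cupForm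
      rw [smul_eq_mul, Finset.mul_sum]
      apply Finset.sum_congr rfl
      intro σ _
      simp only [Pi.smul_apply, smul_eq_mul]
      ring)

theorem QB_apply (Φ : Cplx) (o : Finset ℕ → ℤ) (y z : Cch) : QB Φ o y z = cupForm Φ o y z := rfl

/-- The space of 2-cocycles. -/
def Zc (Φ : Cplx) : Submodule ℝ Cch where
  carrier := {y | IsCocycle2 Φ y}
  add_mem' := by
    intro y z hy hz a b c d h1 h2 h3 h
    have e1 := hy a b c d h1 h2 h3 h
    have e2 := hz a b c d h1 h2 h3 h
    simp only [Pi.add_apply]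
    linarith
  zero_mem' := by
    intro a b c d _ _ _ _
    simp
  smul_mem' := by
    intro t y hy a b c d h1 h2 h3 h
    have e1 := hy a b c d h1 h2 h3 h
    simp only [Pi.smul_apply, smul_eq_mul]
    linear_combination t * e1

theorem mem_Zc {Φ : Cplx} {y : Cch} : y ∈ Zc Φ ↔ IsCocycle2 Φ y := Iff.rfl

theorem Q_sum {ι : Type*} [Fintype ι] [DecidableEq ι] (Q : Cch →ₗ[ℝ] Cch →ₗ[ℝ] ℝ) (c : ι → Cch)
    (κ : ℝ) (h : ∀ i j, Q (c i) (c j) = if i = j then κ else 0) (t : ι → ℝ) :
    Q (∑ i, t i • c i) (∑ i, t i • c i) = κ * ∑ i, t i ^ 2 := by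
  simp only [map_sum, map_smul, LinearMap.sum_apply, LinearMap.smul_apply, smul_eq_mul, h,
    mul_ite, mul_zero, Finset.sum_ite_eq', Finset.mem_univ, if_true,
    Finset.mul_sum]
  apply Finset.sum_congr rfl
  intro i _
  ring

/-- The dimension count. -/
theorem dim_count {n m : ℕ} {E T : Type} [Fintype E] [Fintype T]
    (Q : Cch →ₗ[ℝ] Cch →ₗ[ℝ] ℝ) (Z : Submodule ℝ Cch) (ε : ℝ)
    (z : Fin n → Cch) (hz : ∀ i, z i ∈ Z)
    (hzQ : ∀ t : Fin n → ℝ, t ≠ 0 → 0 < ε * Q (∑ i, t i • z i) (∑ i, t i • z i))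
    (c : Fin m → Cch) (hc : ∀ i, c i ∈ Z) (hε : ε = 1 ∨ ε = -1)
    (hcQ : ∀ i j, Q (c i) (c j) = if i = j then -ε else 0)
    (D : (E → ℝ) →ₗ[ℝ] Cch) (hDZ : ∀ u, D u ∈ Z)
    (hDQ : ∀ u, ∀ y ∈ Z, Q (D u) y = 0 ∧ Q y (D u) = 0)
    (R : Cch →ₗ[ℝ] (T → ℝ)) (hR : ∀ y ∈ Z, R y = 0 → ∀ w, Q y w = 0 ∧ Q w y = 0)
    (hDR : ∀ u, R (D u) = 0 → u = 0) :
    n + m + Fintype.card E ≤ Fintype.card T := by
  let LZ : (Fin n → ℝ) →ₗ[ℝ] Cch := Fintype.linearCombination ℝ z
  let LC : (Fin m → ℝ) →ₗ[ℝ] Cch := Fintype.linearCombination ℝ c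
  have hLZ : ∀ t, LZ t = ∑ i, t i • z i := fun t => Fintype.linearCombination_apply ℝ z t
  have hLC : ∀ t, LC t = ∑ i, t i • c i := fun t => Fintype.linearCombination_apply ℝ c t
  let L : ((Fin n → ℝ) × (Fin m → ℝ)) × (E → ℝ) →ₗ[ℝ] (T → ℝ) :=
    R ∘ₗ ((LZ.coprod LC).coprod D)
  have hL : ∀ t s u, L ((t, s), u) = R (LZ t + LC s + D u) := by
    intro t s u
    simp [L]
  have hinj : Function.Injective L := by
    rw [← LinearMap.ker_eq_bot, LinearMap.ker_eq_bot']
    rintro ⟨⟨t, s⟩, u⟩ h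
    rw [hL] at h
    have hZt : LZ t ∈ Z := by
      rw [hLZ]; exact Submodule.sum_mem _ fun i _ => Submodule.smul_mem _ _ (hz i)
    have hCs : LC s ∈ Z := by
      rw [hLC]; exact Submodule.sum_mem _ fun i _ => Submodule.smul_mem _ _ (hc i)
    have hy : LZ t + LC s + D u ∈ Z := Z.add_mem (Z.add_mem hZt hCs) (hDZ u)
    have hyQ := hR _ hy h
    have hQC : Q (LC s) (LC s) = -ε * ∑ i, s i ^ 2 := by
      rw [hLC]; exact Q_sum Q c (-ε) hcQ s
    have e1 : Q (LZ t) (LZ t) = Q (LC s) (LC s) := by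
      have a1 := (hyQ (LZ t)).1
      have a2 := (hyQ (LC s)).2
      have a3 := (hyQ (D u)).2
      have a4 := (hDQ u _ hZt).1
      have a5 := (hDQ u _ hCs).2
      simp only [map_add, LinearMap.add_apply] at a1 a2 a3
      linarith
    have e2 : t = 0 := by
      by_contra ht
      have h1 := hzQ t ht
      rw [← hLZ, e1, hQC] at h1
      have h2 : 0 ≤ ∑ i, s i ^ 2 := Finset.sum_nonneg fun i _ => sq_nonneg _
      rcases hε with rfl | rfl
      · linarith
      · linarith
    subst e2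
    rw [map_zero] at e1
    rw [map_zero, hQC] at e1
    have e3 : ∑ i, s i ^ 2 = 0 := by
      rcases hε with rfl | rfl
      · linarith
      · linarith
    have e4 : s = 0 := by
      funext i
      have := (Finset.sum_eq_zero_iff_of_nonneg fun i _ => sq_nonneg (s i)).1 e3 i
        (Finset.mem_univ i)
      simpa using this
    subst e4
    rw [map_zero, map_zero, zero_add, zero_add] at h
    rw [hDR u h]
    rfl
  have := LinearMap.finrank_le_finrank_of_injective hinj
  simpa [Module.finrank_prod, Module.finrank_fintype_fun_eq_card] using this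

/-! ### Stokes -/

/-- Signed sum. -/
noncomputable def sct' (g : ℕ → ℝ) (x : ℕ) : ℝ := (if x % 2 = 0 then 1 else -1) * g (x / 2)

theorem sum_sct' (g : ℕ → ℝ) (cs : List ℕ) :
    ((cs.flatMap fun x => [2 * x, 2 * x + 1]).map (sct' g)).sum = 0 := by
  induction cs with
  | nil => rfl
  | cons x cs ih =>
    rw [List.flatMap_cons, List.map_append, List.sum_append, ih]
    have e1 : 2 * x / 2 = x := by omega
    have e2 : (2 * x + 1) / 2 = x := by omega
    have e3 : 2 * x % 2 = 0 := by omega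
    have e4 : (2 * x + 1) % 2 = 1 := by omega
    simp only [List.map_cons, List.map_nil, List.sum_cons, List.sum_nil, sct', e1, e2, e3, e4]
    simp

theorem sum_flatten_map' (FF : List (List ℕ)) (g : List ℕ → List ℕ) (k : ℕ → ℝ) :
    ((FF.map g).flatten.map k).sum = (FF.map fun f => ((g f).map k).sum).sum := by
  induction FF with
  | nil => rfl
  | cons f l ih =>
    rw [List.map_cons, List.flatten_cons, List.map_append, List.sum_append, ih, List.map_cons,
      List.sum_cons]

/-- The coboundary of a 3-cochain on a facet. -/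
def d3 (w : ℕ → ℕ → ℕ → ℕ → ℝ) (f : List ℕ) : ℝ :=
  match f with
  | [_, _, a, b, c, d, e] => w b c d e - w a c d e + w a b d e - w a b c e + w a b c d
  | _ => 0

variable {TT : Table} {FF : List (List (List ℕ))} {PT GEN : List (List ℕ)}

theorem FacHyp.stokes (H : FacHyp FF) (ht : tetsOK FF = true) (w : ℕ → ℕ → ℕ → ℕ → ℝ) :
    (FF.flatten.map fun f => (sgn (f.getD 1 0) : ℝ) * d3 w f).sum = 0 := by
  obtain ⟨cs, -, -, hp⟩ := exists_codes ht
  let g : ℕ → ℝ := fun c => w (c / 262144) (c / 4096 % 64) (c / 64 % 64) (c % 64)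
  have h1 := (hp.map (sct' g)).sum_eq
  rw [sum_sct', sum_flatten_map'] at h1
  refine Eq.trans ?_ h1
  congr 1
  apply List.map_congr_left
  intro f hf
  obtain ⟨s, a, b, c, d, e, h⟩ := H.fac hf
  rw [h.sign, h.tets_eq]
  have hd : d3 w f = w b c d e - w a c d e + w a b d e - w a b c e + w a b c d := by
    rw [h.eq]; rfl
  obtain ⟨-, hs, ab, bc, cd, de, he⟩ := id h
  have hg : ∀ p q r t : ℕ, q < 64 → r < 64 → t < 64 → g (code4 p q r t) = w p q r t := by
    intro p q r t hq hr ht
    simp only [g, code4_eq]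
    rw [show (((p * 64 + q) * 64 + r) * 64 + t) / 262144 = p by omega,
      show (((p * 64 + q) * 64 + r) * 64 + t) / 4096 % 64 = q by omega,
      show (((p * 64 + q) * 64 + r) * 64 + t) / 64 % 64 = r by omega,
      show (((p * 64 + q) * 64 + r) * 64 + t) % 64 = t by omega]
  simp only [List.map_cons, List.map_nil, List.sum_cons, List.sum_nil, sct', el_div, el_mod]
  rw [hg a b c d (by omega) (by omega) (by omega), hg a b c e (by omega) (by omega) (by omega),
    hg a b d e (by omega) (by omega) (by omega), hg a c d e (by omega) (by omega) (by omega),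
    hg b c d e (by omega) (by omega) (by omega), hd]
  interval_cases s
  · simp only [sgn]; norm_num; ring
  · simp only [sgn]; norm_num; ring

/-- The coboundary of a 1-cochain. -/
def d1 (e : ℕ → ℕ → ℝ) : Cch := fun a b c => e b c - e a c + e a b

theorem d1_cocycle (Φ : Cplx) (e : ℕ → ℕ → ℝ) : IsCocycle2 Φ (d1 e) := by
  intro a b c d _ _ _ _
  simp only [d1]
  ring

theorem IsFac.face {f : List ℕ} {s a b c d e : ℕ} (h : IsFac f s a b c d e)
    (hf : f ∈ FF.flatten) {w x y z : ℕ} (hw : w ∈ fset f) (hx : x ∈ fset f) (hy : y ∈ fset f)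
    (hz : z ∈ fset f) : ({w, x, y, z} : Finset ℕ) ∈ faces (Phi FF) := by
  rw [mem_faces_Phi]
  refine ⟨by simp, f, hf, ?_⟩
  intro v hv
  simp only [Finset.mem_insert, Finset.mem_singleton] at hv
  rcases hv with rfl | rfl | rfl | rfl <;> assumption

theorem FacHyp.cup_d1 (H : FacHyp FF) (ht : tetsOK FF = true) {z : Cch}
    (hz : IsCocycle2 (Phi FF) z) (e : ℕ → ℕ → ℝ) :
    cupForm (Phi FF) (ori FF) z (d1 e) = 0 ∧ cupForm (Phi FF) (ori FF) (d1 e) z = 0 := by
  constructor
  · rw [← H.stokes ht fun a b c d => z a b c * e c d, cupForm, H.sum_eq]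
    congr 1
    apply List.map_congr_left
    intro f hf
    obtain ⟨s, a, b, c, d, g, h⟩ := H.fac hf
    obtain ⟨v0, v1, v2, v3, v4⟩ := h.vtx_eq
    obtain ⟨-, hs, ab, bc, cd, dg, hg⟩ := id h
    have e1 := hz a b c d ab bc cd (h.face hf (h.mem.2 (by tauto)) (h.mem.2 (by tauto))
      (h.mem.2 (by tauto)) (h.mem.2 (by tauto)))
    rw [H.ori_eq hf, v0, v1, v2, v3, v4]
    have hd : d3 (fun a b c d => z a b c * e c d) f = z b c d * e d g - z a c d * e d g +
      z a b d * e d g - z a b c * e c g + z a b c * e c d := by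
      rw [h.eq]; rfl
    rw [hd]
    simp only [d1]
    linear_combination (-(sgn (f.getD 1 0) : ℝ) * e d g) * e1
  · rw [← H.stokes ht fun a b c d => e a b * z b c d, cupForm, H.sum_eq]
    congr 1
    apply List.map_congr_left
    intro f hf
    obtain ⟨s, a, b, c, d, g, h⟩ := H.fac hf
    obtain ⟨v0, v1, v2, v3, v4⟩ := h.vtx_eq
    obtain ⟨-, hs, ab, bc, cd, dg, hg⟩ := id h
    have e1 := hz b c d g bc cd dg (h.face hf (h.mem.2 (by tauto)) (h.mem.2 (by tauto))
      (h.mem.2 (by tauto)) (h.mem.2 (by tauto)))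
    rw [H.ori_eq hf, v0, v1, v2, v3, v4]
    have hd : d3 (fun a b c d => e a b * z b c d) f = e b c * z c d g - e a c * z c d g +
      e a b * z b d g - e a b * z b c g + e a b * z b c d := by
      rw [h.eq]; rfl
    rw [hd]
    simp only [d1]
    linear_combination ((sgn (f.getD 1 0) : ℝ) * e a b) * e1

end Pool.Agent.GeoZ5
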