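import Pool.Agent.GeoZ5.Sound1

/-!
Facets: the complex given by a list of facets.
-/

namespace Pool.Agent.GeoZ5

open Finset

/-- The vertex set of a facet in the list. -/
def fset (f : List ℕ) : Finset ℕ := (f.drop 2).toFinset

/-- The complex given by the chunks of facets. -/
def Phi (FF : List (List (List ℕ))) : Cplx := (FF.flatten.map fset).toFinset

/-- Format of a facet. -/
structure IsFac (f : List ℕ) (s a b c d e : ℕ) : Prop where
  eq : f = [msk [a, b, c, d, e], s, a, b, c, d, e]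
  hs : s < 2
  ab : a < b
  bc : b < c
  cd : c < d
  de : d < e
  he : e < 52

theorem facFmt_spec {f : List ℕ} (h : facFmt f = true) :
    ∃ s a b c d e, IsFac f s a b c d e := by
  match f, h with
  | [m, s, a, b, c, d, e], h =>
    simp only [facFmt, Bool.and_eq_true, Nat.blt_eq] at h
    obtain ⟨⟨⟨⟨⟨⟨h1, h2⟩, h3⟩, h4⟩, h5⟩, h6⟩, h7⟩ := h
    have := Nat.eq_of_beq_eq_true h7
    exact ⟨s, a, b, c, d, e, by rw [this], h1, h2, h3, h4, h5, h6⟩

theorem IsFac.fset_eq {f : List ℕ} {s a b c d e : ℕ} (h : IsFac f s a b c d e) :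
    fset f = {a, b, c, d, e} := by
  rw [h.eq]
  simp [fset]

theorem IsFac.fset_eq' {f : List ℕ} {s a b c d e : ℕ} (h : IsFac f s a b c d e) :
    fset f = [a, b, c, d, e].toFinset := by
  rw [h.eq]
  simp [fset]

theorem IsFac.mem {f : List ℕ} {s a b c d e : ℕ} (h : IsFac f s a b c d e) {v : ℕ} :
    v ∈ fset f ↔ v = a ∨ v = b ∨ v = c ∨ v = d ∨ v = e := by
  rw [h.fset_eq]; simp

theorem IsFac.sort_eq {f : List ℕ} {s a b c d e : ℕ} (h : IsFac f s a b c d e) :
    (fset f).sort (· ≤ ·) = [a, b, c, d, e] := by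
  obtain ⟨_, _, h1, h2, h3, h4, _⟩ := id h
  rw [h.fset_eq']
  apply (List.toFinset_sort (r := (· ≤ ·)) ?_).2
  · simp only [List.pairwise_cons, List.mem_cons, List.not_mem_nil, or_false, forall_eq_or_imp,
      forall_eq, List.Pairwise.nil, and_true, IsEmpty.forall_iff, implies_true]
    omega
  · simp only [List.nodup_cons, List.mem_cons, List.not_mem_nil, or_false, not_or,
      List.nodup_nil, and_true, not_false_eq_true]
    omega

theorem IsFac.card_eq {f : List ℕ} {s a b c d e : ℕ} (h : IsFac f s a b c d e) :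
    (fset f).card = 5 := by
  rw [← Finset.length_sort (· ≤ ·), h.sort_eq]; rfl

theorem IsFac.vtx_eq {f : List ℕ} {s a b c d e : ℕ} (h : IsFac f s a b c d e) :
    vtx (fset f) 0 = a ∧ vtx (fset f) 1 = b ∧ vtx (fset f) 2 = c ∧ vtx (fset f) 3 = d ∧
      vtx (fset f) 4 = e := by
  simp [vtx, h.sort_eq]

theorem IsFac.head {f : List ℕ} {s a b c d e : ℕ} (h : IsFac f s a b c d e) :
    f.getD 0 0 = msk [a, b, c, d, e] := by rw [h.eq]; rfl

theorem IsFac.sign {f : List ℕ} {s a b c d e : ℕ} (h : IsFac f s a b c d e) :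
    f.getD 1 0 = s := by rw [h.eq]; rfl

theorem IsFac.testBit {f : List ℕ} {s a b c d e : ℕ} (h : IsFac f s a b c d e) (i : ℕ) :
    (f.getD 0 0).testBit i = decide (i ∈ fset f) := by
  rw [h.head, msk_testBit, h.fset_eq']
  simp

theorem incr_spec {m : ℕ} {l : List (List ℕ)} (h : incr m l = true) :
    (∀ f ∈ l, m < f.getD 0 0) ∧ l.Pairwise fun f g => f.getD 0 0 < g.getD 0 0 := by
  induction l generalizing m with
  | nil => simp
  | cons f l ih =>
    cases f with
    | nil => simp [incr] at h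
    | cons x f =>
      cases hx : Nat.blt m x with
      | false => simp [incr, hx] at h
      | true =>
        have hx' : m < x := by simpa using hx
        obtain ⟨h1, h2⟩ := ih (m := x) (by simpa [incr, hx] using h)
        refine ⟨?_, ?_⟩
        · intro g hg
          rcases List.mem_cons.1 hg with rfl | hg
          · simpa using hx'
          · exact lt_trans hx' (h1 g hg)
        · exact List.pairwise_cons.2 ⟨fun g hg => by simpa using h1 g hg, h2⟩

/-- Hypotheses on the list of facets. -/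
structure FacHyp (FF : List (List (List ℕ))) : Prop where
  fmt : (FF.all fun c => c.all facFmt) = true
  inc : incr 0 FF.flatten = true

variable {FF : List (List (List ℕ))}

theorem FacHyp.fac (H : FacHyp FF) {f : List ℕ} (hf : f ∈ FF.flatten) :
    ∃ s a b c d e, IsFac f s a b c d e := by
  obtain ⟨c, hc, hf⟩ := List.mem_flatten.1 hf
  have := List.all_eq_true.1 H.fmt c hc
  exact facFmt_spec (List.all_eq_true.1 this f hf)

theorem FacHyp.nodup (H : FacHyp FF) : (FF.flatten.map fset).Nodup := by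
  rw [List.Nodup, List.pairwise_map]
  refine List.Pairwise.imp_of_mem ?_ (incr_spec H.inc).2
  intro f g hf hg hlt heq
  obtain ⟨s, a, b, c, d, e, h1⟩ := H.fac hf
  obtain ⟨s', a', b', c', d', e', h2⟩ := H.fac hg
  have : f.getD 0 0 = g.getD 0 0 := by
    apply Nat.eq_of_testBit_eq
    intro i
    rw [h1.testBit, h2.testBit, heq]
  omega

theorem mem_Phi {σ : Finset ℕ} : σ ∈ Phi FF ↔ ∃ f ∈ FF.flatten, fset f = σ := by
  simp only [Phi, List.mem_toFinset, List.mem_map]

theorem FacHyp.sum_eq (H : FacHyp FF) {M : Type*} [AddCommMonoid M] (g : Finset ℕ → M) :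
    ∑ σ ∈ Phi FF, g σ = (FF.flatten.map fun f => g (fset f)).sum := by
  rw [Phi, List.sum_toFinset _ H.nodup, List.map_map]
  rfl

theorem mem_faces {Φ : Cplx} {s : Finset ℕ} : s ∈ faces Φ ↔ s.Nonempty ∧ ∃ σ ∈ Φ, s ⊆ σ := by
  simp [faces, Finset.nonempty_iff_ne_empty]

theorem mem_faces_Phi {s : Finset ℕ} :
    s ∈ faces (Phi FF) ↔ s.Nonempty ∧ ∃ f ∈ FF.flatten, s ⊆ fset f := by
  rw [mem_faces]
  constructor
  · rintro ⟨h, σ, hσ, hs⟩
    obtain ⟨f, hf, rfl⟩ := mem_Phi.1 hσ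
    exact ⟨h, f, hf, hs⟩
  · rintro ⟨h, f, hf, hs⟩
    exact ⟨h, fset f, mem_Phi.2 ⟨f, hf, rfl⟩, hs⟩

theorem faces_mono {Φ : Cplx} {s t : Finset ℕ} (h : t ∈ faces Φ) (hs : s.Nonempty) (hst : s ⊆ t) :
    s ∈ faces Φ := by
  rw [mem_faces] at h ⊢
  obtain ⟨_, σ, hσ, h2⟩ := h
  exact ⟨hs, σ, hσ, hst.trans h2⟩

theorem FacHyp.lt_of_mem (H : FacHyp FF) {f : List ℕ} (hf : f ∈ FF.flatten) {v : ℕ}
    (hv : v ∈ fset f) : v < 52 := by
  obtain ⟨s, a, b, c, d, e, h⟩ := H.fac hf
  rw [h.mem] at hv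
  obtain ⟨_, _, h1, h2, h3, h4, h5⟩ := h
  omega

theorem evid_spec {i j M : ℕ} (h : evid FF i j M = true) :
    ∃ f ∈ FF.flatten, Nat.land (f.getD 0 0) M = M := by
  obtain ⟨h1, h2⟩ := nthK_spec [] h
  obtain ⟨h3, h4⟩ := nthK_spec [] h1
  refine ⟨nthD [] (nthD [] FF i) j, List.mem_flatten.2 ⟨_, nthD_mem _ h2, nthD_mem _ h4⟩, ?_⟩
  revert h3
  generalize nthD [] (nthD [] FF i) j = f
  intro h3
  cases f with
  | nil => simp at h3
  | cons m f => simpa using Nat.eq_of_beq_eq_true h3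

theorem land_comm' (a b : ℕ) : Nat.land a b = Nat.land b a := by
  change a &&& b = b &&& a
  exact Nat.land_comm a b

theorem FacHyp.evid (H : FacHyp FF) {i j : ℕ} {l : List ℕ} (h : evid FF i j (msk l) = true) :
    ∃ f ∈ FF.flatten, ∀ v ∈ l, v ∈ fset f := by
  obtain ⟨f, hf, h2⟩ := evid_spec h
  refine ⟨f, hf, fun v hv => ?_⟩
  obtain ⟨s, a, b, c, d, e, h3⟩ := H.fac hf
  rw [land_comm', land_msk_eq] at h2
  have := h2 v hv
  rw [h3.testBit] at this
  simpa using this

end Pool.Agent.GeoZ5
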