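import Pool.Agent.GeoZ5.Sound2

/-!
Soundness of the table of edges and triangles.
-/

namespace Pool.Agent.GeoZ5

open Finset

theorem triP_of {TT : Table} {a b c : ℕ} {q : List ℕ × List (List ℕ)} {p : List ℕ}
    (h1 : findB b (nthD [] TT a) = some q) (h2 : find c q.2 = some p) :
    triP TT a b c = some p := by
  simp [triP, h1, h2]

/-- The information given by `facTab`. -/
structure FacTab (TT : Table) (a b c d e : ℕ) : Prop where
  ex : ∃ abc abd abe acd ace ade bcd bce bde cde,
    triP TT a b c = some abc ∧ triP TT a b d = some abd ∧ triP TT a b e = some abe ∧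
    triP TT a c d = some acd ∧ triP TT a c e = some ace ∧ triP TT a d e = some ade ∧
    triP TT b c d = some bcd ∧ triP TT b c e = some bce ∧ triP TT b d e = some bde ∧
    triP TT c d e = some cde ∧
    tetEq (dat abc) (dat abd) (dat acd) (dat bcd) = true ∧
    tetEq (dat abc) (dat abe) (dat ace) (dat bce) = true ∧
    tetEq (dat abd) (dat abe) (dat ade) (dat bde) = true ∧
    tetEq (dat acd) (dat ace) (dat ade) (dat cde) = true ∧
    tetEq (dat bcd) (dat bce) (dat bde) (dat cde) = true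

theorem facTab_spec {TT : Table} {m s a b c d e : ℕ}
    (h : facTab TT [m, s, a, b, c, d, e] = true) : FacTab TT a b c d e := by
  simp only [facTab] at h
  obtain ⟨h, -⟩ := nthK_spec [] h
  obtain ⟨h, -⟩ := nthK_spec [] h
  obtain ⟨h, -⟩ := nthK_spec [] h
  obtain ⟨ab, hab, h⟩ := findBK_spec h
  obtain ⟨ac, hac, h⟩ := findBK_spec h
  obtain ⟨ad, had, h⟩ := findBK_spec h
  obtain ⟨bc, hbc, h⟩ := findBK_spec h
  obtain ⟨bd, hbd, h⟩ := findBK_spec h
  obtain ⟨cd, hcd, h⟩ := findBK_spec h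
  obtain ⟨abc, habc, h⟩ := findK_spec h
  obtain ⟨abd, habd, h⟩ := findK_spec h
  obtain ⟨abe, habe, h⟩ := findK_spec h
  obtain ⟨acd, hacd, h⟩ := findK_spec h
  obtain ⟨ace, hace, h⟩ := findK_spec h
  obtain ⟨ade, hade, h⟩ := findK_spec h
  obtain ⟨bcd, hbcd, h⟩ := findK_spec h
  obtain ⟨bce, hbce, h⟩ := findK_spec h
  obtain ⟨bde, hbde, h⟩ := findK_spec h
  obtain ⟨cde, hcde, h⟩ := findK_spec h
  simp only [Bool.and_eq_true] at h
  exact ⟨abc, abd, abe, acd, ace, ade, bcd, bce, bde, cde,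
    triP_of hab habc, triP_of hab habd, triP_of hab habe, triP_of hac hacd, triP_of hac hace,
    triP_of had hade, triP_of hbc hbcd, triP_of hbc hbce, triP_of hbd hbde, triP_of hcd hcde,
    h.1.1.1.1, h.1.1.1.2, h.1.1.2, h.1.2, h.2⟩

/-- Hypotheses on the table. -/
structure TabHyp (TT : Table) (FF : List (List (List ℕ))) (PT GEN : List (List ℕ)) : Prop
    extends FacHyp FF where
  len : TT.length = 52
  row : ∀ a < 52, rowOK TT FF PT GEN a (nthD [] TT a) = true
  tab : (FF.all fun c => c.all (facTab TT)) = true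

variable {TT : Table} {FF : List (List (List ℕ))} {PT GEN : List (List ℕ)}

theorem TabHyp.facTab (H : TabHyp TT FF PT GEN) {f : List ℕ} (hf : f ∈ FF.flatten)
    {s a b c d e : ℕ} (h : IsFac f s a b c d e) : FacTab TT a b c d e := by
  obtain ⟨ch, hch, hf'⟩ := List.mem_flatten.1 hf
  have h1 := List.all_eq_true.1 (List.all_eq_true.1 H.tab ch hch) f hf'
  rw [h.eq] at h1
  exact facTab_spec h1

theorem rowOK_spec {a : ℕ} {r : Row} (h : rowOK TT FF PT GEN a r = true)
    {b : ℕ} {p : List ℕ} {ents : List (List ℕ)} (hm : ((b :: p) :: ents) ∈ r) :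
    edgeOK TT PT GEN a b p = true ∧ incr b ents = true ∧
      ∃ k z w, p = k :: z :: w ∧ ents.all (triOK TT FF a b w) = true := by
  simp only [rowOK, Bool.and_eq_true] at h
  have h1 := List.all_eq_true.1 h.2 _ hm
  simp only [Bool.and_eq_true] at h1
  refine ⟨h1.1.1, h1.1.2, ?_⟩
  have h2 := h1.2
  match p, h2 with
  | k :: z :: w, h2 => exact ⟨k, z, w, rfl, h2⟩

theorem TabHyp.findB_lt (H : TabHyp TT FF PT GEN) {a b : ℕ} {q : List ℕ × List (List ℕ)}
    (h : findB b (nthD [] TT a) = some q) : a < 52 := by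
  by_contra hlt
  rw [nthD_of_le [] (by rw [H.len]; omega)] at h
  simp [findB] at h

theorem TabHyp.edge (H : TabHyp TT FF PT GEN) {a b : ℕ} {p : List ℕ}
    (h : edgeP TT a b = some p) : a < 52 ∧ edgeOK TT PT GEN a b p = true := by
  unfold edgeP at h
  cases hq : findB b (nthD [] TT a) with
  | none => simp [hq] at h
  | some q =>
    have h' : q.1 = p := by simpa [hq] using h
    have ha := H.findB_lt hq
    obtain ⟨h1, -, -⟩ := rowOK_spec (H.row a ha) (findB_mem hq)
    exact ⟨ha, by rwa [h'] at h1⟩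

theorem TabHyp.tri (H : TabHyp TT FF PT GEN) {a b c : ℕ} {p : List ℕ}
    (h : triP TT a b c = some p) : a < 52 ∧ ∃ k z w, edgeP TT a b = some (k :: z :: w) ∧
      triOK TT FF a b w (c :: p) = true := by
  unfold triP at h
  cases hq : findB b (nthD [] TT a) with
  | none => simp [hq] at h
  | some q =>
    have h' : find c q.2 = some p := by simpa [hq] using h
    have ha := H.findB_lt hq
    obtain ⟨-, -, k, z, w, h2, h3⟩ := rowOK_spec (H.row a ha) (findB_mem hq)
    refine ⟨ha, k, z, w, by simp [edgeP, hq, h2], ?_⟩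
    exact List.all_eq_true.1 h3 _ (find_mem h')

theorem edgeOK_lt {a b : ℕ} {p : List ℕ} (h : edgeOK TT PT GEN a b p = true) :
    a < b ∧ b < 52 := by
  match p, h with
  | key :: z :: w, h =>
    simp only [edgeOK, Bool.and_eq_true, Nat.blt_eq] at h
    exact ⟨h.1.1.1.1.1, h.1.1.1.1.2⟩

/-- Facts about a triangle in the table. -/
structure TriInfo (TT : Table) (FF : List (List (List ℕ))) (a b c : ℕ) (p : List ℕ) : Prop where
  ex : ∃ key z fi fj l k1 z1 w1 k2 z2 w2 k3 z3 w3, p = key :: z :: fi :: fj :: l ∧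
    a < b ∧ b < c ∧ c < 52 ∧
    (∃ f ∈ FF.flatten, a ∈ fset f ∧ b ∈ fset f ∧ c ∈ fset f ∧ z ∈ fset f) ∧
    vecFmt l = true ∧
    edgeP TT a b = some (k1 :: z1 :: w1) ∧ edgeP TT b c = some (k2 :: z2 :: w2) ∧
    edgeP TT a c = some (k3 :: z3 :: w3) ∧
    Nat.add (Nat.add (xP w1) (xP w2)) (xN w3) = Nat.add (Nat.add (xN w1) (xN w2)) (xP w3) ∧
    (key = 0 ∨
      (z < a ∧ triK TT z a b (keyLt key) = true ∧ triK TT z a c (keyLt key) = true ∧
        triK TT z b c (keyLt key) = true) ∨
      (a < z ∧ z < b ∧ triK TT a z b (keyLt key) = true ∧ triK TT a z c (keyLt key) = true ∧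
        triK TT z b c (keyLt key) = true) ∨
      (b < z ∧ z < c ∧ triK TT a b z (keyLt key) = true ∧ triK TT a z c (keyLt key) = true ∧
        triK TT b z c (keyLt key) = true) ∨
      (c < z ∧ triK TT a b z (keyLt key) = true ∧ triK TT a c z (keyLt key) = true ∧
        triK TT b c z (keyLt key) = true))

theorem TabHyp.triInfo (H : TabHyp TT FF PT GEN) {a b c : ℕ} {p : List ℕ}
    (h : triP TT a b c = some p) : TriInfo TT FF a b c p := by
  obtain ⟨ha, k1, z1, w1, h1, h2⟩ := H.tri h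
  have hab := edgeOK_lt (H.edge h1).2
  match p, h2 with
  | key :: z :: fi :: fj :: l, h2 =>
    simp only [triOK, Bool.and_eq_true] at h2
    obtain ⟨⟨⟨⟨h3, h4⟩, h5⟩, h6⟩, h7⟩ := h2
    obtain ⟨pbc, h8, h9⟩ := edgeK_spec h6
    obtain ⟨pac, h10, h11⟩ := edgeK_spec h9
    have hbc := edgeOK_lt (H.edge h8).2
    obtain ⟨f, hf, hfv⟩ := H.toFacHyp.evid h4
    simp only [List.mem_cons, List.not_mem_nil, or_false, forall_eq_or_imp, forall_eq] at hfv
    match pbc, pac, h8, h10, h11 with
    | k2 :: z2 :: w2, k3 :: z3 :: w3, h8, h10, h11 =>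
      have h12 := Nat.eq_of_beq_eq_true h11
      refine ⟨key, z, fi, fj, l, k1, z1, w1, k2, z2, w2, k3, z3, w3, rfl, hab.1, hbc.1, hbc.2,
        ⟨f, hf, hfv⟩, h5, h1, h8, h10, h12, ?_⟩
      clear h12 h11 h9 h6 hfv h4
      cases key with
      | zero => exact Or.inl rfl
      | succ key =>
        right
        simp only at h7
        cases hza : Nat.blt z a with
        | true =>
          left
          rw [hza] at h7
          simp only [Bool.and_eq_true] at h7
          exact ⟨by simpa using hza, h7.1.1, h7.1.2, h7.2⟩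
        | false =>
          right
          rw [hza] at h7
          simp only [Bool.and_eq_true, Nat.blt_eq] at h7
          obtain ⟨h13, h7⟩ := h7
          cases hzb : Nat.blt z b with
          | true =>
            left
            rw [hzb] at h7
            simp only [Bool.and_eq_true] at h7
            exact ⟨h13, by simpa using hzb, h7.1.1, h7.1.2, h7.2⟩
          | false =>
            right
            rw [hzb] at h7
            simp only [Bool.and_eq_true, Nat.blt_eq] at h7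
            obtain ⟨h14, h7⟩ := h7
            cases hzc : Nat.blt z c with
            | true =>
              left
              rw [hzc] at h7
              simp only [Bool.and_eq_true] at h7
              exact ⟨h14, by simpa using hzc, h7.1.1, h7.1.2, h7.2⟩
            | false =>
              right
              rw [hzc] at h7
              simp only [Bool.and_eq_true, Nat.blt_eq] at h7
              exact ⟨h7.1.1.1, h7.1.1.2, h7.1.2, h7.2⟩

theorem TabHyp.tri_face (H : TabHyp TT FF PT GEN) {a b c : ℕ} {p : List ℕ}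
    (h : triP TT a b c = some p) : ({a, b, c} : Finset ℕ) ∈ faces (Phi FF) := by
  obtain ⟨_, _, _, _, _, _, _, _, _, _, _, _, _, _, -, -, -, -, ⟨f, hf, h1, h2, h3, -⟩, -⟩ :=
    (H.triInfo h).ex
  rw [mem_faces_Phi]
  refine ⟨by simp, f, hf, ?_⟩
  intro v hv
  simp only [Finset.mem_insert, Finset.mem_singleton] at hv
  rcases hv with rfl | rfl | rfl <;> assumption

theorem TabHyp.tri_of_mem (H : TabHyp TT FF PT GEN) {f : List ℕ} (hf : f ∈ FF.flatten)
    {x y z : ℕ} (hxy : x < y) (hyz : y < z) (hx : x ∈ fset f) (hy : y ∈ fset f)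
    (hz : z ∈ fset f) : ∃ p, triP TT x y z = some p := by
  obtain ⟨s, a, b, c, d, e, h⟩ := H.fac hf
  obtain ⟨abc, abd, abe, acd, ace, ade, bcd, bce, bde, cde, h1, h2, h3, h4, h5, h6, h7, h8, h9,
    h10, -⟩ := (H.facTab hf h).ex
  rw [h.mem] at hx hy hz
  obtain ⟨_, _, ab, bc, cd, de, _⟩ := h
  rcases hx with rfl | rfl | rfl | rfl | rfl <;>
  rcases hy with rfl | rfl | rfl | rfl | rfl <;>
  first
  | (exfalso; omega)
  | (rcases hz with rfl | rfl | rfl | rfl | rfl <;>
      first
      | (exfalso; omega)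
      | exact ⟨_, h1⟩ | exact ⟨_, h2⟩ | exact ⟨_, h3⟩ | exact ⟨_, h4⟩ | exact ⟨_, h5⟩
      | exact ⟨_, h6⟩ | exact ⟨_, h7⟩ | exact ⟨_, h8⟩ | exact ⟨_, h9⟩ | exact ⟨_, h10⟩)

theorem TabHyp.tet_of_mem (H : TabHyp TT FF PT GEN) {f : List ℕ} (hf : f ∈ FF.flatten)
    {w x y z : ℕ} (hwx : w < x) (hxy : x < y) (hyz : y < z) (hw : w ∈ fset f) (hx : x ∈ fset f)
    (hy : y ∈ fset f) (hz : z ∈ fset f) : ∃ p1 p2 p3 p4, triP TT w x y = some p1 ∧
      triP TT w x z = some p2 ∧ triP TT w y z = some p3 ∧ triP TT x y z = some p4 ∧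
      tetEq (dat p1) (dat p2) (dat p3) (dat p4) = true := by
  obtain ⟨s, a, b, c, d, e, h⟩ := H.fac hf
  obtain ⟨abc, abd, abe, acd, ace, ade, bcd, bce, bde, cde, h1, h2, h3, h4, h5, h6, h7, h8, h9,
    h10, g1, g2, g3, g4, g5⟩ := (H.facTab hf h).ex
  rw [h.mem] at hw hx hy hz
  obtain ⟨_, _, ab, bc, cd, de, _⟩ := h
  rcases hw with rfl | rfl | rfl | rfl | rfl <;>
  rcases hx with rfl | rfl | rfl | rfl | rfl <;>
  first
  | (exfalso; omega)
  | (rcases hy with rfl | rfl | rfl | rfl | rfl <;>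
      first
      | (exfalso; omega)
      | (rcases hz with rfl | rfl | rfl | rfl | rfl <;>
          first
          | (exfalso; omega)
          | exact ⟨_, _, _, _, h1, h2, h4, h7, g1⟩
          | exact ⟨_, _, _, _, h1, h3, h5, h8, g2⟩
          | exact ⟨_, _, _, _, h2, h3, h6, h9, g3⟩
          | exact ⟨_, _, _, _, h4, h5, h6, h10, g4⟩
          | exact ⟨_, _, _, _, h7, h8, h9, h10, g5⟩))

theorem TabHyp.tri_of_face (H : TabHyp TT FF PT GEN) {x y z : ℕ} (hxy : x < y) (hyz : y < z)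
    (h : ({x, y, z} : Finset ℕ) ∈ faces (Phi FF)) : ∃ p, triP TT x y z = some p := by
  rw [mem_faces_Phi] at h
  obtain ⟨-, f, hf, hs⟩ := h
  exact H.tri_of_mem hf hxy hyz (hs (by simp)) (hs (by simp)) (hs (by simp))

theorem TabHyp.tet_of_face (H : TabHyp TT FF PT GEN) {w x y z : ℕ} (hwx : w < x) (hxy : x < y)
    (hyz : y < z) (h : ({w, x, y, z} : Finset ℕ) ∈ faces (Phi FF)) : ∃ p1 p2 p3 p4,
      triP TT w x y = some p1 ∧ triP TT w x z = some p2 ∧ triP TT w y z = some p3 ∧
      triP TT x y z = some p4 ∧ tetEq (dat p1) (dat p2) (dat p3) (dat p4) = true := by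
  rw [mem_faces_Phi] at h
  obtain ⟨-, f, hf, hs⟩ := h
  exact H.tet_of_mem hf hwx hxy hyz (hs (by simp)) (hs (by simp)) (hs (by simp)) (hs (by simp))

/-- Facts about an edge in the table. -/
structure EdgeInfo (TT : Table) (FF : List (List (List ℕ))) (a b : ℕ) (p : List ℕ) : Prop where
  ex : ∃ key z w, p = key :: z :: w ∧ a < b ∧ b < 52 ∧ letFmt w = true ∧ w.length ≤ 7 ∧
    ({a, b, z} : Finset ℕ) ∈ faces (Phi FF)

theorem TabHyp.edgeInfo (H : TabHyp TT FF PT GEN) {a b : ℕ} {p : List ℕ}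
    (h : edgeP TT a b = some p) : EdgeInfo TT FF a b p := by
  have h1 := (H.edge h).2
  match p, h1 with
  | key :: z :: w, h1 =>
    simp only [edgeOK, Bool.and_eq_true, Nat.blt_eq] at h1
    obtain ⟨⟨⟨⟨⟨h2, h3⟩, h4⟩, h5⟩, h6⟩, -⟩ := h1
    refine ⟨key, z, w, rfl, h2, h3, h4, by simpa using h6, ?_⟩
    unfold triZK at h5
    cases hza : Nat.blt z a with
    | true =>
      rw [hza] at h5
      obtain ⟨q, hq, -⟩ := triK_spec h5
      have := H.tri_face hq
      have e : ({a, b, z} : Finset ℕ) = {z, a, b} := by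
        ext v; simp only [Finset.mem_insert, Finset.mem_singleton]; tauto
      rwa [e]
    | false =>
      rw [hza] at h5
      simp only at h5
      cases hzb : Nat.blt z b with
      | true =>
        rw [hzb] at h5
        obtain ⟨q, hq, -⟩ := triK_spec h5
        have := H.tri_face hq
        have e : ({a, b, z} : Finset ℕ) = {a, z, b} := by
          ext v; simp only [Finset.mem_insert, Finset.mem_singleton]; tauto
        rwa [e]
      | false =>
        rw [hzb] at h5
        obtain ⟨q, hq, -⟩ := triK_spec h5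
        exact H.tri_face hq

theorem TabHyp.edge_face (H : TabHyp TT FF PT GEN) {a b : ℕ} {p : List ℕ}
    (h : edgeP TT a b = some p) : ({a, b} : Finset ℕ) ∈ faces (Phi FF) := by
  obtain ⟨_, z, _, _, _, _, _, _, h1⟩ := (H.edgeInfo h).ex
  refine faces_mono h1 (by simp) ?_
  intro v hv
  simp only [Finset.mem_insert, Finset.mem_singleton] at hv ⊢
  tauto

theorem TabHyp.edge_of_mem (H : TabHyp TT FF PT GEN) {f : List ℕ} (hf : f ∈ FF.flatten)
    {x y : ℕ} (hxy : x < y) (hx : x ∈ fset f) (hy : y ∈ fset f) :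
    ∃ p, edgeP TT x y = some p := by
  obtain ⟨s, a, b, c, d, e, h⟩ := H.fac hf
  have key : ∀ {u v w : ℕ}, u < v → v < w → u ∈ fset f → v ∈ fset f → w ∈ fset f →
      (∃ p, edgeP TT u v = some p) ∧ (∃ p, edgeP TT v w = some p) ∧
        (∃ p, edgeP TT u w = some p) := by
    intro u v w huv hvw hu hv hw
    obtain ⟨p, hp⟩ := H.tri_of_mem hf huv hvw hu hv hw
    obtain ⟨_, _, _, _, _, _, _, _, _, _, _, _, _, _, -, -, -, -, -, -, h1, h2, h3, -⟩ :=
      (H.triInfo hp).ex
    exact ⟨⟨_, h1⟩, ⟨_, h2⟩, ⟨_, h3⟩⟩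
  have hx' := h.mem.1 hx
  have hy' := h.mem.1 hy
  have ha : a ∈ fset f := h.mem.2 (by tauto)
  have hb : b ∈ fset f := h.mem.2 (by tauto)
  have hc : c ∈ fset f := h.mem.2 (by tauto)
  have hd : d ∈ fset f := h.mem.2 (by tauto)
  have he : e ∈ fset f := h.mem.2 (by tauto)
  obtain ⟨_, _, ab, bc, cd, de, _⟩ := h
  by_cases h1 : a < x
  · exact (key h1 hxy ha hx hy).2.1
  · have hxa : x = a := by omega
    subst hxa
    by_cases h2 : y < e
    · exact (key hxy h2 hx hy he).1
    · have hye : y = e := by omega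
      subst hye
      exact (key ab (by omega) hx hb hy).2.2

theorem TabHyp.edge_of_face (H : TabHyp TT FF PT GEN) {x y : ℕ} (hxy : x < y)
    (h : ({x, y} : Finset ℕ) ∈ faces (Phi FF)) : ∃ p, edgeP TT x y = some p := by
  rw [mem_faces_Phi] at h
  obtain ⟨-, f, hf, hs⟩ := h
  exact H.edge_of_mem hf hxy (hs (by simp)) (hs (by simp))

end Pool.Agent.GeoZ5
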