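import Pool.Agent.GeoZ5.Sound2

/-!
Soundness of the check that the vertex links are PL spheres.
-/

namespace Pool.Agent.GeoZ5

open Finset

/-- A bistellar flip is a PL equivalence. -/
theorem flip_PLEquiv (Φ : Cplx) (A B : Finset ℕ) (hA : A.Nonempty) (hB : B.Nonempty)
    (hAB : Disjoint A B)
    (h1 : ∀ σ ∈ Φ, A ⊆ σ → ∃ b ∈ B, σ = (A ∪ B).erase b)
    (h2 : ∀ b ∈ B, (A ∪ B).erase b ∈ Φ)
    (h3 : ∀ σ ∈ Φ, ¬ B ⊆ σ) :
    PLEquiv Φ ((Φ.filter fun σ => ¬ A ⊆ σ) ∪ A.image fun a => (A ∪ B).erase a) := by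
  classical
  have hsubA : ∀ b ∈ B, A ⊆ (A ∪ B).erase b := by
    intro b hb x hx
    refine Finset.mem_erase.2 ⟨?_, Finset.mem_union_left _ hx⟩
    rintro rfl
    exact Finset.disjoint_left.1 hAB hx hb
  have hsubB : ∀ a ∈ A, B ⊆ (A ∪ B).erase a := by
    intro a ha x hx
    refine Finset.mem_erase.2 ⟨?_, Finset.mem_union_right _ hx⟩
    rintro rfl
    exact Finset.disjoint_left.1 hAB ha hx
  obtain ⟨w, hw⟩ : ∃ w, w ∉ (Φ.biUnion id ∪ (A ∪ B)) := Infinite.exists_notMem_finset _
  have hw1 : ∀ σ ∈ Φ, w ∉ σ := by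
    intro σ hσ h
    exact hw (Finset.mem_union_left _ (Finset.mem_biUnion.2 ⟨σ, hσ, h⟩))
  have hw2 : w ∉ A ∪ B := fun h => hw (Finset.mem_union_right _ h)
  set Ψ : Cplx := (Φ.filter fun σ => ¬ A ⊆ σ) ∪ A.image fun a => (A ∪ B).erase a with hΨ
  have key : stellar Φ A w = stellar Ψ B w := by
    have e1 : (Φ.filter fun σ => A ⊆ σ) = B.image fun b => (A ∪ B).erase b := by
      ext σ
      simp only [Finset.mem_filter, Finset.mem_image]
      constructor
      · rintro ⟨h4, h5⟩
        obtain ⟨b, hb, rfl⟩ := h1 σ h4 h5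
        exact ⟨b, hb, rfl⟩
      · rintro ⟨b, hb, rfl⟩
        exact ⟨h2 b hb, hsubA b hb⟩
    have e2 : (Ψ.filter fun σ => B ⊆ σ) = A.image fun a => (A ∪ B).erase a := by
      ext σ
      simp only [hΨ, Finset.mem_filter, Finset.mem_image, Finset.mem_union]
      constructor
      · rintro ⟨⟨h4, -⟩ | h4, h5⟩
        · exact absurd h5 (h3 σ h4)
        · exact h4
      · rintro ⟨a, ha, rfl⟩
        exact ⟨Or.inr ⟨a, ha, rfl⟩, hsubB a ha⟩
    have e3 : (Ψ.filter fun σ => ¬ B ⊆ σ) = Φ.filter fun σ => ¬ A ⊆ σ := by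
      ext σ
      simp only [hΨ, Finset.mem_filter, Finset.mem_image, Finset.mem_union]
      constructor
      · rintro ⟨h4 | ⟨a, ha, rfl⟩, h5⟩
        · exact h4
        · exact absurd (hsubB a ha) h5
      · rintro h4
        exact ⟨Or.inl h4, h3 σ h4.1⟩
    unfold stellar
    rw [e1, e2, e3]
    congr 1
    ext σ
    simp only [Finset.mem_biUnion, Finset.mem_image, exists_exists_and_eq_and]
    constructor
    · rintro ⟨b, hb, a, ha, rfl⟩
      exact ⟨a, ha, b, hb, by rw [Finset.erase_right_comm]⟩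
    · rintro ⟨a, ha, b, hb, rfl⟩
      exact ⟨b, hb, a, ha, by rw [Finset.erase_right_comm]⟩
  have hAf : A ∈ faces Φ := by
    obtain ⟨b, hb⟩ := hB
    exact mem_faces.2 ⟨hA, _, h2 b hb, hsubA b hb⟩
  have hBf : B ∈ faces Ψ := by
    obtain ⟨a, ha⟩ := hA
    refine mem_faces.2 ⟨hB, (A ∪ B).erase a, ?_, hsubB a ha⟩
    rw [hΨ]
    exact Finset.mem_union_right _ (Finset.mem_image_of_mem _ ha)
  have hwΦ : {w} ∉ faces Φ := by
    intro h
    obtain ⟨-, σ, hσ, h⟩ := mem_faces.1 h
    exact hw1 σ hσ (h (by simp))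
  have hwΨ : {w} ∉ faces Ψ := by
    intro h
    obtain ⟨-, σ, hσ, h⟩ := mem_faces.1 h
    rw [hΨ, Finset.mem_union] at hσ
    rcases hσ with hσ | hσ
    · exact hw1 σ (Finset.mem_filter.1 hσ).1 (h (by simp))
    · obtain ⟨a, ha, rfl⟩ := Finset.mem_image.1 hσ
      exact hw2 (Finset.mem_of_mem_erase (h (by simp)))
  have s1 := PLEquiv.stellar Φ A w hAf hwΦ
  have s2 := PLEquiv.stellar Ψ B w hBf hwΨ
  rw [key] at s1
  exact s1.trans s2.symm

/-- The complex given by a list of masks containing the bit `v`. -/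
def Cv (v : ℕ) (l : List ℕ) : Cplx := (l.map fun m => (bits m).erase v).toFinset

theorem mem_Cv {v : ℕ} {l : List ℕ} {σ : Finset ℕ} :
    σ ∈ Cv v l ↔ ∃ m ∈ l, (bits m).erase v = σ := by
  simp [Cv]

theorem scan_spec {a b : ℕ} {k : List ℕ → List ℕ → Bool} {l kept fnd : List ℕ}
    (h : scan a b k l kept fnd = true) : ∃ kept' fnd', k kept' fnd' = true ∧
      (∀ f, f ∈ kept' ↔ f ∈ kept ∨ (f ∈ l ∧ ¬ Nat.land a f = a)) ∧
      (∀ f, f ∈ fnd' ↔ f ∈ fnd ∨ (f ∈ l ∧ Nat.land a f = a)) ∧
      (∀ f ∈ l, ¬ Nat.land a f = a → ¬ Nat.land b f = b) := by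
  induction l generalizing kept fnd with
  | nil => exact ⟨kept, fnd, h, by simp, by simp, by simp⟩
  | cons f l ih =>
    unfold scan at h
    cases ha : Nat.beq (Nat.land a f) a with
    | true =>
      rw [ha] at h
      have ha' := Nat.eq_of_beq_eq_true ha
      obtain ⟨k', f', h1, h2, h3, h4⟩ := ih h
      refine ⟨k', f', h1, ?_, ?_, ?_⟩
      · intro g
        rw [h2 g, List.mem_cons]
        constructor
        · rintro (h | ⟨h, h'⟩)
          · exact Or.inl h
          · exact Or.inr ⟨Or.inr h, h'⟩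
        · rintro (h | ⟨rfl | h, h'⟩)
          · exact Or.inl h
          · exact absurd ha' h'
          · exact Or.inr ⟨h, h'⟩
      · intro g
        rw [h3 g, List.mem_cons, List.mem_cons]
        constructor
        · rintro ((rfl | h) | ⟨h, h'⟩)
          · exact Or.inr ⟨Or.inl rfl, ha'⟩
          · exact Or.inl h
          · exact Or.inr ⟨Or.inr h, h'⟩
        · rintro (h | ⟨rfl | h, h'⟩)
          · exact Or.inl (Or.inr h)
          · exact Or.inl (Or.inl rfl)
          · exact Or.inr ⟨h, h'⟩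
      · intro g hg hg'
        rcases List.mem_cons.1 hg with rfl | hg
        · exact absurd ha' hg'
        · exact h4 g hg hg'
    | false =>
      rw [ha] at h
      have ha' : ¬ Nat.land a f = a := fun h => by
        rw [h] at ha
        simp at ha
      simp only at h
      cases hb : Nat.beq (Nat.land b f) b with
      | true => rw [hb] at h; simp at h
      | false =>
        rw [hb] at h
        have hb' : ¬ Nat.land b f = b := fun h => by
          rw [h] at hb
          simp at hb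
        obtain ⟨k', f', h1, h2, h3, h4⟩ := ih h
        refine ⟨k', f', h1, ?_, ?_, ?_⟩
        · intro g
          rw [h2 g, List.mem_cons, List.mem_cons]
          constructor
          · rintro ((rfl | h) | ⟨h, h'⟩)
            · exact Or.inr ⟨Or.inl rfl, ha'⟩
            · exact Or.inl h
            · exact Or.inr ⟨Or.inr h, h'⟩
          · rintro (h | ⟨rfl | h, h'⟩)
            · exact Or.inl (Or.inr h)
            · exact Or.inl (Or.inl rfl)
            · exact Or.inr ⟨h, h'⟩
        · intro g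
          rw [h3 g, List.mem_cons]
          constructor
          · rintro (h | ⟨h, h'⟩)
            · exact Or.inl h
            · exact Or.inr ⟨Or.inr h, h'⟩
          · rintro (h | ⟨rfl | h, h'⟩)
            · exact Or.inl h
            · exact absurd h' ha'
            · exact Or.inr ⟨h, h'⟩
        · intro g hg hg'
          rcases List.mem_cons.1 hg with rfl | hg
          · exact hb'
          · exact h4 g hg hg'

theorem mem_newF {ab : ℕ} {A acc : List ℕ} {f : ℕ} :
    f ∈ newF ab A acc ↔ f ∈ acc ∨ ∃ a ∈ A, f = Nat.xor ab (Nat.pow 2 a) := by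
  induction A generalizing acc with
  | nil => simp [newF]
  | cons a A ih =>
    rw [newF, ih, List.mem_cons]
    constructor
    · rintro ((rfl | h) | ⟨x, hx, rfl⟩)
      · exact Or.inr ⟨a, by simp, rfl⟩
      · exact Or.inl h
      · exact Or.inr ⟨x, List.mem_cons_of_mem _ hx, rfl⟩
    · rintro (h | ⟨x, hx, rfl⟩)
      · exact Or.inl (Or.inr h)
      · rcases List.mem_cons.1 hx with rfl | hx
        · exact Or.inl (Or.inl rfl)
        · exact Or.inr ⟨x, hx, rfl⟩

theorem vtxFmt_spec {v : ℕ} {A : List ℕ} (h : vtxFmt v A = true) : ∀ a ∈ A, a < 52 ∧ a ≠ v := by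
  induction A with
  | nil => simp
  | cons a A ih =>
    simp only [vtxFmt, Bool.and_eq_true, Nat.blt_eq, Bool.not_eq_true'] at h
    intro x hx
    rcases List.mem_cons.1 hx with rfl | hx
    · refine ⟨h.1.1, ?_⟩
      rintro rfl
      have := h.1.2
      simp at this
    · exact ih h.2 x hx

theorem sub_bits_iff {v : ℕ} {A : List ℕ} (hA : vtxFmt v A = true) {f : ℕ} :
    Nat.land (msk A) f = msk A ↔ A.toFinset ⊆ (bits f).erase v := by
  rw [land_msk_eq]
  constructor
  · intro h x hx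
    rw [List.mem_toFinset] at hx
    obtain ⟨h1, h2⟩ := vtxFmt_spec hA x hx
    exact Finset.mem_erase.2 ⟨h2, mem_bits.2 ⟨h1, h x hx⟩⟩
  · intro h x hx
    exact (mem_bits.1 (Finset.mem_of_mem_erase (h (List.mem_toFinset.2 hx)))).2

theorem bits_xor {v : ℕ} {A B : List ℕ} (hA : vtxFmt v A = true) (hB : vtxFmt v B = true)
    {b : ℕ} (hb : b ∈ A ∨ b ∈ B) :
    (bits (Nat.xor (Nat.lor (Nat.lor (msk A) (msk B)) (Nat.pow 2 v)) (Nat.pow 2 b))).erase v =
      (A.toFinset ∪ B.toFinset).erase b := by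
  have hbv : b < 52 ∧ b ≠ v := by
    rcases hb with hb | hb
    · exact vtxFmt_spec hA b hb
    · exact vtxFmt_spec hB b hb
  ext i
  have e : Nat.xor (Nat.lor (Nat.lor (msk A) (msk B)) (Nat.pow 2 v)) (Nat.pow 2 b) =
      ((msk A ||| msk B) ||| 2 ^ v) ^^^ 2 ^ b := rfl
  rw [Finset.mem_erase, mem_bits, e, Nat.testBit_xor, Nat.testBit_or, Nat.testBit_or, msk_testBit,
    msk_testBit, Nat.testBit_two_pow, Nat.testBit_two_pow, Finset.mem_erase, Finset.mem_union,
    List.mem_toFinset, List.mem_toFinset]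
  constructor
  · rintro ⟨h1, h2, h3⟩
    have h4 : ¬ v = i := fun h => h1 h.symm
    by_cases h5 : b = i
    · subst h5
      have h6 : (decide (b ∈ A) || decide (b ∈ B)) = true := by simpa using hb
      simp [h4, h6] at h3
    · simp only [h4, h5, decide_false, Bool.or_false, Bool.xor_false, Bool.or_eq_true,
        decide_eq_true_eq] at h3
      exact ⟨fun h => h5 h.symm, h3⟩
  · rintro ⟨h1, h2⟩
    have h5 : ¬ b = i := fun h => h1 h.symm
    have h6 : i < 52 ∧ i ≠ v := by
      rcases h2 with hb | hb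
      · exact vtxFmt_spec hA i hb
      · exact vtxFmt_spec hB i hb
    have h4 : ¬ v = i := fun h => h6.2 h.symm
    refine ⟨h6.2, h6.1, ?_⟩
    simpa [h4, h5] using h2

theorem flipK_spec {v : ℕ} {A B : List ℕ} {k : List ℕ → Bool} {l : List ℕ}
    (h : flipK v A B k l = true) : ∃ l', k l' = true ∧ PLEquiv (Cv v l) (Cv v l') := by
  simp only [flipK, Bool.and_eq_true] at h
  obtain ⟨⟨⟨⟨⟨h1, hA⟩, hB⟩, hA0⟩, hB0⟩, h2⟩ := h
  obtain ⟨kept, fnd, h3, h4, h5, h6⟩ := scan_spec h2
  simp only [Bool.and_eq_true] at h3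
  obtain ⟨⟨h7, h8⟩, h9⟩ := h3
  refine ⟨_, h9, ?_⟩
  have hAne : A.toFinset.Nonempty := by
    cases A with
    | nil => simp at hA0
    | cons a A => exact ⟨a, by simp⟩
  have hBne : B.toFinset.Nonempty := by
    cases B with
    | nil => simp at hB0
    | cons a A => exact ⟨a, by simp⟩
  have hdisj : Disjoint A.toFinset B.toFinset := by
    rw [Finset.disjoint_left]
    intro x hx hx'
    rw [List.mem_toFinset] at hx hx'
    have h10 := Nat.eq_of_beq_eq_true h1
    have h11 : (Nat.land (msk A) (msk B)).testBit x = true := by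
      have e : Nat.land (msk A) (msk B) = msk A &&& msk B := rfl
      rw [e, Nat.testBit_and, msk_testBit, msk_testBit]
      simp [hx, hx']
    rw [h10] at h11
    simp at h11
  have hfnd : ∀ f ∈ l, Nat.land (msk A) f = msk A → ∃ b ∈ B,
      f = Nat.xor (Nat.lor (Nat.lor (msk A) (msk B)) (Nat.pow 2 v)) (Nat.pow 2 b) := by
    intro f hf hf'
    have := List.all_eq_true.1 h7 f ((h5 f).2 (Or.inr ⟨hf, hf'⟩))
    obtain ⟨b, hb, h10⟩ := List.any_eq_true.1 this
    exact ⟨b, hb, Nat.eq_of_beq_eq_true h10⟩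
  have H1 : ∀ σ ∈ Cv v l, A.toFinset ⊆ σ → ∃ b ∈ B.toFinset,
      σ = (A.toFinset ∪ B.toFinset).erase b := by
    intro σ hσ hAσ
    obtain ⟨f, hf, rfl⟩ := mem_Cv.1 hσ
    obtain ⟨b, hb, h10⟩ := hfnd f hf ((sub_bits_iff hA).2 hAσ)
    exact ⟨b, List.mem_toFinset.2 hb, by rw [h10, bits_xor hA hB (Or.inr hb)]⟩
  have H2 : ∀ b ∈ B.toFinset, (A.toFinset ∪ B.toFinset).erase b ∈ Cv v l := by
    intro b hb
    rw [List.mem_toFinset] at hb
    have := List.all_eq_true.1 h8 b hb
    obtain ⟨f, hf, h10⟩ := List.any_eq_true.1 this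
    have h11 := Nat.eq_of_beq_eq_true h10
    have h12 : f ∈ l := by
      rcases (h5 f).1 hf with h | h
      · simp at h
      · exact h.1
    exact mem_Cv.2 ⟨f, h12, by rw [h11, bits_xor hA hB (Or.inr hb)]⟩
  have H3 : ∀ σ ∈ Cv v l, ¬ B.toFinset ⊆ σ := by
    intro σ hσ hBσ
    obtain ⟨f, hf, rfl⟩ := mem_Cv.1 hσ
    by_cases hf' : Nat.land (msk A) f = msk A
    · obtain ⟨b, hb, h10⟩ := hfnd f hf hf'
      rw [h10, bits_xor hA hB (Or.inr hb)] at hBσ
      exact (Finset.notMem_erase b _) (hBσ (List.mem_toFinset.2 hb))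
    · exact h6 f hf hf' ((sub_bits_iff hB).2 hBσ)
  have key := flip_PLEquiv (Cv v l) A.toFinset B.toFinset hAne hBne hdisj H1 H2 H3
  have e : Cv v (newF (Nat.lor (Nat.lor (msk A) (msk B)) (Nat.pow 2 v)) A kept) =
      ((Cv v l).filter fun σ => ¬ A.toFinset ⊆ σ) ∪
        A.toFinset.image fun a => (A.toFinset ∪ B.toFinset).erase a := by
    ext σ
    rw [mem_Cv, Finset.mem_union, Finset.mem_filter, mem_Cv, Finset.mem_image]
    constructor
    · rintro ⟨f, hf, rfl⟩
      rcases mem_newF.1 hf with hf | ⟨a, ha, rfl⟩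
      · left
        rcases (h4 f).1 hf with h | h
        · simp at h
        · exact ⟨⟨f, h.1, rfl⟩, fun h' => h.2 ((sub_bits_iff hA).2 h')⟩
      · right
        exact ⟨a, List.mem_toFinset.2 ha, by rw [bits_xor hA hB (Or.inl ha)]⟩
    · rintro (⟨⟨f, hf, rfl⟩, h'⟩ | ⟨a, ha, rfl⟩)
      · refine ⟨f, mem_newF.2 (Or.inl ((h4 f).2 (Or.inr ⟨hf, ?_⟩))), rfl⟩
        intro h
        exact h' ((sub_bits_iff hA).1 h)
      · rw [List.mem_toFinset] at ha
        exact ⟨_, mem_newF.2 (Or.inr ⟨a, ha, rfl⟩), bits_xor hA hB (Or.inl ha)⟩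
  rw [e]
  exact key

theorem finOK_spec {v : ℕ} {V l : List ℕ} (h : finOK v V l = true) :
    V.toFinset.card = 5 ∧ Cv v l = V.toFinset.powersetCard 4 := by
  match V, h with
  | [p, q, r, s, t], h =>
    simp only [finOK, Bool.and_eq_true, Nat.blt_eq] at h
    obtain ⟨⟨⟨⟨⟨⟨hV, h1⟩, h2⟩, h3⟩, h4⟩, h5⟩, h6⟩ := h
    have hcard : [p, q, r, s, t].toFinset.card = 5 := by
      rw [List.toFinset_card_of_nodup]
      · rfl
      · simp only [List.nodup_cons, List.mem_cons, List.not_mem_nil, or_false, not_or,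
          List.nodup_nil, and_true, not_false_eq_true]
        omega
    refine ⟨hcard, ?_⟩
    set V := [p, q, r, s, t] with hVdef
    have hb : ∀ b ∈ V, (bits (Nat.xor (Nat.lor (msk V) (Nat.pow 2 v)) (Nat.pow 2 b))).erase v =
        V.toFinset.erase b := by
      intro b hb
      have := bits_xor (A := V) (B := []) hV rfl (Or.inl hb)
      have e1 : Nat.lor (Nat.lor (msk V) (msk [])) (Nat.pow 2 v) =
          Nat.lor (msk V) (Nat.pow 2 v) := by
        have : Nat.lor (msk V) (msk []) = msk V ||| 0 := rfl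
        rw [this, Nat.or_zero]
      rw [e1] at this
      rw [this]
      simp
    ext σ
    rw [mem_Cv, Finset.mem_powersetCard]
    constructor
    · rintro ⟨f, hf, rfl⟩
      obtain ⟨b, hbV, h7⟩ := List.any_eq_true.1 (List.all_eq_true.1 h5 f hf)
      rw [Nat.eq_of_beq_eq_true h7, hb b hbV]
      refine ⟨Finset.erase_subset _ _, ?_⟩
      rw [Finset.card_erase_of_mem (List.mem_toFinset.2 hbV), hcard]
    · rintro ⟨hσ, hσc⟩
      have h7 : (V.toFinset \ σ).card = 1 := by
        rw [Finset.card_sdiff_of_subset hσ, hcard, hσc]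
      obtain ⟨b, hb'⟩ := Finset.card_eq_one.1 h7
      have hbV : b ∈ V := by
        have : b ∈ V.toFinset \ σ := by rw [hb']; simp
        exact List.mem_toFinset.1 (Finset.mem_sdiff.1 this).1
      obtain ⟨f, hf, h8⟩ := List.any_eq_true.1 (List.all_eq_true.1 h6 b hbV)
      refine ⟨f, hf, ?_⟩
      rw [Nat.eq_of_beq_eq_true h8, hb b hbV, Finset.erase_eq, ← hb',
        Finset.sdiff_sdiff_eq_self hσ]

theorem runK_spec {v : ℕ} {V : List ℕ} {s : List (List (List ℕ))} {l : List ℕ}
    (h : runK v V s l = true) : IsPLSphere 3 (Cv v l) := by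
  induction s generalizing l with
  | nil =>
    obtain ⟨h1, h2⟩ := finOK_spec h
    exact ⟨V.toFinset, h1, by rw [h2]; exact .refl _⟩
  | cons AB s ih =>
    match AB, h with
    | [A, B], h =>
      obtain ⟨l', h1, h2⟩ := flipK_spec h
      obtain ⟨S, h3, h4⟩ := ih h1
      exact ⟨S, h3, h4.trans h2.symm⟩

theorem starK_spec {bv : ℕ} {k : List ℕ → Bool} {F : List (List ℕ)} {acc : List ℕ}
    (h : starK bv k F acc = true) : ∃ l, k l = true ∧
      ∀ m, m ∈ l ↔ m ∈ acc ∨ ∃ f ∈ F, f.getD 0 0 = m ∧ Nat.land m bv = bv := by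
  induction F generalizing acc with
  | nil => exact ⟨acc, h, by simp⟩
  | cons f F ih =>
    cases f with
    | nil => simp [starK] at h
    | cons x f =>
      unfold starK at h
      simp only at h
      cases hx : Nat.beq (Nat.land x bv) bv with
      | true =>
        rw [hx] at h
        have hx' := Nat.eq_of_beq_eq_true hx
        obtain ⟨l, h1, h2⟩ := ih h
        refine ⟨l, h1, fun m => ?_⟩
        rw [h2 m, List.mem_cons]
        constructor
        · rintro ((rfl | h) | ⟨g, hg, h⟩)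
          · exact Or.inr ⟨_, List.mem_cons_self, rfl, hx'⟩
          · exact Or.inl h
          · exact Or.inr ⟨g, List.mem_cons_of_mem _ hg, h⟩
        · rintro (h | ⟨g, hg, h3, h4⟩)
          · exact Or.inl (Or.inr h)
          · rcases List.mem_cons.1 hg with rfl | hg
            · exact Or.inl (Or.inl (by simpa using h3.symm))
            · exact Or.inr ⟨g, hg, h3, h4⟩
      | false =>
        rw [hx] at h
        have hx' : ¬ Nat.land x bv = bv := fun h => by
          rw [h] at hx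
          simp at hx
        obtain ⟨l, h1, h2⟩ := ih h
        refine ⟨l, h1, fun m => ?_⟩
        rw [h2 m]
        constructor
        · rintro (h | ⟨g, hg, h⟩)
          · exact Or.inl h
          · exact Or.inr ⟨g, List.mem_cons_of_mem _ hg, h⟩
        · rintro (h | ⟨g, hg, h3, h4⟩)
          · exact Or.inl h
          · rcases List.mem_cons.1 hg with rfl | hg
            · exfalso
              have : x = m := by simpa using h3
              subst this
              exact hx' h4
            · exact Or.inr ⟨g, hg, h3, h4⟩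

theorem starKK_spec {bv : ℕ} {k : List ℕ → Bool} {F : List (List (List ℕ))} {acc : List ℕ}
    (h : starKK bv k F acc = true) : ∃ l, k l = true ∧
      ∀ m, m ∈ l ↔ m ∈ acc ∨ ∃ f ∈ F.flatten, f.getD 0 0 = m ∧ Nat.land m bv = bv := by
  induction F generalizing acc with
  | nil => exact ⟨acc, h, by simp⟩
  | cons c F ih =>
    unfold starKK at h
    obtain ⟨l1, h1, h2⟩ := starK_spec h
    obtain ⟨l, h3, h4⟩ := ih h1
    refine ⟨l, h3, fun m => ?_⟩
    rw [h4 m, h2 m, List.flatten_cons]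
    constructor
    · rintro ((h | ⟨f, hf, h⟩) | ⟨f, hf, h⟩)
      · exact Or.inl h
      · exact Or.inr ⟨f, List.mem_append_left _ hf, h⟩
      · exact Or.inr ⟨f, List.mem_append_right _ hf, h⟩
    · rintro (h | ⟨f, hf, h⟩)
      · exact Or.inl (Or.inl h)
      · rcases List.mem_append.1 hf with hf | hf
        · exact Or.inl (Or.inr ⟨f, hf, h⟩)
        · exact Or.inr ⟨f, hf, h⟩

theorem FacHyp.bits_eq {FF : List (List (List ℕ))} (H : FacHyp FF) {f : List ℕ}
    (hf : f ∈ FF.flatten) : bits (f.getD 0 0) = fset f := by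
  obtain ⟨s, a, b, c, d, e, h⟩ := H.fac hf
  ext i
  rw [mem_bits, h.testBit]
  constructor
  · rintro ⟨-, h⟩; simpa using h
  · intro hi
    exact ⟨H.lt_of_mem hf hi, by simpa using hi⟩

theorem FacHyp.link_sphere {FF : List (List (List ℕ))} (H : FacHyp FF) {v : ℕ}
    {s : List (List (List ℕ))} {V : List ℕ} (h : linkOK FF v s V = true) :
    IsPLSphere 3 (link (Phi FF) v) := by
  obtain ⟨l, h1, h2⟩ := starKK_spec h
  simp only [Bool.and_eq_true] at h1
  have h3 := runK_spec h1.2
  have e : link (Phi FF) v = Cv v l := by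
    ext σ
    rw [GeoZ5.link, Finset.mem_image, mem_Cv]
    constructor
    · rintro ⟨τ, hτ, rfl⟩
      rw [Finset.mem_filter] at hτ
      obtain ⟨hτ, hv⟩ := hτ
      obtain ⟨f, hf, rfl⟩ := mem_Phi.1 hτ
      refine ⟨f.getD 0 0, (h2 _).2 (Or.inr ⟨f, hf, rfl, ?_⟩), by rw [H.bits_eq hf]⟩
      have : Nat.pow 2 v = msk [v] := by
        change 2 ^ v = 2 ^ v ||| 0
        rw [Nat.or_zero]
      rw [this, land_comm', land_msk_eq]
      intro i hi
      have hi' : i = v := by simpa using hi
      subst hi'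
      obtain ⟨s, a, b, c, d, e, h⟩ := H.fac hf
      rw [h.testBit]
      simpa using hv
    · rintro ⟨m, hm, rfl⟩
      rcases (h2 m).1 hm with h | ⟨f, hf, rfl, h4⟩
      · simp at h
      · refine ⟨fset f, ?_, by rw [H.bits_eq hf]⟩
        rw [Finset.mem_filter]
        refine ⟨mem_Phi.2 ⟨f, hf, rfl⟩, ?_⟩
        have : Nat.pow 2 v = msk [v] := by
          change 2 ^ v = 2 ^ v ||| 0
          rw [Nat.or_zero]
        rw [this, land_comm', land_msk_eq] at h4
        have h5 := h4 v (by simp)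
        obtain ⟨s, a, b, c, d, e, h⟩ := H.fac hf
        rw [h.testBit] at h5
        simpa using h5
  rw [e]
  exact h3

end Pool.Agent.GeoZ5
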