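import Pool.Agent.GeoZ5.Sound2

/-!
The fundamental cycle, and the tetrahedra.
-/

namespace Pool.Agent.GeoZ5

open Finset

/-! ### Sorting -/

theorem merge_perm (n : ℕ) (l m : List ℕ) : (merge n l m).Perm (l ++ m) := by
  induction n generalizing l m with
  | zero => simp [merge]
  | succ n ih =>
    cases l with
    | nil => cases m <;> simp [merge]
    | cons a l =>
      cases m with
      | nil => simp [merge]
      | cons b m =>
        unfold merge
        cases h : Nat.ble a b with
        | true => exact (ih l (b :: m)).cons a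
        | false => exact ((ih (a :: l) m).cons b).trans (List.perm_middle.symm)

theorem mpass_perm (n : ℕ) (r : List (List ℕ)) : (mpass n r).flatten.Perm r.flatten := by
  fun_induction mpass n r with
  | case1 => exact List.Perm.refl _
  | case2 l => exact List.Perm.refl _
  | case3 l m r ih =>
    simp only [List.flatten_cons]
    rw [← List.append_assoc]
    exact (merge_perm n l m).append ih

theorem msort_perm (n k : ℕ) (r : List (List ℕ)) : (msort n k r).Perm r.flatten := by
  induction k generalizing r with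
  | zero => exact List.Perm.refl _
  | succ k ih =>
    match r with
    | [] => exact List.Perm.refl _
    | [l] => simp [msort]
    | l :: m :: r => exact (ih _).trans (mpass_perm n _)

theorem pairs_spec {k c : ℕ} {l : List ℕ} (h : pairs k c l = true) :
    ∃ cs : List ℕ, cs.length = k ∧ cs.Pairwise (· < ·) ∧ (∀ x ∈ cs, c < 2 * x) ∧
      l = cs.flatMap fun x => [2 * x, 2 * x + 1] := by
  induction k generalizing c l with
  | zero =>
    cases l with
    | nil => exact ⟨[], rfl, List.Pairwise.nil, by simp, rfl⟩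
    | cons a l => simp [pairs] at h
  | succ k ih =>
    match l, h with
    | [], h => simp [pairs] at h
    | [a], h => simp [pairs] at h
    | a :: b :: l, h =>
      simp only [pairs] at h
      cases h1 : Nat.beq (Nat.mod a 2) 0 with
      | false => rw [h1] at h; simp at h
      | true =>
        rw [h1] at h
        cases h2 : Nat.beq b (Nat.add a 1) with
        | false => rw [h2] at h; simp at h
        | true =>
          rw [h2] at h
          cases h3 : Nat.blt c a with
          | false => rw [h3] at h; simp at h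
          | true =>
            rw [h3] at h
            obtain ⟨cs, h4, h5, h6, h7⟩ := ih h
            have e1 : a % 2 = 0 := Nat.eq_of_beq_eq_true h1
            have e2 : b = a + 1 := Nat.eq_of_beq_eq_true h2
            have e3 : c < a := by simpa using h3
            refine ⟨(a / 2) :: cs, by simp [h4], ?_, ?_, ?_⟩
            · refine List.pairwise_cons.2 ⟨fun x hx => ?_, h5⟩
              have := h6 x hx
              omega
            · intro x hx
              rcases List.mem_cons.1 hx with rfl | hx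
              · omega
              · have := h6 x hx
                omega
            · rw [List.flatMap_cons, ← h7]
              have e4 : 2 * (a / 2) = a := by omega
              rw [e4, e2]
              rfl

/-- Contribution of a signed tetrahedron to the code `t`. -/
def sct (t x : ℕ) : ℤ := if x / 2 = t then (if x % 2 = 0 then 1 else -1) else 0

theorem sum_sct (t : ℕ) (cs : List ℕ) :
    ((cs.flatMap fun x => [2 * x, 2 * x + 1]).map (sct t)).sum = 0 := by
  induction cs with
  | nil => rfl
  | cons x cs ih =>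
    rw [List.flatMap_cons, List.map_append, List.sum_append, ih]
    have e1 : 2 * x / 2 = x := by omega
    have e2 : (2 * x + 1) / 2 = x := by omega
    have e3 : 2 * x % 2 = 0 := by omega
    have e4 : (2 * x + 1) % 2 = 1 := by omega
    simp only [List.map_cons, List.map_nil, List.sum_cons, List.sum_nil, sct, e1, e2, e3, e4]
    by_cases h : x = t <;> simp [h]

/-! ### Codes -/

theorem code4_eq (a b c d : ℕ) : code4 a b c d = ((a * 64 + b) * 64 + c) * 64 + d := rfl

theorem el_div (s i c : ℕ) : el s i c / 2 = c := by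
  change (2 * c + (s + i) % 2) / 2 = c
  omega

theorem el_mod (s i c : ℕ) : el s i c % 2 = (s + i) % 2 := by
  change (2 * c + (s + i) % 2) % 2 = (s + i) % 2
  omega

theorem IsFac.tets_eq {f : List ℕ} {s a b c d e : ℕ} (h : IsFac f s a b c d e) :
    tets f = [el s 4 (code4 a b c d), el s 3 (code4 a b c e),
      el s 2 (code4 a b d e), el s 1 (code4 a c d e), el s 0 (code4 b c d e)] := by
  rw [h.eq]; rfl

/-- Positions of the vertices of a facet. -/
theorem pos_card {a b c d e : ℕ} (ab : a < b) (bc : b < c) (cd : c < d) (de : d < e) :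
    (({a, b, c, d, e} : Finset ℕ).filter fun u => u < a).card = 0 ∧
    (({a, b, c, d, e} : Finset ℕ).filter fun u => u < b).card = 1 ∧
    (({a, b, c, d, e} : Finset ℕ).filter fun u => u < c).card = 2 ∧
    (({a, b, c, d, e} : Finset ℕ).filter fun u => u < d).card = 3 ∧
    (({a, b, c, d, e} : Finset ℕ).filter fun u => u < e).card = 4 := by
  refine ⟨?_, ?_, ?_, ?_, ?_⟩
  · rw [Finset.card_eq_zero]
    ext u
    simp only [mem_filter, Finset.mem_insert, Finset.mem_singleton, notMem_empty, iff_false]
    omega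
  · have : ({a, b, c, d, e} : Finset ℕ).filter (fun u => u < b) = {a} := by
      ext u
      simp only [mem_filter, Finset.mem_insert, Finset.mem_singleton]
      omega
    rw [this]; rfl
  · have : ({a, b, c, d, e} : Finset ℕ).filter (fun u => u < c) = {a, b} := by
      ext u
      simp only [mem_filter, Finset.mem_insert, Finset.mem_singleton]
      omega
    rw [this, Finset.card_pair ab.ne]
  · have : ({a, b, c, d, e} : Finset ℕ).filter (fun u => u < d) = {a, b, c} := by
      ext u
      simp only [mem_filter, Finset.mem_insert, Finset.mem_singleton]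
      omega
    rw [this, Finset.card_eq_three]
    exact ⟨a, b, c, ab.ne, (ab.trans bc).ne, bc.ne, rfl⟩
  · have : ({a, b, c, d, e} : Finset ℕ).filter (fun u => u < e) = {a, b, c, d} := by
      ext u
      simp only [mem_filter, Finset.mem_insert, Finset.mem_singleton]
      omega
    rw [this, Finset.card_insert_of_notMem, Finset.card_eq_three.2
      ⟨b, c, d, bc.ne, (bc.trans cd).ne, cd.ne, rfl⟩]
    simp only [Finset.mem_insert, Finset.mem_singleton]
    omega

theorem sdiff_eq {a b c d e : ℕ} (ab : a < b) (bc : b < c) (cd : c < d) (de : d < e) :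
    ({a, b, c, d, e} : Finset ℕ) \ {a, b, c, d} = {e} ∧
    ({a, b, c, d, e} : Finset ℕ) \ {a, b, c, e} = {d} ∧
    ({a, b, c, d, e} : Finset ℕ) \ {a, b, d, e} = {c} ∧
    ({a, b, c, d, e} : Finset ℕ) \ {a, c, d, e} = {b} ∧
    ({a, b, c, d, e} : Finset ℕ) \ {b, c, d, e} = {a} := by
  refine ⟨?_, ?_, ?_, ?_, ?_⟩ <;>
  · ext u
    simp only [mem_sdiff, Finset.mem_insert, Finset.mem_singleton]
    omega

theorem sub_cases {a b c d e w x y z : ℕ} (ab : a < b) (bc : b < c) (cd : c < d) (de : d < e)
    (wx : w < x) (xy : x < y) (yz : y < z)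
    (hw : w = a ∨ w = b ∨ w = c ∨ w = d ∨ w = e) (hx : x = a ∨ x = b ∨ x = c ∨ x = d ∨ x = e)
    (hy : y = a ∨ y = b ∨ y = c ∨ y = d ∨ y = e) (hz : z = a ∨ z = b ∨ z = c ∨ z = d ∨ z = e) :
    (w = a ∧ x = b ∧ y = c ∧ z = d) ∨ (w = a ∧ x = b ∧ y = c ∧ z = e) ∨
      (w = a ∧ x = b ∧ y = d ∧ z = e) ∨ (w = a ∧ x = c ∧ y = d ∧ z = e) ∨
      (w = b ∧ x = c ∧ y = d ∧ z = e) := by
  rcases hw with rfl | rfl | rfl | rfl | rfl <;>
  rcases hx with rfl | rfl | rfl | rfl | rfl <;>
  first
  | (exfalso; omega)
  | (rcases hy with rfl | rfl | rfl | rfl | rfl <;>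
      first
      | (exfalso; omega)
      | (rcases hz with rfl | rfl | rfl | rfl | rfl <;>
          first
          | (exfalso; omega)
          | simp))

theorem sct_el (t s i c : ℕ) :
    sct t (el s i c) = if c = t then (if (s + i) % 2 = 0 then 1 else -1) else 0 := by
  simp only [sct, el_div, el_mod]

theorem code4_inj {w x y z w' x' y' z' : ℕ} (hx : x < 64) (hy : y < 64) (hz : z < 64)
    (hx' : x' < 64) (hy' : y' < 64) (hz' : z' < 64) :
    code4 w x y z = code4 w' x' y' z' ↔ w = w' ∧ x = x' ∧ y = y' ∧ z = z' := by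
  rw [code4_eq, code4_eq]
  omega

/-- The contribution of a facet to the boundary. -/
theorem IsFac.sum_tets {f : List ℕ} {s a b c d e : ℕ} (h : IsFac f s a b c d e) {w x y z : ℕ}
    (wx : w < x) (xy : x < y) (yz : y < z) (hz : z < 64) :
    ((tets f).map (sct (code4 w x y z))).sum =
      if ({w, x, y, z} : Finset ℕ) ⊆ fset f then
        (-1) ^ (∑ v ∈ fset f \ {w, x, y, z}, ((fset f).filter fun u => u < v).card) * sgn s
      else 0 := by
  rw [h.tets_eq]
  obtain ⟨-, hs, ab, bc, cd, de, he⟩ := id h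
  obtain ⟨p0, p1, p2, p3, p4⟩ := pos_card ab bc cd de
  obtain ⟨q0, q1, q2, q3, q4⟩ := sdiff_eq ab bc cd de
  have hsgn : sgn s = if s = 0 then 1 else -1 := by
    cases s <;> simp [sgn]
  have c1 := code4_inj (w := a) (x := b) (y := c) (z := d) (w' := w) (x' := x) (y' := y) (z' := z)
    (by omega) (by omega) (by omega) (by omega) (by omega) (by omega)
  have c2 := code4_inj (w := a) (x := b) (y := c) (z := e) (w' := w) (x' := x) (y' := y) (z' := z)
    (by omega) (by omega) (by omega) (by omega) (by omega) (by omega)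
  have c3 := code4_inj (w := a) (x := b) (y := d) (z := e) (w' := w) (x' := x) (y' := y) (z' := z)
    (by omega) (by omega) (by omega) (by omega) (by omega) (by omega)
  have c4 := code4_inj (w := a) (x := c) (y := d) (z := e) (w' := w) (x' := x) (y' := y) (z' := z)
    (by omega) (by omega) (by omega) (by omega) (by omega) (by omega)
  have c5 := code4_inj (w := b) (x := c) (y := d) (z := e) (w' := w) (x' := x) (y' := y) (z' := z)
    (by omega) (by omega) (by omega) (by omega) (by omega) (by omega)
  simp only [List.map_cons, List.map_nil, List.sum_cons, List.sum_nil, sct_el, h.fset_eq]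
  by_cases hsub : ({w, x, y, z} : Finset ℕ) ⊆ {a, b, c, d, e}
  · have hw := hsub (show w ∈ ({w, x, y, z} : Finset ℕ) by simp)
    have hx := hsub (show x ∈ ({w, x, y, z} : Finset ℕ) by simp)
    have hy := hsub (show y ∈ ({w, x, y, z} : Finset ℕ) by simp)
    have hz' := hsub (show z ∈ ({w, x, y, z} : Finset ℕ) by simp)
    rw [if_pos hsub]
    simp only [Finset.mem_insert, Finset.mem_singleton] at hw hx hy hz'
    have hc := sub_cases ab bc cd de wx xy yz hw hx hy hz'
    clear hw hx hy hz' hsub
    rcases hc with ⟨rfl, rfl, rfl, rfl⟩ | ⟨rfl, rfl, rfl, rfl⟩ | ⟨rfl, rfl, rfl, rfl⟩ |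
      ⟨rfl, rfl, rfl, rfl⟩ | ⟨rfl, rfl, rfl, rfl⟩
    · have n2 : ¬ _ := mt c2.1 (by omega)
      have n3 : ¬ _ := mt c3.1 (by omega)
      have n4 : ¬ _ := mt c4.1 (by omega)
      have n5 : ¬ _ := mt c5.1 (by omega)
      rw [q0, Finset.sum_singleton, p4, hsgn, if_neg n2, if_neg n3, if_neg n4, if_neg n5,
        if_pos (c1.2 ⟨rfl, rfl, rfl, rfl⟩)]
      interval_cases s <;> norm_num
    · have n2 : ¬ _ := mt c1.1 (by omega)
      have n3 : ¬ _ := mt c3.1 (by omega)
      have n4 : ¬ _ := mt c4.1 (by omega)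
      have n5 : ¬ _ := mt c5.1 (by omega)
      rw [q1, Finset.sum_singleton, p3, hsgn, if_neg n2, if_neg n3, if_neg n4, if_neg n5,
        if_pos (c2.2 ⟨rfl, rfl, rfl, rfl⟩)]
      interval_cases s <;> norm_num
    · have n2 : ¬ _ := mt c1.1 (by omega)
      have n3 : ¬ _ := mt c2.1 (by omega)
      have n4 : ¬ _ := mt c4.1 (by omega)
      have n5 : ¬ _ := mt c5.1 (by omega)
      rw [q2, Finset.sum_singleton, p2, hsgn, if_neg n2, if_neg n3, if_neg n4, if_neg n5,
        if_pos (c3.2 ⟨rfl, rfl, rfl, rfl⟩)]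
      interval_cases s <;> norm_num
    · have n2 : ¬ _ := mt c1.1 (by omega)
      have n3 : ¬ _ := mt c2.1 (by omega)
      have n4 : ¬ _ := mt c3.1 (by omega)
      have n5 : ¬ _ := mt c5.1 (by omega)
      rw [q3, Finset.sum_singleton, p1, hsgn, if_neg n2, if_neg n3, if_neg n4, if_neg n5,
        if_pos (c4.2 ⟨rfl, rfl, rfl, rfl⟩)]
      interval_cases s <;> norm_num
    · have n2 : ¬ _ := mt c1.1 (by omega)
      have n3 : ¬ _ := mt c2.1 (by omega)
      have n4 : ¬ _ := mt c3.1 (by omega)
      have n5 : ¬ _ := mt c4.1 (by omega)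
      rw [q4, Finset.sum_singleton, p0, hsgn, if_neg n2, if_neg n3, if_neg n4, if_neg n5,
        if_pos (c5.2 ⟨rfl, rfl, rfl, rfl⟩)]
      interval_cases s <;> norm_num
  · rw [if_neg hsub]
    have n1 : ¬ code4 a b c d = code4 w x y z := by
      intro hh
      obtain ⟨rfl, rfl, rfl, rfl⟩ := c1.1 hh
      apply hsub; intro u hu
      simp only [Finset.mem_insert, Finset.mem_singleton] at hu
      rcases hu with rfl | rfl | rfl | rfl <;> simp
    have n2 : ¬ code4 a b c e = code4 w x y z := by
      intro hh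
      obtain ⟨rfl, rfl, rfl, rfl⟩ := c2.1 hh
      apply hsub; intro u hu
      simp only [Finset.mem_insert, Finset.mem_singleton] at hu
      rcases hu with rfl | rfl | rfl | rfl <;> simp
    have n3 : ¬ code4 a b d e = code4 w x y z := by
      intro hh
      obtain ⟨rfl, rfl, rfl, rfl⟩ := c3.1 hh
      apply hsub; intro u hu
      simp only [Finset.mem_insert, Finset.mem_singleton] at hu
      rcases hu with rfl | rfl | rfl | rfl <;> simp
    have n4 : ¬ code4 a c d e = code4 w x y z := by
      intro hh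
      obtain ⟨rfl, rfl, rfl, rfl⟩ := c4.1 hh
      apply hsub; intro u hu
      simp only [Finset.mem_insert, Finset.mem_singleton] at hu
      rcases hu with rfl | rfl | rfl | rfl <;> simp
    have n5 : ¬ code4 b c d e = code4 w x y z := by
      intro hh
      obtain ⟨rfl, rfl, rfl, rfl⟩ := c5.1 hh
      apply hsub; intro u hu
      simp only [Finset.mem_insert, Finset.mem_singleton] at hu
      rcases hu with rfl | rfl | rfl | rfl <;> simp
    rw [if_neg n1, if_neg n2, if_neg n3, if_neg n4, if_neg n5]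
    rfl

/-! ### The fundamental cycle -/

variable {FF : List (List (List ℕ))}

open Classical in
/-- The orientation given by the signs in the list. -/
noncomputable def ori (FF : List (List (List ℕ))) (σ : Finset ℕ) : ℤ :=
  if ∃ f ∈ FF.flatten, fset f = σ ∧ f.getD 1 0 = 0 then 1 else -1

theorem FacHyp.ori_eq (H : FacHyp FF) {f : List ℕ} (hf : f ∈ FF.flatten) :
    ori FF (fset f) = sgn (f.getD 1 0) := by
  unfold ori
  by_cases h : f.getD 1 0 = 0
  · rw [if_pos ⟨f, hf, rfl, h⟩, h]; rfl
  · rw [if_neg]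
    · cases hn : f.getD 1 0 with
      | zero => exact absurd hn h
      | succ n => rfl
    · rintro ⟨g, hg, h1, h2⟩
      have := List.inj_on_of_nodup_map H.nodup hg hf h1
      rw [this] at h2
      exact h h2

theorem exists_sorted4 {τ : Finset ℕ} (h : τ.card = 4) :
    ∃ w x y z, w < x ∧ x < y ∧ y < z ∧ τ = {w, x, y, z} := by
  have h1 := Finset.length_sort (s := τ) (· ≤ ·)
  have h2 := Finset.sort_toFinset τ (· ≤ ·)
  have h3 := (Finset.sortedLT_sort τ).pairwise
  rw [h] at h1
  match hs : τ.sort (· ≤ ·), h1, h2, h3 with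
  | [w, x, y, z], h1, h2, h3 =>
    simp only [List.pairwise_cons, List.mem_cons, List.not_mem_nil, or_false, forall_eq_or_imp,
      forall_eq, List.Pairwise.nil, and_true, IsEmpty.forall_iff, implies_true] at h3
    refine ⟨w, x, y, z, h3.1.1, h3.2.1.1, h3.2.2, ?_⟩
    rw [← h2]
    ext u
    simp

theorem exists_codes (ht : tetsOK FF = true) :
    ∃ cs : List ℕ, cs.length = 4505 ∧ cs.Pairwise (· < ·) ∧
      ((FF.flatten.map tets).flatten).Perm (cs.flatMap fun x => [2 * x, 2 * x + 1]) := by
  obtain ⟨cs, h1, h2, -, h4⟩ := pairs_spec ht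
  refine ⟨cs, h1, h2, ?_⟩
  rw [← h4]
  exact (msort_perm _ _ _).symm

theorem sum_flatten_map (FF : List (List ℕ)) (g : List ℕ → List ℕ) (k : ℕ → ℤ) :
    ((FF.map g).flatten.map k).sum = (FF.map fun f => ((g f).map k).sum).sum := by
  induction FF with
  | nil => rfl
  | cons f l ih =>
    rw [List.map_cons, List.flatten_cons, List.map_append, List.sum_append, ih, List.map_cons,
      List.sum_cons]

theorem FacHyp.fundamental (H : FacHyp FF) (ht : tetsOK FF = true) :
    IsFundamentalCycle (Phi FF) (ori FF) := by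
  refine ⟨?_, ?_⟩
  · intro σ _
    unfold ori
    split_ifs <;> simp
  · intro τ hτ
    by_cases hex : ∃ σ ∈ Phi FF, τ ⊆ σ
    · obtain ⟨w, x, y, z, wx, xy, yz, rfl⟩ := exists_sorted4 hτ
      have hz : z < 64 := by
        obtain ⟨σ, hσ, hs⟩ := hex
        obtain ⟨f, hf, rfl⟩ := mem_Phi.1 hσ
        have := H.lt_of_mem hf (hs (show z ∈ ({w, x, y, z} : Finset ℕ) by simp))
        omega
      obtain ⟨cs, -, -, hp⟩ := exists_codes ht
      have h1 := (hp.map (sct (code4 w x y z))).sum_eq
      rw [sum_sct, sum_flatten_map] at h1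
      rw [Finset.sum_filter, H.sum_eq]
      refine Eq.trans ?_ h1
      congr 1
      apply List.map_congr_left
      intro f hf
      obtain ⟨s, a, b, c, d, e, h⟩ := H.fac hf
      rw [h.sum_tets wx xy yz hz, H.ori_eq hf, h.sign]
    · push Not at hex
      rw [Finset.sum_filter]
      apply Finset.sum_eq_zero
      intro σ hσ
      rw [if_neg (hex σ hσ)]

/-! ### Sets from increasing lists -/

theorem sorted_toFinset_inj {l m : List ℕ} (hl : l.Pairwise (· < ·)) (hm : m.Pairwise (· < ·))
    (h : l.toFinset = m.toFinset) : l = m := by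
  have h1 := (List.toFinset_sort (r := (· ≤ ·)) (hl.imp fun h => h.ne)).2
    (hl.imp fun h => h.le)
  have h2 := (List.toFinset_sort (r := (· ≤ ·)) (hm.imp fun h => h.ne)).2
    (hm.imp fun h => h.le)
  rw [← h1, ← h2, h]

theorem card_of_codes {S : Finset (Finset ℕ)} {L : List ℕ} (D : ℕ → Finset ℕ)
    (hL : L.Pairwise (· < ·)) (h1 : ∀ x ∈ L, D x ∈ S) (h2 : ∀ s ∈ S, ∃ x ∈ L, D x = s)
    (h3 : ∀ x ∈ L, ∀ y ∈ L, D x = D y → x = y) : S.card = L.length := by
  rw [← List.toFinset_card_of_nodup (hL.imp fun h => h.ne)]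
  rw [← Finset.card_image_of_injOn (s := L.toFinset) (f := D)]
  · congr 1
    ext s
    simp only [Finset.mem_image, List.mem_toFinset]
    constructor
    · exact h2 s
    · rintro ⟨x, hx, rfl⟩
      exact h1 x hx
  · intro x hx y hy hxy
    exact h3 x (by simpa using hx) y (by simpa using hy) hxy

/-- Decoding of the code of a tetrahedron. -/
def D4 (c : ℕ) : Finset ℕ := {c / 262144, c / 4096 % 64, c / 64 % 64, c % 64}

theorem D4_code4 {w x y z : ℕ} (hx : x < 64) (hy : y < 64) (hz : z < 64) :
    D4 (code4 w x y z) = {w, x, y, z} := by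
  rw [code4_eq, D4]
  have e1 : (((w * 64 + x) * 64 + y) * 64 + z) / 262144 = w := by omega
  have e2 : (((w * 64 + x) * 64 + y) * 64 + z) / 4096 % 64 = x := by omega
  have e3 : (((w * 64 + x) * 64 + y) * 64 + z) / 64 % 64 = y := by omega
  have e4 : (((w * 64 + x) * 64 + y) * 64 + z) % 64 = z := by omega
  rw [e1, e2, e3, e4]

theorem mem_cs_iff {cs : List ℕ}
    (hp : ((FF.flatten.map tets).flatten).Perm (cs.flatMap fun x => [2 * x, 2 * x + 1]))
    {t : ℕ} : t ∈ cs ↔ ∃ f ∈ FF.flatten, ∃ x ∈ tets f, x / 2 = t := by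
  constructor
  · intro h
    have : 2 * t ∈ cs.flatMap fun x => [2 * x, 2 * x + 1] :=
      List.mem_flatMap.2 ⟨t, h, by simp⟩
    have := hp.mem_iff.2 this
    obtain ⟨l, hl, h1⟩ := List.mem_flatten.1 this
    obtain ⟨f, hf, rfl⟩ := List.mem_map.1 hl
    exact ⟨f, hf, _, h1, by omega⟩
  · rintro ⟨f, hf, x, hx, rfl⟩
    have : x ∈ (FF.flatten.map tets).flatten :=
      List.mem_flatten.2 ⟨_, List.mem_map.2 ⟨f, hf, rfl⟩, hx⟩
    have := hp.mem_iff.1 this
    obtain ⟨y, hy, h1⟩ := List.mem_flatMap.1 this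
    simp only [List.mem_cons, List.not_mem_nil, or_false] at h1
    have : x / 2 = y := by omega
    rwa [this]

theorem FacHyp.card4 (H : FacHyp FF) (ht : tetsOK FF = true) :
    ((faces (Phi FF)).filter fun s => s.card = 4).card = 4505 := by
  obtain ⟨cs, h1, h2, hp⟩ := exists_codes ht
  rw [← h1]
  have hrep : ∀ t ∈ cs, ∃ w x y z, w < x ∧ x < y ∧ y < z ∧ z < 64 ∧ code4 w x y z = t ∧
      ∃ f ∈ FF.flatten, ({w, x, y, z} : Finset ℕ) ⊆ fset f := by
    intro t ht
    obtain ⟨f, hf, u, hu, rfl⟩ := (mem_cs_iff hp).1 ht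
    obtain ⟨s, a, b, c, d, e, h⟩ := H.fac hf
    rw [h.tets_eq] at hu
    have hfs := h.fset_eq
    obtain ⟨-, -, ab, bc, cd, de, he⟩ := h
    have hsub : ∀ {w x y z : ℕ}, ({w, x, y, z} : Finset ℕ) ⊆ {a, b, c, d, e} →
        ({w, x, y, z} : Finset ℕ) ⊆ fset f := by
      intro w x y z h; rwa [hfs]
    simp only [List.mem_cons, List.not_mem_nil, or_false] at hu
    rcases hu with rfl | rfl | rfl | rfl | rfl
    · exact ⟨a, b, c, d, by omega, by omega, by omega, by omega, (el_div _ _ _).symm, f, hf,
        hsub (by intro v hv; simp only [Finset.mem_insert, Finset.mem_singleton] at hv ⊢; omega)⟩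
    · exact ⟨a, b, c, e, by omega, by omega, by omega, by omega, (el_div _ _ _).symm, f, hf,
        hsub (by intro v hv; simp only [Finset.mem_insert, Finset.mem_singleton] at hv ⊢; omega)⟩
    · exact ⟨a, b, d, e, by omega, by omega, by omega, by omega, (el_div _ _ _).symm, f, hf,
        hsub (by intro v hv; simp only [Finset.mem_insert, Finset.mem_singleton] at hv ⊢; omega)⟩
    · exact ⟨a, c, d, e, by omega, by omega, by omega, by omega, (el_div _ _ _).symm, f, hf,
        hsub (by intro v hv; simp only [Finset.mem_insert, Finset.mem_singleton] at hv ⊢; omega)⟩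
    · exact ⟨b, c, d, e, by omega, by omega, by omega, by omega, (el_div _ _ _).symm, f, hf,
        hsub (by intro v hv; simp only [Finset.mem_insert, Finset.mem_singleton] at hv ⊢; omega)⟩
  have card4 : ∀ {w x y z : ℕ}, w < x → x < y → y < z → ({w, x, y, z} : Finset ℕ).card = 4 := by
    intro w x y z wx xy yz
    rw [Finset.card_insert_of_notMem, Finset.card_eq_three.2
      ⟨x, y, z, xy.ne, (xy.trans yz).ne, yz.ne, rfl⟩]
    simp only [Finset.mem_insert, Finset.mem_singleton]
    omega
  refine card_of_codes D4 h2 ?_ ?_ ?_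
  · intro t ht
    obtain ⟨w, x, y, z, wx, xy, yz, hz, rfl, f, hf, hs⟩ := hrep t ht
    rw [D4_code4 (by omega) (by omega) (by omega), Finset.mem_filter, mem_faces_Phi]
    exact ⟨⟨by simp, f, hf, hs⟩, card4 wx xy yz⟩
  · intro τ hτ
    rw [Finset.mem_filter, mem_faces_Phi] at hτ
    obtain ⟨⟨-, f, hf, hs⟩, hc⟩ := hτ
    obtain ⟨w, x, y, z, wx, xy, yz, rfl⟩ := exists_sorted4 hc
    have hz := H.lt_of_mem hf (hs (show z ∈ ({w, x, y, z} : Finset ℕ) by simp))
    refine ⟨code4 w x y z, ?_, D4_code4 (by omega) (by omega) (by omega)⟩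
    rw [mem_cs_iff hp]
    refine ⟨f, hf, ?_⟩
    obtain ⟨s, a, b, c, d, e, h⟩ := H.fac hf
    rw [h.tets_eq]
    rw [h.fset_eq] at hs
    have hw := hs (show w ∈ ({w, x, y, z} : Finset ℕ) by simp)
    have hx := hs (show x ∈ ({w, x, y, z} : Finset ℕ) by simp)
    have hy := hs (show y ∈ ({w, x, y, z} : Finset ℕ) by simp)
    have hz' := hs (show z ∈ ({w, x, y, z} : Finset ℕ) by simp)
    obtain ⟨-, -, ab, bc, cd, de, he⟩ := h
    simp only [Finset.mem_insert, Finset.mem_singleton] at hw hx hy hz'
    have hc := sub_cases ab bc cd de wx xy yz hw hx hy hz'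
    rcases hc with ⟨rfl, rfl, rfl, rfl⟩ | ⟨rfl, rfl, rfl, rfl⟩ | ⟨rfl, rfl, rfl, rfl⟩ |
      ⟨rfl, rfl, rfl, rfl⟩ | ⟨rfl, rfl, rfl, rfl⟩
    · exact ⟨_, by simp, el_div s 4 _⟩
    · exact ⟨_, by simp, el_div s 3 _⟩
    · exact ⟨_, by simp, el_div s 2 _⟩
    · exact ⟨_, by simp, el_div s 1 _⟩
    · exact ⟨_, by simp, el_div s 0 _⟩
  · intro t ht t' ht' heq
    obtain ⟨w, x, y, z, wx, xy, yz, hz, rfl, -⟩ := hrep t ht
    obtain ⟨w', x', y', z', wx', xy', yz', hz', rfl, -⟩ := hrep t' ht'
    rw [D4_code4 (by omega) (by omega) (by omega), D4_code4 (by omega) (by omega) (by omega)]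
      at heq
    have e : ∀ w x y z : ℕ, ({w, x, y, z} : Finset ℕ) = [w, x, y, z].toFinset := by
      intro w x y z; simp
    rw [e, e] at heq
    have := sorted_toFinset_inj (by simp; omega) (by simp; omega) heq
    simp only [List.cons.injEq, and_true] at this
    obtain ⟨rfl, rfl, rfl, rfl⟩ := this
    rfl

end Pool.Agent.GeoZ5
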