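import Pool.Agent.GeoZ5.Sound3
import Pool.Agent.GeoZ5.Sound8
import Pool.Agent.GeoZ5.Check2

/-!
Counting faces; the Euler characteristic.
-/

namespace Pool.Agent.GeoZ5

open Finset

theorem incN_spec {n m : ℕ} {l : List ℕ} (h : incN n m l = true) :
    l.length = n ∧ (∀ x ∈ l, m < x) ∧ l.Pairwise (· < ·) := by
  induction n generalizing m l with
  | zero =>
    cases l with
    | nil => simp
    | cons a l => simp [incN] at h
  | succ n ih =>
    cases l with
    | nil => simp [incN] at h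
    | cons x l =>
      simp only [incN] at h
      cases hx : Nat.blt m x with
      | false => rw [hx] at h; simp at h
      | true =>
        rw [hx] at h
        obtain ⟨h1, h2, h3⟩ := ih h
        have hx' : m < x := by simpa using hx
        refine ⟨by simp [h1], ?_, List.pairwise_cons.2 ⟨h2, h3⟩⟩
        intro y hy
        rcases List.mem_cons.1 hy with rfl | hy
        · exact hx'
        · exact hx'.trans (h2 y hy)

theorem mem_rowE {a x : ℕ} {r : Row} : x ∈ rowE a r ↔
    ∃ b p ents, ((b :: p) :: ents) ∈ r ∧ x = a * 64 + b := by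
  induction r with
  | nil => simp [rowE]
  | cons blk r ih =>
    match blk with
    | [] => simp only [rowE, ih, List.mem_cons, reduceCtorEq, false_or]
    | [] :: ents =>
      simp only [rowE, ih, List.mem_cons, List.cons.injEq, reduceCtorEq, false_and, false_or]
    | (b :: p) :: ents =>
      simp only [rowE, ih, List.mem_cons, List.cons.injEq]
      constructor
      · rintro (rfl | ⟨b', p', ents', h, rfl⟩)
        · exact ⟨b, p, ents, Or.inl ⟨⟨rfl, rfl⟩, rfl⟩, rfl⟩
        · exact ⟨b', p', ents', Or.inr h, rfl⟩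
      · rintro ⟨b', p', ents', ⟨⟨rfl, rfl⟩, rfl⟩ | h, rfl⟩
        · exact Or.inl rfl
        · exact Or.inr ⟨b', p', ents', h, rfl⟩

theorem mem_tabE {k x : ℕ} {T : Table} : x ∈ tabE k T ↔
    ∃ i < T.length, x ∈ rowE (k + i) (nthD [] T i) := by
  induction T generalizing k with
  | nil => simp [tabE]
  | cons r T ih =>
    simp only [tabE, List.mem_append, ih, List.length_cons]
    constructor
    · rintro (h | ⟨i, hi, h⟩)
      · exact ⟨0, by omega, by simpa [nthD] using h⟩
      · refine ⟨i + 1, by omega, ?_⟩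
        rw [show k + (i + 1) = k + 1 + i by omega]
        exact h
    · rintro ⟨i, hi, h⟩
      cases i with
      | zero => exact Or.inl (by simpa [nthD] using h)
      | succ i =>
        refine Or.inr ⟨i, by omega, ?_⟩
        rw [show k + (i + 1) = k + 1 + i by omega] at h
        exact h

theorem mem_entT {ab x : ℕ} {l : List (List ℕ)} : x ∈ entT ab l ↔
    ∃ c p, (c :: p) ∈ l ∧ x = ab * 64 + c := by
  induction l with
  | nil => simp [entT]
  | cons e l ih =>
    match e with
    | [] => simp only [entT, ih, List.mem_cons, reduceCtorEq, false_or]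
    | c :: p =>
      simp only [entT, ih, List.mem_cons, List.cons.injEq]
      constructor
      · rintro (rfl | ⟨c', p', h, rfl⟩)
        · exact ⟨c, p, Or.inl ⟨rfl, rfl⟩, rfl⟩
        · exact ⟨c', p', Or.inr h, rfl⟩
      · rintro ⟨c', p', ⟨rfl, rfl⟩ | h, rfl⟩
        · exact Or.inl rfl
        · exact Or.inr ⟨c', p', h, rfl⟩

theorem mem_rowT {a x : ℕ} {r : Row} : x ∈ rowT a r ↔
    ∃ b p ents, ((b :: p) :: ents) ∈ r ∧ ∃ c q, (c :: q) ∈ ents ∧ x = (a * 64 + b) * 64 + c := by
  induction r with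
  | nil => simp [rowT]
  | cons blk r ih =>
    match blk with
    | [] => simp only [rowT, ih, List.mem_cons, reduceCtorEq, false_or]
    | [] :: ents =>
      simp only [rowT, ih, List.mem_cons, List.cons.injEq, reduceCtorEq, false_and, false_or]
    | (b :: p) :: ents =>
      simp only [rowT, ih, List.mem_append, mem_entT, List.mem_cons, List.cons.injEq]
      constructor
      · rintro (⟨c, q, h, rfl⟩ | ⟨b', p', ents', h, h'⟩)
        · exact ⟨b, p, ents, Or.inl ⟨⟨rfl, rfl⟩, rfl⟩, c, q, h, rfl⟩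
        · exact ⟨b', p', ents', Or.inr h, h'⟩
      · rintro ⟨b', p', ents', ⟨⟨rfl, rfl⟩, rfl⟩ | h, c, q, h', rfl⟩
        · exact Or.inl ⟨c, q, h', rfl⟩
        · exact Or.inr ⟨b', p', ents', h, c, q, h', rfl⟩

theorem mem_tabT {k x : ℕ} {T : Table} : x ∈ tabT k T ↔
    ∃ i < T.length, x ∈ rowT (k + i) (nthD [] T i) := by
  induction T generalizing k with
  | nil => simp [tabT]
  | cons r T ih =>
    simp only [tabT, List.mem_append, ih, List.length_cons]
    constructor
    · rintro (h | ⟨i, hi, h⟩)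
      · exact ⟨0, by omega, by simpa [nthD] using h⟩
      · refine ⟨i + 1, by omega, ?_⟩
        rw [show k + (i + 1) = k + 1 + i by omega]
        exact h
    · rintro ⟨i, hi, h⟩
      cases i with
      | zero => exact Or.inl (by simpa [nthD] using h)
      | succ i =>
        refine Or.inr ⟨i, by omega, ?_⟩
        rw [show k + (i + 1) = k + 1 + i by omega] at h
        exact h

variable {TT : Table} {FF : List (List (List ℕ))} {PT GEN : List (List ℕ)}

theorem TabHyp.edgeOK_face (H : TabHyp TT FF PT GEN) {a b : ℕ} {p : List ℕ}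
    (h : edgeOK TT PT GEN a b p = true) : ({a, b} : Finset ℕ) ∈ faces (Phi FF) := by
  match p, h with
  | key :: z :: w, h1 =>
    simp only [edgeOK, Bool.and_eq_true, Nat.blt_eq] at h1
    obtain ⟨⟨⟨⟨⟨h2, h3⟩, h4⟩, h5⟩, h6⟩, -⟩ := h1
    have main : ∀ {u v w : ℕ} {q : List ℕ}, triP TT u v w = some q →
        ({a, b} : Finset ℕ) ⊆ {u, v, w} → ({a, b} : Finset ℕ) ∈ faces (Phi FF) :=
      fun hq hs => faces_mono (H.tri_face hq) (by simp) hs
    unfold triZK at h5
    cases hza : Nat.blt z a with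
    | true =>
      rw [hza] at h5
      obtain ⟨q, hq, -⟩ := triK_spec h5
      exact main hq (by intro v; simp only [Finset.mem_insert, Finset.mem_singleton]; tauto)
    | false =>
      rw [hza] at h5
      simp only at h5
      cases hzb : Nat.blt z b with
      | true =>
        rw [hzb] at h5
        obtain ⟨q, hq, -⟩ := triK_spec h5
        exact main hq (by intro v; simp only [Finset.mem_insert, Finset.mem_singleton]; tauto)
      | false =>
        rw [hzb] at h5
        obtain ⟨q, hq, -⟩ := triK_spec h5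
        exact main hq (by intro v; simp only [Finset.mem_insert, Finset.mem_singleton]; tauto)

theorem TabHyp.triOK_face (H : TabHyp TT FF PT GEN) {a b c : ℕ} {w p : List ℕ}
    (h : triOK TT FF a b w (c :: p) = true) :
    b < c ∧ c < 52 ∧ ({a, b, c} : Finset ℕ) ∈ faces (Phi FF) := by
  match p, h with
  | key :: z :: fi :: fj :: l, h2 =>
    simp only [triOK, Bool.and_eq_true, Nat.blt_eq] at h2
    obtain ⟨⟨⟨⟨h3, h4⟩, h5⟩, h6⟩, h7⟩ := h2
    obtain ⟨f, hf, hfv⟩ := H.toFacHyp.evid h4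
    simp only [List.mem_cons, List.not_mem_nil, or_false, forall_eq_or_imp, forall_eq] at hfv
    refine ⟨h3, H.toFacHyp.lt_of_mem hf hfv.2.2.1, ?_⟩
    rw [mem_faces_Phi]
    refine ⟨by simp, f, hf, ?_⟩
    intro v hv
    simp only [Finset.mem_insert, Finset.mem_singleton] at hv
    rcases hv with rfl | rfl | rfl
    · exact hfv.1
    · exact hfv.2.1
    · exact hfv.2.2.1

theorem FacHyp.lt_of_face (H : FacHyp FF) {s : Finset ℕ} (h : s ∈ faces (Phi FF)) {v : ℕ}
    (hv : v ∈ s) : v < 52 := by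
  rw [mem_faces_Phi] at h
  obtain ⟨-, f, hf, hs⟩ := h
  exact H.lt_of_mem hf (hs hv)

theorem exists_sorted2 {τ : Finset ℕ} (h : τ.card = 2) : ∃ x y, x < y ∧ τ = {x, y} := by
  obtain ⟨x, y, hxy, rfl⟩ := Finset.card_eq_two.1 h
  rcases lt_or_gt_of_ne hxy with h | h
  · exact ⟨x, y, h, rfl⟩
  · exact ⟨y, x, h, Finset.pair_comm x y⟩

theorem exists_sorted3 {τ : Finset ℕ} (h : τ.card = 3) :
    ∃ x y z, x < y ∧ y < z ∧ τ = {x, y, z} := by
  have h1 := Finset.length_sort (s := τ) (· ≤ ·)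
  have h2 := Finset.sort_toFinset τ (· ≤ ·)
  have h3 := (Finset.sortedLT_sort τ).pairwise
  rw [h] at h1
  match hs : τ.sort (· ≤ ·), h1, h2, h3 with
  | [x, y, z], h1, h2, h3 =>
    simp only [List.pairwise_cons, List.mem_cons, List.not_mem_nil, or_false, forall_eq_or_imp,
      forall_eq, List.Pairwise.nil, and_true, IsEmpty.forall_iff, implies_true] at h3
    refine ⟨x, y, z, h3.1.1, h3.2, ?_⟩
    rw [← h2]
    ext u
    simp

/-- Decoding of the code of an edge. -/
def D2 (c : ℕ) : Finset ℕ := {c / 64, c % 64}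

/-- Decoding of the code of a triangle. -/
def D3 (c : ℕ) : Finset ℕ := {c / 4096, c / 64 % 64, c % 64}

theorem D2_code {x y : ℕ} (hy : y < 64) : D2 (x * 64 + y) = {x, y} := by
  rw [D2]
  have e1 : (x * 64 + y) / 64 = x := by omega
  have e2 : (x * 64 + y) % 64 = y := by omega
  rw [e1, e2]

theorem D3_code {x y z : ℕ} (hy : y < 64) (hz : z < 64) :
    D3 ((x * 64 + y) * 64 + z) = {x, y, z} := by
  rw [D3]
  have e1 : ((x * 64 + y) * 64 + z) / 4096 = x := by omega
  have e2 : ((x * 64 + y) * 64 + z) / 64 % 64 = y := by omega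
  have e3 : ((x * 64 + y) * 64 + z) % 64 = z := by omega
  rw [e1, e2, e3]

theorem TabHyp.mem_tabE' (H : TabHyp TT FF PT GEN) {t : ℕ} :
    t ∈ tabE 0 TT ↔ ∃ x y, x < y ∧ y < 52 ∧ ({x, y} : Finset ℕ) ∈ faces (Phi FF) ∧
      t = x * 64 + y := by
  rw [mem_tabE]
  constructor
  · rintro ⟨a, ha, h⟩
    rw [zero_add, mem_rowE] at h
    obtain ⟨b, p, ents, hm, rfl⟩ := h
    obtain ⟨h1, -⟩ := rowOK_spec (H.row a (by rw [← H.len]; exact ha)) hm
    have h2 := edgeOK_lt h1
    exact ⟨a, b, h2.1, h2.2, H.edgeOK_face h1, rfl⟩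
  · rintro ⟨a, b, hab, hb, hf, rfl⟩
    obtain ⟨p, hp⟩ := H.edge_of_face hab hf
    refine ⟨a, by rw [H.len]; omega, ?_⟩
    rw [zero_add, mem_rowE]
    unfold edgeP at hp
    cases hq : findB b (nthD [] TT a) with
    | none => simp [hq] at hp
    | some q => exact ⟨b, q.1, q.2, findB_mem hq, rfl⟩

theorem TabHyp.mem_tabT' (H : TabHyp TT FF PT GEN) {t : ℕ} :
    t ∈ tabT 0 TT ↔ ∃ x y z, x < y ∧ y < z ∧ z < 52 ∧
      ({x, y, z} : Finset ℕ) ∈ faces (Phi FF) ∧ t = (x * 64 + y) * 64 + z := by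
  rw [mem_tabT]
  constructor
  · rintro ⟨a, ha, h⟩
    rw [zero_add, mem_rowT] at h
    obtain ⟨b, p, ents, hm, c, q, hc, rfl⟩ := h
    obtain ⟨h1, -, k, z, w, rfl, h3⟩ := rowOK_spec (H.row a (by rw [← H.len]; exact ha)) hm
    have h2 := edgeOK_lt h1
    obtain ⟨h4, h5, h6⟩ := H.triOK_face (List.all_eq_true.1 h3 _ hc)
    exact ⟨a, b, c, h2.1, h4, h5, h6, rfl⟩
  · rintro ⟨a, b, c, hab, hbc, hc, hf, rfl⟩
    obtain ⟨p, hp⟩ := H.tri_of_face hab hbc hf
    refine ⟨a, by rw [H.len]; omega, ?_⟩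
    rw [zero_add, mem_rowT]
    unfold triP at hp
    cases hq : findB b (nthD [] TT a) with
    | none => simp [hq] at hp
    | some q =>
      have h' : find c q.2 = some p := by simpa [hq] using hp
      exact ⟨b, q.1, q.2, findB_mem hq, c, p, find_mem h', rfl⟩

theorem TabHyp.card2 (H : TabHyp TT FF PT GEN) {n : ℕ} (h : incN n 0 (tabE 0 TT) = true) :
    ((faces (Phi FF)).filter fun s => s.card = 2).card = n := by
  obtain ⟨h1, -, h2⟩ := incN_spec h
  rw [← h1]
  refine card_of_codes D2 h2 ?_ ?_ ?_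
  · intro t ht
    obtain ⟨x, y, hxy, hy, hf, rfl⟩ := H.mem_tabE'.1 ht
    rw [D2_code (by omega), Finset.mem_filter]
    exact ⟨hf, Finset.card_pair hxy.ne⟩
  · intro τ hτ
    rw [Finset.mem_filter] at hτ
    obtain ⟨x, y, hxy, rfl⟩ := exists_sorted2 hτ.2
    have hy := H.toFacHyp.lt_of_face hτ.1 (show y ∈ ({x, y} : Finset ℕ) by simp)
    exact ⟨x * 64 + y, H.mem_tabE'.2 ⟨x, y, hxy, hy, hτ.1, rfl⟩, D2_code (by omega)⟩
  · intro t ht t' ht' heq
    obtain ⟨x, y, hxy, hy, -, rfl⟩ := H.mem_tabE'.1 ht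
    obtain ⟨x', y', hxy', hy', -, rfl⟩ := H.mem_tabE'.1 ht'
    rw [D2_code (by omega), D2_code (by omega)] at heq
    have e : ∀ x y : ℕ, ({x, y} : Finset ℕ) = [x, y].toFinset := by intro x y; simp
    rw [e, e] at heq
    have := sorted_toFinset_inj (by simp; omega) (by simp; omega) heq
    simp only [List.cons.injEq, and_true] at this
    obtain ⟨rfl, rfl⟩ := this
    rfl

theorem TabHyp.card3 (H : TabHyp TT FF PT GEN) {n : ℕ} (h : incN n 0 (tabT 0 TT) = true) :
    ((faces (Phi FF)).filter fun s => s.card = 3).card = n := by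
  obtain ⟨h1, -, h2⟩ := incN_spec h
  rw [← h1]
  refine card_of_codes D3 h2 ?_ ?_ ?_
  · intro t ht
    obtain ⟨x, y, z, hxy, hyz, hz, hf, rfl⟩ := H.mem_tabT'.1 ht
    rw [D3_code (by omega) (by omega), Finset.mem_filter]
    exact ⟨hf, Finset.card_eq_three.2 ⟨x, y, z, hxy.ne, (hxy.trans hyz).ne, hyz.ne, rfl⟩⟩
  · intro τ hτ
    rw [Finset.mem_filter] at hτ
    obtain ⟨x, y, z, hxy, hyz, rfl⟩ := exists_sorted3 hτ.2
    have hz := H.toFacHyp.lt_of_face hτ.1 (show z ∈ ({x, y, z} : Finset ℕ) by simp)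
    exact ⟨(x * 64 + y) * 64 + z, H.mem_tabT'.2 ⟨x, y, z, hxy, hyz, hz, hτ.1, rfl⟩,
      D3_code (by omega) (by omega)⟩
  · intro t ht t' ht' heq
    obtain ⟨x, y, z, hxy, hyz, hz, -, rfl⟩ := H.mem_tabT'.1 ht
    obtain ⟨x', y', z', hxy', hyz', hz', -, rfl⟩ := H.mem_tabT'.1 ht'
    rw [D3_code (by omega) (by omega), D3_code (by omega) (by omega)] at heq
    have e : ∀ x y z : ℕ, ({x, y, z} : Finset ℕ) = [x, y, z].toFinset := by intro x y z; simp
    rw [e, e] at heq
    have := sorted_toFinset_inj (by simp; omega) (by simp; omega) heq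
    simp only [List.cons.injEq, and_true] at this
    obtain ⟨rfl, rfl, rfl⟩ := this
    rfl

theorem vtxOK_spec {n : ℕ} (h : vtxOK FF n = true) {v : ℕ} (hv : v < n) :
    {v} ∈ faces (Phi FF) := by
  unfold vtxOK at h
  have h1 := List.all_eq_true.1 h v (List.mem_range.2 hv)
  obtain ⟨ch, hch, h2⟩ := List.any_eq_true.1 h1
  obtain ⟨f, hf, h3⟩ := List.any_eq_true.1 h2
  rw [mem_faces_Phi]
  refine ⟨by simp, f, List.mem_flatten.2 ⟨ch, hch, hf⟩, ?_⟩
  match f, h3 with
  | m :: s :: l, h3 =>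
    obtain ⟨u, hu, h4⟩ := List.any_eq_true.1 h3
    have h5 : u = v := Nat.eq_of_beq_eq_true h4
    subst h5
    simp only [Finset.singleton_subset_iff, fset, List.drop_succ_cons, List.drop_zero,
      List.mem_toFinset]
    exact hu

theorem FacHyp.card1 (H : FacHyp FF) (h : vtxOK FF 52 = true) :
    ((faces (Phi FF)).filter fun s => s.card = 1).card = 52 := by
  have hL : (List.range 52).length = 52 := by simp
  rw [← hL]
  refine card_of_codes (fun v => {v}) List.pairwise_lt_range ?_ ?_ ?_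
  · intro v hv
    rw [Finset.mem_filter]
    exact ⟨vtxOK_spec h (List.mem_range.1 hv), Finset.card_singleton v⟩
  · intro τ hτ
    rw [Finset.mem_filter] at hτ
    obtain ⟨v, rfl⟩ := Finset.card_eq_one.1 hτ.2
    exact ⟨v, List.mem_range.2 (H.lt_of_face hτ.1 (by simp)), rfl⟩
  · intro x _ y _ h
    exact Finset.singleton_injective h

theorem FacHyp.card_Phi (H : FacHyp FF) : (Phi FF).card = FF.flatten.length := by
  rw [Phi, List.toFinset_card_of_nodup H.nodup, List.length_map]

theorem FacHyp.card5 (H : FacHyp FF) :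
    ((faces (Phi FF)).filter fun s => s.card = 5).card = FF.flatten.length := by
  rw [← H.card_Phi]
  congr 1
  ext σ
  rw [Finset.mem_filter, mem_faces_Phi, mem_Phi]
  constructor
  · rintro ⟨⟨-, f, hf, hs⟩, hc⟩
    obtain ⟨s, a, b, c, d, e, h⟩ := H.fac hf
    refine ⟨f, hf, (Finset.eq_of_subset_of_card_le hs ?_).symm⟩
    rw [h.card_eq, hc]
  · rintro ⟨f, hf, rfl⟩
    obtain ⟨s, a, b, c, d, e, h⟩ := H.fac hf
    refine ⟨⟨?_, f, hf, Finset.Subset.refl _⟩, h.card_eq⟩
    rw [← Finset.card_pos, h.card_eq]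
    norm_num

/-- The Euler characteristic. -/
theorem TabHyp.euler (H : TabHyp TT FF PT GEN) (h1 : vtxOK FF 52 = true)
    (h2 : incN 1015 0 (tabE 0 TT) = true) (h3 : incN 3680 0 (tabT 0 TT) = true)
    (h4 : tetsOK FF = true) (h5 : Nat.beq FF.flatten.length 1802 = true) :
    eulerChar (Phi FF) = 14 := by
  have hmaps : ∀ s ∈ faces (Phi FF), s.card ∈ Finset.range 6 := by
    intro s hs
    rw [mem_faces_Phi] at hs
    obtain ⟨-, f, hf, hs⟩ := hs
    obtain ⟨t, a, b, c, d, e, h⟩ := H.toFacHyp.fac hf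
    have := Finset.card_le_card hs
    rw [h.card_eq] at this
    rw [Finset.mem_range]
    omega
  rw [eulerChar, ← Finset.sum_fiberwise_of_maps_to hmaps]
  have hk : ∀ k ∈ Finset.range 6, (∑ s ∈ (faces (Phi FF)) with s.card = k,
      (-1 : ℤ) ^ (s.card + 1)) =
      (((faces (Phi FF)).filter fun s => s.card = k).card : ℤ) * (-1) ^ (k + 1) := by
    intro k _
    rw [Finset.sum_congr rfl (g := fun _ => (-1 : ℤ) ^ (k + 1))]
    · rw [Finset.sum_const, nsmul_eq_mul]
    · intro s hs
      rw [(Finset.mem_filter.1 hs).2]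
  rw [Finset.sum_congr rfl hk]
  have h0 : ((faces (Phi FF)).filter fun s => s.card = 0).card = 0 := by
    rw [Finset.card_eq_zero, Finset.filter_eq_empty_iff]
    intro s hs h
    rw [Finset.card_eq_zero] at h
    subst h
    rw [mem_faces_Phi] at hs
    exact absurd hs.1 (by simp)
  simp only [Finset.sum_range_succ, Finset.sum_range_zero, h0, H.toFacHyp.card1 h1, H.card2 h2,
    H.card3 h3, H.toFacHyp.card4 h4, H.toFacHyp.card5, Nat.eq_of_beq_eq_true h5]
  norm_num

end Pool.Agent.GeoZ5
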